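import Pool.Agent.P.MP_0a0487_an.Basic
import Pool.Agent.P.MP_0a0487_an.Shadow

/-!
Uniform families of charts in which a homeomorphism is almost linear and hyperbolic.
-/

set_option autoImplicit false

open Set Metric Filter Topology

namespace Pool.Agent.P.MP_0a0487_an

variable {M : Type*} [MetricSpace M] [CompactSpace M]
  {S U : Type*} [NormedAddCommGroup S] [NormedAddCommGroup U] [NormedSpace ℝ S] [NormedSpace ℝ U]

/-- A uniformly bi-Lipschitz family of charts in which `G` is almost linear and hyperbolic. -/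
structure Atlas (G H : M → M) (κ : M → M → S × U) (K ρ0 ρ1 l1 l2 m2 m1 : ℝ) : Prop where
  inv : Inv G H
  one_le : 1 ≤ K
  ρ0_pos : 0 < ρ0
  ρ1_pos : 0 < ρ1
  l1_pos : 0 < l1
  l12 : l1 ≤ l2
  l2_lt : l2 < 1
  m2_gt : 1 < m2
  m21 : m2 ≤ m1
  self : ∀ x, κ x x = 0
  lip : ∀ x a b, dist a x ≤ ρ0 → dist b x ≤ ρ0 → ‖κ x a - κ x b‖ ≤ K * dist a b
  anti : ∀ x a b, dist a x ≤ ρ0 → dist b x ≤ ρ0 → dist a b ≤ K * ‖κ x a - κ x b‖
  onto : ∀ x v, ‖v‖ ≤ ρ1 → ∃ a, dist a x ≤ ρ0 ∧ κ x a = v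
  hyp : ∀ η : ℝ, 0 < η → ∃ ρ : ℝ, 0 < ρ ∧ ∀ y x', dist (G y) x' ≤ ρ →
    ∃ As Au, Hyp l1 l2 m2 m1 As Au ∧ ∀ a b, dist a y ≤ ρ → dist b y ≤ ρ →
      ‖κ x' (G a) - κ x' (G b) - (As (κ y a - κ y b).1, Au (κ y a - κ y b).2)‖ ≤
        η * ‖κ y a - κ y b‖

theorem unif {G : M → M} (hG : Continuous G) {ε : ℝ} (hε : 0 < ε) :
    ∃ δ : ℝ, 0 < δ ∧ δ ≤ ε ∧ ∀ a b, dist a b ≤ δ → dist (G a) (G b) ≤ ε := by
  obtain ⟨δ, hδ, h⟩ := Metric.uniformContinuous_iff_le.1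
    (CompactSpace.uniformContinuous_of_continuous hG) ε hε
  exact ⟨min δ ε, lt_min hδ hε, min_le_right _ _, fun a b hab => h (hab.trans (min_le_left _ _))⟩

theorem norm_swap (v : S × U) : ‖v.swap‖ = ‖v‖ := by
  rw [Prod.norm_def, Prod.norm_def, max_comm]; rfl

theorem Hyp.symm {l1 l2 m2 m1 : ℝ} {As : S ≃L[ℝ] S} {Au : U ≃L[ℝ] U} (h : Hyp l1 l2 m2 m1 As Au)
    (h1 : 0 < l1) (h2 : 0 < l2) (h3 : 0 < m2) (h4 : 0 < m1) :
    Hyp m1⁻¹ m2⁻¹ l2⁻¹ l1⁻¹ Au.symm As.symm where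
  s1 v := by
    rw [inv_mul_le_iff₀ h4]; simpa using h.u1 (Au.symm v)
  s2 v := by
    rw [le_inv_mul_iff₀ h3]; simpa using h.u2 (Au.symm v)
  u2 v := by
    rw [inv_mul_le_iff₀ h2]; simpa using h.s2 (As.symm v)
  u1 v := by
    rw [le_inv_mul_iff₀ h1]; simpa using h.s1 (As.symm v)

variable {G H : M → M} {κ : M → M → S × U} {τ : M → S × U → M} {K ρ0 ρ1 ρ r l1 l2 m2 m1 η : ℝ}

theorem Atlas.symm (h : Atlas G H κ K ρ0 ρ1 l1 l2 m2 m1) :
    Atlas H G (fun x a => (κ x a).swap) K ρ0 ρ1 m1⁻¹ m2⁻¹ l2⁻¹ l1⁻¹ := by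
  have p1 := h.l1_pos
  have p2 : 0 < l2 := p1.trans_le h.l12
  have p3 : 0 < m2 := zero_lt_one.trans h.m2_gt
  have p4 : 0 < m1 := p3.trans_le h.m21
  have sw : ∀ v w : S × U, ‖v.swap - w.swap‖ = ‖v - w‖ := fun v w => norm_swap (v - w)
  refine ⟨h.inv.symm, h.one_le, h.ρ0_pos, h.ρ1_pos, by positivity, inv_anti₀ p3 h.m21,
    inv_lt_one_of_one_lt₀ h.m2_gt, (one_lt_inv₀ p2).2 h.l2_lt, inv_anti₀ p1 h.l12,
    fun x => by rw [h.self]; rfl, fun x a b ha hb => by rw [sw]; exact h.lip x a b ha hb,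
    fun x a b ha hb => by rw [sw]; exact h.anti x a b ha hb, fun x v hv => ?_, fun η hη => ?_⟩
  · obtain ⟨a, ha, e⟩ := h.onto x v.swap (by rwa [norm_swap])
    exact ⟨a, ha, by rw [e]; rfl⟩
  obtain ⟨η', e0, e1, e2⟩ : ∃ η' : ℝ, 0 < η' ∧ η' ≤ l1 / 2 ∧ 2 * η' ≤ η * l1 ^ 2 :=
    ⟨min (l1 / 2) (η * l1 ^ 2 / 2), by positivity, min_le_left _ _, by
      have := min_le_right (l1 / 2) (η * l1 ^ 2 / 2); linarith⟩
  obtain ⟨ρ', r0, hr⟩ := h.hyp η' e0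
  obtain ⟨δ1, d1, d2, d3⟩ := unif h.inv.cG r0
  obtain ⟨δ2, d4, d5, d6⟩ := unif h.inv.cH (half_pos r0)
  refine ⟨min δ1 δ2, lt_min d1 d4, fun y x hx => ?_⟩
  obtain ⟨As, Au, hA, hab⟩ := hr x y (by
    have := d3 _ _ (hx.trans (min_le_left _ _))
    rwa [h.inv.GH, dist_comm] at this)
  refine ⟨Au.symm, As.symm, hA.symm p1 p2 p3 p4, fun a b ha hb => ?_⟩
  have near : ∀ a, dist a y ≤ min δ1 δ2 → dist (H a) x ≤ ρ' := fun a ha => by
    have t1 := d6 _ _ (ha.trans (min_le_right _ _))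
    have t2 := (hx.trans (min_le_right _ _)).trans d5
    have t3 := dist_triangle (H a) (H y) x
    linarith
  have e := hab _ _ (near a ha) (near b hb)
  rw [h.inv.GH, h.inv.GH] at e
  rw [sw]
  have g1 : (κ x (H a)).swap - (κ x (H b)).swap = (κ x (H a) - κ x (H b)).swap := rfl
  have g2 : (κ y a).swap - (κ y b).swap = (κ y a - κ y b).swap := rfl
  rw [g1, g2]
  generalize κ x (H a) - κ x (H b) = Δ at e
  generalize κ y a - κ y b = Δ' at e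
  have f1 := step_fst e
  have f2 := step_snd e
  have lm : l1 ≤ m2 := (h.l12.trans h.l2_lt.le).trans h.m2_gt.le
  have f3 : l1 * ‖Δ‖ ≤ 2 * ‖Δ'‖ := by
    have t1 := hA.s1 Δ.1
    have t2 := hA.u2 Δ.2
    have t3 := norm_le_insert Δ'.1 (As Δ.1)
    have t4 := norm_le_insert Δ'.2 (Au Δ.2)
    have t5 := norm_fst_le Δ'
    have t6 := norm_snd_le Δ'
    have t7 := mul_le_mul_of_nonneg_right e1 (norm_nonneg Δ)
    have t8 := mul_le_mul_of_nonneg_right lm (norm_nonneg Δ.2)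
    rcases max_cases ‖Δ.1‖ ‖Δ.2‖ with ⟨t, -⟩ | ⟨t, -⟩ <;> rw [← Prod.norm_def] at t <;>
      have t9 := congrArg (fun s => l1 * s) t <;> linarith
  have f4 : ∀ t : ℝ, l1 * t ≤ η' * ‖Δ‖ → t ≤ η * ‖Δ'‖ := by
    intro t ht
    have t1 : l1 * (l1 * t) ≤ η' * (2 * ‖Δ'‖) := by
      calc l1 * (l1 * t) ≤ l1 * (η' * ‖Δ‖) := by gcongr
        _ = η' * (l1 * ‖Δ‖) := by ring
        _ ≤ _ := by gcongr
    have t2 := mul_le_mul_of_nonneg_right e2 (norm_nonneg Δ')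
    have t3 : l1 ^ 2 * t ≤ l1 ^ 2 * (η * ‖Δ'‖) := by nlinarith
    exact le_of_mul_le_mul_left t3 (by positivity)
  refine norm_prod_le_iff.2 ⟨f4 _ ?_, f4 _ ?_⟩
  · have t1 := hA.u2 (Δ.2 - Au.symm Δ'.2)
    rw [map_sub, ContinuousLinearEquiv.apply_symm_apply, norm_sub_rev (Au Δ.2)] at t1
    have t8 := mul_le_mul_of_nonneg_right lm (norm_nonneg (Δ.2 - Au.symm Δ'.2))
    exact t8.trans (t1.trans f2)
  · have t1 := hA.s1 (Δ.1 - As.symm Δ'.1)
    rw [map_sub, ContinuousLinearEquiv.apply_symm_apply, norm_sub_rev (As Δ.1)] at t1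
    exact t1.trans f1

/-- The atlas at a fixed small scale, with inverse charts. -/
structure Loc (G : M → M) (κ : M → M → S × U) (τ : M → S × U → M) (K ρ r l1 l2 m2 m1 η : ℝ) :
    Prop where
  one_le : 1 ≤ K
  r_pos : 0 < r
  Kr : K * r ≤ ρ
  l2_nonneg : 0 ≤ l2
  η_nonneg : 0 ≤ η
  h1 : l2 + η < 1
  h2 : 1 + η < m2
  self : ∀ x, κ x x = 0
  lip : ∀ x a b, dist a x ≤ ρ → dist b x ≤ ρ → ‖κ x a - κ x b‖ ≤ K * dist a b
  anti : ∀ x a b, dist a x ≤ ρ → dist b x ≤ ρ → dist a b ≤ K * ‖κ x a - κ x b‖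
  inj : ∀ y x' a b, dist (G y) x' ≤ ρ → dist a y ≤ ρ → dist b x' ≤ ρ → κ x' (G a) = κ x' b →
    G a = b
  τ1 : ∀ x v, ‖v‖ ≤ r → κ x (τ x v) = v
  τ2 : ∀ x v, ‖v‖ ≤ r → dist (τ x v) x ≤ K * ‖v‖
  hyp : ∀ y x', dist (G y) x' ≤ ρ →
    ∃ As Au, Hyp l1 l2 m2 m1 As Au ∧ ∀ a b, dist a y ≤ ρ → dist b y ≤ ρ →
      ‖κ x' (G a) - κ x' (G b) - (As (κ y a - κ y b).1, Au (κ y a - κ y b).2)‖ ≤
        η * ‖κ y a - κ y b‖

theorem Atlas.loc (h : Atlas G H κ K ρ0 ρ1 l1 l2 m2 m1) (hη : 0 < η) (h1 : l2 + η < 1)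
    (h2 : 1 + η < m2) : ∃ τ ρ r, Loc G κ τ K ρ r l1 l2 m2 m1 η := by
  have hK := h.one_le
  have p0 := h.ρ0_pos
  have p1 := h.ρ1_pos
  obtain ⟨ρ', r0, hr⟩ := h.hyp η hη
  obtain ⟨δ, d1, d2, d3⟩ := unif h.inv.cG (half_pos p0)
  have ex : ∀ x v, ∃ a, ‖v‖ ≤ ρ1 → dist a x ≤ ρ0 ∧ κ x a = v := by
    intro x v
    by_cases hv : ‖v‖ ≤ ρ1
    · obtain ⟨a, ha⟩ := h.onto x v hv
      exact ⟨a, fun _ => ha⟩
    · exact ⟨x, fun h => (hv h).elim⟩
  choose τ hτ using ex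
  have m1 := min_le_left δ ρ'
  have m2 := min_le_right δ ρ'
  have m3 := min_le_left ρ1 (min δ ρ' / K)
  refine ⟨τ, min δ ρ', min ρ1 (min δ ρ' / K), hK, by positivity, ?_, h.l1_pos.le.trans h.l12,
    hη.le, h1, h2, h.self, fun x a b ha hb => h.lip x a b (by linarith) (by linarith),
    fun x a b ha hb => h.anti x a b (by linarith) (by linarith), fun y x' a b e1 e2 e3 e => ?_,
    fun x v hv => (hτ x v (hv.trans m3)).2, fun x v hv => ?_, fun y x' e1 => ?_⟩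
  · rw [← le_div_iff₀' (by positivity)]
    exact min_le_right _ _
  · have t1 := d3 a y (by linarith)
    have t2 := dist_triangle (G a) (G y) x'
    have t3 := h.anti x' (G a) b (by linarith) (by linarith)
    rw [e, sub_self, norm_zero, mul_zero] at t3
    exact dist_le_zero.1 t3
  · obtain ⟨t1, t2⟩ := hτ x v (hv.trans m3)
    have t3 := h.anti x _ x t1 (by simpa using p0.le)
    rwa [t2, h.self, sub_zero] at t3
  · obtain ⟨As, Au, hA, hab⟩ := hr y x' (e1.trans m2)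
    exact ⟨As, Au, hA, fun a b ha hb => hab a b (ha.trans m2) (hb.trans m2)⟩

theorem Loc.r_le (h : Loc G κ τ K ρ r l1 l2 m2 m1 η) : r ≤ ρ :=
  (le_mul_of_one_le_left h.r_pos.le h.one_le).trans h.Kr

theorem Loc.ρ_pos (h : Loc G κ τ K ρ r l1 l2 m2 m1 η) : 0 < ρ := h.r_pos.trans_le h.r_le

theorem Loc.orbit (h : Loc G κ τ K ρ r l1 l2 m2 m1 η) {x a b : M} (ha : ds G x a ≤ ρ)
    (hb : ds G x b ≤ ρ) (k : ℕ) :
    ‖κ (G^[k] x) (G^[k] a) - κ (G^[k] x) (G^[k] b)‖ =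
      ‖(κ (G^[k] x) (G^[k] a) - κ (G^[k] x) (G^[k] b)).1‖ ∧
    (l1 - η) * ‖κ (G^[k] x) (G^[k] a) - κ (G^[k] x) (G^[k] b)‖ ≤
      ‖κ (G^[k + 1] x) (G^[k + 1] a) - κ (G^[k + 1] x) (G^[k + 1] b)‖ ∧
    ‖κ (G^[k + 1] x) (G^[k + 1] a) - κ (G^[k + 1] x) (G^[k + 1] b)‖ ≤
      (l2 + η) * ‖κ (G^[k] x) (G^[k] a) - κ (G^[k] x) (G^[k] b)‖ := by
  have ha' : ∀ k, dist (G^[k] a) (G^[k] x) ≤ ρ := fun k => by
    rw [dist_comm]; exact (le_ds G x a k).trans ha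
  have hb' : ∀ k, dist (G^[k] b) (G^[k] x) ≤ ρ := fun k => by
    rw [dist_comm]; exact (le_ds G x b k).trans hb
  have hK := h.one_le
  refine cone_seq (m2 := m2) (m1 := m1) (B := K * (ρ + ρ))
    (Δ := fun k => κ (G^[k] x) (G^[k] a) - κ (G^[k] x) (G^[k] b)) h.l2_nonneg h.h1.le
    (by linarith [h.h2]) (fun k => ?_) (fun k => ?_) k
  · refine (h.lip _ _ _ (ha' k) (hb' k)).trans ?_
    gcongr
    exact (dist_triangle_right _ _ _).trans (add_le_add (ha' k) (hb' k))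
  · obtain ⟨As, Au, hA, hab⟩ := h.hyp (G^[k] x) (G (G^[k] x)) (by simpa using h.ρ_pos.le)
    refine ⟨As, Au, hA, ?_⟩
    simp only [Function.iterate_succ_apply']
    exact hab _ _ (ha' k) (hb' k)

theorem Loc.o1 (h : Loc G κ τ K ρ r l1 l2 m2 m1 η) {x a b : M} (ha : ds G x a ≤ ρ)
    (hb : ds G x b ≤ ρ) : ‖κ x a - κ x b‖ = ‖(κ x a).1 - (κ x b).1‖ := (h.orbit ha hb 0).1

theorem Loc.o2 (h : Loc G κ τ K ρ r l1 l2 m2 m1 η) {x a b : M} (ha : ds G x a ≤ ρ)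
    (hb : ds G x b ≤ ρ) (n : ℕ) :
    ds G (G^[n] a) (G^[n] b) ≤ K * (l2 + η) ^ n * ‖(κ x a).1 - (κ x b).1‖ := by
  have hK := h.one_le
  have p : 0 ≤ l2 + η := add_nonneg h.l2_nonneg h.η_nonneg
  have key : ∀ k, ‖κ (G^[k] x) (G^[k] a) - κ (G^[k] x) (G^[k] b)‖ ≤
      (l2 + η) ^ k * ‖(κ x a).1 - (κ x b).1‖ := by
    intro k
    induction k with
    | zero => simpa using (h.o1 ha hb).le
    | succ k ih =>
      refine (h.orbit ha hb k).2.2.trans ?_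
      rw [pow_succ', mul_assoc]
      gcongr
  refine ds_le fun k => ?_
  rw [← Function.iterate_add_apply, ← Function.iterate_add_apply]
  refine (h.anti (G^[k + n] x) _ _ (by rw [dist_comm]; exact (le_ds G x a _).trans ha)
    (by rw [dist_comm]; exact (le_ds G x b _).trans hb)).trans ?_
  rw [mul_assoc]
  gcongr
  refine (key (k + n)).trans ?_
  gcongr ?_ * _
  exact pow_le_pow_of_le_one p h.h1.le (Nat.le_add_left n k)

theorem Loc.o3 (h : Loc G κ τ K ρ r l1 l2 m2 m1 η) (hl : 0 ≤ l1 - η) {a b : M}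
    (hb : ds G a b ≤ ρ) (n : ℕ) :
    (l1 - η) ^ n * dist a b ≤ K ^ 2 * dist (G^[n] a) (G^[n] b) := by
  have hK := h.one_le
  have ha : ds G a a ≤ ρ := by simpa using h.ρ_pos.le
  have key : ∀ k, (l1 - η) ^ k * ‖κ a a - κ a b‖ ≤
      ‖κ (G^[k] a) (G^[k] a) - κ (G^[k] a) (G^[k] b)‖ := by
    intro k
    induction k with
    | zero => simp
    | succ k ih =>
      refine le_trans ?_ (h.orbit ha hb k).2.1
      rw [pow_succ', mul_assoc]
      gcongr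
  have t1 := h.anti a a b (by simpa using h.ρ_pos.le)
    (by rw [dist_comm]; exact (dist_le_ds G a b).trans hb)
  have t2 := h.lip (G^[n] a) (G^[n] a) (G^[n] b) (by simpa using h.ρ_pos.le)
    (by rw [dist_comm]; exact (le_ds G a b n).trans hb)
  calc (l1 - η) ^ n * dist a b ≤ (l1 - η) ^ n * (K * ‖κ a a - κ a b‖) := by gcongr
    _ = K * ((l1 - η) ^ n * ‖κ a a - κ a b‖) := by ring
    _ ≤ K * (K * dist (G^[n] a) (G^[n] b)) :=
      mul_le_mul_of_nonneg_left ((key n).trans t2) (by linarith)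
    _ = _ := by ring

theorem Loc.o4 (h : Loc G κ τ K ρ r l1 l2 m2 m1 η) {x a b : M} (ha : ds G x a ≤ ρ)
    (hb : ds G x b ≤ ρ) : ‖(κ x a).1 - (κ x b).1‖ ≤ K * dist a b := by
  rw [← h.o1 ha hb]
  exact h.lip x a b (by rw [dist_comm]; exact (dist_le_ds G x a).trans ha)
    (by rw [dist_comm]; exact (dist_le_ds G x b).trans hb)

theorem Loc.chart (h : Loc G κ τ K ρ r l1 l2 m2 m1 η) {y x' : M} (hy : dist (G y) x' ≤ ρ) :
    ∃ As Au, Hyp l1 l2 m2 m1 As Au ∧ ∀ v w, ‖v‖ ≤ r → ‖w‖ ≤ r →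
      ‖κ x' (G (τ y v)) - κ x' (G (τ y w)) - (As (v - w).1, Au (v - w).2)‖ ≤ η * ‖v - w‖ := by
  obtain ⟨As, Au, hA, hab⟩ := h.hyp y x' hy
  have hK := h.one_le
  have near : ∀ v, ‖v‖ ≤ r → dist (τ y v) y ≤ ρ := fun v hv =>
    (h.τ2 y v hv).trans (le_trans (by gcongr) h.Kr)
  refine ⟨As, Au, hA, fun v w hv hw => ?_⟩
  have := hab _ _ (near v hv) (near w hw)
  rwa [h.τ1 y v hv, h.τ1 y w hw] at this

theorem Loc.next (h : Loc G κ τ K ρ r l1 l2 m2 m1 η) {y x' : M} (hy : dist (G y) x' ≤ ρ)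
    {v v' : S × U} (hv : ‖v‖ ≤ r) (hv' : ‖v'‖ ≤ r) (e : κ x' (G (τ y v)) = v') :
    G (τ y v) = τ x' v' := by
  have hK := h.one_le
  have near : ∀ y v, ‖v‖ ≤ r → dist (τ y v) y ≤ ρ := fun y v hv =>
    (h.τ2 y v hv).trans (le_trans (by gcongr) h.Kr)
  exact h.inj y x' _ _ hy (near y v hv) (near x' v' hv') (by rw [e, h.τ1 x' v' hv'])

theorem Loc.τ0 (h : Loc G κ τ K ρ r l1 l2 m2 m1 η) (x : M) : τ x 0 = x := by
  have := h.τ2 x 0 (by simpa using h.r_pos.le)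
  simpa using this

theorem Loc.shadow' [CompleteSpace S] [CompleteSpace U] (h : Loc G κ τ K ρ r l1 l2 m2 m1 η) :
    ∃ Q : ℝ, 1 ≤ Q ∧ ∀ (F : ℤ → S × U → S × U) (δ : ℝ),
      (∀ k, ∃ As Au, Hyp l1 l2 m2 m1 As Au ∧ ∀ v w, ‖v‖ ≤ r → ‖w‖ ≤ r →
        ‖F k v - F k w - (As (v - w).1, Au (v - w).2)‖ ≤ η * ‖v - w‖) →
      (∀ k, ‖F k 0‖ ≤ δ) → Q * δ ≤ r →
      ∃ v : ℤ → S × U, (∀ k, ‖v k‖ ≤ Q * δ) ∧ ∀ k, F k (v k) = v (k + 1) := by
  have p1 := h.l2_nonneg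
  have p2 := h.η_nonneg
  have p3 := h.h1
  have p4 := h.h2
  have p5 : 0 < m2 := by linarith
  obtain ⟨q, q1, q2, q3⟩ : ∃ q : ℝ, l2 + η ≤ q ∧ 1 + η ≤ q * m2 ∧ q < 1 :=
    ⟨max (l2 + η) ((1 + η) / m2), le_max_left _ _,
      (div_le_iff₀ p5).1 (le_max_right _ _), max_lt p3 ((div_lt_one p5).2 p4)⟩
  have q4 : 0 < 1 - q := by linarith
  refine ⟨(1 - q)⁻¹, (one_le_inv₀ q4).2 (by linarith), fun F δ hF h0 hδ => ?_⟩
  choose As Au hA hF using hF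
  exact shadow hA (fun k v w hv hw => hF k v w (hv.trans hδ) (hw.trans hδ)) h0 p1 p2 q1 q2 q3
    (by linarith) (le_of_eq (by field_simp))

theorem Loc.bracket [CompleteSpace S] [CompleteSpace U] (h : Loc G κ τ K ρ r l1 l2 m2 m1 η)
    (hi : Inv G H) : ∃ ε C : ℝ, 0 < ε ∧ 1 ≤ C ∧ ∀ a b, C * dist a b ≤ ε →
      ∃ c, ds G a c ≤ C * dist a b ∧ ds H b c ≤ C * dist a b := by
  obtain ⟨Q, hQ, hs⟩ := h.shadow'
  have hK := h.one_le
  have hr := h.r_pos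
  refine ⟨r, K * (Q * K) + 1, hr, by nlinarith [mul_nonneg (zero_le_one.trans hQ) (zero_le_one.trans hK)],
    fun a b hab => ?_⟩
  have d0 : 0 ≤ dist a b := dist_nonneg
  have d1 : Q * (K * dist a b) ≤ K * (Q * (K * dist a b)) :=
    le_mul_of_one_le_left (by positivity) hK
  have d2 : (K * (Q * K) + 1) * dist a b = K * (Q * (K * dist a b)) + dist a b := by ring
  have d3 : 0 ≤ Q * (K * dist a b) := by positivity
  have d4 := h.r_le
  let x : ℤ → M := fun k => match k with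
    | Int.ofNat n => G^[n] a
    | Int.negSucc n => H^[n + 1] b
  have hx : ∀ k, dist (G (x k)) (x (k + 1)) ≤ dist a b := by
    intro k
    match k with
    | Int.ofNat n =>
      show dist (G (G^[n] a)) (G^[n + 1] a) ≤ _
      rw [Function.iterate_succ_apply', dist_self]; exact d0
    | Int.negSucc 0 =>
      show dist (G (H b)) a ≤ _
      rw [hi.GH, dist_comm]
    | Int.negSucc (n + 1) =>
      show dist (G (H^[n + 1 + 1] b)) (H^[n + 1] b) ≤ _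
      rw [Function.iterate_succ_apply' H (n + 1), hi.GH, dist_self]; exact d0
  have hx' : ∀ k, dist (G (x k)) (x (k + 1)) ≤ ρ := fun k => (hx k).trans (by linarith)
  obtain ⟨v, v1, v2⟩ := hs (fun k v => κ (x (k + 1)) (G (τ (x k) v))) (K * dist a b)
    (fun k => h.chart (hx' k)) (fun k => by
      have := h.lip (x (k + 1)) (G (x k)) (x (k + 1)) (hx' k) (by simpa using h.ρ_pos.le)
      rw [h.self, sub_zero] at this
      rw [h.τ0]
      exact this.trans (by gcongr; exact hx k)) (by linarith)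
  have v3 : ∀ k, ‖v k‖ ≤ r := fun k => (v1 k).trans (by linarith)
  have z1 : ∀ k, G (τ (x k) (v k)) = τ (x (k + 1)) (v (k + 1)) := fun k =>
    h.next (hx' k) (v3 k) (v3 (k + 1)) (v2 k)
  have z2 : ∀ k, dist (x k) (τ (x k) (v k)) ≤ K * (Q * (K * dist a b)) := fun k => by
    rw [dist_comm]
    exact (h.τ2 _ _ (v3 k)).trans (by gcongr; exact v1 k)
  have z3 : ∀ n : ℕ, G^[n] (τ (x 0) (v 0)) = τ (x n) (v n) := by
    intro n
    induction n with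
    | zero => rfl
    | succ n ih => rw [Function.iterate_succ_apply', ih]; exact z1 n
  have z4 : ∀ n : ℕ, H^[n] (τ (x 0) (v 0)) = τ (x (-n)) (v (-n)) := by
    intro n
    induction n with
    | zero => rfl
    | succ n ih =>
      have := z1 (-((n + 1 : ℕ) : ℤ))
      have e : -((n + 1 : ℕ) : ℤ) + 1 = -n := by push_cast; ring
      rw [e] at this
      rw [Function.iterate_succ_apply', ih, ← this, hi.HG]
  refine ⟨τ (x 0) (v 0), ds_le fun k => ?_, ds_le fun k => ?_⟩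
  · rw [z3]
    exact (z2 k).trans (by linarith)
  · cases k with
    | zero =>
      have t1 : dist a (τ (x 0) (v 0)) ≤ _ := z2 0
      have t2 := dist_triangle_left b (τ (x 0) (v 0)) a
      simp only [Function.iterate_zero_apply]
      linarith
    | succ k =>
      rw [z4]
      exact (z2 (Int.negSucc k)).trans (by linarith)

theorem Loc.exists_stable [CompleteSpace S] [CompleteSpace U]
    (h : Loc G κ τ K ρ r l1 l2 m2 m1 η) :
    ∃ Q : ℝ, 1 ≤ Q ∧ ∀ x ξ, Q * ‖ξ‖ ≤ r → ∃ c, (κ x c).1 = ξ ∧ ds G x c ≤ K * (Q * ‖ξ‖) := by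
  obtain ⟨Q, hQ, hs⟩ := h.shadow'
  have hK := h.one_le
  refine ⟨Q, hQ, fun x ξ hξ => ?_⟩
  have hx : ∀ n, dist (G (G^[n] x)) (G^[n + 1] x) ≤ ρ := fun n => by
    rw [Function.iterate_succ_apply', dist_self]; exact h.ρ_pos.le
  obtain ⟨A, B, hA, -⟩ := h.chart (hx 0)
  let F : ℤ → S × U → S × U := fun k => match k with
    | Int.ofNat n => fun v => κ (G^[n + 1] x) (G (τ (G^[n] x) v))
    | Int.negSucc 0 => fun v => (A v.1 + ξ, B v.2)
    | Int.negSucc (_ + 1) => fun v => (A v.1, B v.2)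
  obtain ⟨v, v1, v2⟩ := hs F ‖ξ‖ (fun k => match k with
    | Int.ofNat n => h.chart (hx n)
    | Int.negSucc 0 => ⟨A, B, hA, fun v w _ _ => by
        show ‖(A v.1 + ξ, B v.2) - (A w.1 + ξ, B w.2) - (A (v - w).1, B (v - w).2)‖ ≤ _
        simpa using mul_nonneg h.η_nonneg (norm_nonneg (v - w))⟩
    | Int.negSucc (_ + 1) => ⟨A, B, hA, fun v w _ _ => by
        show ‖(A v.1, B v.2) - (A w.1, B w.2) - (A (v - w).1, B (v - w).2)‖ ≤ _
        simpa using mul_nonneg h.η_nonneg (norm_nonneg (v - w))⟩)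
    (fun k => match k with
    | Int.ofNat n => by simp [F, h.τ0, Function.iterate_succ_apply', h.self]
    | Int.negSucc 0 => by
        show ‖(A 0 + ξ, B 0)‖ ≤ _
        simp
    | Int.negSucc (_ + 1) => by
        show ‖(A 0, B 0)‖ ≤ _
        simp) hξ
  have v3 : ∀ k, ‖v k‖ ≤ r := fun k => (v1 k).trans hξ
  have w1 : ∀ j n, ‖(v (Int.negSucc n)).1‖ ≤ l2 ^ j * r := by
    intro j
    induction j with
    | zero => intro n; simpa using (norm_fst_le _).trans (v3 _)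
    | succ j ih =>
      intro n
      have e : (A (v (Int.negSucc (n + 1))).1, B (v (Int.negSucc (n + 1))).2) =
        v (Int.negSucc n) := v2 (Int.negSucc (n + 1))
      rw [← e, pow_succ', mul_assoc]
      exact (hA.s2 _).trans (mul_le_mul_of_nonneg_left (ih _) h.l2_nonneg)
  have w2 : (v (Int.negSucc 0)).1 = 0 := by
    have lim : Tendsto (fun j : ℕ => l2 ^ j * r) atTop (𝓝 (0 * r)) :=
      (tendsto_pow_atTop_nhds_zero_of_lt_one h.l2_nonneg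
        (by linarith [h.h1, h.η_nonneg])).mul_const r
    have := ge_of_tendsto' lim fun j => w1 j 0
    simpa using this
  have w3 : (v 0).1 = ξ := by
    have e : (A (v (Int.negSucc 0)).1 + ξ, B (v (Int.negSucc 0)).2) = v 0 := v2 (Int.negSucc 0)
    rw [← e, w2]; simp
  have z3 : ∀ n : ℕ, G^[n] (τ x (v 0)) = τ (G^[n] x) (v n) := by
    intro n
    induction n with
    | zero => rfl
    | succ n ih =>
      rw [Function.iterate_succ_apply', ih]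
      exact h.next (hx n) (v3 _) (v3 _) (v2 (Int.ofNat n))
  refine ⟨τ x (v 0), by rw [h.τ1 _ _ (v3 0), w3], ds_le fun k => ?_⟩
  rw [z3, dist_comm]
  exact (h.τ2 _ _ (v3 k)).trans (by gcongr; exact v1 k)

end Pool.Agent.P.MP_0a0487_an
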