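import Mathlib

/-!
The stable distance of a homeomorphism of a compact metric space, and the axioms of a local
product structure with rates.
-/

set_option autoImplicit false

open Set Metric Filter Topology

namespace Pool.Agent.P.MP_0a0487_an

variable {M : Type*} [MetricSpace M] [CompactSpace M]

/-- The stable distance: the supremum of the distances along the forward orbits. -/
noncomputable def ds (G : M → M) (a b : M) : ℝ := ⨆ k : ℕ, dist (G^[k] a) (G^[k] b)

theorem bdd_ds (G : M → M) (a b : M) :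
    BddAbove (range fun k : ℕ => dist (G^[k] a) (G^[k] b)) :=
  ⟨diam (univ : Set M), by
    rintro _ ⟨k, rfl⟩
    exact dist_le_diam_of_mem isCompact_univ.isBounded (mem_univ _) (mem_univ _)⟩

theorem le_ds (G : M → M) (a b : M) (k : ℕ) : dist (G^[k] a) (G^[k] b) ≤ ds G a b :=
  le_ciSup (bdd_ds G a b) k

theorem ds_le {G : M → M} {a b : M} {c : ℝ} (h : ∀ k, dist (G^[k] a) (G^[k] b) ≤ c) :
    ds G a b ≤ c := ciSup_le h

theorem dist_le_ds (G : M → M) (a b : M) : dist a b ≤ ds G a b := le_ds G a b 0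

theorem ds_nonneg (G : M → M) (a b : M) : 0 ≤ ds G a b := dist_nonneg.trans (dist_le_ds G a b)

@[simp] theorem ds_self (G : M → M) (a : M) : ds G a a = 0 :=
  le_antisymm (ds_le fun k => by simp) (ds_nonneg G a a)

theorem ds_comm (G : M → M) (a b : M) : ds G a b = ds G b a := by
  simp only [ds, dist_comm]

theorem ds_triangle (G : M → M) (a b c : M) : ds G a c ≤ ds G a b + ds G b c :=
  ds_le fun k => (dist_triangle _ (G^[k] b) _).trans (add_le_add (le_ds G a b k) (le_ds G b c k))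

theorem ds_iterate_le (G : M → M) (a b : M) (n : ℕ) : ds G (G^[n] a) (G^[n] b) ≤ ds G a b :=
  ds_le fun k => by
    rw [← Function.iterate_add_apply, ← Function.iterate_add_apply]
    exact le_ds G a b _

theorem ds_le_max (G : M → M) (a b : M) : ds G a b ≤ max (dist a b) (ds G (G a) (G b)) :=
  ds_le fun k => by
    cases k with
    | zero => exact le_max_left _ _
    | succ k => exact (le_ds G (G a) (G b) k).trans (le_max_right _ _)

theorem isClosed_ds_le {G : M → M} (hG : Continuous G) (c : ℝ) :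
    IsClosed {p : M × M | ds G p.1 p.2 ≤ c} := by
  have : {p : M × M | ds G p.1 p.2 ≤ c} = ⋂ k : ℕ, {p : M × M | dist (G^[k] p.1) (G^[k] p.2) ≤ c} := by
    ext p
    simp only [mem_ofPred_eq, mem_iInter]
    exact ⟨fun h k => (le_ds G _ _ k).trans h, ds_le⟩
  rw [this]
  refine isClosed_iInter fun k => isClosed_le ?_ continuous_const
  have := hG.iterate k
  fun_prop

/-- The space `M` with the stable distance of `G`. -/
def Lf (_G : M → M) : Type _ := M

/-- The identity map from `M` to `Lf G`. -/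
def toL (G : M → M) (a : M) : Lf G := a

/-- The identity map from `Lf G` to `M`. -/
def ofL {G : M → M} (a : Lf G) : M := a

noncomputable instance (G : M → M) : MetricSpace (Lf G) where
  dist a b := ds G (ofL a) (ofL b)
  dist_self a := ds_self G _
  dist_comm a b := ds_comm G _ _
  dist_triangle a b c := ds_triangle G _ _ _
  eq_of_dist_eq_zero {a b} h := by
    have : dist (ofL a) (ofL b) ≤ 0 := (dist_le_ds G _ _).trans h.le
    exact (dist_le_zero.1 this : ofL a = ofL b)

@[simp] theorem dist_toL (G : M → M) (a b : M) : dist (toL G a) (toL G b) = ds G a b := rfl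

@[simp] theorem ofL_toL (G : M → M) (a : M) : ofL (toL G a) = a := rfl

@[simp] theorem toL_ofL (G : M → M) (a : Lf G) : toL G (ofL a) = a := rfl

theorem dist_Lf {G : M → M} (a b : Lf G) : dist a b = ds G (ofL a) (ofL b) := rfl

theorem toL_injective (G : M → M) : Function.Injective (toL G) := fun _ _ h => h

theorem continuous_ofL (G : M → M) : Continuous (ofL : Lf G → M) :=
  (LipschitzWith.of_dist_le_mul (K := 1) fun a b => by
    simpa [dist_Lf] using dist_le_ds G (ofL a) (ofL b)).continuous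

/-- `G` and `H` are mutually inverse homeomorphisms. -/
structure Inv (G H : M → M) : Prop where
  cG : Continuous G
  cH : Continuous H
  GH : ∀ x, G (H x) = x
  HG : ∀ x, H (G x) = x

theorem Inv.symm {G H : M → M} (h : Inv G H) : Inv H G := ⟨h.cH, h.cG, h.HG, h.GH⟩

theorem Inv.GHn {G H : M → M} (h : Inv G H) (n : ℕ) (x : M) : G^[n] (H^[n] x) = x :=
  Function.LeftInverse.iterate h.GH n x

theorem Inv.HGn {G H : M → M} (h : Inv G H) (n : ℕ) (x : M) : H^[n] (G^[n] x) = x :=
  Function.LeftInverse.iterate h.HG n x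

theorem Inv.Gn_inj {G H : M → M} (h : Inv G H) (n : ℕ) {x y : M} (e : G^[n] x = G^[n] y) :
    x = y := by
  rw [← h.HGn n x, e, h.HGn]

theorem continuous_Lf_G (G : M → M) (n : ℕ) :
    Continuous fun a : Lf G => toL G (G^[n] (ofL a)) :=
  (LipschitzWith.of_dist_le_mul (K := 1) fun a b => by
    simpa [dist_Lf] using ds_iterate_le G (ofL a) (ofL b) n).continuous

theorem Inv.continuous_Lf_H1 {G H : M → M} (h : Inv G H) :
    Continuous fun a : Lf G => toL G (H (ofL a)) := by
  have hu : UniformContinuous H := CompactSpace.uniformContinuous_of_continuous h.cH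
  refine UniformContinuous.continuous (Metric.uniformContinuous_iff.2 fun ε hε => ?_)
  obtain ⟨δ, hδ, hd⟩ := Metric.uniformContinuous_iff.1 hu ε hε
  refine ⟨min δ ε, lt_min hδ hε, fun a b hab => ?_⟩
  rw [dist_toL]
  refine (ds_le_max G _ _).trans_lt (max_lt ?_ ?_)
  · exact hd ((dist_le_ds G _ _).trans_lt (hab.trans_le (min_le_left _ _)))
  · rw [h.GH, h.GH]; exact hab.trans_le (min_le_right _ _)

theorem Inv.continuous_Lf_H {G H : M → M} (h : Inv G H) (n : ℕ) :
    Continuous fun a : Lf G => toL G (H^[n] (ofL a)) := by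
  induction n with
  | zero => exact continuous_id
  | succ n ih =>
    simp only [Function.iterate_succ_apply']
    exact h.continuous_Lf_H1.comp ih

/-- `θ` is a homeomorphism onto a union of stable leaves. -/
structure LeafEmb (G : M → M) {S : Type*} [TopologicalSpace S] (ε : ℝ) (θ : S → M) : Prop where
  emb : IsEmbedding fun x => toL G (θ x)
  step : ∀ x z, ds G (θ x) z ≤ ε → z ∈ range θ

/-- `θ` is locally Lipschitz for the stable distance, uniformly on bounded sets. -/
def LipB (G : M → M) {S : Type*} [NormedAddCommGroup S] (θ : S → M) : Prop :=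
  ∀ R : ℝ, ∃ K t : ℝ, 0 < K ∧ 0 < t ∧ ∀ x x', ‖x‖ ≤ R → ‖x'‖ ≤ R → ‖x - x'‖ ≤ t →
    ds G (θ x) (θ x') ≤ K * ‖x - x'‖

/-- The stable half of a local product structure with rates `a1 ≤ a2 < 1`. -/
structure Half (G H : M → M) (S : Type*) [NormedAddCommGroup S] (ε C a1 a2 : ℝ) : Prop where
  a1_pos : 0 < a1
  a12 : a1 ≤ a2
  a2_lt : a2 < 1
  s1 : ∀ a b, ds G a b ≤ ε → ds G a b ≤ C * dist a b
  s2 : ∀ a b n, ds G a b ≤ ε → ds G (G^[n] a) (G^[n] b) ≤ C * a2 ^ n * ds G a b
  s3 : ∀ a b n, C * ds G a b ≤ ε * a1 ^ n → a1 ^ n * ds G (H^[n] a) (H^[n] b) ≤ C * ds G a b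
  lc : ∀ a b, C * ds G a b ≤ ε → ∃ Γ : Set (Lf G), IsCompact Γ ∧ IsPreconnected Γ ∧
    toL G a ∈ Γ ∧ toL G b ∈ Γ ∧ ∀ c ∈ Γ, ds G a (ofL c) ≤ C * ds G a b
  lp : ∀ a b, C * ds G a b ≤ ε → ∃ σ : ℝ → M, σ 0 = a ∧ σ 1 = b ∧
    ∀ t t', ds G (σ t) (σ t') ≤ C * ds G a b * |t - t'|
  par : ∀ q, ∃ θ : S → M, θ 0 = q ∧ LeafEmb G ε θ ∧ LipB G θ

/-- A local product structure with rates. -/
structure Smale (G H : M → M) (S U : Type*) [NormedAddCommGroup S] [NormedAddCommGroup U]
    (ε C a1 a2 b1 b2 : ℝ) : Prop where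
  inv : Inv G H
  ε_pos : 0 < ε
  one_le : 1 ≤ C
  hs : Half G H S ε C a1 a2
  hu : Half H G U ε C b1 b2
  br : ∀ a b, C * dist a b ≤ ε → ∃ c, ds G a c ≤ C * dist a b ∧ ds H b c ≤ C * dist a b

variable {G H : M → M} {S U : Type*} [NormedAddCommGroup S] [NormedAddCommGroup U]
  {ε C a1 a2 b1 b2 : ℝ}

theorem Half.mono {ε' C' : ℝ} (h : Half G H S ε C a1 a2) (hC0 : 0 ≤ C) (hε : ε' ≤ ε) (hC : C ≤ C') :
    Half G H S ε' C' a1 a2 where
  a1_pos := h.a1_pos
  a12 := h.a12
  a2_lt := h.a2_lt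
  s1 a b hab := (h.s1 a b (hab.trans hε)).trans (mul_le_mul_of_nonneg_right hC dist_nonneg)
  s2 a b n hab := (h.s2 a b n (hab.trans hε)).trans (by
    have := ds_nonneg G a b
    have := h.a1_pos.le.trans h.a12
    gcongr)
  s3 a b n hab := by
    have h0 := ds_nonneg G a b
    have h1 := h.a1_pos
    refine (h.s3 a b n ?_).trans (by gcongr)
    calc C * ds G a b ≤ C' * ds G a b := by gcongr
      _ ≤ ε' * a1 ^ n := hab
      _ ≤ ε * a1 ^ n := by gcongr
  lc a b hab := by
    have h0 := ds_nonneg G a b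
    have h1 : C * ds G a b ≤ C' * ds G a b := by gcongr
    obtain ⟨Γ, h2, h3, h4, h5, h6⟩ := h.lc a b (h1.trans (hab.trans hε))
    exact ⟨Γ, h2, h3, h4, h5, fun c hc => (h6 c hc).trans h1⟩
  lp a b hab := by
    have h0 := ds_nonneg G a b
    have h1 : C * ds G a b ≤ C' * ds G a b := by gcongr
    obtain ⟨σ, h2, h3, h4⟩ := h.lp a b (h1.trans (hab.trans hε))
    exact ⟨σ, h2, h3, fun t t' => (h4 t t').trans (by gcongr)⟩
  par q := by
    obtain ⟨θ, h0, h1, h2⟩ := h.par q
    exact ⟨θ, h0, ⟨h1.emb, fun x z hz => h1.step x z (hz.trans hε)⟩, h2⟩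

theorem Smale.symm (h : Smale G H S U ε C a1 a2 b1 b2) : Smale H G U S ε C b1 b2 a1 a2 where
  inv := h.inv.symm
  ε_pos := h.ε_pos
  one_le := h.one_le
  hs := h.hu
  hu := h.hs
  br a b hab := by
    obtain ⟨c, h1, h2⟩ := h.br b a (by rwa [dist_comm])
    rw [dist_comm] at h1 h2
    exact ⟨c, h2, h1⟩

/-- Expansivity. -/
theorem Smale.eq_of (h : Smale G H S U ε C a1 a2 b1 b2) {a b : M} (h1 : ds G a b ≤ ε)
    (h2 : ds H a b ≤ ε) : a = b := by
  have key : ∀ n, ds G (H^[n] a) (H^[n] b) ≤ ε := by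
    intro n
    induction n with
    | zero => exact h1
    | succ n ih =>
      refine (ds_le_max G _ _).trans (max_le ((le_ds H a b _).trans h2) ?_)
      rw [Function.iterate_succ_apply', Function.iterate_succ_apply', h.inv.GH, h.inv.GH]
      exact ih
  have ha2 : 0 ≤ a2 := h.hs.a1_pos.le.trans h.hs.a12
  have hC : 0 ≤ C := zero_le_one.trans h.one_le
  have key2 : ∀ n, ds G a b ≤ C * a2 ^ n * ε := by
    intro n
    have := h.hs.s2 _ _ n (key n)
    rw [h.inv.GHn, h.inv.GHn] at this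
    exact this.trans (mul_le_mul_of_nonneg_left (key n) (by positivity))
  have lim : Tendsto (fun n : ℕ => C * a2 ^ n * ε) atTop (𝓝 (C * 0 * ε)) :=
    ((tendsto_pow_atTop_nhds_zero_of_lt_one ha2 h.hs.a2_lt).const_mul C).mul_const ε
  have : ds G a b ≤ C * 0 * ε := ge_of_tendsto' lim key2
  exact dist_le_zero.1 ((dist_le_ds G a b).trans (by simpa using this))

/-- A connected family in one leaf that stays close to a base point stays close in the leaf. -/
theorem Half.gap (h : Half G H S ε C a1 a2) (hC : 0 ≤ C) {Z : Type*} [TopologicalSpace Z]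
    {s : Set Z}
    (hs : IsPreconnected s) {e : Z → M} (he : ContinuousOn (fun z => toL G (e z)) s) {z0 : Z}
    (h0 : z0 ∈ s) {r : ℝ} (hr : C * r < ε) (hd : ∀ z ∈ s, dist (e z0) (e z) ≤ r) {z : Z}
    (hz : z ∈ s) : ds G (e z0) (e z) ≤ C * r := by
  have hf : ContinuousOn (fun z => ds G (e z0) (e z)) s :=
    (continuous_const.dist continuous_id).comp_continuousOn he
  have hr0 : 0 ≤ r := dist_nonneg.trans (hd z0 h0)
  have key : ∀ z ∈ s, ds G (e z0) (e z) ≤ ε → ds G (e z0) (e z) ≤ C * r := fun z hz h1 =>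
    (h.s1 _ _ h1).trans (mul_le_mul_of_nonneg_left (hd z hz) hC)
  by_contra hc
  have h1 : ε < ds G (e z0) (e z) := not_le.1 fun h1 => hc (key z hz h1)
  have h2 : ε ∈ Icc (ds G (e z0) (e z0)) (ds G (e z0) (e z)) :=
    ⟨by rw [ds_self]; exact (mul_nonneg hC hr0).trans hr.le, h1.le⟩
  obtain ⟨w, hw, hw'⟩ := hs.intermediate_value h0 hz hf h2
  have := key w hw (le_of_eq hw')
  simp only at hw'
  linarith

/-- Uniqueness of lifts along the stable leaves. -/
theorem Smale.uniq (h : Smale G H S U ε C a1 a2 b1 b2) {Z : Type*} [TopologicalSpace Z]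
    {s : Set Z} (hs : IsPreconnected s) {e e' : Z → M}
    (he : ContinuousOn (fun z => toL G (e z)) s) (he' : ContinuousOn (fun z => toL G (e' z)) s)
    {z0 : Z} (h0 : z0 ∈ s) (h00 : e z0 = e' z0) (hd : ∀ z ∈ s, ds H (e z) (e' z) ≤ ε) {z : Z}
    (hz : z ∈ s) : e z = e' z := by
  have hf : ContinuousOn (fun z => ds G (e z) (e' z)) s :=
    continuous_dist.comp_continuousOn (he.prodMk he')
  by_contra hc
  have h1 : ε < ds G (e z) (e' z) := not_le.1 fun h1 => hc (h.eq_of h1 (hd z hz))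
  have h2 : ε ∈ Icc (ds G (e z0) (e' z0)) (ds G (e z) (e' z)) :=
    ⟨by rw [h00, ds_self]; exact h.ε_pos.le, h1.le⟩
  obtain ⟨w, hw, hw'⟩ := hs.intermediate_value h0 hz hf h2
  have := h.eq_of (le_of_eq hw') (hd w hw)
  simp only [this, ds_self] at hw'
  exact h.ε_pos.ne hw'

/-- Continuity of the bracket. -/
theorem Smale.brCont (h : Smale G H S U ε C a1 a2 b1 b2) {Z : Type*} [TopologicalSpace Z]
    {s : Set Z} {a b c : Z → M} (ha : ContinuousOn (fun z => toL G (a z)) s)
    (hb : ContinuousOn b s) (h1 : ∀ z ∈ s, ds G (a z) (c z) ≤ ε / 4)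
    (h2 : ∀ z ∈ s, ds H (b z) (c z) ≤ ε / 4) : ContinuousOn (fun z => toL G (c z)) s := by
  have hε := h.ε_pos
  have ha' : ContinuousOn a s := (continuous_ofL G).comp_continuousOn ha
  have hc : ContinuousOn c s := by
    intro z0 h0
    refine (tendsto_iff_ultrafilter _ _ _).2 fun u hu => ?_
    obtain ⟨w, -, hw⟩ := isCompact_univ.ultrafilter_le_nhds (u.map c) (by simp)
    have hw' : Tendsto c u (𝓝 w) := hw
    have hus : ∀ᶠ z in (u : Filter Z), z ∈ s := hu self_mem_nhdsWithin
    have e1 : ds G (a z0) w ≤ ε / 4 :=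
      (isClosed_ds_le h.inv.cG (ε / 4)).mem_of_tendsto
        (((ha' z0 h0).tendsto.mono_left hu).prodMk_nhds hw') (hus.mono h1)
    have e2 : ds H (b z0) w ≤ ε / 4 :=
      (isClosed_ds_le h.inv.cH (ε / 4)).mem_of_tendsto
        (((hb z0 h0).tendsto.mono_left hu).prodMk_nhds hw') (hus.mono h2)
    have : c z0 = w := by
      refine h.eq_of ?_ ?_
      · have := ds_triangle G (c z0) (a z0) w
        have := h1 z0 h0
        rw [ds_comm] at this
        linarith
      · have := ds_triangle H (c z0) (b z0) w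
        have := h2 z0 h0
        rw [ds_comm] at this
        linarith
    rwa [this]
  intro z0 h0
  refine Metric.tendsto_nhds.2 fun η hη => ?_
  have hC : 0 < C := zero_lt_one.trans_le h.one_le
  have e1 := Metric.tendsto_nhds.1 (ha z0 h0).tendsto (ε / 2) (by positivity)
  have e2 := Metric.tendsto_nhds.1 (hc z0 h0).tendsto (η / C) (by positivity)
  filter_upwards [e1, e2, self_mem_nhdsWithin] with z hz1 hz2 hz
  rw [dist_toL] at hz1 ⊢
  have t1 := ds_triangle G (c z) (a z) (c z0)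
  have t2 := ds_triangle G (a z) (a z0) (c z0)
  have t3 := h1 z hz
  rw [ds_comm] at t3
  have t4 := h1 z0 h0
  refine (h.hs.s1 _ _ (by linarith)).trans_lt ?_
  rwa [lt_div_iff₀' hC] at hz2

end Pool.Agent.P.MP_0a0487_an
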