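import Pool.Agent.P.MP_0a0487_an.Path

/-!
Chains of moves have subexponential growth.
-/

set_option autoImplicit false

open Set Metric Filter Topology

namespace Pool.Agent.P.MP_0a0487_an

variable {M : Type*} [MetricSpace M] [CompactSpace M]
  {G H : M → M} {S U : Type*} [NormedAddCommGroup S] [NormedAddCommGroup U]
  {ε C a1 a2 b1 b2 b δ : ℝ}

/-- A move with thresholds. -/
def PrN (G H : M → M) (a b δ τ : ℝ) (N N' : ℕ) (y y' : M) : Prop :=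
  ∃ q, Pth G H a δ τ N y q ∧ Pth H G b δ τ N' q y'

theorem PrN.mono {a τ τ' : ℝ} {N N' L L' : ℕ} {y y' : M} (h : PrN G H a b δ τ N N' y y')
    (ha : 0 ≤ a) (hb : 0 ≤ b) (hτ : τ' ≤ τ) (hN : N ≤ L) (hN' : N' ≤ L') :
    PrN G H a b δ τ' L L' y y' := h.imp fun _ h => ⟨h.1.mono ha hτ hN, h.2.mono hb hτ hN'⟩

theorem grow_ch_split {a τ : ℝ} (i1 i2 : ℕ) {y y'' : M} (h : Ch G H a b δ τ (i1 + i2) y y'') :
    ∃ y', Ch G H a b δ τ i1 y y' ∧ Ch G H a b δ τ i2 y' y'' := by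
  induction i2 generalizing y'' with
  | zero => exact ⟨y'', h, rfl⟩
  | succ i ih =>
    obtain ⟨w, h1, h2⟩ : ∃ w, Ch G H a b δ τ (i1 + i) y w ∧ Pr G H a b δ τ w y'' := h
    obtain ⟨y', h3, h4⟩ := ih h1
    exact ⟨y', h3, w, h4, h2⟩

theorem grow_pow (B : ℕ) : ∃ j : ℕ, 3 * (B * (j + 1) + 1) ≤ 2 ^ j := by
  refine ⟨2 * (6 * B + 3), ?_⟩
  have h1 : 6 * B + 3 < 2 ^ (6 * B + 3) := Nat.lt_two_pow_self
  have h2 : 2 ^ (2 * (6 * B + 3)) = 2 ^ (6 * B + 3) * 2 ^ (6 * B + 3) := by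
    rw [← pow_add]
    congr 1
    ring
  rw [h2]
  generalize 2 ^ (6 * B + 3) = x at h1
  nlinarith

/-- Two moves with thresholds compose to one move. -/
theorem Pin.prn_trans (h : Pin G H S U ε C a1 a2 b1 b2 b δ) : ∃ k : ℝ, 0 < k ∧ k ≤ 1 ∧
    ∀ (μ : ℕ → ℕ) (τ K : ℝ) (N : ℕ) (y y' y'' : M), Monotone μ → 0 < τ →
      (∀ n, N ≤ n → K * a2 ^ (n + 1 + μ n) ≤ a1 ^ (n + 1) ∧ K * b2 ^ (μ n + n) ≤ b ^ μ n) →
      3 * C ^ 2 * (|(1 : ℝ)| / τ + 1) ≤ K → PrN G H a1 b δ τ N (μ N) y y' →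
      PrN G H a1 b δ τ N (μ N) y' y'' → PrN G H a1 b δ (k * τ) N (μ N) y y'' := by
  obtain ⟨d0, d1, d2, d3⟩ := h.Cδ
  have ha1 := h.sm.hs.a1_pos
  have ha1' : a1 ≤ 1 := h.sm.hs.a12.trans h.sm.hs.a2_lt.le
  have hb := h.b_pos
  have hb' := h.b_lt.le
  have e4 : 4 * C * δ ≤ ε := by linarith
  obtain ⟨j1, hj1⟩ := h.sm.hi (X := ℝ) d0 e4 d0
  obtain ⟨j2, hj2⟩ := h.sm.symm.hi (X := ℝ) d0 e4 d0
  obtain ⟨k1, k10, k11, hk1⟩ := h.sm.pth_trans d0 (by linarith) ha1 ha1'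
  obtain ⟨k2, k20, k21, hk2⟩ := h.sm.symm.pth_trans d0 (by linarith) hb hb'
  have p1 : a1 ^ j1 ≤ 1 := pow_le_one₀ ha1.le ha1'
  have p2 : b ^ j2 ≤ 1 := pow_le_one₀ hb.le hb'
  refine ⟨min (k1 * a1 ^ j1) (k2 * b ^ j2), by positivity,
    (min_le_left _ _).trans (mul_le_one₀ k11 (by positivity) p1), ?_⟩
  rintro μ τ K N y y' y'' hμ hτ hK hk ⟨q, s1, w1⟩ ⟨q', s2, w2⟩
  obtain ⟨α, α0, α1, αc, αs⟩ := s2
  obtain ⟨β, β0, β1, βc, βs⟩ := w1.symm
  have cv : Convex ℝ (closedBall (0 : ℝ) 1) := convex_closedBall _ _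
  have m0 : (0 : ℝ) ∈ closedBall (0 : ℝ) 1 := by simp
  have m1 : (1 : ℝ) ∈ closedBall (0 : ℝ) 1 := by simp
  have αs' : ShN H a1 δ τ N (closedBall (0 : ℝ) 1) α :=
    αs.mono ha1.le le_rfl le_rfl le_rfl (subset_univ _)
  have βs' : ShN G b δ τ (μ N) (closedBall (0 : ℝ) 1) β :=
    βs.mono hb.le le_rfl le_rfl le_rfl (subset_univ _)
  have αt := (hj1 a1 τ _ α α N ha1 hτ cv αs' αc.continuousOn
    fun x _ n _ => by simpa using d0.le).1
  have βt := (hj2 b τ _ β β (μ N) hb hτ cv βs' βc.continuousOn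
    fun x _ n _ => by simpa using d0.le).1
  have t1 : 0 < τ * a1 ^ (N + j1) := by positivity
  have t2 : 0 < τ * b ^ (μ N + j2) := by positivity
  obtain ⟨n0, m0', hap⟩ := h.sm.apriori (X := ℝ) (Y := ℝ) 1 hb h.b_le h.pin t1 t2 d0 e4
  have apr : Apr G H α β 1 δ :=
    ⟨n0, fun r hr l hl Φ hΦ n hT => (hap α β αt βt r hr l hl Φ hΦ n hT).1⟩
  obtain ⟨Φ, hΦ, n, hT⟩ := h.sm.exists_good (α0.trans β0.symm) zero_le_one d0 (by linarith) t1 αt
    αc.continuousOn t2 hb hb' βt βc.continuousOn apr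
  obtain ⟨hTu, hTs⟩ := h.sm.aprN hb h.b_le hμ hK hτ hτ d0 e4 hk hk αs' βs' le_rfl le_rfl hΦ hT
  have r1 := (hj1 a1 τ _ α (fun x => Φ x 1) N ha1 hτ cv αs' (hΦ.cs 1 m1) fun x hx n hn => by
    rw [← hΦ.bs x hx]
    exact (dist_le_ds H _ _).trans (hTu.mono hn x hx 1 m1)).2
  have r2 := (hj2 b τ _ β (fun x => Φ 1 x) (μ N) hb hτ cv βs' (hΦ.cu 1 m1) fun x hx n hn => by
    rw [← hΦ.bu x hx]
    exact (dist_le_ds G _ _).trans (hTs.mono hn x hx 1 m1)).2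
  have u1 := Pth.of_on cv (hΦ.cs 1 m1) r1 m0 m1 one_pos (by simp)
  have u2 := Pth.of_on cv (hΦ.cu 1 m1) r2 m0 m1 one_pos (by simp)
  rw [div_one] at u1 u2
  rw [hΦ.bu 1 m1, β1] at u1
  rw [hΦ.bs 1 m1, α1] at u2
  have v1 := hk1 (τ * a1 ^ j1) N y q (Φ 1 1) (by positivity)
    (s1.mono ha1.le (mul_le_of_le_one_right hτ.le p1) le_rfl) u1
  have v2 := hk2 (τ * b ^ j2) (μ N) (Φ 1 1) q' y'' (by positivity) u2.symm
    (w2.mono hb.le (mul_le_of_le_one_right hτ.le p2) le_rfl)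
  refine ⟨Φ 1 1, v1.mono ha1.le ?_ le_rfl, v2.mono hb.le ?_ le_rfl⟩
  · calc min (k1 * a1 ^ j1) (k2 * b ^ j2) * τ ≤ k1 * a1 ^ j1 * τ :=
          mul_le_mul_of_nonneg_right (min_le_left _ _) hτ.le
      _ = _ := by ring
  · calc min (k1 * a1 ^ j1) (k2 * b ^ j2) * τ ≤ k2 * b ^ j2 * τ :=
          mul_le_mul_of_nonneg_right (min_le_right _ _) hτ.le
      _ = _ := by ring

/-- The end of a path at a level given by a numerical inequality. -/
theorem Smale.grow_level (h : Smale G H S U ε C a1 a2 b1 b2) {a τ K : ℝ} (ha : 0 < a)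
    (ha1 : a ≤ 1) (hτ : 0 < τ) (hδ : 0 < δ) (hδε : 4 * C * δ ≤ ε) {N n m : ℕ} (hn : N ≤ n)
    (hk : 3 * C ^ 2 * (|(1 : ℝ)| / τ + 1) ≤ K) (hK : K * a2 ^ (n + m) ≤ a ^ n) {p q : M}
    (hp : Pth G H a δ τ N p q) : ds G (G^[m] p) (G^[m] q) ≤ δ := by
  obtain ⟨γ, g0, g1, gc, gs⟩ := hp
  have ha2 : 0 < a2 := h.hs.a1_pos.trans_le h.hs.a12
  have t := h.row (X := ℝ) (r := 1) (α := γ) (e := γ) ha ha1 hτ hδ hδε
    ((gs n hn).mono ha.le le_rfl le_rfl (subset_univ _)) gc.continuousOn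
    (fun x _ => by simpa using hδ.le) m (x := 1) (by simp)
  rw [g0, g1] at t
  refine le_of_mul_le_mul_left (t.trans ?_) (pow_pos ha n)
  refine mul_le_mul_of_nonneg_right (le_trans ?_ hK) hδ.le
  exact mul_le_mul_of_nonneg_right hk (by positivity)

theorem Pin.growth (h : Pin G H S U ε C a1 a2 b1 b2 b δ) {τ : ℝ} (hτ : 0 < τ) :
    ∃ k : ℕ, ∀ (F : Finset ℝ) (y : ℝ → M) (z : M), (∀ i ∈ F, Ch G H a1 b δ τ (3 * k) z (y i)) →
      (∀ i ∈ F, ∀ i' ∈ F, ds H (y i) (y i') ≤ δ) →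
      (∀ i ∈ F, ∀ i' ∈ F, Wk G H b δ (y i) (y i') → i = i') → F.card < 2 ^ k := by
  classical
  obtain ⟨d0, d1, d2, d3⟩ := h.Cδ
  have hC := h.sm.one_le
  have hε := h.sm.ε_pos
  have ha1 := h.sm.hs.a1_pos
  have ha1' : a1 ≤ 1 := h.sm.hs.a12.trans h.sm.hs.a2_lt.le
  have hb := h.b_pos
  have hb' := h.b_lt.le
  have e4 : 4 * C * δ ≤ ε := by linarith
  obtain ⟨k, k0, k1, hk⟩ := h.prn_trans
  obtain ⟨μ, hμ, ⟨c0, hc0⟩, hc⟩ :=
    pin_lemma ha1 h.sm.hs.a12 h.sm.hs.a2_lt hb h.b_le h.sm.hu.a2_lt h.pin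
  obtain ⟨c, hc⟩ := hc (3 * C ^ 2 * (1 / τ + 1)) (1 / k) (by positivity)
    (by rw [le_div_iff₀ k0]; linarith)
  have hKj : ∀ j : ℕ, 3 * C ^ 2 * (|(1 : ℝ)| / (k ^ j * τ) + 1) ≤
      3 * C ^ 2 * (1 / τ + 1) * (1 / k) ^ j := by
    intro j
    have q0 : 0 < k ^ j := by positivity
    have q1 : k ^ j ≤ 1 := pow_le_one₀ k0.le k1
    have q2 : 1 ≤ 1 / k ^ j := by rw [le_div_iff₀ q0]; linarith
    rw [abs_one, mul_assoc (3 * C ^ 2), div_pow, one_pow]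
    refine mul_le_mul_of_nonneg_left ?_ (by positivity)
    have q3 : 1 / (k ^ j * τ) = 1 / τ * (1 / k ^ j) := by field_simp
    rw [q3, add_mul, one_mul]
    linarith
  have hR : ∀ j i : ℕ, i ≤ 2 ^ j → ∀ y y' : M, Ch G H a1 b δ τ i y y' →
      PrN G H a1 b δ (k ^ j * τ) (c * (j + 1)) (μ (c * (j + 1))) y y' := by
    intro j
    induction j with
    | zero =>
      intro i hi y y' hy
      have hi' : i = 0 ∨ i = 1 := by
        rw [pow_zero] at hi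
        omega
      rcases hi' with rfl | rfl
      · have e : y = y' := hy
        subst e
        exact ⟨y, Pth.refl d0.le y, Pth.refl d0.le y⟩
      · obtain ⟨w, h1, q, h2, h3⟩ : ∃ w, y = w ∧ Pr G H a1 b δ τ w y' := hy
        subst h1
        exact ⟨q, h2.mono ha1.le (by simp) (Nat.zero_le _), h3.mono hb.le (by simp) (Nat.zero_le _)⟩
    | succ j ih =>
      intro i hi y y'' hy
      obtain ⟨i1, i2, e, h1, h2⟩ : ∃ i1 i2, i = i1 + i2 ∧ i1 ≤ 2 ^ j ∧ i2 ≤ 2 ^ j := by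
        rw [pow_succ] at hi
        exact ⟨i / 2, i - i / 2, by omega, by omega, by omega⟩
      subst e
      obtain ⟨y', c1, c2⟩ := grow_ch_split i1 i2 hy
      have t := hk μ (k ^ j * τ) _ (c * (j + 1)) y y' y'' hμ (by positivity)
        (fun n hn => hc j n hn) (hKj j) (ih i1 h1 _ _ c1) (ih i2 h2 _ _ c2)
      have hN : c * (j + 1) ≤ c * (j + 1 + 1) := Nat.mul_le_mul_left _ (by omega)
      exact t.mono ha1.le hb.le (le_of_eq (by ring)) hN (hμ hN)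
  obtain ⟨T, -, Tf, hT⟩ := finite_cover_balls_of_compact (isCompact_univ (X := M))
    (show 0 < ε / 2 by positivity)
  have hcell : ∀ x : M, ∃ t : Tf.toFinset, dist x (t : M) < ε / 2 := by
    intro x
    have := hT (mem_univ x)
    simp only [mem_iUnion, mem_ball] at this
    obtain ⟨t, ht, hx⟩ := this
    exact ⟨⟨t, Tf.mem_toFinset.2 ht⟩, hx⟩
  choose cell hcell using hcell
  obtain ⟨j, hj⟩ := grow_pow (Tf.toFinset.card * (c + c0 * c + 1))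
  refine ⟨Tf.toFinset.card * (c + c0 * c + 1) * (j + 1) + 1, fun F y z h1 h2 h3 => ?_⟩
  obtain ⟨N, hN⟩ : ∃ N, N = c * (j + 1) := ⟨_, rfl⟩
  have hq : ∀ i, ∃ q, i ∈ F → Pth G H a1 δ (k ^ j * τ) N z q ∧
      Pth H G b δ (k ^ j * τ) (μ N) q (y i) := by
    intro i
    by_cases hi : i ∈ F
    · obtain ⟨q, hq⟩ := hR j _ hj _ _ (h1 i hi)
      rw [← hN] at hq
      exact ⟨q, fun _ => hq⟩
    · exact ⟨z, fun h => (hi h).elim⟩
  choose q hq using hq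
  have tj : 0 < k ^ j * τ := by positivity
  obtain ⟨n1, n2⟩ := hc j N hN.ge
  have l1 : ∀ i ∈ F, ds G (G^[μ N] z) (G^[μ N] (q i)) ≤ δ := fun i hi =>
    h.sm.grow_level ha1 ha1' tj d0 e4 (Nat.le_succ N) (hKj j) n1 (hq i hi).1
  have l2 : ∀ i ∈ F, ds H (H^[N] (q i)) (H^[N] (y i)) ≤ δ := fun i hi =>
    h.sm.symm.grow_level hb hb' tj d0 e4 le_rfl (hKj j) n2 (hq i hi).2
  have inj : Set.InjOn (fun i => fun s : Fin (N + μ N + 1) => cell (G^[s] (H^[N] (q i)))) F := by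
    intro i hi i' hi' e
    have s1 : ds G (H^[N] (q i)) (H^[N] (q i')) ≤ ε := by
      refine ds_le fun s => ?_
      by_cases hs : s < N + μ N + 1
      · have e1 : cell (G^[s] (H^[N] (q i))) = cell (G^[s] (H^[N] (q i'))) := congrFun e ⟨s, hs⟩
        have t1 := hcell (G^[s] (H^[N] (q i)))
        have t2 := hcell (G^[s] (H^[N] (q i')))
        rw [← e1] at t2
        have := dist_triangle_right (G^[s] (H^[N] (q i))) (G^[s] (H^[N] (q i')))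
          (cell (G^[s] (H^[N] (q i))) : M)
        linarith
      · obtain ⟨r, rfl⟩ : ∃ r, s = r + μ N + N := ⟨s - (μ N + N), by omega⟩
        simp only [Function.iterate_add_apply, h.sm.inv.GHn]
        have t1 := le_ds G (G^[μ N] (q i)) (G^[μ N] (q i')) r
        have t2 := ds_triangle G (G^[μ N] (q i)) (G^[μ N] z) (G^[μ N] (q i'))
        have t3 := l1 i hi
        have t4 := l1 i' hi'
        rw [ds_comm] at t3
        linarith
    have s2 : ds H (H^[N] (q i)) (H^[N] (q i')) ≤ ε := by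
      have t1 := ds_triangle H (H^[N] (q i)) (H^[N] (y i)) (H^[N] (q i'))
      have t2 := ds_triangle H (H^[N] (y i)) (H^[N] (y i')) (H^[N] (q i'))
      have t3 := l2 i hi
      have t4 := l2 i' hi'
      have t5 := (ds_iterate_le H (y i) (y i') N).trans (h2 i hi i' hi')
      rw [ds_comm] at t4
      linarith
    have s3 : q i = q i' := h.sm.inv.symm.Gn_inj N (h.sm.eq_of s1 s2)
    have w1 := (h.wk_of_pth tj (hq i hi).2).symm
    have w2 := h.wk_of_pth tj (hq i' hi').2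
    rw [← s3] at w2
    exact h3 i hi i' hi' (h.wk_trans w1 w2)
  have hcard := Finset.card_le_card_of_injOn (t := Finset.univ) _
    (fun _ _ => Finset.mem_coe.2 (Finset.mem_univ _)) inj
  rw [Finset.card_univ, Fintype.card_fun, Fintype.card_coe, Fintype.card_fin] at hcard
  generalize Tf.toFinset.card = A at hcard ⊢
  have hA : A ≤ 2 ^ A := Nat.lt_two_pow_self.le
  have hm : N + μ N + 1 ≤ (c + c0 * c + 1) * (j + 1) := by
    have := hc0 N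
    rw [hN] at this ⊢
    nlinarith
  calc F.card ≤ A ^ (N + μ N + 1) := hcard
    _ ≤ (2 ^ A) ^ (N + μ N + 1) := Nat.pow_le_pow_left hA _
    _ ≤ (2 ^ A) ^ ((c + c0 * c + 1) * (j + 1)) := Nat.pow_le_pow_right (by positivity) hm
    _ = 2 ^ (A * (c + c0 * c + 1) * (j + 1)) := by rw [← pow_mul, mul_assoc]
    _ < _ := Nat.pow_lt_pow_right (by norm_num) (Nat.lt_succ_self _)

end Pool.Agent.P.MP_0a0487_an
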