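import Pool.Agent.P.MP_0a0487_an.RC
import Pool.Agent.P.MP_0a0487_an.Grow

/-!
Holonomy images of vertical segments have bounded transverse length.
-/

set_option autoImplicit false

open Set Metric Filter Topology

namespace Pool.Agent.P.MP_0a0487_an

variable {M : Type*} [MetricSpace M] [CompactSpace M]
  {G H : M → M} {S U : Type*} [NormedAddCommGroup S] [NormedAddCommGroup U]
  {ε C a1 a2 b1 b2 b δ : ℝ}
  {V : M → ℝ → M} {Λ : M → M → ℝ} {K r : ℝ}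

theorem Lam.bp_contV (hl : Lam G H V Λ K r b δ) (z : M) :
    ContinuousOn (fun c => toL H (V z c)) {c | |c| ≤ K * r} := by
  have hK := hl.one_le
  refine (LipschitzOnWith.of_dist_le_mul (K := ⟨K, by linarith⟩)
    fun c hc c' hc' => ?_).continuousOn
  rw [dist_toL, Real.dist_eq]
  exact hl.v1 z c c' hc hc'

theorem Lam.bp_contL (hl : Lam G H V Λ K r b δ) (x : M) (n : ℕ) {ψ : ℝ → M} {t : Set ℝ}
    (hc : ContinuousOn (fun u => toL H (ψ u)) t) (hn : ∀ u ∈ t, ds H x (H^[n] (ψ u)) ≤ r) :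
    ContinuousOn (fun u => Λ x (H^[n] (ψ u))) t :=
  (hl.l2 x).comp ((continuous_Lf_G H n).comp_continuousOn hc) hn

/-- Along a vertical arc in a box the label is strictly monotone. -/
theorem Pin.bp_arc (h : Pin G H S U ε C a1 a2 b1 b2 b δ) (hl : Lam G H V Λ K r b δ) (x : M)
    (n : ℕ) {s ρ : ℝ} (hs : s ≠ 0) (hρ : 0 < ρ) (hρr : ρ ≤ K * r) (z : M) :
    ∃ sg : ℝ, |sg| = 1 ∧ ((∀ c, |c| ≤ ρ → ds H x (H^[n] (V z c)) ≤ r) →
      ContinuousOn (fun c => s * Λ x (H^[n] (V z (sg * c)))) (Icc 0 ρ) ∧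
      StrictMonoOn (fun c => s * Λ x (H^[n] (V z (sg * c)))) (Icc 0 ρ)) := by
  by_cases hz : ∀ c, |c| ≤ ρ → ds H x (H^[n] (V z c)) ≤ r
  swap
  · exact ⟨1, abs_one, fun e => (hz e).elim⟩
  have hc : ContinuousOn (fun c => s * Λ x (H^[n] (V z c))) (Icc (-ρ) ρ) :=
    continuousOn_const.mul (hl.bp_contL x n ((hl.bp_contV z).mono fun c hc =>
      (abs_le.2 hc).trans hρr) fun c hc => hz c (abs_le.2 hc))
  obtain ⟨τ, t0, ht⟩ := h.pth_of_label hl
  have hi : InjOn (fun c => s * Λ x (H^[n] (V z c))) (Icc (-ρ) ρ) := fun c hc c' hc' e =>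
    hl.u z c c' ((abs_le.2 hc).trans hρr) ((abs_le.2 hc').trans hρr) (h.wk_of_H
      ((ht x _ _ (hz c (abs_le.2 hc)) (hz c' (abs_le.2 hc')) (mul_left_cancel₀ hs e)).wk t0))
  rcases hc.strictMonoOn_of_injOn_Icc' (by linarith) hi with hm | hm
  · refine ⟨1, abs_one, fun _ => ?_⟩
    simp only [one_mul]
    have : Icc 0 ρ ⊆ Icc (-ρ) ρ := Icc_subset_Icc (by linarith) le_rfl
    exact ⟨hc.mono this, hm.mono this⟩
  · refine ⟨-1, by simp, fun _ => ?_⟩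
    simp only [neg_mul, one_mul]
    have : MapsTo (fun c : ℝ => -c) (Icc 0 ρ) (Icc (-ρ) ρ) := fun c hc =>
      ⟨by linarith [hc.2], by linarith [hc.1]⟩
    exact ⟨hc.comp continuous_neg.continuousOn this, fun c hc c' hc' e =>
      hm (this hc') (this hc) (neg_lt_neg e)⟩

/-- A large part of a finite subset of `[0, 1]` lies in a short interval. -/
theorem bp_pigeon (F : Finset ℝ) (hF : ∀ u ∈ F, u ∈ Icc (0 : ℝ) 1) {μ : ℕ} (hμ : 0 < μ) :
    ∃ F0 ⊆ F, F.card ≤ F0.card * (μ + 1) ∧ ∀ u ∈ F0, ∀ v ∈ F0, μ * |u - v| ≤ 1 := by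
  classical
  have hm : ∀ u ∈ F, ⌊μ * u⌋₊ ∈ Finset.range (μ + 1) := fun u hu => by
    rw [Finset.mem_range, Nat.lt_succ_iff]
    refine (Nat.floor_le_floor (b := (μ : ℝ)) ?_).trans (by simp)
    exact mul_le_of_le_one_right (by positivity) (hF u hu).2
  obtain ⟨j, -, hj⟩ := (Finset.range (μ + 1)).exists_max_image
    (fun j => (F.filter fun u : ℝ => ⌊(μ : ℝ) * u⌋₊ = j).card) ⟨0, by simp⟩
  refine ⟨F.filter fun u : ℝ => ⌊(μ : ℝ) * u⌋₊ = j, Finset.filter_subset _ _, ?_, fun u hu v hv => ?_⟩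
  · simpa using Finset.card_le_mul_card_image_of_maps_to hm _ hj
  · rw [Finset.mem_filter] at hu hv
    have h1 := Nat.floor_le (a := (μ : ℝ) * u) (mul_nonneg (by positivity) (hF u hu.1).1)
    have h2 := Nat.floor_le (a := (μ : ℝ) * v) (mul_nonneg (by positivity) (hF v hv.1).1)
    have h3 := Nat.lt_floor_add_one ((μ : ℝ) * u)
    have h4 := Nat.lt_floor_add_one ((μ : ℝ) * v)
    rw [hu.2] at h1 h3
    rw [hv.2] at h2 h4
    rw [← abs_of_nonneg (Nat.cast_nonneg (α := ℝ) μ), ← abs_mul, abs_le]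
    constructor <;> linarith

theorem Pin.bp (h : Pin G H S U ε C a1 a2 b1 b2 b δ) (hm : Minl G) (hl : Lam G H V Λ K r b δ)
    {δ1 : ℝ} (hδ1 : 0 < δ1) : ∃ n0 : ℕ, ∀ (z : M) (c : ℝ) (φ : ℝ → M) (τ : ℝ) (n : ℕ), c ≠ 0 →
      |c| ≤ r → K * |c| ≤ δ → 0 < τ → ContinuousOn (fun u => toL H (φ u)) (Icc 0 1) →
      (∀ u ∈ Icc (0 : ℝ) 1, ds H (H^[n] (φ 0)) (H^[n] (φ u)) ≤ δ) →
      (∀ u ∈ Icc (0 : ℝ) 1, Pth G H a1 δ τ 0 (φ u) (V z (u * c))) →
      ∃ w, Wk G H b δ (φ 1) w ∧ ds H (H^[n0] (φ 0)) (H^[n0] w) ≤ δ1 := by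
  classical
  have hK := hl.one_le
  have hr := hl.r_pos
  have hε := h.sm.ε_pos
  have hb := h.b_pos
  have ha := h.sm.hs.a1_pos
  obtain ⟨d0, d1, d2, d3⟩ := h.Cδ
  have hrK : r ≤ K * r := le_mul_of_one_le_left hr.le hK
  obtain ⟨r', r0, r1, r2⟩ : ∃ r' : ℝ, 0 < r' ∧ 2 * K * r' ≤ r ∧ 2 * K * r' ≤ ε := by
    refine ⟨min r ε / (2 * K), by positivity, ?_, ?_⟩ <;> rw [mul_div_cancel₀ _ (by positivity)]
    exacts [min_le_left _ _, min_le_right _ _]
  have r3 : 2 * r' ≤ K * r := by nlinarith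
  obtain ⟨η, τ1, η0, τ0, hrc⟩ := h.rc hm hl r0 r1
  obtain ⟨μ, hμ⟩ := exists_nat_gt (δ / η)
  have μ0 : (0 : ℝ) < μ := lt_trans (by positivity) hμ
  rw [div_lt_iff₀ η0] at hμ
  obtain ⟨N, hN⟩ : ∃ N : ℕ, N = (μ + 1) * 2 := ⟨_, rfl⟩
  obtain ⟨θ, θ0, θ1, θ2⟩ : ∃ θ : ℝ, 0 < θ ∧ (N + 1) * θ ≤ δ1 ∧ (N + 1) * θ ≤ r := by
    refine ⟨min δ1 r / (N + 1), by positivity, ?_, ?_⟩ <;> rw [mul_div_cancel₀ _ (by positivity)]
    exacts [min_le_left _ _, min_le_right _ _]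
  have θ3 : θ ≤ r := by
    have : (0 : ℝ) ≤ N * θ := by positivity
    linarith
  obtain ⟨n0, hn0⟩ := h.sm.symm.shrink θ0
  refine ⟨n0, fun z c φ τ n c0 c1 c2 t0 hφ hφn hφp => ?_⟩
  by_contra hw
  push Not at hw
  obtain ⟨x, hx⟩ : ∃ x, x = H^[n0 + n] (φ 0) := ⟨_, rfl⟩
  have near : ∀ p, ds H (H^[n0] (φ 0)) (H^[n0] p) ≤ (N + 1) * θ → ds H x (H^[n0 + n] p) ≤ r :=
    fun p hp => hx ▸ (ds_iterate_mono H _ _ (Nat.le_add_right n0 n)).trans (hp.trans θ2)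
  have nearφ : ∀ u ∈ Icc (0 : ℝ) 1, ds H x (H^[n0 + n] (φ u)) ≤ r := fun u hu => by
    rw [hx, Function.iterate_add_apply, Function.iterate_add_apply]
    exact (hn0 n0 le_rfl _ _ ((hφn u hu).trans (by linarith))).trans θ3
  obtain ⟨s, s0, s1⟩ : ∃ s : ℝ, s ≠ 0 ∧ 0 ≤ s * Λ x (H^[n0 + n] (φ 1)) := by
    rcases le_total 0 (Λ x (H^[n0 + n] (φ 1))) with e | e
    · exact ⟨1, one_ne_zero, by linarith⟩
    · exact ⟨-1, by norm_num, by linarith⟩
  obtain ⟨ℓ, hℓ⟩ : ∃ ℓ : M → ℝ, ∀ p, ℓ p = s * Λ x (H^[n0 + n] p) := ⟨_, fun _ => rfl⟩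
  have ℓ0 : ℓ (φ 0) = 0 := by
    have := hl.label_le (x := x) (p := x) (by simpa using hr.le)
    rw [ds_self, mul_zero, abs_nonpos_iff] at this
    rw [hℓ, ← hx, this, mul_zero]
  obtain ⟨τ2, τ3, hτ2⟩ := h.pth_of_label hl
  have ℓp : ∀ p q, ds H x (H^[n0 + n] p) ≤ r → ds H x (H^[n0 + n] q) ≤ r → ℓ p = ℓ q →
      Pth H G b δ (τ2 * b ^ (n0 + n)) 0 p q := fun p q hp hq e => by
    rw [hℓ, hℓ] at e
    simpa only [h.sm.inv.GHn] using
      (hτ2 x _ _ hp hq (mul_left_cancel₀ s0 e)).shift h.sm.inv.symm (n0 + n)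
  have ℓw : ∀ p, ds H (H^[n0] (φ 0)) (H^[n0] p) ≤ (N + 1) * θ → ℓ p ≠ ℓ (φ 1) := fun p hp e =>
    (hw p ((ℓp _ _ (nearφ 1 (by simp)) (near p hp) e.symm).wk (by positivity))).not_ge
      (hp.trans θ1)
  choose sg sg1 sg2 using h.bp_arc hl x (n0 + n) s0 (ρ := 2 * r') (by positivity) r3
  simp only [← hℓ] at sg2
  obtain ⟨y, y0, y1⟩ : ∃ y : ℕ → M, y 0 = φ 0 ∧ ∀ i, y (i + 1) = V (y i) (sg (y i) * (2 * r')) :=
    ⟨fun i => (fun p => V p (sg p * (2 * r')))^[i] (φ 0), rfl,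
      fun i => Function.iterate_succ_apply' _ _ _⟩
  have arc : ∀ p e (t : ℝ), ds H (H^[n0] (φ 0)) (H^[n0] p) ≤ t * θ → |e| ≤ 2 * r' →
      ds H (H^[n0] (φ 0)) (H^[n0] (V p e)) ≤ (t + 1) * θ := fun p e t hp he => by
    have e1 := hl.v1 p 0 e (by simp; positivity) (he.trans r3)
    rw [hl.v0, zero_sub, abs_neg] at e1
    have e2 := hn0 n0 le_rfl _ _ (e1.trans (le_trans (by nlinarith) r2))
    linarith [ds_triangle H (H^[n0] (φ 0)) (H^[n0] p) (H^[n0] (V p e))]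
  have sg3 : ∀ p t, t ∈ Icc 0 (2 * r') → |sg p * t| ≤ 2 * r' := fun p t ht => by
    rw [abs_mul, sg1, one_mul, abs_of_nonneg ht.1]
    exact ht.2
  have m0 : (0 : ℝ) ∈ Icc 0 (2 * r') := ⟨le_rfl, by positivity⟩
  have m1 : 2 * r' ∈ Icc 0 (2 * r') := ⟨by positivity, le_rfl⟩
  have yd : ∀ i : ℕ, ds H (H^[n0] (φ 0)) (H^[n0] (y i)) ≤ i * θ := fun i => by
    induction i with
    | zero => simp [y0]
    | succ i ih => rw [y1, Nat.cast_succ]; exact arc _ _ _ ih (sg3 _ _ m1)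
  have ya : ∀ i ≤ N, ∀ e, |e| ≤ 2 * r' →
      ds H (H^[n0] (φ 0)) (H^[n0] (V (y i) e)) ≤ (N + 1) * θ := fun i hi e he =>
    (arc _ _ _ (yd i) he).trans (by gcongr)
  have ym := fun i (hi : i ≤ N) => sg2 (y i) fun e he => near _ (ya i hi e he)
  have yl : ∀ i ≤ N, ℓ (y i) < ℓ (φ 1) := fun i hi => by
    induction i with
    | zero =>
      refine lt_of_le_of_ne ?_ (ℓw _ (by simp [y0]; positivity))
      rwa [y0, ℓ0, hℓ]
    | succ i ih =>
      by_contra hc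
      push Not at hc
      have i1 : i ≤ N := by omega
      obtain ⟨t, ht, e⟩ := intermediate_value_Icc m1.1 (ym i i1).1 (a := 0) (b := 2 * r')
        (show ℓ (φ 1) ∈ _ from ⟨by simpa [hl.v0] using (ih i1).le, by rwa [y1] at hc⟩)
      exact ℓw _ (ya i i1 _ (sg3 _ _ ht)) e
  have ys : ∀ i j, i ≤ j → j ≤ N → ℓ (y i) ≤ ℓ (y j) := fun i j hij hj => by
    induction j, hij using Nat.le_induction with
    | base => exact le_rfl
    | succ j _ ih =>
      refine (ih (by omega)).trans ?_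
      simpa [hl.v0, y1] using ((ym j (by omega)).2 m0 m1 (by positivity)).le
  have cφ : ContinuousOn (fun u => ℓ (φ u)) (Icc 0 1) := by
    simp only [hℓ]
    exact continuousOn_const.mul (hl.bp_contL x _ hφ nearφ)
  have uc : ∀ u ∈ Icc (0 : ℝ) 1, |u * c| ≤ K * r := fun u hu => by
    rw [abs_mul, abs_of_nonneg hu.1]
    exact (mul_le_of_le_one_left (abs_nonneg c) hu.2).trans (c1.trans hrK)
  have ud : ∀ u ∈ Icc (0 : ℝ) 1, ∀ v ∈ Icc (0 : ℝ) 1,
      ds H (V z (u * c)) (V z (v * c)) ≤ δ * |u - v| := fun u hu v hv => by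
    refine (hl.v1 z _ _ (uc u hu) (uc v hv)).trans ?_
    rw [← sub_mul, abs_mul, mul_comm |u - v|, ← mul_assoc]
    gcongr
  have uw : ∀ u ∈ Icc (0 : ℝ) 1, ∀ v ∈ Icc (0 : ℝ) 1,
      Wk G H b δ (V z (u * c)) (V z (v * c)) → u = v := fun u hu v hv e =>
    mul_right_cancel₀ c0 (hl.u z _ _ (uc u hu) (uc v hv) e)
  obtain ⟨τ4, t4, t5, t6, t7⟩ : ∃ τ4 : ℝ, 0 < τ4 ∧ τ4 ≤ τ1 ∧ τ4 ≤ τ2 * b ^ (n0 + n) ∧ τ4 ≤ τ :=
    ⟨min τ1 (min (τ2 * b ^ (n0 + n)) τ), by positivity, min_le_left _ _,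
      (min_le_right _ _).trans (min_le_left _ _), (min_le_right _ _).trans (min_le_right _ _)⟩
  have key : ∀ k : ℕ, ∃ F : Finset ℝ, 2 ^ k ≤ F.card ∧ ∀ u ∈ F, u ∈ Icc (0 : ℝ) 1 ∧
      Ch G H a1 b δ τ4 (3 * k) z (V z (u * c)) := fun k => by
    induction k with
    | zero => exact ⟨{0}, by simp, by simp [Ch, hl.v0]⟩
    | succ k ih =>
      obtain ⟨F, f1, f2⟩ := ih
      obtain ⟨F0, g1, g2, g3⟩ := bp_pigeon F (fun u hu => (f2 u hu).1) (μ := μ) (by exact_mod_cast μ0)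
      obtain ⟨u0, hu0⟩ : F0.Nonempty := by
        rw [← Finset.card_pos]
        by_contra hc
        have := Nat.two_pow_pos k
        rw [Nat.eq_zero_of_not_pos hc] at g2
        omega
      have gd : ∀ u ∈ F0, ds H (V z (u0 * c)) (V z (u * c)) ≤ η := fun u hu => by
        refine (ud _ (f2 _ (g1 hu0)).1 _ (f2 _ (g1 hu)).1).trans ?_
        have := g3 u0 hu0 u hu
        have := abs_nonneg (u0 - u)
        nlinarith
      choose f hf using fun i : ℕ => hrc (V z (u0 * c)) (y i) (sg (y i) * r')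
        (by rw [abs_mul, sg1, one_mul, abs_of_pos r0])
      have sq : ∀ p t, sg p * (sg p * t) = t := fun p t => by
        rw [← mul_assoc, ← abs_mul_abs_self, sg1, one_mul, one_mul]
      have ft : ∀ i, ∀ u ∈ F0, sg (y i) * f i (V z (u * c)) ∈ Ioo 0 (2 * r') := fun i u hu => by
        have e := (hf i _ (gd u hu)).1
        have e2 : |sg (y i) * f i (V z (u * c)) - r'| < r' := by
          rwa [← sq (y i) r', ← mul_sub, abs_mul, sg1, one_mul, sq]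
        rw [abs_lt] at e2
        constructor <;> linarith
      have fl : ∀ i ≤ N, ∀ u ∈ F0, ℓ (y i) < ℓ (V (y i) (f i (V z (u * c)))) ∧
          ℓ (V (y i) (f i (V z (u * c)))) < ℓ (y (i + 1)) := fun i hi u hu => by
        have e := Ioo_subset_Icc_self (ft i u hu)
        constructor
        · simpa [hl.v0, sq] using (ym i hi).2 m0 e (ft i u hu).1
        · simpa [y1, sq] using (ym i hi).2 e m1 (ft i u hu).2
      have ex : ∀ q : ℕ × ℝ, ∃ u', q ∈ Finset.range N ×ˢ F0 → u' ∈ Icc (0 : ℝ) 1 ∧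
          ℓ (φ u') = ℓ (V (y q.1) (f q.1 (V z (q.2 * c)))) := fun q => by
        by_cases hq : q ∈ Finset.range N ×ˢ F0
        swap
        · exact ⟨0, fun e => (hq e).elim⟩
        rw [Finset.mem_product, Finset.mem_range] at hq
        obtain ⟨e1, e2⟩ := fl q.1 hq.1.le q.2 hq.2
        have e3 := ys 0 q.1 (Nat.zero_le _) hq.1.le
        rw [y0] at e3
        obtain ⟨u', hu', e⟩ := intermediate_value_Icc zero_le_one cφ
          (show ℓ (V (y q.1) (f q.1 (V z (q.2 * c)))) ∈ _ from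
            ⟨e3.trans e1.le, (e2.trans (yl _ hq.1)).le⟩)
        exact ⟨u', fun _ => ⟨hu', e⟩⟩
      choose g hg using ex
      have gi : InjOn g (Finset.range N ×ˢ F0 : Finset (ℕ × ℝ)) := by
        rintro ⟨i, u⟩ hq ⟨j, v⟩ hq' e
        have e1 := (hg _ hq).2
        rw [e, (hg _ hq').2] at e1
        simp only [Finset.coe_product, mem_prod, Finset.coe_range, mem_Iio, Finset.mem_coe]
          at hq hq' e1
        have lt : ∀ i j u v, i < j → j < N → u ∈ F0 → v ∈ F0 → ℓ (V (y i) (f i (V z (u * c)))) <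
            ℓ (V (y j) (f j (V z (v * c)))) := fun i j u v hij hj hu hv =>
          ((fl i (by omega) u hu).2.trans_le (ys _ _ hij hj.le)).trans (fl j hj.le v hv).1
        obtain rfl : i = j := by
          rcases lt_trichotomy i j with hij | hij | hij
          · exact absurd e1 (lt i j u v hij hq'.1 hq.2 hq'.2).ne'
          · exact hij
          · exact absurd e1 (lt j i v u hij hq.1 hq'.2 hq.2).ne
        have e2 := (ym i hq.1.le).2.injOn (Ioo_subset_Icc_self (ft i u hq.2))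
          (Ioo_subset_Icc_self (ft i v hq'.2)) (by simpa [sq] using e1.symm)
        have e3 : f i (V z (u * c)) = f i (V z (v * c)) := by
          rw [← sq (y i) (f i _), e2, sq]
        rw [uw u (f2 _ (g1 hq.2)).1 v (f2 _ (g1 hq'.2)).1
          ((hf i _ (gd u hq.2)).2.2 _ (gd v hq'.2) e3)]
      refine ⟨(Finset.range N ×ˢ F0).image g, ?_, fun u' hu' => ?_⟩
      · rw [Finset.card_image_of_injOn gi, Finset.card_product, Finset.card_range, hN, pow_succ]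
        nlinarith
      · obtain ⟨q, hq, rfl⟩ := Finset.mem_image.1 hu'
        obtain ⟨e1, e2⟩ := hg q hq
        rw [Finset.mem_product, Finset.mem_range] at hq
        refine ⟨e1, φ (g q), ⟨V (y q.1) (f q.1 (V z (q.2 * c))), ⟨V z (q.2 * c),
          (f2 _ (g1 hq.2)).2, (hf _ _ (gd _ hq.2)).2.1.mono ha.le hb.le t5⟩,
          Pr.of_w d0.le ((ℓp _ _ (near _ (ya _ hq.1.le _ ?_)) (nearφ _ e1) e2.symm).mono hb.le t6
            le_rfl)⟩, Pr.of_s d0.le ((hφp _ e1).mono ha.le t7 le_rfl)⟩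
        rw [← sq (y q.1) (f _ _)]
        exact sg3 _ _ (Ioo_subset_Icc_self (ft _ _ hq.2))
  obtain ⟨k, hk⟩ := h.growth t4
  obtain ⟨F, f1, f2⟩ := key k
  refine (hk F (fun u => V z (u * c)) z (fun u hu => (f2 u hu).2) (fun u hu v hv => ?_)
    fun u hu v hv => uw u (f2 u hu).1 v (f2 v hv).1).not_ge f1
  refine (ud u (f2 u hu).1 v (f2 v hv).1).trans (mul_le_of_le_one_right d0.le ?_)
  have e1 := (f2 u hu).1
  have e2 := (f2 v hv).1
  rw [abs_le]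
  constructor <;> linarith [e1.1, e1.2, e2.1, e2.2]

end Pool.Agent.P.MP_0a0487_an
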