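import Pool.Agent.P.MP_0a0487_an.Rect

/-!
A global rectangle is a covering map.
-/

set_option autoImplicit false

open Set Metric Filter Topology

namespace Pool.Agent.P.MP_0a0487_an

theorem evenly_of_sheets {E X : Type*} [TopologicalSpace E] [TopologicalSpace X] [Nonempty E]
    {f : E → X} {ι : Type*} [Nonempty ι] (W : ι → Set E) {V : Set X} (hV : IsOpen V)
    (open_iff : ∀ i {O}, O ⊆ V → (IsOpen O ↔ IsOpen (f ⁻¹' O ∩ W i)))
    (inj : ∀ i, (W i).InjOn f) (surj : ∀ i, (W i).SurjOn f V)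
    (disj : Pairwise (Function.onFun Disjoint W)) (exh : f ⁻¹' V ⊆ ⋃ i, W i) {x : X} (hx : x ∈ V) :
    IsEvenlyCovered f x (f ⁻¹' {x}) := by
  letI : TopologicalSpace ι := ⊥
  haveI : DiscreteTopology ι := ⟨rfl⟩
  exact (IsEvenlyCovered.of_trivialization
    (t := hV.trivializationDiscrete W V open_iff inj surj disj exh)
    (by simpa using hx)).to_isEvenlyCovered_preimage

variable {M : Type*} [MetricSpace M] [CompactSpace M]
  {G H : M → M} {S U : Type*} [NormedAddCommGroup S] [NormedAddCommGroup U]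
  [NormedSpace ℝ S] [NormedSpace ℝ U] [FiniteDimensional ℝ S] [FiniteDimensional ℝ U]
  {ε C a1 a2 b1 b2 : ℝ}

/-- Global rectangles exist for all pairs of Lipschitz sides. -/
def EG (G H : M → M) (S U : Type*) [NormedAddCommGroup S] [NormedAddCommGroup U] (ε : ℝ) : Prop :=
  ∀ (α : S → M) (β : U → M), LipB G α → LipB H β → α 0 = β 0 →
    ∃ Φ : S → U → M, GRect G H (ε / 8) Φ ∧ (∀ x, Φ x 0 = α x) ∧ ∀ y, Φ 0 y = β y

theorem EG.symm (h : EG G H S U ε) : EG H G U S ε := fun α β hα hβ e => by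
  obtain ⟨Φ, h1, h2, h3⟩ := h β α hβ hα e.symm
  exact ⟨_, h1.swap, h3, h2⟩

theorem LeafEmb.inj {θ : S → M} (h : LeafEmb G ε θ) : Function.Injective θ :=
  fun _ _ e => h.emb.injective (congrArg (toL G) e)

theorem LeafEmb.isClopen {θ : S → M} (h : LeafEmb G ε θ) (hε : 0 < ε) :
    IsClopen (range fun x => toL G (θ x)) := by
  constructor
  · refine isClosed_of_closure_subset fun z hz => ?_
    obtain ⟨_, ⟨x, rfl⟩, hx⟩ := Metric.mem_closure_iff.1 hz ε hε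
    obtain ⟨w, hw⟩ := h.step x (ofL z) (by rw [dist_comm] at hx; exact hx.le)
    exact ⟨w, congrArg (toL G) hw⟩
  · refine Metric.isOpen_iff.2 ?_
    rintro _ ⟨x, rfl⟩
    refine ⟨ε, hε, fun z hz => ?_⟩
    rw [mem_ball, dist_comm] at hz
    obtain ⟨w, hw⟩ := h.step x (ofL z) hz.le
    exact ⟨w, congrArg (toL G) hw⟩

theorem Smale.factor (h : Smale G H S U ε C a1 a2 b1 b2) {Φ Ψ : S → U → M}
    (hΦ : GRect G H (ε / 8) Φ) (hΨ : GRect G H (ε / 8) Ψ) (h0 : ∀ y, Ψ 0 y = Φ 0 y) {y1 : U}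
    (hl : LeafEmb G ε fun x => Φ x y1) :
    ∃ ξ : S → S, Continuous ξ ∧ ∀ v y, Ψ v y = Φ (ξ v) y := by
  have hε := h.ε_pos
  have ex : ∀ v, ∃ x, Φ x y1 = Ψ v y1 := by
    have := ((hl.isClopen hε).preimage (hΨ.cs y1)).eq_univ
      ⟨0, 0, congrArg (toL G) (h0 y1).symm⟩
    intro v
    have hv : v ∈ (fun x => toL G (Ψ x y1)) ⁻¹' range fun x => toL G (Φ x y1) := by
      rw [this]; trivial
    exact hv
  choose ξ hξ using ex
  have cξ : Continuous ξ := by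
    rw [hl.emb.isInducing.continuous_iff]
    exact (hΨ.cs y1).congr fun v => congrArg (toL G) (hξ v).symm
  have ξ0 : ξ 0 = 0 := hl.inj ((hξ 0).trans (h0 y1))
  refine ⟨ξ, cξ, fun v y => ?_⟩
  obtain ⟨R1, hR1⟩ := ((isCompact_closedBall (0 : S) ‖v‖).image cξ).isBounded.exists_norm_le
  obtain ⟨R, r1, r2, r3, r4⟩ : ∃ R : ℝ, R1 ≤ R ∧ ‖v‖ ≤ R ∧ ‖y‖ ≤ R ∧ ‖y1‖ ≤ R :=
    ⟨max (max R1 ‖v‖) (max ‖y‖ ‖y1‖), by simp, by simp, by simp, by simp⟩
  obtain ⟨n1, hn1⟩ := hΦ.tu R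
  obtain ⟨n2, hn2⟩ := hΨ.tu R
  apply h.inv.symm.Gn_inj (max n1 n2)
  refine h.uniq (convex_closedBall (0 : S) ‖v‖).isPreconnected
    (e := fun z => H^[max n1 n2] (Ψ z y)) (e' := fun z => H^[max n1 n2] (Φ (ξ z) y))
    ((h.inv.continuous_Lf_H _).comp (hΨ.cs y)).continuousOn
    ((h.inv.continuous_Lf_H _).comp ((hΦ.cs y).comp cξ)).continuousOn
    (mem_closedBall_self (norm_nonneg v)) (by simp only [ξ0, h0]) (fun z hz => ?_)
    (mem_closedBall_zero_iff.2 le_rfl)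
  have t1 := (ds_iterate_mono H _ _ (le_max_right n1 n2)).trans
    (hn2 z y y1 ((mem_closedBall_zero_iff.1 hz).trans r2) r3 r4)
  have t2 := (ds_iterate_mono H _ _ (le_max_left n1 n2)).trans
    (hn1 (ξ z) y1 y ((hR1 _ (mem_image_of_mem _ hz)).trans r1) r4 r3)
  rw [hξ] at t2
  refine (ds_triangle H _ (H^[max n1 n2] (Ψ z y1)) _).trans ?_
  linarith

theorem Smale.leafEmb_row (h : Smale G H S U ε C a1 a2 b1 b2) (hE : EG G H S U ε) {Φ : S → U → M}
    (hΦ : GRect G H (ε / 8) Φ) (hl : LeafEmb G ε fun x => Φ x 0) (hβ : LipB H fun y => Φ 0 y)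
    (y0 : U) : LeafEmb G ε fun x => Φ x y0 := by
  obtain ⟨θ, θ0, hθ, lθ⟩ := h.hs.par (Φ 0 y0)
  have hβ' : LipB H fun w => Φ 0 (y0 + w) := by
    intro R
    obtain ⟨K, t, hK, ht, hh⟩ := hβ (‖y0‖ + R)
    refine ⟨K, t, hK, ht, fun w w' h1 h2 h3 => ?_⟩
    have := hh (y0 + w) (y0 + w') ((norm_add_le _ _).trans (by linarith))
      ((norm_add_le _ _).trans (by linarith)) (by simpa using h3)
    simpa using this
  obtain ⟨Ψ, hΨ, e1, e2⟩ := hE _ _ lθ hβ' (by simpa using θ0)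
  have hΨ' : GRect G H (ε / 8) fun v y => Ψ v (y - y0) := by
    refine ⟨fun y => hΨ.cs _, fun x => (hΨ.cu x).comp (continuous_sub_right y0), fun R => ?_,
      fun R => ?_⟩
    · obtain ⟨n, hn⟩ := hΨ.tu (R + ‖y0‖)
      have := norm_nonneg y0
      exact ⟨n, fun x y y' h1 h2 h3 => hn x _ _ (by linarith)
        ((norm_sub_le _ _).trans (by linarith)) ((norm_sub_le _ _).trans (by linarith))⟩
    · obtain ⟨n, hn⟩ := hΨ.ts (R + ‖y0‖)
      have := norm_nonneg y0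
      exact ⟨n, fun y x x' h1 h2 h3 => hn _ x x'
        ((norm_sub_le _ _).trans (by linarith)) (by linarith) (by linarith)⟩
  have e3 : ∀ y, Ψ 0 (y - y0) = Φ 0 y := fun y => by rw [e2]; simp
  have e4 : (fun v => Ψ v (y0 - y0)) = θ := by
    funext v; rw [sub_self, e1]
  obtain ⟨ξ, cξ, hξ⟩ := h.factor hΦ hΨ' e3 hl
  obtain ⟨η, cη, hη⟩ := h.factor hΨ' hΦ (fun y => (e3 y).symm) (y1 := y0) (e4 ▸ hθ)
  have i1 : ∀ x, ξ (η x) = x := fun x => hl.inj ((hξ (η x) 0).symm.trans (hη x 0).symm)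
  have i2 : ∀ v, η (ξ v) = v := fun v => hθ.inj (by
    have := (hξ v y0).trans (hη (ξ v) y0)
    simpa only [sub_self, e1] using this.symm)
  have e5 : ∀ x, Φ x y0 = θ (η x) := fun x => by rw [hη x y0, sub_self, e1]
  let T : S ≃ₜ S := ⟨⟨η, ξ, i1, i2⟩, cη, cξ⟩
  constructor
  · have := hθ.emb.comp T.isEmbedding
    simp only [e5]
    exact this
  · intro x z hz
    rw [e5] at hz
    obtain ⟨w, hw⟩ := hθ.step _ z hz
    exact ⟨ξ w, by simp only [e5, i2, hw]⟩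

/-- A global rectangle is locally given by the bracket, at a uniform scale. -/
theorem Smale.local_prod (h : Smale G H S U ε C a1 a2 b1 b2) {Φ : S → U → M}
    (hΦ : GRect G H (ε / 8) Φ) (hl : ∀ y, LeafEmb G ε fun x => Φ x y) {r : ℝ}
    (hr : 8 * C ^ 2 * r ≤ ε) {x0 x : S} {y0 y : U} (h1 : ds G (Φ x0 y0) (Φ x y0) ≤ r)
    (h2 : ds H (Φ x0 y0) (Φ x0 y) ≤ r) :
    ds G (Φ x0 y) (Φ x y) ≤ 2 * C * r ∧ ds H (Φ x y0) (Φ x y) ≤ 2 * C * r := by
  have hε := h.ε_pos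
  have hC := h.one_le
  have hr0 : 0 ≤ r := (ds_nonneg _ _ _).trans h1
  have q1 : r ≤ C * r := le_mul_of_one_le_left hr0 hC
  have q2 : C * r ≤ C * (C * r) := le_mul_of_one_le_left (by positivity) hC
  have q3 : C ^ 2 * r = C * (C * r) := by ring
  have q4 : C * ds G (Φ x0 y0) (Φ x y0) ≤ C * r := by gcongr
  obtain ⟨Γ, g1, g2, g3, g4, g5⟩ := h.hs.lc _ _ (q4.trans (by linarith))
  have gr : Γ ⊆ range fun x => toL G (Φ x y0) := fun c hc => by
    obtain ⟨w, hw⟩ := (hl y0).step x0 (ofL c) ((g5 c hc).trans (by linarith))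
    exact ⟨w, congrArg (toL G) hw⟩
  set Z : Set S := (fun x => toL G (Φ x y0)) ⁻¹' Γ with hZ
  have z1 : IsCompact Z := (hl y0).emb.isInducing.isCompact_preimage' g1 gr
  have z2 : IsPreconnected Z := by
    rw [← (hl y0).emb.isInducing.isPreconnected_image, hZ, image_preimage_eq_of_subset gr]
    exact g2
  have dz : ∀ z ∈ Z, C * dist (Φ x0 y) (Φ z y0) ≤ C * (2 * (C * r)) := by
    intro z hz
    have t1 := (dist_le_ds G _ _).trans (g5 _ hz)
    have t2 := (dist_le_ds H _ _).trans h2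
    have t3 := dist_triangle_left (Φ x0 y) (Φ z y0) (Φ x0 y0)
    rw [ofL_toL] at t1
    gcongr
    linarith
  have ex : ∀ z, ∃ c, z ∈ Z → ds G (Φ x0 y) c ≤ C * dist (Φ x0 y) (Φ z y0) ∧
      ds H (Φ z y0) c ≤ C * dist (Φ x0 y) (Φ z y0) := by
    intro z
    by_cases hz : z ∈ Z
    · obtain ⟨c, hc⟩ := h.br _ _ ((dz z hz).trans (by linarith))
      exact ⟨c, fun _ => hc⟩
    · exact ⟨Φ x0 y, fun h => (hz h).elim⟩
  choose c hc using ex
  have cc : ContinuousOn (fun z => toL G (c z)) Z :=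
    h.brCont (a := fun _ => Φ x0 y) (b := fun z => Φ z y0) continuousOn_const
      ((continuous_ofL G).comp (hΦ.cs y0)).continuousOn
      (fun z hz => ((hc z hz).1.trans (dz z hz)).trans (by linarith))
      (fun z hz => ((hc z hz).2.trans (dz z hz)).trans (by linarith))
  obtain ⟨R1, hR1⟩ := z1.isBounded.exists_norm_le
  obtain ⟨R, r1, r3, r4⟩ : ∃ R : ℝ, R1 ≤ R ∧ ‖y‖ ≤ R ∧ ‖y0‖ ≤ R :=
    ⟨max R1 (max ‖y‖ ‖y0‖), by simp, by simp, by simp⟩
  obtain ⟨n, hn⟩ := hΦ.tu R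
  have e : Φ x y = c x := by
    apply h.inv.symm.Gn_inj n
    refine h.uniq z2 (e := fun z => H^[n] (Φ z y)) (e' := fun z => H^[n] (c z))
      ((h.inv.continuous_Lf_H _).comp (hΦ.cs y)).continuousOn
      ((h.inv.continuous_Lf_H _).comp_continuousOn cc) (z0 := x0) g3 ?_ (fun z hz => ?_) g4
    · have t1 := (hc x0 g3).1.trans (dz x0 g3)
      have t2 := (hc x0 g3).2.trans (dz x0 g3)
      have t3 := ds_triangle H (Φ x0 y) (Φ x0 y0) (c x0)
      rw [ds_comm H (Φ x0 y) (Φ x0 y0)] at t3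
      have : Φ x0 y = c x0 := h.eq_of (by linarith) (by linarith)
      simp only [this]
    · have t1 := hn z y y0 ((hR1 z hz).trans r1) r3 r4
      have t2 := (ds_iterate_le H _ _ n).trans ((hc z hz).2.trans (dz z hz))
      refine (ds_triangle H _ (H^[n] (Φ z y0)) _).trans ?_
      linarith
  have t1 := (dist_le_ds G _ _).trans h1
  have t2 := (dist_le_ds H _ _).trans h2
  have t3 := dist_triangle_left (Φ x0 y) (Φ x y0) (Φ x0 y0)
  have t4 : C * dist (Φ x0 y) (Φ x y0) ≤ C * (2 * r) := by gcongr; linarith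
  rw [e]
  exact ⟨(hc x g4).1.trans (by linarith), (hc x g4).2.trans (by linarith)⟩

theorem Smale.continuous_rect (h : Smale G H S U ε C a1 a2 b1 b2) {Φ : S → U → M}
    (hΦ : GRect G H (ε / 8) Φ) (hl : ∀ y, LeafEmb G ε fun x => Φ x y) :
    Continuous fun p : S × U => Φ p.1 p.2 := by
  have hε := h.ε_pos
  have hC := h.one_le
  refine continuous_iff_continuousAt.2 fun p => Metric.tendsto_nhds.2 fun η hη => ?_
  obtain ⟨r, r0, r1, r2⟩ : ∃ r : ℝ, 0 < r ∧ 8 * C ^ 2 * r ≤ ε ∧ 4 * C * r ≤ η := by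
    refine ⟨min (ε / (8 * C ^ 2)) (η / (4 * C)), by positivity, ?_, ?_⟩
    · rw [← le_div_iff₀' (by positivity)]; exact min_le_left _ _
    · rw [← le_div_iff₀' (by positivity)]; exact min_le_right _ _
  have e1 := Metric.tendsto_nhds.1 (((hΦ.cs p.2).comp continuous_fst).tendsto p) r r0
  have e2 := Metric.tendsto_nhds.1 (((hΦ.cu p.1).comp continuous_snd).tendsto p) r r0
  filter_upwards [e1, e2] with q q1 q2
  simp only [Function.comp, dist_toL] at q1 q2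
  rw [ds_comm] at q1 q2
  have t1 := (dist_le_ds G _ _).trans (h.local_prod hΦ hl r1 q1.le q2.le).1
  have t2 := (dist_le_ds H _ _).trans_lt q2
  have t3 := dist_triangle_left (Φ q.1 q.2) (Φ p.1 p.2) (Φ p.1 q.2)
  rw [dist_comm (Φ p.1 q.2) (Φ p.1 p.2)] at t3
  have : r ≤ C * r := le_mul_of_one_le_left r0.le hC
  linarith

/-- Every point near a point of the rectangle is in the rectangle, with control. -/
theorem Smale.near (h : Smale G H S U ε C a1 a2 b1 b2) {Φ : S → U → M}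
    (hΦ : GRect G H (ε / 8) Φ) (hl : ∀ y, LeafEmb G ε fun x => Φ x y)
    (hl' : ∀ x, LeafEmb H ε fun y => Φ x y) {r : ℝ} (hr : 8 * C ^ 2 * r ≤ ε) (x0 : S) (y0 : U)
    {z : M} (hz : C * dist (Φ x0 y0) z ≤ r) :
    ∃ x y, Φ x y = z ∧ ds G (Φ x0 y0) (Φ x y0) ≤ r ∧ ds H (Φ x0 y0) (Φ x0 y) ≤ r := by
  have hε := h.ε_pos
  have hC := h.one_le
  have hr0 : 0 ≤ r := le_trans (by positivity) hz
  have q1 : r ≤ C * r := le_mul_of_one_le_left hr0 hC
  have q2 : C * r ≤ C * (C * r) := le_mul_of_one_le_left (by positivity) hC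
  have q3 : C ^ 2 * r = C * (C * r) := by ring
  obtain ⟨a, a1, a2⟩ := h.br _ _ (hz.trans (by linarith))
  obtain ⟨b, b1, b2⟩ := h.symm.br _ _ (hz.trans (by linarith))
  obtain ⟨x, rfl⟩ := (hl y0).step x0 a (by linarith)
  obtain ⟨y, rfl⟩ := (hl' x0).step y0 b (by linarith)
  obtain ⟨c1, c2⟩ := h.local_prod hΦ hl hr (a1.trans hz) (b1.trans hz)
  refine ⟨x, y, (h.eq_of ?_ ?_).symm, a1.trans hz, b1.trans hz⟩
  · refine (ds_triangle G _ (Φ x0 y) _).trans ?_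
    linarith
  · refine (ds_triangle H _ (Φ x y0) _).trans ?_
    linarith

theorem Smale.covering_of [ConnectedSpace M] (h : Smale G H S U ε C a1 a2 b1 b2) {Φ : S → U → M}
    (hΦ : GRect G H (ε / 8) Φ) (hl : ∀ y, LeafEmb G ε fun x => Φ x y)
    (hl' : ∀ x, LeafEmb H ε fun y => Φ x y) :
    IsCoveringMap (fun p : S × U => Φ p.1 p.2) ∧ Function.Surjective fun p : S × U => Φ p.1 p.2 := by
  have hε := h.ε_pos
  have hC := h.one_le
  have hc := h.continuous_rect hΦ hl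
  obtain ⟨r, r0, hr⟩ : ∃ r : ℝ, 0 < r ∧ 8 * C ^ 2 * r = ε := ⟨ε / (8 * C ^ 2), by positivity, by field_simp⟩
  obtain ⟨s, s0, hs⟩ : ∃ s : ℝ, 0 < s ∧ 4 * C * s = r := ⟨r / (4 * C), by positivity, by field_simp⟩
  obtain ⟨t, t0, ht⟩ : ∃ t : ℝ, 0 < t ∧ C * t = s := ⟨s / C, by positivity, by field_simp⟩
  have q1 : r ≤ C * r := le_mul_of_one_le_left r0.le hC
  have q2 : C * r ≤ C * (C * r) := le_mul_of_one_le_left (by positivity) hC
  have q3 : C ^ 2 * r = C * (C * r) := by ring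
  have q4 : s ≤ C * s := le_mul_of_one_le_left s0.le hC
  have hsε : 8 * C ^ 2 * s ≤ ε := by rw [← hr]; gcongr; linarith
  have near : ∀ x0 y0 z, dist (Φ x0 y0) z < t → ∃ x y, Φ x y = z ∧
      ds G (Φ x0 y0) (Φ x y0) ≤ s ∧ ds H (Φ x0 y0) (Φ x0 y) ≤ s := fun x0 y0 z hz =>
    h.near hΦ hl hl' hsε x0 y0 (by rw [← ht]; gcongr)
  have surj : Function.Surjective fun p : S × U => Φ p.1 p.2 := by
    rw [← range_eq_univ]
    refine IsClopen.eq_univ ⟨?_, ?_⟩ (range_nonempty _)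
    · refine isClosed_of_closure_subset fun z hz => ?_
      obtain ⟨_, ⟨p, rfl⟩, hp⟩ := Metric.mem_closure_iff.1 hz t t0
      obtain ⟨x, y, e, -⟩ := near p.1 p.2 z (by rwa [dist_comm] at hp)
      exact ⟨(x, y), e⟩
    · refine Metric.isOpen_iff.2 ?_
      rintro _ ⟨p, rfl⟩
      refine ⟨t, t0, fun z hz => ?_⟩
      obtain ⟨x, y, e, -⟩ := near p.1 p.2 z (by rwa [mem_ball, dist_comm] at hz)
      exact ⟨(x, y), e⟩
  refine ⟨fun q => ?_, surj⟩
  haveI : Nonempty {p : S × U // Φ p.1 p.2 = q} := by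
    obtain ⟨p, hp⟩ := surj q
    exact ⟨⟨p, hp⟩⟩
  let W : {p : S × U // Φ p.1 p.2 = q} → Set (S × U) := fun i =>
    {p | ds G (Φ i.1.1 i.1.2) (Φ p.1 i.1.2) < r ∧ ds H (Φ i.1.1 i.1.2) (Φ i.1.1 p.2) < r}
  have oW : ∀ i, IsOpen (W i) := fun i =>
    (isOpen_lt (continuous_const.dist ((hΦ.cs i.1.2).comp continuous_fst)) continuous_const).inter
      (isOpen_lt (continuous_const.dist ((hΦ.cu i.1.1).comp continuous_snd)) continuous_const)
  have lp : ∀ i, ∀ p ∈ W i, ds G (Φ i.1.1 p.2) (Φ p.1 p.2) ≤ 2 * C * r ∧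
      ds H (Φ p.1 i.1.2) (Φ p.1 p.2) ≤ 2 * C * r := fun i p hp =>
    h.local_prod hΦ hl hr.le hp.1.le hp.2.le
  have two : ∀ i j, ∀ p ∈ W i, ∀ p' ∈ W j, Φ p.1 p.2 = Φ p'.1 p'.2 →
      Φ p.1 i.1.2 = Φ p'.1 j.1.2 ∧ Φ i.1.1 p.2 = Φ j.1.1 p'.2 := by
    intro i j p hp p' hp' e
    obtain ⟨u1, u2⟩ := lp i p hp
    obtain ⟨v1, v2⟩ := lp j p' hp'
    obtain ⟨w1, w2⟩ := hp
    obtain ⟨z1, z2⟩ := hp'
    rw [i.2, ds_comm] at w1 w2
    rw [j.2] at z1 z2
    rw [← e, ds_comm] at v1 v2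
    refine ⟨h.eq_of ((ds_triangle G _ q _).trans (by linarith))
      ((ds_triangle H _ (Φ p.1 p.2) _).trans (by linarith)),
      h.eq_of ((ds_triangle G _ (Φ p.1 p.2) _).trans (by linarith))
      ((ds_triangle H _ q _).trans (by linarith))⟩
  have inj : ∀ i, (W i).InjOn fun p : S × U => Φ p.1 p.2 := by
    intro i p hp p' hp' e
    obtain ⟨e1, e2⟩ := two i i p hp p' hp' e
    exact Prod.ext ((hl _).inj e1) ((hl' _).inj e2)
  have sj : ∀ i z, ∃ p : S × U, z ∈ ball q t → p ∈ W i ∧ Φ p.1 p.2 = z ∧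
      ds G (Φ i.1.1 i.1.2) (Φ p.1 i.1.2) ≤ s ∧ ds H (Φ i.1.1 i.1.2) (Φ i.1.1 p.2) ≤ s := by
    intro i z
    by_cases hz : z ∈ ball q t
    · obtain ⟨x, y, e, e1, e2⟩ := near i.1.1 i.1.2 z (by rwa [i.2, ← mem_ball'])
      exact ⟨(x, y), fun _ => ⟨⟨e1.trans_lt (by linarith), e2.trans_lt (by linarith)⟩, e, e1, e2⟩⟩
    · exact ⟨i.1, fun h => (hz h).elim⟩
  choose σ hσ using sj
  have cσ : ∀ i, ContinuousOn (σ i) (ball q t) := by
    intro i
    have lq : ∀ z ∈ ball q t, ds G z (Φ i.1.1 (σ i z).2) ≤ 2 * C * s ∧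
        ds H z (Φ (σ i z).1 i.1.2) ≤ 2 * C * s := by
      intro z hz
      obtain ⟨-, e, e1, e2⟩ := hσ i z hz
      have := h.local_prod hΦ hl hsε e1 e2
      rwa [e, ds_comm, ds_comm H] at this
    refine ContinuousOn.prodMk ?_ ?_
    · rw [(hl i.1.2).emb.isInducing.continuousOn_iff]
      exact h.brCont (a := fun _ => Φ i.1.1 i.1.2) (b := fun z => z) continuousOn_const
        continuousOn_id (fun z hz => (hσ i z hz).2.2.1.trans (by linarith))
        (fun z hz => (lq z hz).2.trans (by linarith))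
    · rw [(hl' i.1.1).emb.isInducing.continuousOn_iff]
      exact h.symm.brCont (a := fun _ => Φ i.1.1 i.1.2) (b := fun z => z) continuousOn_const
        continuousOn_id (fun z hz => (hσ i z hz).2.2.2.trans (by linarith))
        (fun z hz => (lq z hz).1.trans (by linarith))
  refine evenly_of_sheets W isOpen_ball (fun i O hO => ⟨fun ho => (ho.preimage hc).inter (oW i),
    fun ho => ?_⟩) inj (fun i z hz => ⟨σ i z, (hσ i z hz).1, (hσ i z hz).2.1⟩) ?_ ?_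
    (mem_ball_self t0)
  · have : O = ball q t ∩ σ i ⁻¹' ((fun p : S × U => Φ p.1 p.2) ⁻¹' O ∩ W i) := by
      ext z
      constructor
      · intro hz
        refine ⟨hO hz, ?_, (hσ i z (hO hz)).1⟩
        show Φ (σ i z).1 (σ i z).2 ∈ O
        rwa [(hσ i z (hO hz)).2.1]
      · rintro ⟨hz, h1, -⟩
        have h2 : Φ (σ i z).1 (σ i z).2 ∈ O := h1
        rwa [(hσ i z hz).2.1] at h2
    rw [this]
    exact (cσ i).isOpen_inter_preimage isOpen_ball ho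
  · intro i j hij
    refine Set.disjoint_left.2 fun p hi hj => hij ?_
    obtain ⟨e1, e2⟩ := two i j p hi p hj rfl
    exact Subtype.ext (Prod.ext ((hl _).inj e2) ((hl' _).inj e1))
  · intro p hp
    obtain ⟨x, y, e, e1, e2⟩ := near p.1 p.2 q hp
    obtain ⟨c1, c2⟩ := h.local_prod hΦ hl hsε e1 e2
    rw [ds_comm] at c1 c2
    exact mem_iUnion.2 ⟨⟨(x, y), e⟩, c1.trans_lt (by linarith), c2.trans_lt (by linarith)⟩

theorem Smale.covering [ConnectedSpace M] (h : Smale G H S U ε C a1 a2 b1 b2)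
    (hE : EG G H S U ε) :
    ∃ p : S × U → M, IsCoveringMap p ∧ Function.Surjective p := by
  obtain ⟨q⟩ : Nonempty M := inferInstance
  obtain ⟨θ, θ0, hθ, lθ⟩ := h.hs.par q
  obtain ⟨ϑ, ϑ0, hϑ, lϑ⟩ := h.hu.par q
  obtain ⟨Φ, hΦ, e1, e2⟩ := hE _ _ lθ lϑ (θ0.trans ϑ0.symm)
  have e1' : (fun x => Φ x 0) = θ := funext e1
  have e2' : (fun y => Φ 0 y) = ϑ := funext e2
  exact ⟨_, h.covering_of hΦ (h.leafEmb_row hE hΦ (e1' ▸ hθ) (e2' ▸ lϑ))
    (h.symm.leafEmb_row hE.symm hΦ.swap (e2' ▸ hϑ) (e1' ▸ lθ))⟩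

end Pool.Agent.P.MP_0a0487_an
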