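import Mathlib

/-!
Definitions used in the statement: continuous invariant splittings of the tangent bundle and
two-sided growth rates.
-/

set_option autoImplicit false

open Bundle
open scoped Manifold

namespace Pool.Agent.P.MP_0a0487_an

variable {E : Type*} [NormedAddCommGroup E] [NormedSpace ℝ E]
  {M : Type*} [TopologicalSpace M] [ChartedSpace E M]

/-- A field of linear subspaces of the tangent spaces of `M`. -/
abbrev SubField (E : Type*) [NormedAddCommGroup E] [NormedSpace ℝ E] (M : Type*)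
    [TopologicalSpace M] [ChartedSpace E M] : Type _ :=
  ∀ x : M, Submodule ℝ (TangentSpace 𝓘(ℝ, E) x)

/-- The derivative of `f` at `x`, applied to the tangent vector `v`. -/
noncomputable def Df (f : M → M) {x : M} (v : TangentSpace 𝓘(ℝ, E) x) :
    TangentSpace 𝓘(ℝ, E) (f x) :=
  mfderiv 𝓘(ℝ, E) 𝓘(ℝ, E) f x v

/-- The projection of the tangent vector `v` onto `A x` along `B x`. -/
noncomputable def alongProj {A B : SubField E M} (h : ∀ x, IsCompl (A x) (B x)) {x : M}
    (v : TangentSpace 𝓘(ℝ, E) x) : TangentSpace 𝓘(ℝ, E) x :=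
  (A x).projection (B x) (h x) v

/-- `TM = A ⊕ B` is a continuous splitting: the projection onto `A` along `B` is a continuous map
of the tangent bundle to itself. -/
def IsSplitting [IsManifold 𝓘(ℝ, E) 1 M] (A B : SubField E M) : Prop :=
  ∃ h : ∀ x, IsCompl (A x) (B x), Continuous fun p : TangentBundle 𝓘(ℝ, E) M =>
    (⟨p.proj, alongProj h p.2⟩ : TangentBundle 𝓘(ℝ, E) M)

/-- `Df (A) = A`. -/
def Invariant (f : M → M) (A : SubField E M) : Prop :=
  ∀ x, Df f '' (A x : Set (TangentSpace 𝓘(ℝ, E) x)) = A (f x)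

/-- The Riemannian norm of a tangent vector. -/
noncomputable def len [RiemannianBundle (fun x : M => TangentSpace 𝓘(ℝ, E) x)] {x : M}
    (v : TangentSpace 𝓘(ℝ, E) x) : ℝ := ‖v‖

/-- `a ^ m * ‖v‖ / C ≤ ‖D(f ^ m) v‖ ≤ C * b ^ m * ‖v‖` for all `v` in `A` and all `m ≥ 1`. -/
def Rates [RiemannianBundle (fun x : M => TangentSpace 𝓘(ℝ, E) x)] (f : M → M) (A : SubField E M)
    (C a b : ℝ) : Prop :=
  ∀ m : ℕ, 1 ≤ m → ∀ x, ∀ v ∈ A x,
    C⁻¹ * a ^ m * len v ≤ len (Df f^[m] v) ∧ len (Df f^[m] v) ≤ C * b ^ m * len v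

end Pool.Agent.P.MP_0a0487_an
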