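import Pool.Agent.P.MP_0a0487_an.Cover

/-!
Stable paths, weak unstable paths, moves, holonomy, plaques and labels: definitions and the basic
calculus of paths.
-/

set_option autoImplicit false

open Set Metric Filter Topology

namespace Pool.Agent.P.MP_0a0487_an

variable {M : Type*} [MetricSpace M] [CompactSpace M]

/-- A local product structure whose stable rates are pinched against the weak rate `b`, with a
small working scale `δ`. -/
structure Pin (G H : M → M) (S U : Type*) [NormedAddCommGroup S] [NormedAddCommGroup U]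
    (ε C a1 a2 b1 b2 b δ : ℝ) : Prop where
  sm : Smale G H S U ε C a1 a2 b1 b2
  b_pos : 0 < b
  b_le : b ≤ b2
  pin : Real.log a1 * Real.log b < Real.log a1 * Real.log b2 + Real.log a2 * Real.log b
  δ_pos : 0 < δ
  δ_le : 100 * C ^ 2 * δ ≤ ε

/-- A path from `p` to `q` in a stable leaf of `G` that grows at rate at most `1 / a` under `H`
from time `N` on. -/
def Pth (G H : M → M) (a δ τ : ℝ) (N : ℕ) (p q : M) : Prop :=
  ∃ γ : ℝ → M, γ 0 = p ∧ γ 1 = q ∧ Continuous (fun t => toL G (γ t)) ∧ ShN H a δ τ N univ γ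

/-- `p` and `q` are joined by a weak unstable path. -/
def Wk (G H : M → M) (b δ : ℝ) (p q : M) : Prop := ∃ τ : ℝ, 0 < τ ∧ Pth H G b δ τ 0 p q

/-- A move: a stable path followed by a weak unstable path. -/
def Pr (G H : M → M) (a b δ τ : ℝ) (y y' : M) : Prop :=
  ∃ q, Pth G H a δ τ 0 y q ∧ Pth H G b δ τ 0 q y'

/-- A chain of `k` moves. -/
def Ch (G H : M → M) (a b δ τ : ℝ) : ℕ → M → M → Prop
  | 0, y, y' => y = y'
  | k + 1, y, y'' => ∃ y', Ch G H a b δ τ k y y' ∧ Pr G H a b δ τ y' y''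

/-- Every stable path of size `τ` from `z` has a holonomy image from `z'`, at level `n`. -/
def Hol (G H : M → M) (a δ τ : ℝ) (z z' : M) (n : ℕ) : Prop :=
  ∀ σ : ℝ → M, σ 0 = z → ContinuousOn (fun t => toL G (σ t)) (closedBall 0 1) →
    Sh H a δ τ (closedBall 0 1) σ → ∃ σ' : ℝ → M, σ' 0 = z' ∧
      ContinuousOn (fun t => toL G (σ' t)) (closedBall 0 1) ∧
      ∀ t ∈ closedBall (0 : ℝ) 1, ds H (H^[n] (σ t)) (H^[n] (σ' t)) ≤ δ

/-- The unstable holonomy from `z` to `z'` is complete. -/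
def HOL (G H : M → M) (a δ : ℝ) (z z' : M) : Prop :=
  ∀ τ : ℝ, 0 < τ → ∃ n : ℕ, Hol G H a δ τ z z' n

/-- The weak class of `z` is a neighbourhood of `z` in its unstable leaf. -/
def Opn (G H : M → M) (b δ : ℝ) (z : M) : Prop :=
  ∃ η : ℝ, 0 < η ∧ ∀ z', ds H z z' ≤ η → Wk G H b δ z z'

/-- The stable leaves are uniformly dense. -/
def Minl (G : M → M) : Prop :=
  ∀ δ θ : ℝ, 0 < δ → 0 < θ → ∃ m : ℕ, ∀ y w : M, ∃ y',
    ds G (G^[m] y) (G^[m] y') ≤ δ ∧ dist y' w ≤ θ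

/-- Coordinates on unstable plaques, with a vertical direction `nv` and weak Euler steps. -/
structure Plq {U : Type*} [NormedAddCommGroup U] [NormedSpace ℝ U] (G H : M → M) (κ : M → M → U)
    (nv : M → U) (K ρ r b : ℝ) : Prop where
  one_le : 1 ≤ K
  r_pos : 0 < r
  Kr : K * r ≤ ρ
  self : ∀ x, κ x x = 0
  lip : ∀ x a a', dist a x ≤ ρ → dist a' x ≤ ρ → ‖κ x a - κ x a'‖ ≤ K * dist a a'
  anti : ∀ x a a', ds H x a ≤ ρ → ds H x a' ≤ ρ → ds H a a' ≤ K * ‖κ x a - κ x a'‖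
  onto : ∀ x v, ‖v‖ ≤ r → ∃ a, ds H x a ≤ K * ‖v‖ ∧ κ x a = v
  unit : ∀ x, ‖nv x‖ = 1
  euler : ∀ n : ℕ, ∃ t : ℝ, 0 < t ∧ ∀ x a ζ, ds H x a ≤ ρ → ‖ζ‖ ≤ t → ∃ c : ℝ, |c| ≤ K * ‖ζ‖ ∧
    ∀ a', ds H x a' ≤ ρ → κ x a' = κ x a + ζ + c • nv x →
      ∀ j ≤ n, b ^ j * dist (G^[j] a) (G^[j] a') ≤ K * ‖ζ‖

/-- A path that is `L / b ^ j`-Lipschitz after `j` steps of `G`. -/
def WL (G : M → M) (b L : ℝ) (γ : ℝ → M) : Prop :=
  ∀ (j : ℕ) (t t' : ℝ), b ^ j * dist (G^[j] (γ t)) (G^[j] (γ t')) ≤ L * |t - t'|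

/-- Vertical segments `V x` and labels `Λ x` of weak classes near `x`: local properties. -/
structure PreLam (G H : M → M) (V : M → ℝ → M) (Λ : M → M → ℝ) (K r b δ : ℝ) : Prop where
  one_le : 1 ≤ K
  r_pos : 0 < r
  v0 : ∀ x, V x 0 = x
  v1 : ∀ x c c', |c| ≤ K * r → |c'| ≤ K * r → ds H (V x c) (V x c') ≤ K * |c - c'|
  l1 : ∀ x p c, ds H x p ≤ r → |c| ≤ K * r → |Λ x p - c| ≤ K * ds H (V x c) p
  l2 : ∀ x, ContinuousOn (fun p : Lf H => Λ x (ofL p)) {p | ds H x (ofL p) ≤ r}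
  l3 : ∃ τ : ℝ, 0 < τ ∧ ∀ x p, ds H x p ≤ r → Pth H G b δ τ 0 p (V x (Λ x p))
  l4 : ∀ (x : M) (γ : ℝ → M), ContinuousOn (fun t => toL H (γ t)) (Icc 0 1) →
    (∀ t ∈ Icc (0 : ℝ) 1, ds H x (γ t) ≤ r ∧ Wk G H b δ (γ 0) (γ t)) → Λ x (γ 0) = Λ x (γ 1)
  l5 : ∀ x p p', ds H x p ≤ r → ds H x p' ≤ r → Λ x p = Λ x p' → ∃ γ : ℝ → M,
    γ 0 = p ∧ γ 1 = p' ∧ ContinuousOn (fun t => toL H (γ t)) (Icc 0 1) ∧
    ∀ t ∈ Icc (0 : ℝ) 1, ds H p (γ t) ≤ K * ds H p p' ∧ Wk G H b δ p (γ t)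

/-- Vertical segments `V x` and labels `Λ x` of weak classes near `x`. -/
structure Lam (G H : M → M) (V : M → ℝ → M) (Λ : M → M → ℝ) (K r b δ : ℝ) : Prop where
  one_le : 1 ≤ K
  r_pos : 0 < r
  v0 : ∀ x, V x 0 = x
  v1 : ∀ x c c', |c| ≤ K * r → |c'| ≤ K * r → ds H (V x c) (V x c') ≤ K * |c - c'|
  l1 : ∀ x p c, ds H x p ≤ r → |c| ≤ K * r → |Λ x p - c| ≤ K * ds H (V x c) p
  l2 : ∀ x, ContinuousOn (fun p : Lf H => Λ x (ofL p)) {p | ds H x (ofL p) ≤ r}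
  l3 : ∃ τ : ℝ, 0 < τ ∧ ∀ x p, ds H x p ≤ r → Pth H G b δ τ 0 p (V x (Λ x p))
  u : ∀ x c c', |c| ≤ K * r → |c'| ≤ K * r → Wk G H b δ (V x c) (V x c') → c = c'

variable {G H : M → M} {S U X : Type*} [NormedAddCommGroup S] [NormedAddCommGroup U]
  [NormedAddCommGroup X] [NormedSpace ℝ X] {ε C a a1 a2 b1 b2 b δ τ τ' : ℝ} {N N' : ℕ} {p q w : M}

theorem Pin.b_lt (h : Pin G H S U ε C a1 a2 b1 b2 b δ) : b < 1 := h.b_le.trans_lt h.sm.hu.a2_lt

theorem Pin.Cδ (h : Pin G H S U ε C a1 a2 b1 b2 b δ) :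
    0 < δ ∧ δ ≤ C * δ ∧ C * δ ≤ C * (C * δ) ∧ 100 * (C * (C * δ)) ≤ ε := by
  have hC := h.sm.one_le
  have hδ := h.δ_pos
  have := h.δ_le
  exact ⟨hδ, le_mul_of_one_le_left hδ.le hC, le_mul_of_one_le_left (by positivity) hC,
    by linarith⟩

theorem Pth.refl (hδ : 0 ≤ δ) (p : M) : Pth G H a δ τ N p p :=
  ⟨fun _ => p, rfl, rfl, continuous_const, fun n _ x _ x' _ _ => by simpa using hδ⟩

theorem Pth.symm (h : Pth G H a δ τ N p q) : Pth G H a δ τ N q p := by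
  obtain ⟨γ, h0, h1, hc, hs⟩ := h
  refine ⟨fun t => γ (1 - t), by simpa using h1, by simpa using h0,
    hc.comp (continuous_const.sub continuous_id), fun n hn x _ x' _ e => ?_⟩
  refine hs n hn _ (mem_univ _) _ (mem_univ _) ?_
  rwa [sub_sub_sub_cancel_left, norm_sub_rev]

theorem Pth.mono (h : Pth G H a δ τ N p q) (ha : 0 ≤ a) (hτ : τ' ≤ τ) (hN : N ≤ N') :
    Pth G H a δ τ' N' p q := by
  obtain ⟨γ, h0, h1, hc, hs⟩ := h
  exact ⟨γ, h0, h1, hc, hs.mono ha le_rfl hτ hN Subset.rfl⟩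

/-- Two points of a short continuous family on a convex set are joined by a path. -/
theorem Pth.of_on {s : Set X} (hs : Convex ℝ s) {α : X → M}
    (hc : ContinuousOn (fun x => toL G (α x)) s) (hα : ShN H a δ τ N s α) {x x' : X} (hx : x ∈ s)
    (hx' : x' ∈ s) {L : ℝ} (hL : 0 < L) (hxx : ‖x' - x‖ ≤ L) :
    Pth G H a δ (τ / L) N (α x) (α x') := by
  have hm : MapsTo (fun t : ℝ => x + (projIcc (0 : ℝ) 1 zero_le_one t : ℝ) • (x' - x)) univ s :=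
    fun t _ => hs.add_smul_sub_mem hx hx' (projIcc (0 : ℝ) 1 zero_le_one t).2
  refine ⟨fun t => α (x + (projIcc (0 : ℝ) 1 zero_le_one t : ℝ) • (x' - x)), by simp, by simp,
    hc.comp_continuous (f := fun t : ℝ => x + (projIcc (0 : ℝ) 1 zero_le_one t : ℝ) • (x' - x))
      (continuous_const.add ((continuous_subtype_val.comp continuous_projIcc).smul
        continuous_const)) fun t => hm (mem_univ t),
    fun n hn => (hα n hn).comp hL hm fun t _ t' _ => ?_⟩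
  rw [add_sub_add_left_eq_sub, ← sub_smul, norm_smul, mul_comm, Real.norm_eq_abs, Real.norm_eq_abs]
  have := abs_projIcc_sub_projIcc (zero_le_one (α := ℝ)) (c := t) (d := t')
  gcongr

theorem Pth.shift (hi : Inv G H) (h : Pth G H a δ τ 0 p q) (n : ℕ) :
    Pth G H a δ (τ * a ^ n) 0 (H^[n] p) (H^[n] q) := by
  obtain ⟨γ, h0, h1, hc, hs⟩ := h
  exact ⟨fun t => H^[n] (γ t), by simp only [h0], by simp only [h1],
    (hi.continuous_Lf_H n).comp hc, (hs.sh.shift n).shN 0⟩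

theorem Pth.back (hi : Inv G H) (h : Pth G H a δ τ N p q) (ha : 0 ≤ a) (ha1 : a ≤ 1) (hτ : 0 ≤ τ)
    (n : ℕ) : Pth G H a δ τ (N + n) (G^[n] p) (G^[n] q) := by
  obtain ⟨γ, h0, h1, hc, hs⟩ := h
  refine ⟨fun t => G^[n] (γ t), by simp only [h0], by simp only [h1],
    (continuous_Lf_G G n).comp hc, fun k hk x _ x' _ e => ?_⟩
  obtain ⟨j, rfl⟩ : ∃ j, k = j + n := ⟨k - n, by omega⟩
  simp only [Function.iterate_add_apply, hi.HGn]
  refine hs j (by omega) x (mem_univ _) x' (mem_univ _) (e.trans ?_)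
  gcongr ?_ * ?_
  exact pow_le_pow_of_le_one ha ha1 (Nat.le_add_right j n)

/-- Removing the threshold. -/
theorem Smale.pth_zero (h : Smale G H S U ε C a1 a2 b1 b2) (hδ : 0 < δ) (hδε : 4 * C * δ ≤ ε) :
    ∃ j : ℕ, ∀ (a τ : ℝ) (N : ℕ) (p q : M), 0 < a → 0 < τ → Pth G H a δ τ N p q →
      Pth G H a δ (τ * a ^ (N + j)) 0 p q := by
  obtain ⟨j, hj⟩ := h.hi (X := ℝ) hδ hδε hδ
  refine ⟨j, fun a τ N p q ha hτ ⟨γ, h0, h1, hc, hs⟩ => ⟨γ, h0, h1, hc, ?_⟩⟩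
  exact (hj a τ univ γ γ N ha hτ convex_univ hs hc.continuousOn
    fun x _ n _ => by simpa using hδ.le).1.shN 0

/-- Concatenation. -/
theorem Smale.pth_trans (h : Smale G H S U ε C a1 a2 b1 b2) (hδ : 0 < δ) (hδε : 8 * C * δ ≤ ε)
    (ha : 0 < a) (ha1 : a ≤ 1) : ∃ k : ℝ, 0 < k ∧ k ≤ 1 ∧ ∀ (τ : ℝ) (N : ℕ) (p q w : M), 0 < τ →
      Pth G H a δ τ N p q → Pth G H a δ τ N q w → Pth G H a δ (k * τ) N p w := by
  obtain ⟨j, hj⟩ := h.hi (X := ℝ) (δ := 2 * δ) (by positivity) (by linarith) hδ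
  have hp : a ^ j ≤ 1 := pow_le_one₀ ha.le ha1
  refine ⟨a ^ j / 2, by positivity, by linarith, ?_⟩
  rintro τ N p q w hτ ⟨γ, g0, g1, gc, gs⟩ ⟨γ', g0', g1', gc', gs'⟩
  have hc : Continuous fun t : ℝ => toL G (if t ≤ 1 / 2 then γ (2 * t) else γ' (2 * t - 1)) := by
    simp only [apply_ite (toL G)]
    refine Continuous.if_le (gc.comp (by fun_prop)) (gc'.comp (by fun_prop)) continuous_id
      continuous_const fun t ht => ?_
    have : t = 1 / 2 := ht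
    subst this
    norm_num [g1, g0']
  refine ⟨fun t => if t ≤ 1 / 2 then γ (2 * t) else γ' (2 * t - 1), by norm_num [g0],
    by norm_num [g1'], hc, ?_⟩
  have key : ∀ n, N ≤ n → ∀ t t' : ℝ, t ≤ t' → ‖t - t'‖ ≤ τ / 2 * a ^ n →
      dist (H^[n] (if t ≤ 1 / 2 then γ (2 * t) else γ' (2 * t - 1)))
        (H^[n] (if t' ≤ 1 / 2 then γ (2 * t') else γ' (2 * t' - 1))) ≤ 2 * δ := by
    intro n hn t t' htt e
    rw [Real.norm_eq_abs, abs_le] at e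
    split_ifs with c1 c2 c2
    · refine (gs n hn _ (mem_univ _) _ (mem_univ _) ?_).trans (by linarith)
      rw [Real.norm_eq_abs, abs_le]; constructor <;> linarith
    · have t1 := gs n hn (2 * t) (mem_univ _) 1 (mem_univ _) (by
        rw [Real.norm_eq_abs, abs_le]; constructor <;> linarith)
      have t2 := gs' n hn 0 (mem_univ _) (2 * t' - 1) (mem_univ _) (by
        rw [Real.norm_eq_abs, abs_le]; constructor <;> linarith)
      rw [g1] at t1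
      rw [g0'] at t2
      exact (dist_triangle _ (H^[n] q) _).trans (by linarith)
    · linarith
    · refine (gs' n hn _ (mem_univ _) _ (mem_univ _) ?_).trans (by linarith)
      rw [Real.norm_eq_abs, abs_le]; constructor <;> linarith
  have e : a ^ j / 2 * τ = τ / 2 * a ^ j := by ring
  rw [e]
  refine (hj a (τ / 2) univ (fun t => if t ≤ 1 / 2 then γ (2 * t) else γ' (2 * t - 1)) _ N ha
    (by positivity) convex_univ (fun n hn t _ t' _ e => ?_)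
    hc.continuousOn fun x _ n _ => by rw [dist_self]; positivity).2
  rcases le_total t t' with c | c
  · exact key n hn t t' c e
  · rw [dist_comm]; exact key n hn t' t c (by rwa [norm_sub_rev])

/-- Close points of a stable leaf are joined by a path of a fixed size. -/
theorem Smale.pth_lp (h : Smale G H S U ε C a1 a2 b1 b2) (hδ : 0 < δ) (hδε : δ ≤ ε) :
    ∃ τ : ℝ, 0 < τ ∧ ∀ p q : M, C * ds G p q ≤ ε → Pth G H a1 δ τ 0 p q := by
  obtain ⟨τ, hτ, hs⟩ := h.hs.sh_of_lip (X := ℝ) h.one_le hδ hδε h.ε_pos one_pos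
  refine ⟨τ, hτ, fun p q hpq => ?_⟩
  obtain ⟨σ, s0, s1, s2⟩ := h.hs.lp p q hpq
  have s3 : ∀ t t', ds G (σ t) (σ t') ≤ ε * ‖t - t'‖ := fun t t' =>
    (s2 t t').trans (by rw [Real.norm_eq_abs]; gcongr)
  refine ⟨σ, s0, s1, (LipschitzWith.of_dist_le_mul (K := ⟨ε, h.ε_pos.le⟩) fun t t' => ?_).continuous,
    (hs univ σ fun t _ t' _ _ => s3 t t').shN 0⟩
  rw [dist_toL, dist_eq_norm]
  exact s3 t t'

/-- A whole path is small after a time that depends on its size only. -/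
theorem Smale.pth_level' (h : Smale G H S U ε C a1 a2 b1 b2) (hδ : 0 < δ) (hδε : 4 * C * δ ≤ ε)
    (ha : 0 < a) (ha1 : a ≤ 1) (hτ : 0 < τ) {δ' : ℝ} (hδ' : 0 < δ') (N : ℕ) :
    ∃ m : ℕ, ∀ γ : ℝ → M, ContinuousOn (fun t => toL G (γ t)) (closedBall 0 1) →
      ShN H a δ τ N (closedBall 0 1) γ →
      ∀ t ∈ closedBall (0 : ℝ) 1, ds G (G^[m] (γ 0)) (G^[m] (γ t)) ≤ δ' := by
  obtain ⟨m, hm⟩ := h.row' (X := ℝ) (R := 1) ha ha1 hτ hδ hδε hδ' N
  exact ⟨m, fun γ hc hs => hm 1 le_rfl γ γ (hs N le_rfl) hc fun x _ => by simpa using hδ.le⟩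

theorem Smale.pth_level (h : Smale G H S U ε C a1 a2 b1 b2) (hδ : 0 < δ) (hδε : 4 * C * δ ≤ ε)
    (ha : 0 < a) (ha1 : a ≤ 1) (hτ : 0 < τ) {δ' : ℝ} (hδ' : 0 < δ') (N : ℕ) :
    ∃ m : ℕ, ∀ p q : M, Pth G H a δ τ N p q → ds G (G^[m] p) (G^[m] q) ≤ δ' := by
  obtain ⟨m, hm⟩ := h.pth_level' hδ hδε ha ha1 hτ hδ' N
  refine ⟨m, fun p q ⟨γ, h0, h1, hc, hs⟩ => ?_⟩
  rw [← h0, ← h1]
  exact hm γ hc.continuousOn (hs.mono ha.le le_rfl le_rfl le_rfl (subset_univ _)) 1 (by simp)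

/-- Contraction of stable distances below any bound. -/
theorem Smale.shrink (h : Smale G H S U ε C a1 a2 b1 b2) {θ : ℝ} (hθ : 0 < θ) :
    ∃ j : ℕ, ∀ n, j ≤ n → ∀ p q, ds G p q ≤ ε → ds G (G^[n] p) (G^[n] q) ≤ θ := by
  have hC := h.one_le
  have hε := h.ε_pos
  have ha2 : 0 ≤ a2 := h.hs.a1_pos.le.trans h.hs.a12
  obtain ⟨j, hj⟩ := exists_pow_le (K := C * ε) (by positivity) ha2 h.hs.a2_lt hθ 0
  refine ⟨j, fun n hn p q hpq => (ds_iterate_mono G p q hn).trans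
    ((h.hs.s2 p q j hpq).trans (le_trans ?_ hj))⟩
  rw [zero_add]
  calc C * a2 ^ j * ds G p q ≤ C * a2 ^ j * ε := by gcongr
    _ = _ := by ring

/-- Backward iterates are uniformly continuous for the stable distance. -/
theorem Inv.unif_ds (hi : Inv G H) (n : ℕ) {θ : ℝ} (hθ : 0 < θ) :
    ∃ η : ℝ, 0 < η ∧ ∀ p q, ds G p q ≤ η → ds G (H^[n] p) (H^[n] q) ≤ θ := by
  induction n generalizing θ with
  | zero => exact ⟨θ, hθ, fun _ _ e => e⟩
  | succ n ih =>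
    obtain ⟨η, h1, h2⟩ := Metric.uniformContinuous_iff_le.1
      (CompactSpace.uniformContinuous_of_continuous hi.cH) θ hθ
    obtain ⟨η', h3, h4⟩ := ih (lt_min h1 hθ)
    refine ⟨η', h3, fun p q e => ?_⟩
    have t := h4 p q e
    simp only [Function.iterate_succ_apply']
    refine (ds_le_max G _ _).trans (max_le ?_ ?_)
    · exact h2 ((dist_le_ds G _ _).trans (t.trans (min_le_left _ _)))
    · rw [hi.GH, hi.GH]; exact t.trans (min_le_right _ _)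

/-- Uniqueness of lifts along the stable leaves, at level `n`. -/
theorem Smale.uniqN (h : Smale G H S U ε C a1 a2 b1 b2) {Z : Type*} [TopologicalSpace Z]
    {s : Set Z} (hs : IsPreconnected s) {e e' : Z → M}
    (he : ContinuousOn (fun z => toL G (e z)) s) (he' : ContinuousOn (fun z => toL G (e' z)) s)
    {z0 : Z} (h0 : z0 ∈ s) (h00 : e z0 = e' z0) {n : ℕ}
    (hd : ∀ z ∈ s, ds H (H^[n] (e z)) (H^[n] (e' z)) ≤ ε) {z : Z} (hz : z ∈ s) : e z = e' z :=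
  h.inv.symm.Gn_inj n (h.uniq hs (e := fun z => H^[n] (e z)) (e' := fun z => H^[n] (e' z))
    ((h.inv.continuous_Lf_H n).comp_continuousOn he)
    ((h.inv.continuous_Lf_H n).comp_continuousOn he') h0 (by simp only [h00]) hd hz)

theorem Pth.wk (h : Pth H G b δ τ 0 p q) (hτ : 0 < τ) : Wk G H b δ p q := ⟨τ, hτ, h⟩

theorem Wk.refl (hδ : 0 ≤ δ) (p : M) : Wk G H b δ p p := ⟨1, one_pos, Pth.refl hδ p⟩

theorem Wk.symm (h : Wk G H b δ p q) : Wk G H b δ q p := h.imp fun _ h => ⟨h.1, h.2.symm⟩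

theorem Pin.wk_trans (h : Pin G H S U ε C a1 a2 b1 b2 b δ) (h1 : Wk G H b δ p q)
    (h2 : Wk G H b δ q w) : Wk G H b δ p w := by
  obtain ⟨d0, d1, d2, d3⟩ := h.Cδ
  obtain ⟨k, k0, -, hk⟩ := h.sm.symm.pth_trans d0 (by linarith) h.b_pos h.b_lt.le
  obtain ⟨τ, t0, h1⟩ := h1
  obtain ⟨τ', t1, h2⟩ := h2
  exact ⟨_, by positivity, hk (min τ τ') 0 p q w (lt_min t0 t1)
    (h1.mono h.b_pos.le (min_le_left _ _) le_rfl) (h2.mono h.b_pos.le (min_le_right _ _) le_rfl)⟩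

theorem Pin.wk_G (h : Pin G H S U ε C a1 a2 b1 b2 b δ) (h1 : Wk G H b δ p q) (n : ℕ) :
    Wk G H b δ (G^[n] p) (G^[n] q) := by
  obtain ⟨τ, t0, h1⟩ := h1
  have := h.b_pos
  exact ⟨_, by positivity, h1.shift h.sm.inv.symm n⟩

theorem Pin.wk_of_pth (h : Pin G H S U ε C a1 a2 b1 b2 b δ) (hτ : 0 < τ)
    (h1 : Pth H G b δ τ N p q) : Wk G H b δ p q := by
  obtain ⟨d0, d1, d2, d3⟩ := h.Cδ
  obtain ⟨j, hj⟩ := h.sm.symm.pth_zero d0 (by linarith)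
  have := h.b_pos
  exact ⟨_, by positivity, hj b τ _ _ _ h.b_pos hτ h1⟩

theorem Pin.wk_H (h : Pin G H S U ε C a1 a2 b1 b2 b δ) (h1 : Wk G H b δ p q) (n : ℕ) :
    Wk G H b δ (H^[n] p) (H^[n] q) := by
  obtain ⟨τ, t0, h1⟩ := h1
  exact h.wk_of_pth t0 (h1.back h.sm.inv.symm h.b_pos.le h.b_lt.le t0.le n)

theorem Pin.wk_of_G (h : Pin G H S U ε C a1 a2 b1 b2 b δ) {n : ℕ}
    (h1 : Wk G H b δ (G^[n] p) (G^[n] q)) : Wk G H b δ p q := by
  simpa only [h.sm.inv.HGn] using h.wk_H h1 n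

theorem Pin.wk_of_H (h : Pin G H S U ε C a1 a2 b1 b2 b δ) {n : ℕ}
    (h1 : Wk G H b δ (H^[n] p) (H^[n] q)) : Wk G H b δ p q := by
  simpa only [h.sm.inv.GHn] using h.wk_G h1 n

theorem WL.sh {L : ℝ} {γ : ℝ → M} (h : WL G b L γ) (hb : 0 < b) (hL : 0 < L) :
    Sh G b δ (δ / L) univ γ := fun n t _ t' _ e => by
  refine le_of_mul_le_mul_left ((h n t t').trans ?_) (pow_pos hb n)
  rw [Real.norm_eq_abs] at e
  calc L * |t - t'| ≤ L * (δ / L * b ^ n) := by gcongr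
    _ = _ := by field_simp

theorem Pr.mono (h : Pr G H a b δ τ p q) (ha : 0 ≤ a) (hb : 0 ≤ b) (hτ : τ' ≤ τ) :
    Pr G H a b δ τ' p q := h.imp fun _ h => ⟨h.1.mono ha hτ le_rfl, h.2.mono hb hτ le_rfl⟩

theorem Pr.of_s (hδ : 0 ≤ δ) (h : Pth G H a δ τ 0 p q) : Pr G H a b δ τ p q :=
  ⟨q, h, Pth.refl hδ q⟩

theorem Pr.of_w (hδ : 0 ≤ δ) (h : Pth H G b δ τ 0 p q) : Pr G H a b δ τ p q :=
  ⟨p, Pth.refl hδ p, h⟩

theorem Lam.label_le {V : M → ℝ → M} {Λ : M → M → ℝ} {K r : ℝ} (h : Lam G H V Λ K r b δ) {x : M}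
    (hp : ds H x p ≤ r) : |Λ x p| ≤ K * ds H x p := by
  have hK := h.one_le
  have hr := h.r_pos
  simpa [h.v0] using h.l1 x p 0 hp (by simp; positivity)

/-- Points of a box have the same label if and only if they are in the same weak class. -/
theorem Pin.label_eq (h : Pin G H S U ε C a1 a2 b1 b2 b δ) {V : M → ℝ → M} {Λ : M → M → ℝ}
    {K r : ℝ} (hl : Lam G H V Λ K r b δ) {x : M} (hp : ds H x p ≤ r) (hq : ds H x q ≤ r)
    (hw : Wk G H b δ p q) : Λ x p = Λ x q := by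
  have hK := hl.one_le
  obtain ⟨τ, t0, h3⟩ := hl.l3
  exact hl.u x _ _ ((hl.label_le hp).trans (by gcongr)) ((hl.label_le hq).trans (by gcongr))
    (h.wk_trans ((h3 x p hp).wk t0).symm (h.wk_trans hw ((h3 x q hq).wk t0)))

theorem Pin.pth_of_label (h : Pin G H S U ε C a1 a2 b1 b2 b δ) {V : M → ℝ → M} {Λ : M → M → ℝ}
    {K r : ℝ} (hl : Lam G H V Λ K r b δ) : ∃ τ : ℝ, 0 < τ ∧ ∀ x p q, ds H x p ≤ r → ds H x q ≤ r →
      Λ x p = Λ x q → Pth H G b δ τ 0 p q := by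
  obtain ⟨d0, d1, d2, d3⟩ := h.Cδ
  obtain ⟨k, k0, -, hk⟩ := h.sm.symm.pth_trans d0 (by linarith) h.b_pos h.b_lt.le
  obtain ⟨τ, t0, h3⟩ := hl.l3
  exact ⟨_, by positivity, fun x p q hp hq e =>
    hk τ 0 p _ q t0 (h3 x p hp) (e ▸ (h3 x q hq).symm)⟩

end Pool.Agent.P.MP_0a0487_an
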