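import Pool.Agent.P.MP_0a0487_an.FrameAtlas
import Pool.Agent.P.MP_0a0487_an.Path

/-!
Plaque coordinates with weak Euler steps, from first order data.
-/

set_option autoImplicit false

open Set Metric Filter Topology Module

namespace Pool.Agent.P.MP_0a0487_an

variable {M : Type*} [MetricSpace M] [CompactSpace M]
  {S U : Type*} [NormedAddCommGroup S] [NormedAddCommGroup U] [NormedSpace ℝ S]
  [NormedSpace ℝ U] {G H : M → M}

/-- Stable plaques are tangent to the first factor. -/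
theorem Atlas.slope {κ : M → M → S × U} {K ρ0 ρ1 l1 l2 m2 m1 : ℝ}
    (h : Atlas G H κ K ρ0 ρ1 l1 l2 m2 m1) {θ : ℝ} (hθ : 0 < θ) :
    ∃ ρ : ℝ, 0 < ρ ∧ ∀ a a', ds G a a' ≤ ρ → ‖(κ a a').2‖ ≤ θ * ‖(κ a a').1‖ := by
  have p1 := h.l2_lt
  have p2 := h.m2_gt
  obtain ⟨η, e0, e1, e2, e3⟩ : ∃ η : ℝ, 0 < η ∧ l2 + η < 1 ∧ 1 + η < m2 ∧ η ≤ θ / 2 * (m2 - 1) := by
    have q : 0 < θ / 2 * (m2 - 1) := mul_pos (by positivity) (by linarith)
    refine ⟨min (min ((1 - l2) / 2) ((m2 - 1) / 2)) (θ / 2 * (m2 - 1)),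
      lt_min (lt_min (by linarith) (by linarith)) q, ?_, ?_, min_le_right _ _⟩
    · have := (min_le_left (min ((1 - l2) / 2) ((m2 - 1) / 2)) (θ / 2 * (m2 - 1))).trans
        (min_le_left _ _)
      linarith
    · have := (min_le_left (min ((1 - l2) / 2) ((m2 - 1) / 2)) (θ / 2 * (m2 - 1))).trans
        (min_le_right _ _)
      linarith
  obtain ⟨τ, ρ, r, hl⟩ := h.loc e0 e1 e2
  have hρ := hl.ρ_pos
  have z : ∀ a, ds G a a ≤ ρ := fun a => by simpa using hρ.le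
  have key : ∀ i : ℕ, ∀ a a', ds G a a' ≤ ρ → ‖(κ a a').2‖ ≤ (θ / 2 + m2⁻¹ ^ i) * ‖κ a a'‖ := by
    intro i
    induction i with
    | zero =>
      intro a a' _
      have := norm_snd_le (κ a a')
      have : 0 ≤ θ / 2 * ‖κ a a'‖ := by positivity
      simp only [pow_zero]
      linarith
    | succ i ih =>
      intro a a' ha
      have t1 := ih (G a) (G a') ((ds_iterate_le G a a' 1).trans ha)
      have t2 := (hl.orbit ha (z a) 0).2.2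
      obtain ⟨As, Au, hA, hab⟩ := hl.hyp a (G a) (by simpa using hρ.le)
      have t3 := step_snd (hab a' a (by rw [dist_comm]; exact (dist_le_ds G _ _).trans ha)
        (by simpa using hρ.le))
      simp only [Function.iterate_zero_apply, zero_add, Function.iterate_one, hl.self,
        sub_zero] at t2 t3
      have t4 := hA.u2 (κ a a').2
      have t5 := norm_le_insert (κ (G a) (G a')).2 (Au (κ a a').2)
      have t6 : ‖κ (G a) (G a')‖ ≤ ‖κ a a'‖ :=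
        t2.trans (mul_le_of_le_one_left (norm_nonneg _) e1.le)
      have p3 : 0 < m2 := by linarith
      have t7 : (θ / 2 + m2⁻¹ ^ i) * ‖κ (G a) (G a')‖ ≤ (θ / 2 + m2⁻¹ ^ i) * ‖κ a a'‖ := by gcongr
      have t8 : η * ‖κ a a'‖ ≤ θ / 2 * (m2 - 1) * ‖κ a a'‖ := by gcongr
      refine le_of_mul_le_mul_left ?_ p3
      have : m2 * ((θ / 2 + m2⁻¹ ^ (i + 1)) * ‖κ a a'‖) =
          (θ / 2 + m2⁻¹ ^ i) * ‖κ a a'‖ + θ / 2 * (m2 - 1) * ‖κ a a'‖ := by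
        rw [pow_succ]; field_simp; ring
      linarith
  refine ⟨ρ, hρ, fun a a' ha => ?_⟩
  obtain ⟨i, hi⟩ := exists_pow_lt_of_lt_one (half_pos hθ) (inv_lt_one_of_one_lt₀ p2)
  have t1 := hl.o1 ha (z a)
  simp only [hl.self, sub_zero, Prod.fst_zero] at t1
  refine (key i a a' ha).trans ?_
  rw [t1]
  gcongr
  linarith

variable {T : M → Type*} [∀ x, NormedAddCommGroup (T x)] [∀ x, InnerProductSpace ℝ (T x)]
  [∀ x, FiniteDimensional ℝ (T x)]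
  {E' : Type*} [NormedAddCommGroup E'] [InnerProductSpace ℝ E'] [FiniteDimensional ℝ E']
  {e : M → E'} {ι : ∀ x, T x →ₗ[ℝ] E'} {D : ∀ x, T x →ₗ[ℝ] T (G x)}
  {P P' : ∀ x, T x →ₗ[ℝ] T x} {Q : ∀ x, E' →ₗ[ℝ] T x} {K : ℝ} {L : ∀ x, T x ≃ₗ[ℝ] S × U}

theorem Bounds.transfer {G' : M → M} {D' : ∀ x, T x →ₗ[ℝ] T (G' x)} {Q' : ∀ x, E' →ₗ[ℝ] T x}
    {K' : ℝ} (b : Bounds ι D P Q K) (b' : Bounds ι D' P' Q' K') : Bounds ι D' P' Q (K * K') := by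
  have h1 := b.one_le
  have h2 := b'.one_le
  have h3 : K ≤ K * K' := le_mul_of_one_le_right (by linarith) h2
  have h4 : K' ≤ K * K' := le_mul_of_one_le_left (by linarith) h1
  exact ⟨h1.trans h3, fun x v => (b'.b1 x v).trans (by gcongr),
    fun x v => (b'.b2 x v).trans (by gcongr), fun x v => (b'.b3 x v).trans (by gcongr),
    fun x v => (b'.b4 x v).trans (by gcongr), b.q1, fun x v => (b.q2 x v).trans (by gcongr)⟩

/-- The linear algebra of one Euler step. -/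
theorem euler_lin [FiniteDimensional ℝ U] {V W : Type*} [NormedAddCommGroup V] [NormedSpace ℝ V]
    [NormedAddCommGroup W] [NormedSpace ℝ W] {J : V →ₗ[ℝ] W} {p p' : V →ₗ[ℝ] V} {q q' : W →ₗ[ℝ] W}
    {A : V ≃ₗ[ℝ] S × U} {B : W ≃ₗ[ℝ] S × U} {K η : ℝ} (hK : 1 ≤ K) (hη : 12 * K * η ≤ 1)
    (hη0 : 0 ≤ η) (hA : ∀ v, ‖(A v).1‖ = ‖p v‖ ∧ ‖(A v).2‖ = ‖v - p v‖)
    (hB : ∀ w, ‖(B w).2‖ = ‖w - q w‖) (j1 : ∀ v, (1 - η) * ‖v‖ ≤ ‖J v‖)
    (j2 : ∀ v, ‖J v‖ ≤ (1 + η) * ‖v‖) (j3 : ∀ v, ‖q (J v) - J (p v)‖ ≤ η * ‖v‖)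
    (j4 : ∀ v, ‖q' (J v) - J (p' v)‖ ≤ η * ‖v‖) (k1 : ∀ v, ‖p' v‖ ≤ K * ‖v‖)
    (k2 : ∀ w, ‖q' w‖ ≤ K * ‖w‖) (i1 : ∀ v, p' (p' v) = p' v) {n : V} {n' : W} (n1 : ‖n‖ = 1)
    (n2 : ∀ v, p' v = 0 → ∃ c : ℝ, v = c • n) (n3 : ‖n'‖ = 1) (n4 : q n' = 0) (n5 : q' n' = 0) :
    (∀ v, p v = 0 → ‖v‖ ≤ 2 * ‖(B (J v)).2‖) ∧ ∀ ζ : U, ∃ (c : ℝ) (v : V), |c| ≤ 16 * K * ‖ζ‖ ∧
      p v = 0 ∧ p' v = v ∧ ‖v‖ ≤ 34 * K * ‖ζ‖ ∧ (B (J v)).2 = ζ + c • (B n').2 := by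
  have η1 : 12 * η ≤ 1 := by nlinarith
  have low : ∀ v, p v = 0 → ‖v‖ ≤ 2 * ‖(B (J v)).2‖ := by
    intro v hv
    have t1 := j3 v
    rw [hv, map_zero, sub_zero] at t1
    have t2 := norm_le_insert' (J v) (q (J v))
    have t3 := j1 v
    have t4 : η * ‖v‖ ≤ 1 / 12 * ‖v‖ := by gcongr; linarith
    have := norm_nonneg v
    rw [hB]
    linarith
  refine ⟨low, ?_⟩
  have w1 : ∀ u, p (A.symm (0, u)) = 0 := fun u => by
    have := (hA (A.symm (0, u))).1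
    rw [LinearEquiv.apply_symm_apply] at this
    exact norm_eq_zero.1 (this.symm.trans norm_zero)
  have w2 : ∀ u, ‖A.symm (0, u)‖ = ‖u‖ := fun u => by
    have := (hA (A.symm (0, u))).2
    rw [LinearEquiv.apply_symm_apply, w1, sub_zero] at this
    exact this.symm
  obtain ⟨F, hF⟩ := exists_equiv (LinearMap.snd ℝ S U ∘ₗ B.toLinearMap ∘ₗ J ∘ₗ
    A.symm.toLinearMap ∘ₗ LinearMap.inr ℝ S U) (l := 1 / 2) (by norm_num) fun u => by
      have := low _ (w1 u)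
      rw [w2] at this
      change 1 / 2 * ‖u‖ ≤ ‖(B (J (A.symm (0, u)))).2‖
      linarith
  have sur : ∀ ζ : U, ∃ v, p v = 0 ∧ (B (J v)).2 = ζ ∧ ‖v‖ ≤ 2 * ‖ζ‖ := fun ζ => by
    have t : (B (J (A.symm (0, F.symm ζ)))).2 = ζ := (hF (F.symm ζ)).symm.trans (by simp)
    exact ⟨_, w1 _, t, by simpa only [t] using low _ (w1 (F.symm ζ))⟩
  obtain ⟨v2, a1, a2, a3⟩ := sur (B n').2
  rw [hB, n4, sub_zero, n3] at a3
  obtain ⟨c2, hc2⟩ := n2 (v2 - p' v2) (by rw [map_sub, i1, sub_self])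
  have b1 : ‖J v2 - n'‖ ≤ 2 * η := by
    have t1 := hB (J v2 - n')
    rw [map_sub, Prod.snd_sub, a2, sub_self, norm_zero, map_sub, n4, sub_zero] at t1
    rw [sub_eq_zero.1 (norm_eq_zero.1 t1.symm)]
    have t2 := j3 v2
    rw [a1, map_zero, sub_zero] at t2
    exact t2.trans (by nlinarith)
  have b2 : 1 / 4 ≤ |c2| := by
    have t1 := k2 (J v2 - n')
    rw [map_sub, n5, sub_zero] at t1
    have t2 : K * ‖J v2 - n'‖ ≤ K * (2 * η) := by gcongr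
    have t3 := norm_le_insert (q' (J v2)) (J (p' v2))
    have t4 : η * ‖v2‖ ≤ η * (2 * 1) := by gcongr
    have t5 := norm_le_insert (J v2) n'
    have t6 := norm_le_insert' (J v2) (J (p' v2))
    have t7 := j2 (v2 - p' v2)
    rw [map_sub, hc2, norm_smul, n1, mul_one, Real.norm_eq_abs] at t7
    have t8 : (1 + η) * |c2| ≤ 2 * |c2| := by gcongr; linarith
    have t9 : η ≤ K * η := le_mul_of_one_le_left hη0 hK
    linarith [j4 v2]
  have b3 : c2 ≠ 0 := by rintro rfl; norm_num at b2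
  intro ζ
  obtain ⟨v1, d1, d2, d3⟩ := sur ζ
  obtain ⟨c1, hc1⟩ := n2 (v1 - p' v1) (by rw [map_sub, i1, sub_self])
  have z0 := norm_nonneg ζ
  have e1 : |c1| ≤ 4 * K * ‖ζ‖ := by
    have t1 := norm_sub_le v1 (p' v1)
    rw [hc1, norm_smul, n1, mul_one, Real.norm_eq_abs] at t1
    have t2 : K * ‖v1‖ ≤ K * (2 * ‖ζ‖) := by gcongr
    have t3 : ‖ζ‖ ≤ K * ‖ζ‖ := le_mul_of_one_le_left z0 hK
    linarith [k1 v1]
  have e2 : |-c1 / c2| ≤ 16 * K * ‖ζ‖ := by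
    rw [abs_div, abs_neg, div_le_iff₀ (by linarith)]
    calc |c1| ≤ 16 * K * ‖ζ‖ * (1 / 4) := by linarith
      _ ≤ _ := by gcongr
  refine ⟨-c1 / c2, v1 + (-c1 / c2) • v2, e2, by simp [d1, a1], ?_, ?_, by simp [d2, a2]⟩
  · refine (sub_eq_zero.1 ?_).symm
    have : v1 + (-c1 / c2) • v2 - p' (v1 + (-c1 / c2) • v2) =
        (v1 - p' v1) + (-c1 / c2) • (v2 - p' v2) := by
      rw [map_add, map_smul, smul_sub]; abel
    rw [this, hc1, hc2, smul_smul, div_mul_cancel₀ _ b3, ← add_smul, add_neg_cancel, zero_smul]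
  · refine (norm_add_le _ _).trans ?_
    rw [norm_smul, Real.norm_eq_abs]
    have t1 : |-c1 / c2| * ‖v2‖ ≤ 16 * K * ‖ζ‖ * (2 * 1) := by gcongr
    have t3 : ‖ζ‖ ≤ K * ‖ζ‖ := le_mul_of_one_le_left z0 hK
    linarith

theorem Frame.plq [FiniteDimensional ℝ S] [FiniteDimensional ℝ U]
    {Dn : ∀ (j : ℕ) (x : M), T x →ₗ[ℝ] T (G^[j] x)}
    (h : Frame e G ι D P) (h' : Frame e G ι D P') (hn : ∀ j, Frame e G^[j] ι (Dn j) P)
    (b : Bounds ι D P Q K) (hL : ∀ x v, ‖(L x v).1‖ = ‖P x v‖ ∧ ‖(L x v).2‖ = ‖v - P x v‖)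
    {K0 ρ0 ρ1 l1 l2 m2 m1 : ℝ}
    (ha : Atlas G H (fun x a => L x (Q x (e a - e x))) K0 ρ0 ρ1 l1 l2 m2 m1)
    (hv : ∀ x, ∃ n : T x, ‖n‖ = 1 ∧ P x n = 0 ∧ P' x n = 0 ∧ ∀ v, P' x v = 0 → ∃ c : ℝ, v = c • n)
    {w Cw : ℝ} (hw0 : 0 < w) (hw1 : w ≤ 1) (hC : 0 ≤ Cw)
    (hw : ∀ j x v, P x v = 0 → P' x v = v → w ^ j * ‖Dn j x v‖ ≤ Cw * ‖v‖) :
    ∃ (nv : M → U) (K' ρ r : ℝ), Plq G H (fun x a => (L x (Q x (e a - e x))).2) nv K' ρ r w := by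
  haveI : CompleteSpace S := FiniteDimensional.complete ℝ S
  haveI : CompleteSpace U := FiniteDimensional.complete ℝ U
  have hK := b.one_le
  have hK0 := ha.one_le
  choose n n1 n2 n3 n4 using hv
  obtain ⟨Q', K', b'⟩ := h'.bounds
  replace b' := b.transfer b'
  generalize K * K' = K2 at b'
  have hK2 := b'.one_le
  obtain ⟨η, η0, -, η1, -⟩ := small (12 * K2) one_pos (by linarith)
  obtain ⟨ρa, a0, a1⟩ := h.close b η0
  obtain ⟨ρb, b0, b1⟩ := h'.close b' η0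
  have hs := ha.symm
  have p := hs.l2_lt
  have q := hs.m2_gt
  obtain ⟨τ, ρ, r, hl⟩ := hs.loc (η := min (1 - m2⁻¹) (l2⁻¹ - 1) / 2)
    (half_pos (lt_min (by linarith) (by linarith)))
    (by have := min_le_left (1 - m2⁻¹) (l2⁻¹ - 1); linarith)
    (by have := min_le_right (1 - m2⁻¹) (l2⁻¹ - 1); linarith)
  obtain ⟨Z, hZ, hst⟩ := hl.exists_stable
  have hρ := hl.ρ_pos
  have hr := hl.r_pos
  obtain ⟨ρ', r0, r1, r2, r3⟩ : ∃ ρ' : ℝ, 0 < ρ' ∧ ρ' ≤ ρ ∧ ρ' ≤ ρa ∧ ρ' ≤ ρb :=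
    ⟨min ρ (min ρa ρb), by positivity, by simp, by simp, by simp⟩
  have lin := fun x a (hxa : ds H x a ≤ ρ') =>
    euler_lin (J := Q x ∘ₗ ι a) (A := L a) (B := L x) (p := P a) (p' := P' a) (q := P x)
      (q' := P' x) hK2 η1 η0.le (hL a) (fun w => (hL x w).2)
      (fun v => (a1 a x (((dist_le_ds H _ _).trans hxa).trans r2) v).1)
      (fun v => (a1 a x (((dist_le_ds H _ _).trans hxa).trans r2) v).2.1)
      (fun v => (a1 a x (((dist_le_ds H _ _).trans hxa).trans r2) v).2.2)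
      (fun v => (b1 a x (((dist_le_ds H _ _).trans hxa).trans r3) v).2.2)
      (b'.b3 a) (b'.b3 x) (h'.idem a) (n1 a) (n4 a) (n1 x) (n2 x) (n3 x)
  have j2 : ∀ x a, ds H x a ≤ ρ' → ∀ v, ‖Q x (ι a v)‖ ≤ 2 * ‖v‖ := fun x a hxa v =>
    (a1 a x (((dist_le_ds H _ _).trans hxa).trans r2) v).2.1.trans (by gcongr; nlinarith)
  have ex : ∀ x a ζ, ∃ (c : ℝ) (v : T a), ds H x a ≤ ρ' → |c| ≤ 16 * K2 * ‖ζ‖ ∧
      P a v = 0 ∧ P' a v = v ∧ ‖v‖ ≤ 34 * K2 * ‖ζ‖ ∧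
      (L x (Q x (ι a v))).2 = ζ + c • (L x (n x)).2 := by
    intro x a ζ
    by_cases hxa : ds H x a ≤ ρ'
    · obtain ⟨c, v, hc⟩ := (lin x a hxa).2 ζ
      exact ⟨c, v, fun _ => hc⟩
    · exact ⟨0, 0, fun h => (hxa h).elim⟩
  choose c v hcv using ex
  have unit : ∀ x, ‖(L x (n x)).2‖ = 1 := fun x => by rw [(hL x _).2, n2, sub_zero, n1]
  have anti : ∀ x a a', ds H x a ≤ ρ' → ds H x a' ≤ ρ' →
      ds H a a' ≤ K0 * ‖(L x (Q x (e a - e x))).2 - (L x (Q x (e a' - e x))).2‖ :=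
    fun x a a' h1 h2 => by simpa using hl.o2 (h1.trans r1) (h2.trans r1) 0
  have L2 : ∀ x v, ‖(L x v).2‖ ≤ 2 * (K * ‖v‖) := fun x v => by
    have t1 := b.b3 x v
    have t2 := norm_sub_le v (P x v)
    have t3 : ‖v‖ ≤ K * ‖v‖ := le_mul_of_one_le_left (norm_nonneg _) hK
    rw [(hL x v).2]
    linarith
  have one : ∀ j : ℕ, ∃ t : ℝ, 0 < t ∧ ∀ x a ζ, ds H x a ≤ ρ' → ‖ζ‖ ≤ t → ∀ a', ds H x a' ≤ ρ' →
      (L x (Q x (e a' - e x))).2 = (L x (Q x (e a - e x))).2 + ζ + c x a ζ • (L x (n x)).2 →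
      w ^ j * dist (G^[j] a) (G^[j] a') ≤ (K * Cw * (34 * K2) + 1) * ‖ζ‖ := by
    intro j
    obtain ⟨Qj, Kj, bj⟩ := (hn j).bounds
    replace bj := b.transfer bj
    generalize K * Kj = K3 at bj
    have hK3 := bj.one_le
    have k3 : 1 ≤ K ^ 3 := one_le_pow₀ hK
    obtain ⟨K4, hK4⟩ : ∃ K4, K4 = K0 * (17 * K2) := ⟨_, rfl⟩
    have k4 : 1 ≤ K4 := by rw [hK4]; nlinarith
    obtain ⟨θ, θ0, -, θ1, -⟩ := small (23 * K3 * K ^ 3 * K4) one_pos (by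
      have : 1 ≤ K3 * K ^ 3 := one_le_mul_of_one_le_of_one_le hK3 k3
      nlinarith)
    obtain ⟨ρc, c0, c1⟩ := (hn j).approx bj θ0
    obtain ⟨ρd, d0, d1⟩ := hs.slope θ0
    refine ⟨min ρc ρd / K4, by positivity, fun x a ζ hxa hζ a' hxa' hκ => ?_⟩
    obtain ⟨f1, f2, f3, f4, f5⟩ := hcv x a ζ hxa
    generalize c x a ζ = c at f1 f5 hκ
    generalize v x a ζ = v at f2 f3 f4 f5
    have z0 := norm_nonneg ζ
    have g1 : ds H a a' ≤ K4 * ‖ζ‖ := by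
      rw [ds_comm]
      refine (anti x a' a hxa' hxa).trans ?_
      rw [hκ, add_assoc, add_sub_cancel_left, hK4, mul_assoc]
      gcongr
      refine (norm_add_le _ _).trans ?_
      rw [norm_smul, unit, mul_one, Real.norm_eq_abs]
      have : ‖ζ‖ ≤ K2 * ‖ζ‖ := le_mul_of_one_le_left z0 hK2
      linarith
    have g2 : ds H a a' ≤ min ρc ρd := g1.trans ((le_div_iff₀' (by positivity)).1 hζ)
    obtain ⟨u1, u2⟩ := c1 a a' a (by
      rw [dist_comm]; exact (dist_le_ds H _ _).trans (g2.trans (min_le_left _ _)))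
      (by simpa using c0.le)
    have u3 : ‖(L a (Q a (e a' - e a))).1‖ ≤ θ * ‖(L a (Q a (e a' - e a))).2‖ :=
      d1 a a' (g2.trans (min_le_right _ _))
    have u4 : (L x (Q x (e a' - e a))).2 = (L x (Q x (ι a v))).2 := by
      have : e a' - e a = (e a' - e x) - (e a - e x) := by abel
      rw [f5, this, map_sub, map_sub, Prod.snd_sub, hκ, add_assoc, add_sub_cancel_left]
    have u5 : ‖e a' - e a‖ ≤ K4 * ‖ζ‖ := by
      rw [← h.dist_eq, dist_comm]; exact (dist_le_ds H _ _).trans g1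
    rw [dist_comm, h.dist_eq]
    generalize e a' - e a = z at u1 u2 u3 u4 u5
    have u6 := b.q2 a z
    generalize Q a z = v' at u1 u2 u3 u6
    have zz := norm_nonneg z
    have s1 : ‖P a v'‖ ≤ θ * (2 * (K * (K * ‖z‖))) := by
      rw [(hL a v').1] at u3
      exact u3.trans (by gcongr; exact (L2 a v').trans (by gcongr))
    have s2 := (lin x a hxa).1 (v' - P a v' - v) (by rw [map_sub, map_sub, h.idem, f2]; simp)
    have s3 : (L x ((Q x ∘ₗ ι a) (v' - P a v' - v))).2 =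
        -(L x (Q x (z - ι a v'))).2 - (L x (Q x (ι a (P a v')))).2 := by
      simp only [LinearMap.comp_apply, map_sub, Prod.snd_sub, u4]
      abel
    rw [s3] at s2
    have s4 := norm_sub_le (-(L x (Q x (z - ι a v'))).2) (L x (Q x (ι a (P a v')))).2
    rw [norm_neg] at s4
    have s5 : ‖(L x (Q x (z - ι a v'))).2‖ ≤ 2 * (K * (K * (θ * ‖z‖))) :=
      (L2 _ _).trans (by gcongr; exact (b.q2 _ _).trans (by gcongr))
    have s6 : ‖(L x (Q x (ι a (P a v')))).2‖ ≤ 2 * (K * (2 * (θ * (2 * (K * (K * ‖z‖)))))) :=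
      (L2 _ _).trans (by gcongr; exact (j2 x a hxa _).trans (by gcongr))
    have s7 : ‖v' - v‖ ≤ ‖v' - P a v' - v‖ + ‖P a v'‖ := by
      have : v' - v = (v' - P a v' - v) + P a v' := by abel
      exact (congrArg norm this).trans_le (norm_add_le _ _)
    obtain ⟨y, hy⟩ : ∃ y, y = θ * ‖z‖ := ⟨_, rfl⟩
    have y0 : 0 ≤ y := by rw [hy]; positivity
    have y1 : K ^ 2 * y ≤ K ^ 3 * y := by gcongr <;> norm_num [hK]
    have s8 : ‖v' - v‖ ≤ 22 * K ^ 3 * y := by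
      have e1 : θ * (2 * (K * (K * ‖z‖))) = 2 * (K ^ 2 * y) := by rw [hy]; ring
      have e2 : 2 * (K * (K * (θ * ‖z‖))) = 2 * (K ^ 2 * y) := by rw [hy]; ring
      have e3 : 2 * (K * (2 * (θ * (2 * (K * (K * ‖z‖)))))) = 8 * (K ^ 3 * y) := by rw [hy]; ring
      linarith
    have s9 : ‖ι (G^[j] a) (Dn j a v')‖ ≤ K * ‖Dn j a v‖ + K3 * (22 * K ^ 3 * y) := by
      have t1 := norm_le_insert' (ι (G^[j] a) (Dn j a v')) (ι (G^[j] a) (Dn j a v))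
      rw [← map_sub, ← map_sub] at t1
      have t2 := (bj.b4 a (v' - v)).trans (mul_le_mul_of_nonneg_left s8 (by linarith))
      linarith [b.b2 (G^[j] a) (Dn j a v)]
    have s10 := norm_le_insert' (e (G^[j] a') - e (G^[j] a)) (ι (G^[j] a) (Dn j a v'))
    have s11 : y + K3 * (22 * K ^ 3 * y) ≤ ‖ζ‖ := by
      have t1 : y ≤ K3 * K ^ 3 * y :=
        le_mul_of_one_le_left y0 (one_le_mul_of_one_le_of_one_le hK3 k3)
      have t2 : 23 * K3 * K ^ 3 * y ≤ 23 * K3 * K ^ 3 * (θ * (K4 * ‖ζ‖)) := by rw [hy]; gcongr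
      have t3 : 23 * K3 * K ^ 3 * K4 * θ * ‖ζ‖ ≤ 1 * ‖ζ‖ := by gcongr
      linarith
    have s12 : K * (w ^ j * ‖Dn j a v‖) ≤ K * (Cw * (34 * K2 * ‖ζ‖)) :=
      mul_le_mul_of_nonneg_left ((hw j a v f2 f3).trans (by gcongr)) (by linarith)
    have s13 : w ^ j * ‖ζ‖ ≤ ‖ζ‖ := mul_le_of_le_one_left z0 (pow_le_one₀ hw0.le hw1)
    calc w ^ j * ‖e (G^[j] a') - e (G^[j] a)‖ ≤ w ^ j * (K * ‖Dn j a v‖ + ‖ζ‖) := by
          gcongr; linarith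
      _ = K * (w ^ j * ‖Dn j a v‖) + w ^ j * ‖ζ‖ := by ring
      _ ≤ _ := by linarith
  obtain ⟨K5, k1, k2, k3, k4, k5⟩ : ∃ K5 : ℝ, 1 ≤ K5 ∧ K0 ≤ K5 ∧ K0 * Z ≤ K5 ∧ 16 * K2 ≤ K5 ∧
      K * Cw * (34 * K2) + 1 ≤ K5 := by
    have t1 : K0 ≤ K0 * Z := le_mul_of_one_le_right (by linarith) hZ
    have t2 : 0 ≤ K * Cw * (34 * K2) := by positivity
    exact ⟨K0 * Z + 16 * K2 + (K * Cw * (34 * K2) + 1), by linarith, by linarith, by linarith,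
      by linarith, by linarith⟩
  refine ⟨fun x => (L x (n x)).2, K5, ρ', min (r / Z) (ρ' / K5), k1, by positivity,
    (le_div_iff₀' (by positivity)).1 (min_le_right _ _), fun x => by simp,
    fun x a a' h1 h2 => ?_, fun x a a' h1 h2 => (anti x a a' h1 h2).trans (by gcongr),
    fun x ξ hξ => ?_, unit, fun N => ?_⟩
  · have := hl.lip x a a' (h1.trans r1) (h2.trans r1)
    exact ((norm_fst_le _).trans this).trans (by gcongr)
  · obtain ⟨a, e1, e2⟩ := hst x ξ ((le_div_iff₀' (by positivity)).1 (hξ.trans (min_le_left _ _)))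
    exact ⟨a, e2.trans (by rw [← mul_assoc]; gcongr), e1⟩
  · choose t t0 ht using one
    obtain ⟨j0, -, hj0⟩ := (Finset.range (N + 1)).exists_min_image t ⟨0, by simp⟩
    refine ⟨t j0, t0 j0, fun x a ζ hxa hζ => ⟨c x a ζ, (hcv x a ζ hxa).1.trans (by gcongr),
      fun a' hxa' hκ j hj => ?_⟩⟩
    exact (ht j x a ζ hxa (hζ.trans (hj0 j (by simp; omega))) a' hxa' hκ).trans (by gcongr)

end Pool.Agent.P.MP_0a0487_an
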