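import Pool.Agent.P.MP_0a0487_an.Defs

/-! Anosov diffeomorphisms with a given splitting. -/

set_option autoImplicit false

open Bundle
open scoped Manifold ContDiff

namespace Pool.Agent.P.MP_0a0487_an

/-- Euclidean four-space. -/
def R4 : Type := EuclideanSpace ℝ (Fin 4)

noncomputable instance R4.group : NormedAddCommGroup R4 :=
  inferInstanceAs (NormedAddCommGroup (EuclideanSpace ℝ (Fin 4)))

noncomputable instance R4.space : NormedSpace ℝ R4 :=
  inferInstanceAs (NormedSpace ℝ (EuclideanSpace ℝ (Fin 4)))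

variable {E : Type*} [NormedAddCommGroup E] [NormedSpace ℝ E]
  {M : Type*} [TopologicalSpace M] [ChartedSpace E M]

/-- `‖D(g ^ m) v‖ ≤ C * l ^ m * ‖v‖` for all `v` in `A` and all `m ≥ 1`. -/
def Contracts [RiemannianBundle (fun x : M => TangentSpace 𝓘(ℝ, E) x)] (g : M → M)
    (A : SubField E M) (C l : ℝ) : Prop :=
  ∀ m : ℕ, 1 ≤ m → ∀ x, ∀ v ∈ A x, len (Df g^[m] v) ≤ C * l ^ m * len v

/-- The smooth diffeomorphism `f` is Anosov, with stable bundle of rank `k`. -/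
def IsAnosov [IsManifold 𝓘(ℝ, E) ∞ M] [RiemannianBundle (fun x : M => TangentSpace 𝓘(ℝ, E) x)]
    (f : M ≃ₘ^∞⟮𝓘(ℝ, E), 𝓘(ℝ, E)⟯ M) (k : ℕ) : Prop :=
  ∃ Es Eu : SubField E M, IsSplitting Es Eu ∧ Invariant f Es ∧ Invariant f Eu ∧
    (∀ x, Module.finrank ℝ (Es x) = k) ∧
    ∃ C l : ℝ, 0 < C ∧ 0 < l ∧ l < 1 ∧ Contracts f Es C l ∧ Contracts f.symm Eu C l

end Pool.Agent.P.MP_0a0487_an
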