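import Pool.Agent.P.MP_0a0487_an.Lift

/-!
If no weak class is open, the weak classes have continuous labels.
-/

set_option autoImplicit false

open Set Metric Filter Topology

namespace Pool.Agent.P.MP_0a0487_an

variable {M : Type*} [MetricSpace M] [CompactSpace M]
  {G H : M → M} {S U : Type*} [NormedAddCommGroup S] [NormedAddCommGroup U]
  {ε C a1 a2 b1 b2 b δ : ℝ}
  [NormedSpace ℝ U] {κ : M → M → U} {nv : M → U} {K ρ r : ℝ}

/-- A weak lift of a segment of direction `ζ` in the plaque of `x`. -/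
def LabL (G H : M → M) (κ : M → M → U) (nv : M → U) (ρ b : ℝ) (x : M) (γ : ℝ → M) (ζ : U) :
    Prop :=
  (∀ t, ds H x (γ t) ≤ ρ) ∧ (∃ L, WL G b L γ) ∧
    ∀ t ∈ Icc (0 : ℝ) 1, ∃ c : ℝ, κ x (γ t) = κ x (γ 0) + t • ζ + c • nv x

theorem lab_inj (hq : Plq G H κ nv K ρ r b) {x a a' : M} (ha : ds H x a ≤ ρ)
    (ha' : ds H x a' ≤ ρ) (e : κ x a = κ x a') : a = a' := by
  have := hq.anti x a a' ha ha'
  rw [e, sub_self, norm_zero, mul_zero] at this
  exact dist_le_zero.1 ((dist_le_ds H a a').trans this)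

theorem lab_lip (hq : Plq G H κ nv K ρ r b) {x a a' : M} (ha : ds H x a ≤ ρ)
    (ha' : ds H x a' ≤ ρ) : ‖κ x a - κ x a'‖ ≤ K * dist a a' :=
  hq.lip x a a' (by rw [dist_comm]; exact (dist_le_ds H x a).trans ha)
    (by rw [dist_comm]; exact (dist_le_ds H x a').trans ha')

theorem lab_lip' (hq : Plq G H κ nv K ρ r b) {x a a' : M} (ha : ds H x a ≤ ρ)
    (ha' : ds H x a' ≤ ρ) : ‖κ x a - κ x a'‖ ≤ K * ds H a a' :=
  (lab_lip hq ha ha').trans
    (mul_le_mul_of_nonneg_left (dist_le_ds H a a') (zero_le_one.trans hq.one_le))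

theorem lab_norm (hq : Plq G H κ nv K ρ r b) {x a : M} (ha : ds H x a ≤ ρ) :
    ‖κ x a‖ ≤ K * ds H x a := by
  have := lab_lip' hq (x := x) (a := x) (a' := a)
    (by rw [ds_self]; exact (ds_nonneg H x a).trans ha) ha
  rwa [hq.self, zero_sub, norm_neg] at this

theorem lab_wl_mono {L L' : ℝ} {γ : ℝ → M} (h : WL G b L γ) (hL : L ≤ L') : WL G b L' γ :=
  fun j t t' => (h j t t').trans (mul_le_mul_of_nonneg_right hL (abs_nonneg _))

theorem lab_wlκ (hq : Plq G H κ nv K ρ r b) {x : M} {γ : ℝ → M} {L : ℝ}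
    (hB : ∀ t, ds H x (γ t) ≤ ρ) (hw : WL G b L γ) (t t' : ℝ) :
    ‖κ x (γ t) - κ x (γ t')‖ ≤ K * L * |t - t'| := by
  have h1 := hw 0 t t'
  simp only [pow_zero, one_mul, Function.iterate_zero, id] at h1
  rw [mul_assoc]
  exact (lab_lip hq (hB t) (hB t')).trans
    (mul_le_mul_of_nonneg_left h1 (zero_le_one.trans hq.one_le))

theorem lab_wldu (hq : Plq G H κ nv K ρ r b) {x : M} {γ : ℝ → M} {L : ℝ}
    (hB : ∀ t, ds H x (γ t) ≤ ρ) (hw : WL G b L γ) (t t' : ℝ) :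
    ds H (γ t) (γ t') ≤ K * (K * L) * |t - t'| := by
  rw [mul_assoc]
  exact (hq.anti x _ _ (hB t) (hB t')).trans
    (mul_le_mul_of_nonneg_left (lab_wlκ hq hB hw t t') (zero_le_one.trans hq.one_le))

theorem lab_cont (hq : Plq G H κ nv K ρ r b) {x : M} {γ : ℝ → M} {L : ℝ}
    (hB : ∀ t, ds H x (γ t) ≤ ρ) (hw : WL G b L γ) : Continuous fun t => toL H (γ t) :=
  (LipschitzWith.of_dist_le' (K := K * (K * L)) fun t t' => by
    rw [dist_toL, Real.dist_eq]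
    exact lab_wldu hq hB hw t t').continuous

theorem lab_contκ (hq : Plq G H κ nv K ρ r b) {x : M} {γ : ℝ → M} {L : ℝ}
    (hB : ∀ t, ds H x (γ t) ≤ ρ) (hw : WL G b L γ) : Continuous fun t => κ x (γ t) :=
  (LipschitzWith.of_dist_le' (K := K * L) fun t t' => by
    rw [dist_eq_norm, Real.dist_eq]
    exact lab_wlκ hq hB hw t t').continuous

theorem lab_wk (h : Pin G H S U ε C a1 a2 b1 b2 b δ) (hq : Plq G H κ nv K ρ r b) {x : M}
    {γ : ℝ → M} {ζ : U} (hγ : LabL G H κ nv ρ b x γ ζ) (t t' : ℝ) : Wk G H b δ (γ t) (γ t') := by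
  obtain ⟨hB, ⟨L, hw⟩, -⟩ := hγ
  have hδ := h.δ_pos
  have hL : 0 < |L| + 1 := by positivity
  have h1 := (lab_wl_mono hw (L' := |L| + 1) (by linarith [le_abs_self L])).sh (δ := δ) h.b_pos hL
  have hT : 0 < ‖t' - t‖ + 1 := by positivity
  exact (Pth.of_on (G := H) (H := G) convex_univ (lab_cont hq hB hw).continuousOn (h1.shN 0)
    (mem_univ t) (mem_univ t') hT (by linarith)).wk (by positivity)

theorem LabL.shift {x : M} {γ : ℝ → M} {ζ ζ' : U} (hγ : LabL G H κ nv ρ b x γ ζ) {d : ℝ}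
    (e : ζ' = ζ + d • nv x) : LabL G H κ nv ρ b x γ ζ' := by
  refine ⟨hγ.1, hγ.2.1, fun t ht => ?_⟩
  obtain ⟨c, hc⟩ := hγ.2.2 t ht
  refine ⟨c - t * d, ?_⟩
  rw [hc, e]
  module

theorem LabL.rev {x : M} {γ : ℝ → M} {ζ : U} (hγ : LabL G H κ nv ρ b x γ ζ) :
    LabL G H κ nv ρ b x (fun t => γ (1 - t)) (-ζ) := by
  obtain ⟨hB, ⟨L, hw⟩, hc⟩ := hγ
  refine ⟨fun t => hB _, ⟨L, fun j t t' => ?_⟩, fun t ht => ?_⟩
  · have := hw j (1 - t) (1 - t')
    rwa [sub_sub_sub_cancel_left, abs_sub_comm] at this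
  · obtain ⟨c, e⟩ := hc (1 - t) ⟨by linarith [ht.2], by linarith [ht.1]⟩
    obtain ⟨c', e'⟩ := hc 1 ⟨zero_le_one, le_rfl⟩
    refine ⟨c - c', ?_⟩
    simp only [sub_zero]
    rw [e, e']
    module

theorem lab_lift (hq : Plq G H κ nv K ρ r b) (hi : Inv G H) (hb : 0 < b) {x a : M} {ζ : U}
    (ha : ds H x a ≤ ρ) (hζ : ‖κ x a‖ + (1 + K) * ‖ζ‖ ≤ r) :
    ∃ γ : ℝ → M, γ 0 = a ∧ LabL G H κ nv ρ b x γ ζ ∧ WL G b (K * ‖ζ‖) γ ∧
      ∃ c : ℝ, |c| ≤ K * ‖ζ‖ ∧ κ x (γ 1) = κ x a + ζ + c • nv x := by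
  obtain ⟨γ, h0, h1, h2, h3⟩ := hq.lift hi hb ha hζ
  refine ⟨γ, h0, ⟨h1, ⟨_, h2⟩, fun t ht => ?_⟩, h2, ?_⟩
  · obtain ⟨c, -, e⟩ := h3 t ht
    exact ⟨c, by rw [e, h0]⟩
  · obtain ⟨c, hc, e⟩ := h3 1 ⟨zero_le_one, le_rfl⟩
    exact ⟨c, hc, by rw [e, one_smul]⟩

theorem lab_conv {w n : U} {c1 c2 c R : ℝ} (h1 : ‖w + c1 • n‖ ≤ R) (h2 : ‖w + c2 • n‖ ≤ R)
    (hc : c ∈ Ioo c1 c2) : ‖w + c • n‖ ≤ R := by
  have hcv : Convex ℝ {c : ℝ | ‖w + c • n‖ ≤ R} := by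
    intro u hu v hv s t hs ht hst
    have := convex_closedBall (0 : U) R (mem_closedBall_zero_iff.2 hu)
      (mem_closedBall_zero_iff.2 hv) hs ht hst
    rw [mem_closedBall_zero_iff] at this
    have e : w + (s • u + t • v) • n = s • (w + u • n) + t • (w + v • n) := by
      have : w = (s + t) • w := by rw [hst, one_smul]
      conv_lhs => rw [this]
      simp only [smul_eq_mul]
      module
    show ‖w + (s • u + t • v) • n‖ ≤ R
    rwa [e]
  exact hcv.ordConnected.out h1 h2 ⟨hc.1.le, hc.2.le⟩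

/-- A weak class contains no vertical segment. -/
theorem lab_I (h : Pin G H S U ε C a1 a2 b1 b2 b δ) (hq : Plq G H κ nv K ρ r b)
    (hO : ∀ z, ¬Opn G H b δ z) {x z : M} {w : U} {c1 c2 : ℝ} (hc : c1 < c2)
    (h1 : ‖w + c1 • nv x‖ ≤ r / 2) (h2 : ‖w + c2 • nv x‖ ≤ r / 2)
    (hz : ∀ c ∈ Ioo c1 c2, ∀ a, ds H x a ≤ ρ → κ x a = w + c • nv x → Wk G H b δ z a) :
    False := by
  have hK := hq.one_le
  have hr := hq.r_pos
  have hKr := hq.Kr
  have hm : (c1 + c2) / 2 ∈ Ioo c1 c2 := ⟨by linarith, by linarith⟩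
  have h0 := lab_conv h1 h2 hm
  obtain ⟨p, p1, p2⟩ := hq.onto x _ (h0.trans (by linarith))
  have p3 : ds H x p ≤ ρ / 2 := p1.trans (by nlinarith)
  have hρ : ρ / 2 ≤ ρ := by nlinarith
  have hp := hz _ hm p (p3.trans hρ) p2
  have hd : 0 < c2 - c1 := by linarith
  refine hO p ⟨min (r / (6 * K ^ 2)) ((c2 - c1) / (4 * K ^ 2)), by positivity, fun p' hp' => ?_⟩
  have e1 : ds H p p' * (6 * K ^ 2) ≤ r :=
    (le_div_iff₀ (by positivity)).1 (hp'.trans (min_le_left _ _))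
  have e2 : ds H p p' * (4 * K ^ 2) ≤ c2 - c1 :=
    (le_div_iff₀ (by positivity)).1 (hp'.trans (min_le_right _ _))
  have d0 := ds_nonneg H p p'
  set d := ds H p p' with hdd
  have d1 : d ≤ K * d := le_mul_of_one_le_left d0 hK
  have d2 : K * d ≤ K * (K * d) := le_mul_of_one_le_left (by positivity) hK
  have hr' : r ≤ K * r := le_mul_of_one_le_left hr.le hK
  have q1 : ds H x p' ≤ ρ := by
    have := ds_triangle H x p p'
    nlinarith
  have q2 : ‖κ x p - κ x p'‖ ≤ K * d := lab_lip' hq (p3.trans hρ) q1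
  have q3 : ‖κ x p'‖ ≤ r / 2 + K * d := by
    have e : κ x p' = κ x p - (κ x p - κ x p') := by abel
    rw [e]
    refine (norm_sub_le _ _).trans (add_le_add ?_ q2)
    rwa [p2]
  have q4 : K * ‖κ x p - κ x p'‖ ≤ K * (K * d) := by gcongr
  obtain ⟨γ, g0, g1, -, c, g2, g3⟩ := lab_lift hq h.sm.inv h.b_pos (ζ := κ x p - κ x p') q1
    (by nlinarith)
  have g4 := abs_le.1 (g2.trans q4)
  have g5 := hz ((c1 + c2) / 2 + c) ⟨by nlinarith, by nlinarith⟩ (γ 1) (g1.1 1) (by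
    rw [g3, p2]
    module)
  have g6 := lab_wk h hq g1 1 0
  rw [g0] at g6
  exact h.wk_trans hp.symm (h.wk_trans g5 g6)

theorem lab_dual (hq : Plq G H κ nv K ρ r b) (x : M) : ∃ l : U →L[ℝ] ℝ, l (nv x) = 1 := by
  obtain ⟨g, -, hg⟩ := exists_dual_vector ℝ (nv x) (by rw [hq.unit]; exact one_ne_zero)
  exact ⟨g, by rw [hg, hq.unit]; rfl⟩

/-- Two lifts over the same segment that exchange their heights meet. -/
theorem lab_meet (hq : Plq G H κ nv K ρ r b) {x : M} {α β : ℝ → M} {ζ : U}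
    (hα : LabL G H κ nv ρ b x α ζ) (hβ : LabL G H κ nv ρ b x β ζ) {d0 d1 : ℝ}
    (e0 : κ x (β 0) = κ x (α 0) + d0 • nv x) (e1 : κ x (β 1) = κ x (α 1) + d1 • nv x)
    (hd : (0 : ℝ) ∈ uIcc d0 d1) : ∃ t, α t = β t := by
  obtain ⟨l, hl⟩ := lab_dual hq x
  obtain ⟨L, hw⟩ := hα.2.1
  obtain ⟨L', hw'⟩ := hβ.2.1
  have hc : Continuous fun t => l (κ x (β t) - κ x (α t)) :=
    l.continuous.comp ((lab_contκ hq hβ.1 hw').sub (lab_contκ hq hα.1 hw))
  have f0 : l (κ x (β 0) - κ x (α 0)) = d0 := by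
    rw [e0, add_sub_cancel_left, map_smul, hl, smul_eq_mul, mul_one]
  have f1 : l (κ x (β 1) - κ x (α 1)) = d1 := by
    rw [e1, add_sub_cancel_left, map_smul, hl, smul_eq_mul, mul_one]
  obtain ⟨t, ht, e⟩ := intermediate_value_uIcc (a := 0) (b := 1) hc.continuousOn
    (by rw [f0, f1]; exact hd)
  rw [uIcc_of_le zero_le_one] at ht
  obtain ⟨c, hc1⟩ := hα.2.2 t ht
  obtain ⟨c', hc2⟩ := hβ.2.2 t ht
  have e2 : κ x (β t) - κ x (α t) = (d0 + c' - c) • nv x := by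
    rw [hc1, hc2, e0]
    module
  simp only [e2, map_smul, hl, smul_eq_mul, mul_one] at e
  rw [e, zero_smul, sub_eq_zero] at e2
  exact ⟨t, lab_inj hq (hα.1 t) (hβ.1 t) e2.symm⟩

theorem lab_II_aux (h : Pin G H S U ε C a1 a2 b1 b2 b δ) (hq : Plq G H κ nv K ρ r b)
    (hO : ∀ z, ¬Opn G H b δ z) {x : M} {α β : ℝ → M} {ζ : U}
    (hα : LabL G H κ nv ρ b x α ζ) (hβ : LabL G H κ nv ρ b x β ζ) (e0 : α 0 = β 0)
    (n1 : ‖κ x (α 1)‖ ≤ r / 2) (n2 : ‖κ x (β 1)‖ ≤ r / 2) (hζ : (1 + K) * ‖ζ‖ ≤ r / 2)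
    {c1 c2 : ℝ} (h1 : κ x (α 1) = κ x (α 0) + ζ + c1 • nv x)
    (h2 : κ x (β 1) = κ x (α 0) + ζ + c2 • nv x) (hc : c1 < c2) : False := by
  rw [h1] at n1
  rw [h2] at n2
  refine lab_I h hq hO (z := α 0) hc n1 n2 fun c hcc a ha e => ?_
  have n3 := lab_conv n1 n2 hcc
  rw [← e] at n3
  obtain ⟨γ, g0, g1, -, c', -, g3⟩ := lab_lift hq h.sm.inv h.b_pos (ζ := -ζ) ha
    (by rw [norm_neg]; linarith)
  have g4 := g1.rev
  rw [neg_neg] at g4
  have s0 : κ x (γ (1 - 0)) = κ x (α 0) + (c + c') • nv x := by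
    rw [sub_zero, g3, e]
    module
  have key : ∀ t, Wk G H b δ (γ t) a := fun t => by
    have := lab_wk h hq g1 t 0
    rwa [g0] at this
  rcases le_total (c + c') 0 with hs | hs
  · obtain ⟨t, ht⟩ := lab_meet hq hα g4 (d1 := c - c1) s0 (by
      rw [sub_self, g0, e, h1]
      module) (mem_uIcc.2 (Or.inl ⟨hs, by linarith [hcc.1]⟩))
    have := lab_wk h hq hα 0 t
    rw [ht] at this
    exact h.wk_trans this (key _)
  · obtain ⟨t, ht⟩ := lab_meet hq hβ g4 (d0 := c + c') (d1 := c - c2) (by rw [← e0]; exact s0) (by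
      rw [sub_self, g0, e, h2]
      module) (mem_uIcc.2 (Or.inr ⟨by linarith [hcc.2], hs⟩))
    have := lab_wk h hq hβ 0 t
    rw [ht, ← e0] at this
    exact h.wk_trans this (key _)

/-- Uniqueness of lifts. -/
theorem lab_II (h : Pin G H S U ε C a1 a2 b1 b2 b δ) (hq : Plq G H κ nv K ρ r b)
    (hO : ∀ z, ¬Opn G H b δ z) {x : M} {α β : ℝ → M} {ζ : U}
    (hα : LabL G H κ nv ρ b x α ζ) (hβ : LabL G H κ nv ρ b x β ζ) (e0 : α 0 = β 0)
    (n1 : ‖κ x (α 1)‖ ≤ r / 2) (n2 : ‖κ x (β 1)‖ ≤ r / 2) (hζ : (1 + K) * ‖ζ‖ ≤ r / 2) :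
    α 1 = β 1 := by
  obtain ⟨c1, h1⟩ := hα.2.2 1 ⟨zero_le_one, le_rfl⟩
  obtain ⟨c2, h2⟩ := hβ.2.2 1 ⟨zero_le_one, le_rfl⟩
  rw [one_smul] at h1 h2
  rcases lt_trichotomy c1 c2 with hc | hc | hc
  · exact (lab_II_aux h hq hO hα hβ e0 n1 n2 hζ h1 (by rw [e0]; exact h2) hc).elim
  · exact lab_inj hq (hα.1 1) (hβ.1 1) (by rw [h1, h2, e0, hc])
  · exact (lab_II_aux h hq hO hβ hα e0.symm n2 n1 hζ h2 (by rw [← e0]; exact h1) hc).elim

theorem lab_nsmul (hq : Plq G H κ nv K ρ r b) (x : M) (c : ℝ) : ‖c • nv x‖ = |c| := by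
  rw [norm_smul, hq.unit, mul_one, Real.norm_eq_abs]

/-- Construction of the labels. -/
theorem lab_ex (h : Pin G H S U ε C a1 a2 b1 b2 b δ) (hq : Plq G H κ nv K ρ r b)
    (hO : ∀ z, ¬Opn G H b δ z) {s : ℝ} (hs : 0 < s) (hsr : 10 * (K * (K * s)) ≤ r) :
    ∃ (Γ : M → M → ℝ → M) (Λ : M → M → ℝ),
      (∀ x p, ds H x p ≤ s → Γ x p 0 = p ∧ LabL G H κ nv ρ b x (Γ x p) (-κ x p) ∧
        WL G b (K * (K * s)) (Γ x p) ∧ κ x (Γ x p 1) = Λ x p • nv x ∧ |Λ x p| ≤ K * (K * s)) ∧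
      ∀ x p, ds H x p ≤ s → ∀ (γ : ℝ → M) (ζ : U) (c : ℝ), γ 0 = p → LabL G H κ nv ρ b x γ ζ →
        κ x (γ 1) = c • nv x → |c| ≤ r / 2 → Λ x p = c := by
  have hK := hq.one_le
  have hr := hq.r_pos
  have hKr := hq.Kr
  have hr' : r ≤ K * r := le_mul_of_one_le_left hr.le hK
  have d1 : s ≤ K * s := le_mul_of_one_le_left hs.le hK
  have d2 : K * s ≤ K * (K * s) := le_mul_of_one_le_left (by positivity) hK
  have hn : ∀ x p, ds H x p ≤ s → ‖κ x p‖ ≤ K * s := fun x p hp =>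
    (lab_norm hq (hp.trans (by linarith))).trans (by gcongr)
  have key : ∀ x p, ∃ (γ : ℝ → M) (c : ℝ), ds H x p ≤ s → γ 0 = p ∧
      LabL G H κ nv ρ b x γ (-κ x p) ∧ WL G b (K * (K * s)) γ ∧ κ x (γ 1) = c • nv x ∧
      |c| ≤ K * (K * s) := by
    intro x p
    by_cases hp : ds H x p ≤ s
    · have n1 := hn x p hp
      have n2 : K * ‖-κ x p‖ ≤ K * (K * s) := by
        rw [norm_neg]
        gcongr
      obtain ⟨γ, g0, g1, g2, c, g3, g4⟩ := lab_lift hq h.sm.inv h.b_pos (x := x) (a := p)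
        (ζ := -κ x p) (hp.trans (by linarith)) (by
          rw [norm_neg] at n2 ⊢
          linarith)
      exact ⟨γ, c, fun _ => ⟨g0, g1, lab_wl_mono g2 n2, by rw [g4, add_neg_cancel, zero_add],
        g3.trans n2⟩⟩
    · exact ⟨fun _ => p, 0, fun h' => absurd h' hp⟩
  choose Γ Λ hΓ using key
  refine ⟨Γ, Λ, hΓ, fun x p hp γ ζ c g0 g1 g2 g3 => ?_⟩
  obtain ⟨k0, k1, -, k3, k4⟩ := hΓ x p hp
  obtain ⟨c', e⟩ := g1.2.2 1 ⟨zero_le_one, le_rfl⟩
  have g4 : LabL G H κ nv ρ b x γ (-κ x p) := g1.shift (d := c' - c) (by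
    rw [g2, g0, one_smul] at e
    rw [sub_smul, e]
    abel)
  have n1 := hn x p hp
  have n2 : K * ‖κ x p‖ ≤ K * (K * s) := by gcongr
  have e1 := lab_II h hq hO k1 g4 (k0.trans g0.symm) (by rw [k3, lab_nsmul hq]; linarith)
    (by rw [g2, lab_nsmul hq]; exact g3) (by rw [norm_neg]; linarith)
  rw [e1, g2, ← sub_eq_zero, ← sub_smul] at k3
  have := lab_nsmul hq x (c - Λ x p)
  rw [k3, norm_zero, eq_comm, abs_eq_zero] at this
  linarith

/-- Continuity of the labels. -/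
theorem lab_l2 (h : Pin G H S U ε C a1 a2 b1 b2 b δ) (hq : Plq G H κ nv K ρ r b)
    {s L : ℝ} {Γ : M → ℝ → M} {Λ : M → ℝ} {x : M}
    (hA : ∀ p, ds H x p ≤ s → Γ p 0 = p ∧ LabL G H κ nv ρ b x (Γ p) (-κ x p) ∧
        WL G b L (Γ p) ∧ κ x (Γ p 1) = Λ p • nv x ∧ |Λ p| ≤ r / 2)
    (hB : ∀ p, ds H x p ≤ s → ∀ (γ : ℝ → M) (ζ : U) (c : ℝ), γ 0 = p →
      LabL G H κ nv ρ b x γ ζ → κ x (γ 1) = c • nv x → |c| ≤ r / 2 → Λ p = c) :
    ContinuousOn (fun p : Lf H => Λ (ofL p)) {p | ds H x (ofL p) ≤ s} := by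
  obtain ⟨l, hl⟩ := lab_dual hq x
  intro p0 hp0
  refine (tendsto_iff_ultrafilter _ _ _).2 fun u hu => ?_
  have hus : ∀ᶠ p in (u : Filter (Lf H)), ds H x (ofL p) ≤ s := hu self_mem_nhdsWithin
  obtain ⟨γ, g1, g2, g3, g4⟩ := hq.limit h.sm.inv u (x := x) (γ := fun p => Γ (ofL p)) (L := L)
    (hus.mono fun p hp => (hA _ hp).2.1.1)
    (fun j t t' e he => hus.mono fun p hp => ((hA _ hp).2.2.1 j t t').trans (by linarith))
  have g0 : γ 0 = ofL p0 := by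
    have t1 : Tendsto (fun p : Lf H => ofL p) u (𝓝 (ofL p0)) :=
      ((continuous_ofL H).tendsto p0).mono_left (hu.trans nhdsWithin_le_nhds)
    exact tendsto_nhds_unique (g1 0) (t1.congr' (hus.mono fun p hp => (hA _ hp).1.symm))
  have cl : ∀ (f : Lf H → U) (v : U), Tendsto f u (𝓝 v) →
      (∀ᶠ p in (u : Filter (Lf H)), ∃ c : ℝ, f p = c • nv x) → v = l v • nv x := by
    intro f v hf he
    have t1 : Tendsto (fun p => l (f p) • nv x) u (𝓝 (l v • nv x)) :=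
      ((l.continuous.tendsto v).comp hf).smul_const _
    refine tendsto_nhds_unique hf (t1.congr' (he.mono fun p ⟨c, hc⟩ => ?_))
    simp only [hc, map_smul, hl, smul_eq_mul, mul_one]
  have t1 : Tendsto (fun p : Lf H => Λ (ofL p)) u (𝓝 (l (κ x (γ 1)))) := by
    refine ((l.continuous.tendsto _).comp (g4 1)).congr' (hus.mono fun p hp => ?_)
    simp only [Function.comp, (hA _ hp).2.2.2.1, map_smul, hl, smul_eq_mul, mul_one]
  have t2 : |l (κ x (γ 1))| ≤ r / 2 :=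
    le_of_tendsto t1.abs (hus.mono fun p hp => (hA _ hp).2.2.2.2)
  have t3 := cl _ _ (g4 1) (hus.mono fun p hp => ⟨_, (hA _ hp).2.2.2.1⟩)
  have t4 : LabL G H κ nv ρ b x γ (-κ x (γ 0)) := by
    refine ⟨g2, ⟨L, g3⟩, fun t ht => ?_⟩
    have := cl _ _ (((g4 t).sub (g4 0)).add ((g4 0).const_smul t)) (hus.mono fun p hp => by
      obtain ⟨c, hc⟩ := (hA _ hp).2.1.2.2 t ht
      refine ⟨c, ?_⟩
      rw [hc, (hA _ hp).1]
      module)
    refine ⟨l (κ x (γ t) - κ x (γ 0) + t • κ x (γ 0)), ?_⟩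
    rw [← this]
    module
  rw [← hB _ hp0 γ _ _ g0 t4 t3 t2] at t1
  exact t1

theorem Pin.preLam (h : Pin G H S U ε C a1 a2 b1 b2 b δ) (hq : Plq G H κ nv K ρ r b)
    (hO : ∀ z, ¬Opn G H b δ z) :
    ∃ (V : M → ℝ → M) (Λ : M → M → ℝ) (K' r' : ℝ), PreLam G H V Λ K' r' b δ := by
  have hK := hq.one_le
  have hr := hq.r_pos
  have hKr := hq.Kr
  have hδ := h.δ_pos
  have hr' : r ≤ K * r := le_mul_of_one_le_left hr.le hK
  obtain ⟨s, hs, hsr⟩ : ∃ s : ℝ, 0 < s ∧ 10 * (K * (K * s)) = r :=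
    ⟨r / (10 * K ^ 2), by positivity, by field_simp⟩
  have d1 : s ≤ K * s := le_mul_of_one_le_left hs.le hK
  have d2 : K * s ≤ K * (K * s) := le_mul_of_one_le_left (by positivity) hK
  obtain ⟨Γ, Λ, hA, hB⟩ := lab_ex h hq hO hs hsr.le
  have hV : ∀ x (c : ℝ), ∃ a, |c| ≤ r → ds H x a ≤ K * |c| ∧ κ x a = c • nv x := by
    intro x c
    by_cases hc : |c| ≤ r
    · obtain ⟨a, a1, a2⟩ := hq.onto x (c • nv x) (by rwa [lab_nsmul hq])
      rw [lab_nsmul hq] at a1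
      exact ⟨a, fun _ => ⟨a1, a2⟩⟩
    · exact ⟨x, fun h' => absurd h' hc⟩
  choose V hV using hV
  have hVB : ∀ x (c : ℝ), |c| ≤ r → ds H x (V x c) ≤ ρ := fun x c hc =>
    (hV x c hc).1.trans (le_trans (by gcongr) hKr)
  have hend : ∀ x p, ds H x p ≤ s → Γ x p 1 = V x (Λ x p) := fun x p hp => by
    obtain ⟨-, k1, -, k3, k4⟩ := hA x p hp
    have : |Λ x p| ≤ r := by linarith
    exact lab_inj hq (k1.1 1) (hVB x _ this) (by rw [k3, (hV x _ this).2])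
  have l2 : ∀ x, ContinuousOn (fun p : Lf H => Λ x (ofL p)) {p | ds H x (ofL p) ≤ s} := fun x =>
    lab_l2 h hq (Γ := Γ x) (fun p hp => by
      obtain ⟨k0, k1, k2, k3, k4⟩ := hA x p hp
      exact ⟨k0, k1, k2, k3, by linarith⟩) (hB x)
  have l3 : ∀ x p, ds H x p ≤ s → Pth H G b δ (δ / (K * (K * s))) 0 p (V x (Λ x p)) :=
    fun x p hp => by
      obtain ⟨k0, k1, k2, -, -⟩ := hA x p hp
      exact ⟨Γ x p, k0, hend x p hp, lab_cont hq k1.1 k2,
        (k2.sh (δ := δ) h.b_pos (by positivity)).shN 0⟩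
  have l4 : ∀ (x : M) (γ : ℝ → M), ContinuousOn (fun t => toL H (γ t)) (Icc 0 1) →
      (∀ t ∈ Icc (0 : ℝ) 1, ds H x (γ t) ≤ s ∧ Wk G H b δ (γ 0) (γ t)) →
      Λ x (γ 0) = Λ x (γ 1) := by
    intro x γ hc hγ
    have hf : ContinuousOn (fun t => Λ x (γ t)) (uIcc 0 1) := by
      rw [uIcc_of_le zero_le_one]
      exact (l2 x).comp hc fun t ht => (hγ t ht).1
    have b0 := (hA x _ (hγ 0 ⟨le_rfl, zero_le_one⟩).1).2.2.2.2
    have b1 := (hA x _ (hγ 1 ⟨zero_le_one, le_rfl⟩).1).2.2.2.2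
    have key : ∀ c ∈ uIcc (Λ x (γ 0)) (Λ x (γ 1)), ∀ a, ds H x a ≤ ρ →
        κ x a = 0 + c • nv x → Wk G H b δ (γ 0) a := by
      intro c hc' a ha e
      obtain ⟨t, ht, e'⟩ := intermediate_value_uIcc hf hc'
      rw [uIcc_of_le zero_le_one] at ht
      obtain ⟨-, k1, -, k3, -⟩ := hA x _ (hγ t ht).1
      have e2 : a = V x (Λ x (γ t)) := by
        rw [← hend x _ (hγ t ht).1]
        exact lab_inj hq ha (k1.1 1) (by rw [k3, e, zero_add, ← e'])
      rw [e2]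
      exact h.wk_trans (hγ t ht).2 ((l3 x _ (hγ t ht).1).wk (by positivity))
    have n0 : ‖0 + Λ x (γ 0) • nv x‖ ≤ r / 2 := by rw [zero_add, lab_nsmul hq]; linarith
    have n1 : ‖0 + Λ x (γ 1) • nv x‖ ≤ r / 2 := by rw [zero_add, lab_nsmul hq]; linarith
    rcases lt_trichotomy (Λ x (γ 0)) (Λ x (γ 1)) with hc' | hc' | hc'
    · exact (lab_I h hq hO hc' n0 n1 fun c hcc =>
        key c (mem_uIcc.2 (Or.inl ⟨hcc.1.le, hcc.2.le⟩))).elim
    · exact hc'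
    · exact (lab_I h hq hO hc' n1 n0 fun c hcc =>
        key c (mem_uIcc.2 (Or.inr ⟨hcc.1.le, hcc.2.le⟩))).elim
  have k1 : K ≤ K * K := le_mul_of_one_le_left (by positivity) hK
  have k2 : K * K ≤ K * (K * K) := le_mul_of_one_le_left (by positivity) hK
  have k3 : K * (K * K) ≤ K * (K * (K * K)) := le_mul_of_one_le_left (by positivity) hK
  obtain ⟨q, hq0, hqs⟩ : ∃ q : ℝ, 0 < q ∧ q + 2 * (K * (K * (K * K)) * q) = s :=
    ⟨s / (1 + 2 * K ^ 4), by positivity, by field_simp⟩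
  have q1 : q ≤ K * (K * (K * K)) * q := le_mul_of_one_le_left hq0.le (by linarith)
  have hn : ∀ x p, ds H x p ≤ s → ‖κ x p‖ ≤ K * s := fun x p hp =>
    (lab_norm hq (hp.trans (by linarith))).trans (by gcongr)
  refine ⟨V, Λ, K * (K * (K * K)), q, by linarith, hq0, fun x => ?_, fun x c c' hc hc' => ?_,
    fun x p c hp hc => ?_, fun x => (l2 x).mono fun p hp => le_trans hp (show q ≤ s by linarith),
    ⟨_, by positivity, fun x p hp => l3 x p (hp.trans (by linarith))⟩,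
    fun x γ hc hγ => l4 x γ hc fun t ht => ⟨(hγ t ht).1.trans (by linarith), (hγ t ht).2⟩,
    fun x p p' hp hp' e => ?_⟩
  · have := (hV x 0 (by rw [abs_zero]; exact hr.le)).1
    rw [abs_zero, mul_zero] at this
    exact (dist_le_zero.1 ((dist_le_ds H _ _).trans this)).symm
  · have c1 : |c| ≤ r := by linarith
    have c2 : |c'| ≤ r := by linarith
    have := hq.anti x _ _ (hVB x c c1) (hVB x c' c2)
    rw [(hV x c c1).2, (hV x c' c2).2, ← sub_smul, lab_nsmul hq] at this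
    exact this.trans (mul_le_mul_of_nonneg_right (by linarith) (abs_nonneg _))
  · have c1 : |c| ≤ r := by linarith
    have p1 : ds H x p ≤ s := by linarith
    have p2 : ds H x p ≤ ρ := by linarith
    have n1 := hn x p p1
    have n2 : ‖c • nv x - κ x p‖ ≤ K * s + K * s :=
      (norm_sub_le _ _).trans (add_le_add (by rw [lab_nsmul hq]; linarith) n1)
    have n3 : K * ‖c • nv x - κ x p‖ ≤ K * (K * s + K * s) := by gcongr
    have n4 : ‖c • nv x - κ x p‖ ≤ K * ds H (V x c) p := by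
      rw [← (hV x c c1).2]
      exact lab_lip' hq (hVB x c c1) p2
    obtain ⟨γ, g0, g1, -, e, g2, g3⟩ := lab_lift hq h.sm.inv h.b_pos (ζ := c • nv x - κ x p) p2
      (by linarith)
    have g4 : κ x (γ 1) = (c + e) • nv x := by
      rw [g3]
      module
    rw [hB x p p1 γ _ _ g0 g1 g4 ((abs_add_le _ _).trans (by linarith)), add_sub_cancel_left]
    have d0 := ds_nonneg H (V x c) p
    refine g2.trans (le_trans (mul_le_mul_of_nonneg_left n4 (by positivity)) ?_)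
    rw [← mul_assoc]
    exact mul_le_mul_of_nonneg_right (by linarith) d0
  · have p1 : ds H x p ≤ s := by linarith
    have p2 : ds H x p ≤ ρ := by linarith
    have p1' : ds H x p' ≤ s := by linarith
    have p2' : ds H x p' ≤ ρ := by linarith
    have n1 := hn x p p1
    have n1' := hn x p' p1'
    have n2 : ‖κ x p' - κ x p‖ ≤ K * s + K * s := (norm_sub_le _ _).trans (add_le_add n1' n1)
    have n3 : K * ‖κ x p' - κ x p‖ ≤ K * (K * s + K * s) := by gcongr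
    have n4 : ‖κ x p' - κ x p‖ ≤ K * ds H p p' := by
      rw [ds_comm]
      exact lab_lip' hq p2' p2
    obtain ⟨γ, g0, g1, g2, c, -, g3⟩ := lab_lift hq h.sm.inv h.b_pos (ζ := κ x p' - κ x p) p2
      (by linarith)
    have d0 := ds_nonneg H p p'
    have d3 : ds H p p' ≤ 2 * q := by
      have := ds_triangle H p x p'
      rw [ds_comm H p x] at this
      linarith
    have g4 : ∀ t ∈ Icc (0 : ℝ) 1, ds H p (γ t) ≤ K * (K * (K * K)) * ds H p p' := by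
      intro t ht
      have := lab_wldu hq g1.1 g2 0 t
      rw [g0, zero_sub, abs_neg, abs_of_nonneg ht.1] at this
      calc ds H p (γ t) ≤ K * (K * (K * ‖κ x p' - κ x p‖)) * t := this
        _ ≤ K * (K * (K * (K * ds H p p'))) * 1 :=
          mul_le_mul (by gcongr) ht.2 ht.1 (by positivity)
        _ = _ := by ring
    have g5 : ∀ t ∈ Icc (0 : ℝ) 1, ds H x (γ t) ≤ s := by
      intro t ht
      have t1 := ds_triangle H x p (γ t)
      have t2 := g4 t ht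
      have t3 : K * (K * (K * K)) * ds H p p' ≤ K * (K * (K * K)) * (2 * q) := by gcongr
      linarith
    have g6 := l4 x γ (lab_cont hq g1.1 g2).continuousOn fun t ht =>
      ⟨g5 t ht, lab_wk h hq g1 0 t⟩
    rw [g0, e] at g6
    have g7 := g5 1 ⟨zero_le_one, le_rfl⟩
    obtain ⟨a0, a1', -, -, -⟩ := hA x p' p1'
    obtain ⟨b0, b1', -, -, -⟩ := hA x (γ 1) g7
    have r1 := a1'.rev
    have r2 := b1'.rev.shift (ζ' := - -κ x p') (d := -c) (by
      rw [g3]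
      module)
    have n5 := hn x _ g7
    have n6 : K * ‖κ x p'‖ ≤ K * (K * s) := by gcongr
    have e1 := lab_II h hq hO r1 r2 (by
      simp only [sub_zero]
      rw [hend x _ p1', hend x _ g7, g6]) (by simp only [sub_self, a0]; linarith)
      (by simp only [sub_self, b0]; linarith) (by rw [neg_neg]; linarith)
    simp only [sub_self, a0, b0] at e1
    refine ⟨γ, g0, e1.symm, (lab_cont hq g1.1 g2).continuousOn, fun t ht => ⟨g4 t ht, ?_⟩⟩
    have := lab_wk h hq g1 0 t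
    rwa [g0] at this

end Pool.Agent.P.MP_0a0487_an
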