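import Pool.Agent.P.MP_0a0487_an.Path

/-!
A weak class meets a vertical segment at most once.
-/

set_option autoImplicit false

open Set Metric Filter Topology

namespace Pool.Agent.P.MP_0a0487_an

variable {M : Type*} [MetricSpace M] [CompactSpace M]
  {G H : M → M} {S U : Type*} [NormedAddCommGroup S] [NormedAddCommGroup U]
  {ε C a1 a2 b1 b2 b δ : ℝ}
  {V : M → ℝ → M} {Λ : M → M → ℝ} {K r : ℝ}

/-- A continuous locally injective function on an interval takes different values at the ends. -/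
theorem lemu_loc_inj {g : ℝ → ℝ} {c c' η : ℝ} (hc : c < c') (hη : 0 < η)
    (hg : ContinuousOn g (Icc c c')) (he : g c = g c')
    (hi : ∀ s ∈ Icc c c', ∀ s' ∈ Icc c c', |s - s'| ≤ η → g s = g s' → s = s') : False := by
  obtain ⟨s0, ⟨h1, h2⟩, hx⟩ := exists_Ioo_extr_on_Icc hc hg he
  set u := max c (s0 - η / 2) with hu
  set v := min c' (s0 + η / 2) with hv
  have hu0 : u < s0 := max_lt h1 (by linarith)
  have hv0 : s0 < v := lt_min h2 (by linarith)
  have hu1 : c ≤ u := le_max_left _ _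
  have hu2 : s0 - η / 2 ≤ u := le_max_right _ _
  have hv1 : v ≤ c' := min_le_left _ _
  have hv2 : v ≤ s0 + η / 2 := min_le_right _ _
  have hsub : Icc u v ⊆ Icc c c' := Icc_subset_Icc hu1 hv1
  have hinj : InjOn g (Icc u v) := fun s hs s' hs' e =>
    hi s (hsub hs) s' (hsub hs') (by
      rw [abs_le]; constructor <;> linarith [hs.1, hs.2, hs'.1, hs'.2]) e
  have mu : u ∈ Icc u v := ⟨le_rfl, by linarith⟩
  have mv : v ∈ Icc u v := ⟨by linarith, le_rfl⟩
  have m0 : s0 ∈ Icc u v := ⟨hu0.le, hv0.le⟩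
  rcases (hg.mono hsub).strictMonoOn_of_injOn_Icc' (by linarith) hinj with hm | hm
  · rcases hx with hx | hx
    · exact absurd (hm mu m0 hu0) (not_lt.2 (hx (hsub mu)))
    · exact absurd (hm m0 mv hv0) (not_lt.2 (hx (hsub mv)))
  · rcases hx with hx | hx
    · exact absurd (hm m0 mv hv0) (not_lt.2 (hx (hsub mv)))
    · exact absurd (hm mu m0 hu0) (not_lt.2 (hx (hsub mu)))

theorem Pin.lemu_lt (h : Pin G H S U ε C a1 a2 b1 b2 b δ) (hl : PreLam G H V Λ K r b δ)
    {r' : ℝ} (h1 : 2 * (K * (K * r')) ≤ r) (h2 : 2 * (K * (K * r')) ≤ ε) (h3 : r' ≤ r)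
    {x : M} {c c' : ℝ} (hc : |c| ≤ K * r') (hc' : |c'| ≤ K * r') (hlt : c < c')
    (hw : Wk G H b δ (V x c) (V x c')) : False := by
  obtain ⟨d0, d1, d2, d3⟩ := h.Cδ
  have hK := hl.one_le
  have hr := hl.r_pos
  have hK0 : 0 < K := by linarith
  have hKr : K * r' ≤ K * r := by gcongr
  obtain ⟨τ, t0, γ, g0, g1, gc, gs⟩ := hw
  obtain ⟨m, hm⟩ := h.sm.symm.pth_level' d0 (by linarith) h.b_pos h.b_lt.le t0 hr 0
  obtain ⟨j, hj⟩ := h.sm.symm.shrink hr
  set n := max m j with hn
  have habs : ∀ s ∈ Icc c c', |s| ≤ K * r' := fun s hs => by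
    rw [abs_le] at hc hc' ⊢
    constructor <;> linarith [hs.1, hs.2]
  have hvv : ∀ s ∈ Icc c c', ∀ s' ∈ Icc c c', ds H (V x s) (V x s') ≤ K * |s - s'| :=
    fun s hs s' hs' => hl.v1 x s s' ((habs s hs).trans hKr) ((habs s' hs').trans hKr)
  have hx : ∀ s ∈ Icc c c', ds H x (V x s) ≤ r / 2 := fun s hs => by
    have e := hl.v1 x 0 s (by rw [abs_zero]; positivity) ((habs s hs).trans hKr)
    rw [hl.v0, zero_sub, abs_neg] at e
    have : K * |s| ≤ K * (K * r') := mul_le_mul_of_nonneg_left (habs s hs) hK0.le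
    linarith
  have mc : c ∈ Icc c c' := left_mem_Icc.2 hlt.le
  have mc' : c' ∈ Icc c c' := right_mem_Icc.2 hlt.le
  have hy : ∀ s ∈ Icc c c', ds H (H^[n] (V x c)) (H^[n] (V x s)) ≤ r := fun s hs => by
    refine hj n (le_max_right _ _) _ _ ((hvv c mc s hs).trans ?_)
    have e1 := habs s hs
    have e2 : |c - s| ≤ 2 * (K * r') := (abs_sub _ _).trans (by linarith)
    have : K * |c - s| ≤ K * (2 * (K * r')) := mul_le_mul_of_nonneg_left e2 hK0.le
    linarith
  have hVc : ContinuousOn (fun s => toL H (V x s)) (Icc c c') := by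
    refine (LipschitzOnWith.of_dist_le_mul (K := ⟨K, hK0.le⟩) fun s hs s' hs' => ?_).continuousOn
    rw [dist_toL, Real.dist_eq]
    exact hvv s hs s' hs'
  obtain ⟨η, η0, hη⟩ := h.sm.inv.symm.unif_ds n (θ := r / 2) (by positivity)
  have hlab : ∀ s ∈ Icc c c', Λ x (V x s) = s := fun s hs => by
    have e := hl.l1 x (V x s) s ((hx s hs).trans (by linarith)) ((habs s hs).trans hKr)
    rw [ds_self, mul_zero, abs_nonpos_iff, sub_eq_zero] at e
    exact e
  refine lemu_loc_inj (g := fun s => Λ (H^[n] (V x c)) (H^[n] (V x s))) (η := η / (K * K)) hlt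
    (by positivity) ?_ ?_ ?_
  · exact (hl.l2 (H^[n] (V x c))).comp ((continuous_Lf_G H n).comp_continuousOn hVc)
      (fun s hs => hy s hs)
  · have e := hl.l4 (H^[n] (V x c)) (fun t => H^[n] (γ t))
      ((continuous_Lf_G H n).comp gc).continuousOn (fun t ht => ⟨?_, ?_⟩)
    · simpa only [g0, g1] using e
    · rw [← g0]
      refine (ds_iterate_mono H _ _ (le_max_left m j)).trans ?_
      refine hm γ gc.continuousOn (gs.mono h.b_pos.le le_rfl le_rfl le_rfl (subset_univ _)) t ?_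
      rw [mem_closedBall, dist_zero_right, Real.norm_eq_abs, abs_le]
      constructor <;> linarith [ht.1, ht.2]
    · refine h.wk_H ?_ n
      refine (Pth.of_on (X := ℝ) convex_univ gc.continuousOn gs (mem_univ 0) (mem_univ t)
        one_pos ?_).wk (by positivity)
      rw [sub_zero, Real.norm_eq_abs, abs_le]
      constructor <;> linarith [ht.1, ht.2]
  · intro s hs s' hs' hss e
    obtain ⟨β, b0, b1', bc, bb⟩ := hl.l5 _ _ _ (hy s hs) (hy s' hs') e
    have hd : K * ds H (H^[n] (V x s)) (H^[n] (V x s')) ≤ η := by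
      have e1 := (ds_iterate_le H (V x s) (V x s') n).trans (hvv s hs s' hs')
      have e2 : |s - s'| * (K * K) ≤ η := (le_div_iff₀ (by positivity)).1 hss
      calc K * ds H (H^[n] (V x s)) (H^[n] (V x s')) ≤ K * (K * |s - s'|) :=
            mul_le_mul_of_nonneg_left e1 hK0.le
        _ = |s - s'| * (K * K) := by ring
        _ ≤ η := e2
    have e3 := hl.l4 x (fun t => G^[n] (β t))
      ((h.sm.inv.symm.continuous_Lf_H n).comp_continuousOn bc) (fun t ht => ⟨?_, ?_⟩)
    · simp only [b0, b1', h.sm.inv.GHn] at e3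
      rw [hlab s hs, hlab s' hs'] at e3
      exact e3
    · have e4 := hη _ _ ((bb t ht).1.trans hd)
      rw [h.sm.inv.GHn] at e4
      have := ds_triangle H x (V x s) (G^[n] (β t))
      have := hx s hs
      linarith
    · rw [b0]
      exact h.wk_G (bb t ht).2 n

theorem Pin.lam (h : Pin G H S U ε C a1 a2 b1 b2 b δ) (hl : PreLam G H V Λ K r b δ) :
    ∃ r' : ℝ, Lam G H V Λ K r' b δ := by
  have hK := hl.one_le
  have hr := hl.r_pos
  have hε := h.sm.ε_pos
  have hK0 : 0 < K := by linarith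
  have hm : 0 < min r ε := lt_min hr hε
  set r' := min r ε / (2 * (K * K)) with hr'
  have e0 : 2 * (K * (K * r')) = min r ε := by
    rw [hr']; field_simp
  have r0 : 0 < r' := by positivity
  have h1 : 2 * (K * (K * r')) ≤ r := e0.le.trans (min_le_left _ _)
  have h2 : 2 * (K * (K * r')) ≤ ε := e0.le.trans (min_le_right _ _)
  have h3 : r' ≤ r := by
    have e1 : r' ≤ K * r' := le_mul_of_one_le_left r0.le hK
    have e2 : K * r' ≤ K * (K * r') := le_mul_of_one_le_left (by positivity) hK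
    linarith
  have hKr : K * r' ≤ K * r := by gcongr
  obtain ⟨τ, t0, l3⟩ := hl.l3
  refine ⟨r', hK, r0, hl.v0, fun x c c' hc hc' => hl.v1 x c c' (hc.trans hKr) (hc'.trans hKr),
    fun x p c hp hc => hl.l1 x p c (hp.trans h3) (hc.trans hKr),
    fun x => (hl.l2 x).mono fun p hp => le_trans hp h3,
    ⟨τ, t0, fun x p hp => l3 x p (hp.trans h3)⟩, fun x c c' hc hc' hw => ?_⟩
  rcases lt_trichotomy c c' with hlt | heq | hlt
  · exact (h.lemu_lt hl h1 h2 h3 hc hc' hlt hw).elim
  · exact heq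
  · exact (h.lemu_lt hl h1 h2 h3 hc' hc hlt hw.symm).elim

end Pool.Agent.P.MP_0a0487_an
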