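import Pool.Agent.P.MP_0a0487_an.Path

/-!
Dense periodic points make the stable leaves uniformly dense.
-/

set_option autoImplicit false

open Set Metric Filter Topology

namespace Pool.Agent.P.MP_0a0487_an

variable {M : Type*} [MetricSpace M] [CompactSpace M]
  {G H : M → M} {S U : Type*} [NormedAddCommGroup S] [NormedAddCommGroup U]
  {ε C a1 a2 b1 b2 b δ : ℝ}

omit [MetricSpace M] [CompactSpace M] in
theorem minl_iter_mul {F : M → M} {k : ℕ} {p : M} (hp : F^[k] p = p) (i : ℕ) :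
    F^[k * i] p = p := by
  rw [Function.iterate_mul]
  exact Function.iterate_fixed hp i

/-- The stable leaf of a periodic point is dense. -/
theorem Smale.minl_dense [ConnectedSpace M] (h : Smale G H S U ε C a1 a2 b1 b2)
    (hP : Dense (Function.periodicPts G)) {p : M} (hp : p ∈ Function.periodicPts G) {d : ℝ}
    (hd : 0 < d) (hdε : d ≤ ε) : Dense {y : M | ∃ m : ℕ, ds G (G^[m] p) (G^[m] y) ≤ d} := by
  set D : Set M := {y : M | ∃ m : ℕ, ds G (G^[m] p) (G^[m] y) ≤ d} with hD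
  obtain ⟨k, k0, hk⟩ := hp
  have hk' : G^[k] p = p := hk
  have hC : 0 < C := zero_lt_one.trans_le h.one_le
  have hε := h.ε_pos
  have s1 : ∀ a ∈ D, ∀ c, ds G a c ≤ ε → c ∈ D := by
    rintro a ⟨m, hm⟩ c hc
    obtain ⟨j, hj⟩ := h.shrink (half_pos hd)
    refine ⟨j + m, ?_⟩
    have t1 := hj j le_rfl _ _ (hm.trans hdε)
    rw [← Function.iterate_add_apply, ← Function.iterate_add_apply] at t1
    have t2 := hj (j + m) (Nat.le_add_right j m) _ _ hc
    have t3 := ds_triangle G (G^[j + m] p) (G^[j + m] a) (G^[j + m] c)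
    linarith
  have s2 : ∀ a ∈ D, ∀ i : ℕ, H^[k * i] a ∈ D := by
    rintro a ⟨m, hm⟩ i
    refine ⟨m + k * i, ?_⟩
    rw [Function.iterate_add_apply, Function.iterate_add_apply, minl_iter_mul hk', h.inv.GHn]
    exact hm
  have s3 : ∀ a ∈ D, ∀ q ∈ Function.periodicPts G, dist a q < ε / C → q ∈ closure D := by
    rintro a ha q ⟨l, l0, hl⟩ haq
    have hl' : G^[l] q = q := hl
    have e1 : C * dist a q ≤ ε := ((lt_div_iff₀' hC).1 haq).le
    obtain ⟨c, c1, c2⟩ := h.br a q e1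
    have hc : c ∈ D := s1 a ha c (c1.trans e1)
    refine Metric.mem_closure_iff.2 fun θ hθ => ?_
    obtain ⟨j, hj⟩ := h.symm.shrink (half_pos hθ)
    refine ⟨H^[k * (l * j)] c, s2 c hc _, ?_⟩
    have e2 : H^[k * (l * j)] q = q := by
      have : G^[k * (l * j)] q = q := by
        rw [mul_left_comm]
        exact minl_iter_mul hl' _
      conv_lhs => rw [← this]
      exact h.inv.HGn _ q
    have e3 : j ≤ k * (l * j) :=
      (Nat.le_mul_of_pos_left j l0).trans (Nat.le_mul_of_pos_left _ k0)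
    have t := hj _ e3 q c (c2.trans e1)
    rw [e2] at t
    exact ((dist_le_ds H _ _).trans t).trans_lt (half_lt_self hθ)
  have s4 : ∀ a ∈ D, ball a (ε / C) ⊆ closure D := by
    intro a ha x hx
    have := hP.open_subset_closure_inter (isOpen_ball (x := a) (ε := ε / C)) hx
    refine closure_minimal ?_ isClosed_closure this
    rintro q ⟨q1, q2⟩
    exact s3 a ha q q2 (by rwa [mem_ball'] at q1)
  have s5 : IsOpen (closure D) := by
    refine isOpen_iff_mem_nhds.2 fun x hx => ?_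
    obtain ⟨a, ha, hxa⟩ := Metric.mem_closure_iff.1 hx (ε / C) (by positivity)
    exact mem_of_superset (isOpen_ball.mem_nhds (mem_ball.2 hxa)) (s4 a ha)
  rw [dense_iff_closure_eq]
  exact IsClopen.eq_univ ⟨isClosed_closure, s5⟩
    ⟨p, subset_closure ⟨0, by simpa using hd.le⟩⟩

/-- A bounded piece of the stable leaf of a periodic point is `θ`-dense. -/
theorem Smale.minl_level [ConnectedSpace M] (h : Smale G H S U ε C a1 a2 b1 b2)
    (hP : Dense (Function.periodicPts G)) {p : M} (hp : p ∈ Function.periodicPts G) {d θ : ℝ}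
    (hd : 0 < d) (hdε : d ≤ ε) (hθ : 0 < θ) : ∃ m0 : ℕ, ∀ m, m0 ≤ m → ∀ w : M, ∃ y,
      ds G (G^[m] p) (G^[m] y) ≤ d ∧ dist y w < θ := by
  have hD := h.minl_dense hP hp hd hdε
  obtain ⟨m0, hm⟩ := isCompact_univ.elim_directed_cover
    (fun m : ℕ => {w : M | ∃ y, ds G (G^[m] p) (G^[m] y) ≤ d ∧ dist y w < θ})
    (fun m => by
      refine isOpen_iff_mem_nhds.2 ?_
      rintro w ⟨y, y1, y2⟩
      exact mem_of_superset (isOpen_ball.mem_nhds (mem_ball'.2 y2)) fun w' hw' =>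
        ⟨y, y1, mem_ball'.1 hw'⟩)
    (fun w _ => by
      obtain ⟨y, ⟨m, y1⟩, y2⟩ := Metric.mem_closure_iff.1 (hD w) θ hθ
      exact mem_iUnion.2 ⟨m, y, y1, by rwa [dist_comm]⟩)
    (Monotone.directed_le fun m m' hmm => by
      rintro w ⟨y, y1, y2⟩
      exact ⟨y, (ds_iterate_mono G p y hmm).trans y1, y2⟩)
  refine ⟨m0, fun m hmm w => ?_⟩
  obtain ⟨y, y1, y2⟩ := hm (mem_univ w)
  exact ⟨y, (ds_iterate_mono G p y hmm).trans y1, y2⟩

theorem Smale.minl [ConnectedSpace M] (h : Smale G H S U ε C a1 a2 b1 b2)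
    (hP : Dense (Function.periodicPts G)) : Minl G := by
  classical
  intro δ θ hδ hθ
  have hC1 := h.one_le
  have hC : 0 < C := zero_lt_one.trans_le h.one_le
  have hε := h.ε_pos
  obtain ⟨d, d0, d1, d2⟩ : ∃ d : ℝ, 0 < d ∧ C * (d + d) ≤ δ ∧ C * (d + d) ≤ ε := by
    have e : C * (min δ ε / (2 * C) + min δ ε / (2 * C)) = min δ ε := by field_simp; ring
    exact ⟨min δ ε / (2 * C), by positivity, e.le.trans (min_le_left _ _),
      e.le.trans (min_le_right _ _)⟩
  have d3 : d ≤ ε := by nlinarith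
  obtain ⟨t, ht⟩ := isCompact_univ.elim_finite_subcover
    (fun p : Function.periodicPts G => ball (p : M) d) (fun _ => isOpen_ball) (fun x _ => by
      obtain ⟨p, p1, p2⟩ := Metric.mem_closure_iff.1 (hP x) d d0
      exact mem_iUnion.2 ⟨⟨p, p1⟩, p2⟩)
  have key : ∀ t : Finset (Function.periodicPts G), ∃ k m0 : ℕ, 0 < k ∧ ∀ p ∈ t,
      G^[k] (p : M) = p ∧ ∀ m, m0 ≤ m → ∀ w : M, ∃ y,
        ds G (G^[m] (p : M)) (G^[m] y) ≤ d ∧ dist y w < θ / 2 := by
    intro t
    induction t using Finset.induction_on with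
    | empty => exact ⟨1, 0, one_pos, by simp⟩
    | insert q t _ ih =>
      obtain ⟨k, m0, k0, hk⟩ := ih
      obtain ⟨m1, hm1⟩ := h.minl_level hP q.2 d0 d3 (half_pos hθ)
      obtain ⟨l, l0, hl⟩ := q.2
      have hl' : G^[l] (q : M) = q := hl
      refine ⟨k * l, max m0 m1, Nat.mul_pos k0 l0, fun p hp => ?_⟩
      rcases Finset.mem_insert.1 hp with rfl | hp
      · refine ⟨?_, fun m hm => hm1 m ((le_max_right _ _).trans hm)⟩
        rw [mul_comm]
        exact minl_iter_mul hl' k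
      · exact ⟨minl_iter_mul (hk p hp).1 l, fun m hm => (hk p hp).2 m ((le_max_left _ _).trans hm)⟩
  obtain ⟨k, m0, k0, hk⟩ := key t
  obtain ⟨j, hj⟩ := h.symm.shrink (half_pos hθ)
  have e0 : m0 + j ≤ k * (m0 + j) := Nat.le_mul_of_pos_left _ k0
  refine ⟨k * (m0 + j), fun y w => ?_⟩
  obtain ⟨p, hp⟩ := mem_iUnion.1 (ht (mem_univ (G^[k * (m0 + j)] y)))
  obtain ⟨hpt, hp⟩ := mem_iUnion.1 hp
  obtain ⟨z, z1, z2⟩ := (hk p hpt).2 (k * (m0 + j)) (by omega) w
  rw [minl_iter_mul (hk p hpt).1] at z1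
  have e1 : dist (G^[k * (m0 + j)] y) (G^[k * (m0 + j)] z) ≤ d + d :=
    (dist_triangle _ (p : M) _).trans
      (add_le_add (mem_ball.1 hp).le ((dist_le_ds G _ _).trans z1))
  have e2 : C * dist (G^[k * (m0 + j)] y) (G^[k * (m0 + j)] z) ≤ C * (d + d) := by gcongr
  obtain ⟨c, c1, c2⟩ := h.br _ _ (e2.trans d2)
  refine ⟨H^[k * (m0 + j)] c, ?_, ?_⟩
  · rw [h.inv.GHn]
    exact c1.trans (e2.trans d1)
  · have t1 := hj (k * (m0 + j)) (by omega) _ _ (c2.trans (e2.trans d2))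
    rw [h.inv.HGn] at t1
    have t2 := (dist_le_ds H _ _).trans t1
    have t3 := dist_triangle_left (H^[k * (m0 + j)] c) w z
    linarith

end Pool.Agent.P.MP_0a0487_an
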