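import Pool.Agent.P.MP_0a0487_an.Vstep
import Pool.Agent.P.MP_0a0487_an.Minl
import Pool.Agent.P.MP_0a0487_an.Label
import Pool.Agent.P.MP_0a0487_an.LemU

/-!
The covering, from pinching against the weak rate.
-/

set_option autoImplicit false

open Set Metric Filter Topology

namespace Pool.Agent.P.MP_0a0487_an

variable {M : Type*} [MetricSpace M] [CompactSpace M]
  {G H : M → M} {S U : Type*} [NormedAddCommGroup S] [NormedAddCommGroup U]
  [NormedSpace ℝ S] [NormedSpace ℝ U] [FiniteDimensional ℝ S] [FiniteDimensional ℝ U]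
  {ε C a1 a2 b1 b2 b δ : ℝ} {κ : M → M → U} {nv : M → U} {K ρ r : ℝ}

theorem Pin.covering [ConnectedSpace M] (h : Pin G H S U ε C a1 a2 b1 b2 b δ)
    (hP : Dense (Function.periodicPts G)) (hq : Plq G H κ nv K ρ r b) :
    ∃ p : S × U → M, IsCoveringMap p ∧ Function.Surjective p := by
  have hm := h.sm.minl hP
  refine h.sm.covering (h.eg_of_hol fun z' => ?_)
  by_cases hO : ∃ z, Opn G H b δ z
  · obtain ⟨z, hz⟩ := hO
    obtain ⟨η, h1, h2⟩ := h.opn_all hm hz z'
    exact ⟨η, h1, fun z hz => h.hol_wk (h2 z (by rwa [ds_comm])).symm⟩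
  · obtain ⟨V, Λ, K', r0, hl0⟩ := h.preLam hq (not_exists.1 hO)
    obtain ⟨r', hl⟩ := h.lam hl0
    have hK := hl.one_le
    have hr := hl.r_pos
    have hδ := h.δ_pos
    obtain ⟨τ, t0, h3⟩ := hl.l3
    refine ⟨min (r' / K') (δ / K' ^ 2), by positivity, fun z hz => ?_⟩
    have t1 : K' * ds H z z' ≤ r' := (le_div_iff₀' (by positivity)).1 (hz.trans (min_le_left _ _))
    have t2 : K' ^ 2 * ds H z z' ≤ δ :=
      (le_div_iff₀' (by positivity)).1 (hz.trans (min_le_right _ _))
    have t3 : ds H z z' ≤ r' := (le_mul_of_one_le_left (ds_nonneg _ _ _) hK).trans t1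
    have t4 := hl.label_le t3
    refine h.hol_trans (h.vstep hm hl (t4.trans t1) ?_) (h.hol_wk ((h3 z z' t3).wk t0).symm)
    calc K' * |Λ z z'| ≤ K' * (K' * ds H z z') := by gcongr
      _ = K' ^ 2 * ds H z z' := by ring
      _ ≤ δ := t2

end Pool.Agent.P.MP_0a0487_an
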