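import Pool.Agent.P.MP_0a0487_an.Atlas

/-!
From local first order data on an embedded compact space to uniform estimates.
-/

set_option autoImplicit false

open Set Metric Filter Topology Module
open scoped NNReal

namespace Pool.Agent.P.MP_0a0487_an

variable {M : Type*} [MetricSpace M] [CompactSpace M]

theorem unif3 {Pr : M → M → M → Prop}
    (h : ∀ x0 : M, ∀ᶠ p : M × M × M in 𝓝 (x0, x0, x0), Pr p.1 p.2.1 p.2.2) :
    ∃ ρ : ℝ, 0 < ρ ∧ ∀ x a b, dist a x ≤ ρ → dist b x ≤ ρ → Pr x a b := by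
  have hc : IsCompact (range fun x : M => (x, x, x)) := isCompact_range (by fun_prop)
  obtain ⟨δ, hδ, hs⟩ := hc.exists_cthickening_subset_open
    (t := interior {p : M × M × M | Pr p.1 p.2.1 p.2.2}) isOpen_interior (by
      rintro _ ⟨x, rfl⟩
      exact mem_interior_iff_mem_nhds.2 (h x))
  refine ⟨δ, hδ, fun x a b ha hb => ?_⟩
  have : (x, a, b) ∈ cthickening δ (range fun x : M => (x, x, x)) :=
    mem_cthickening_of_dist_le _ (x, x, x) _ _ ⟨x, rfl⟩ (by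
      simp only [Prod.dist_eq, dist_self, max_le_iff]
      exact ⟨hδ.le, ha, hb⟩)
  exact interior_subset (s := {p : M × M × M | Pr p.1 p.2.1 p.2.2}) (hs this)

theorem unif1 {Pr : M → ℝ → Prop} (mono : ∀ x c c', 0 < c' → c' ≤ c → Pr x c → Pr x c')
    (h : ∀ x0 : M, ∃ c : ℝ, 0 < c ∧ ∀ᶠ x in 𝓝 x0, Pr x c) : ∃ c : ℝ, 0 < c ∧ ∀ x, Pr x c := by
  have := isCompact_univ.induction_on (p := fun s : Set M => ∃ c : ℝ, 0 < c ∧ ∀ x ∈ s, Pr x c)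
    ⟨1, one_pos, by simp⟩ (fun s t hst ⟨c, c0, hc⟩ => ⟨c, c0, fun x hx => hc x (hst hx)⟩)
    (fun s t ⟨c, c0, hc⟩ ⟨d, d0, hd⟩ => ⟨min c d, lt_min c0 d0, fun x hx => hx.elim
      (fun hx => mono x c _ (lt_min c0 d0) (min_le_left _ _) (hc x hx))
      (fun hx => mono x d _ (lt_min c0 d0) (min_le_right _ _) (hd x hx))⟩)
    (fun x _ => by
      obtain ⟨c, c0, hc⟩ := h x
      exact ⟨_, nhdsWithin_le_nhds hc, c, c0, fun y hy => hy⟩)
  obtain ⟨c, c0, hc⟩ := this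
  exact ⟨c, c0, fun x => hc x (mem_univ x)⟩

theorem exists_leftInv {V E' : Type*} [NormedAddCommGroup V] [NormedSpace ℝ V]
    [NormedAddCommGroup E'] [InnerProductSpace ℝ E'] [FiniteDimensional ℝ E'] (ι : V →ₗ[ℝ] E')
    {K : ℝ} (hK : 0 ≤ K) (h : ∀ v, ‖v‖ ≤ K * ‖ι v‖) :
    ∃ Q : E' →ₗ[ℝ] V, (∀ v, Q (ι v) = v) ∧ ∀ w, ‖Q w‖ ≤ K * ‖w‖ := by
  have inj : LinearMap.ker ι = ⊥ := LinearMap.ker_eq_bot'.2 fun v hv => by
    simpa [hv] using h v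
  obtain ⟨g, hg⟩ := ι.exists_leftInverse_of_injective inj
  have hg' : ∀ v, g (ι v) = v := fun v => LinearMap.congr_fun hg v
  refine ⟨g ∘ₗ (LinearMap.range ι).starProjection.toLinearMap, fun v => ?_, fun w => ?_⟩
  · have : (LinearMap.range ι).starProjection (ι v) = ι v :=
      Submodule.starProjection_eq_self_iff.2 (LinearMap.mem_range_self ι v)
    simp [this, hg']
  · obtain ⟨v, hv⟩ := (LinearMap.range ι).starProjection_apply_mem w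
    have t := (LinearMap.range ι).norm_starProjection_apply_le w
    have : (g ∘ₗ (LinearMap.range ι).starProjection.toLinearMap) w = v := by
      simp [← hv, hg']
    rw [this]
    refine (h v).trans ?_
    rw [hv]
    gcongr

theorem exists_split {V : Type*} [NormedAddCommGroup V] [InnerProductSpace ℝ V]
    [FiniteDimensional ℝ V] (P : V →ₗ[ℝ] V) (hP : ∀ v, P (P v) = P v) {s u : ℕ}
    (hs : finrank ℝ (LinearMap.range P) = s) (hu : finrank ℝ (LinearMap.ker P) = u) :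
    ∃ L : V ≃ₗ[ℝ] EuclideanSpace ℝ (Fin s) × EuclideanSpace ℝ (Fin u),
      ∀ v, ‖(L v).1‖ = ‖P v‖ ∧ ‖(L v).2‖ = ‖v - P v‖ := by
  subst hs hu
  let σ := (stdOrthonormalBasis ℝ (LinearMap.range P)).repr
  let υ := (stdOrthonormalBasis ℝ (LinearMap.ker P)).repr
  let L := LinearMap.prod (σ.toLinearEquiv.toLinearMap ∘ₗ P.rangeRestrict)
    (υ.toLinearEquiv.toLinearMap ∘ₗ (LinearMap.id - P).codRestrict (LinearMap.ker P)
      fun v => by simp [hP])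
  have hL : ∀ v, ‖(L v).1‖ = ‖P v‖ ∧ ‖(L v).2‖ = ‖v - P v‖ := fun v =>
    ⟨σ.norm_map _, υ.norm_map _⟩
  have inj : Function.Injective L := by
    refine LinearMap.ker_eq_bot.1 (LinearMap.ker_eq_bot'.2 fun v hv => ?_)
    obtain ⟨t1, t2⟩ := hL v
    rw [hv] at t1 t2
    simp only [Prod.fst_zero, Prod.snd_zero, norm_zero] at t1 t2
    rw [norm_eq_zero.1 t1.symm, sub_zero] at t2
    exact norm_eq_zero.1 t2.symm
  exact ⟨L.linearEquivOfInjective inj (by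
    simp [LinearMap.finrank_range_add_finrank_ker]), hL⟩

theorem exists_equiv {S : Type*} [NormedAddCommGroup S] [NormedSpace ℝ S] [FiniteDimensional ℝ S]
    (A : S →ₗ[ℝ] S) {l : ℝ} (hl : 0 < l) (h : ∀ v, l * ‖v‖ ≤ ‖A v‖) :
    ∃ As : S ≃L[ℝ] S, ∀ v, As v = A v := by
  have inj : Function.Injective A := by
    refine LinearMap.ker_eq_bot.1 (LinearMap.ker_eq_bot'.2 fun v hv => ?_)
    have := h v
    rw [hv, norm_zero] at this
    exact norm_le_zero_iff.1 (nonpos_of_mul_nonpos_right this hl)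
  exact ⟨(LinearEquiv.ofInjectiveEndo A inj).toContinuousLinearEquiv, fun v => rfl⟩

theorem exists_bound {V W : Type*} [NormedAddCommGroup V] [NormedSpace ℝ V] [FiniteDimensional ℝ V]
    [NormedAddCommGroup W] [NormedSpace ℝ W] (A : V →ₗ[ℝ] W) :
    ∃ K : ℝ, 0 < K ∧ ∀ v, ‖A v‖ ≤ K * ‖v‖ := by
  obtain ⟨K, K0, hK⟩ := (LinearMap.toContinuousLinearMap A).bound
  exact ⟨K, K0, hK⟩

variable {T : M → Type*} [∀ x, NormedAddCommGroup (T x)] [∀ x, InnerProductSpace ℝ (T x)]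
  [∀ x, FiniteDimensional ℝ (T x)]
  {E' : Type*} [NormedAddCommGroup E'] [InnerProductSpace ℝ E'] [FiniteDimensional ℝ E']

/-- The tangent spaces at `x0` and `x` are almost identified by `J`. -/
structure Near {G : M → M} (ι : ∀ x, T x →ₗ[ℝ] E') (D : ∀ x, T x →ₗ[ℝ] T (G x))
    (P : ∀ x, T x →ₗ[ℝ] T x) {x0 x : M} (J : T x0 →ₗ[ℝ] T x) (J' : T x →ₗ[ℝ] T x0) (η : ℝ) :
    Prop where
  j1 : ∀ v, J (J' v) = v
  j2 : ∀ w, J' (J w) = w
  n1 : ∀ w, ‖J w‖ ≤ (1 + η) * ‖w‖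
  n2 : ∀ v, ‖J' v‖ ≤ (1 + η) * ‖v‖
  e1 : ∀ w, ‖ι x (J w) - ι x0 w‖ ≤ η * ‖w‖
  e2 : ∀ w, ‖ι (G x) (D x (J w)) - ι (G x0) (D x0 w)‖ ≤ η * ‖w‖
  e3 : ∀ w, ‖P x (J w) - J (P x0 w)‖ ≤ η * ‖w‖

/-- Local first order data of an embedded compact manifold with a self-map and a splitting. -/
structure Frame (e : M → E') (G : M → M) (ι : ∀ x, T x →ₗ[ℝ] E') (D : ∀ x, T x →ₗ[ℝ] T (G x))
    (P : ∀ x, T x →ₗ[ℝ] T x) : Prop where
  dist_eq : ∀ a b, dist a b = ‖e a - e b‖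
  inj : ∀ x, Function.Injective (ι x)
  idem : ∀ x v, P x (P x v) = P x v
  loc : ∀ x0, ∃ (φ : M → T x0) (ψ : T x0 → M) (J : ∀ x, T x0 →ₗ[ℝ] T x)
    (J' : ∀ x, T x →ₗ[ℝ] T x0), ContinuousAt φ x0 ∧ Tendsto ψ (𝓝 (φ x0)) (𝓝 x0) ∧
    (∀ᶠ w in 𝓝 (φ x0), φ (ψ w) = w) ∧ (∀ᶠ x in 𝓝 x0, ψ (φ x) = x) ∧
    ∀ η : ℝ, 0 < η → (∀ᶠ x in 𝓝 x0, Near ι D P (J x) (J' x) η) ∧
      (∀ᶠ p : M × M in 𝓝 (x0, x0),
        ‖e p.1 - e p.2 - ι x0 (φ p.1 - φ p.2)‖ ≤ η * ‖φ p.1 - φ p.2‖) ∧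
      ∀ᶠ p : M × M in 𝓝 (x0, x0),
        ‖e (G p.1) - e (G p.2) - ι (G x0) (D x0 (φ p.1 - φ p.2))‖ ≤ η * ‖φ p.1 - φ p.2‖

variable {e : M → E'} {G : M → M} {ι : ∀ x, T x →ₗ[ℝ] E'} {D : ∀ x, T x →ₗ[ℝ] T (G x)}
  {P : ∀ x, T x →ₗ[ℝ] T x} {Q : ∀ x, E' →ₗ[ℝ] T x} {K : ℝ}

/-- Uniform bounds. -/
structure Bounds {G : M → M} (ι : ∀ x, T x →ₗ[ℝ] E') (D : ∀ x, T x →ₗ[ℝ] T (G x))
    (P : ∀ x, T x →ₗ[ℝ] T x) (Q : ∀ x, E' →ₗ[ℝ] T x) (K : ℝ) : Prop where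
  one_le : 1 ≤ K
  b1 : ∀ x v, ‖v‖ ≤ K * ‖ι x v‖
  b2 : ∀ x v, ‖ι x v‖ ≤ K * ‖v‖
  b3 : ∀ x v, ‖P x v‖ ≤ K * ‖v‖
  b4 : ∀ x v, ‖ι (G x) (D x v)‖ ≤ K * ‖v‖
  q1 : ∀ x v, Q x (ι x v) = v
  q2 : ∀ x w, ‖Q x w‖ ≤ K * ‖w‖

theorem Frame.bounds (h : Frame e G ι D P) : ∃ Q K, Bounds ι D P Q K := by
  obtain ⟨c, c0, hc⟩ := unif1 (Pr := fun x c => c ≤ 1 ∧ ∀ v : T x, c * ‖v‖ ≤ ‖ι x v‖ ∧
    c * ‖ι x v‖ ≤ ‖v‖ ∧ c * ‖P x v‖ ≤ ‖v‖ ∧ c * ‖ι (G x) (D x v)‖ ≤ ‖v‖)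
    (fun x c c' c0 hc h => ⟨hc.trans h.1, fun v => ⟨le_trans (by gcongr) (h.2 v).1,
      le_trans (by gcongr) (h.2 v).2.1, le_trans (by gcongr) (h.2 v).2.2.1,
      le_trans (by gcongr) (h.2 v).2.2.2⟩⟩) (fun x0 => by
      obtain ⟨φ, ψ, J, J', -, -, -, -, hl⟩ := h.loc x0
      obtain ⟨K1, -, k1⟩ := (ι x0).exists_antilipschitzWith (LinearMap.ker_eq_bot.2 (h.inj x0))
      have k1' : ∀ w, ‖w‖ ≤ K1 * ‖ι x0 w‖ := fun w => ZeroHomClass.bound_of_antilipschitz _ k1 w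
      obtain ⟨K2, p2, k2⟩ := exists_bound (ι x0)
      obtain ⟨K3, p3, k3⟩ := exists_bound (P x0)
      obtain ⟨K4, p4, k4⟩ := exists_bound (ι (G x0) ∘ₗ D x0)
      have p1 : (0 : ℝ) ≤ K1 := K1.2
      obtain ⟨K, hK⟩ : ∃ K : ℝ, K = 1 + K1 + K2 + K3 + K4 := ⟨_, rfl⟩
      have hK1 : 1 ≤ K := by linarith
      refine ⟨(6 * K)⁻¹, by positivity, ?_⟩
      filter_upwards [(hl (2 * K)⁻¹ (by positivity)).1] with x hx
      refine ⟨inv_le_one_of_one_le₀ (by linarith), fun v => ?_⟩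
      obtain ⟨w, rfl⟩ : ∃ w, v = J x w := ⟨J' x v, (hx.j1 v).symm⟩
      have η1 : (2 * K)⁻¹ ≤ 1 := inv_le_one_of_one_le₀ (by linarith)
      have w0 := norm_nonneg w
      have η2 : (2 * K)⁻¹ * ‖w‖ ≤ ‖w‖ := mul_le_of_le_one_left w0 η1
      have n1 : ‖J x w‖ ≤ 2 * ‖w‖ := (hx.n1 w).trans (by gcongr; linarith)
      have n2 : ‖w‖ ≤ 2 * ‖J x w‖ := by
        have := hx.n2 (J x w)
        rw [hx.j2] at this
        exact this.trans (by gcongr; linarith)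
      have n3 : ‖w‖ ≤ K * ‖w‖ := le_mul_of_one_le_left w0 hK1
      have n4 : K * ‖w‖ ≤ K * (2 * ‖J x w‖) := by gcongr
      simp only [inv_mul_le_iff₀ (show 0 < 6 * K by positivity)]
      refine ⟨?_, ?_, ?_, ?_⟩
      · have t1 : ‖w‖ ≤ K * ‖ι x0 w‖ := (k1' w).trans (by gcongr; linarith)
        have t2 := norm_le_insert (ι x (J x w)) (ι x0 w)
        have t3 : K * ‖ι x0 w‖ ≤ K * (‖ι x (J x w)‖ + (2 * K)⁻¹ * ‖w‖) := by
          gcongr; linarith [hx.e1 w]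
        have t4 : K * (‖ι x (J x w)‖ + (2 * K)⁻¹ * ‖w‖) = K * ‖ι x (J x w)‖ + ‖w‖ / 2 := by
          field_simp
        have : 0 ≤ K * ‖ι x (J x w)‖ := by positivity
        linarith
      · have t1 : ‖ι x0 w‖ ≤ K * ‖w‖ := (k2 w).trans (by gcongr; linarith)
        have t2 := norm_le_insert' (ι x (J x w)) (ι x0 w)
        have : 0 ≤ K * ‖J x w‖ := by positivity
        linarith [hx.e1 w]
      · have t1 : ‖P x0 w‖ ≤ K * ‖w‖ := (k3 w).trans (by gcongr; linarith)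
        have t2 := norm_le_insert' (P x (J x w)) (J x (P x0 w))
        have t3 : ‖J x (P x0 w)‖ ≤ 2 * ‖P x0 w‖ := (hx.n1 _).trans (by gcongr; linarith)
        linarith [hx.e3 w]
      · have t1 : ‖ι (G x0) (D x0 w)‖ ≤ K * ‖w‖ := (k4 w).trans (by gcongr; linarith)
        have t2 := norm_le_insert' (ι (G x) (D x (J x w))) (ι (G x0) (D x0 w))
        have : 0 ≤ K * ‖J x w‖ := by positivity
        linarith [hx.e2 w])
  have b1 : ∀ x v, ‖v‖ ≤ c⁻¹ * ‖ι x v‖ := fun x v => (le_inv_mul_iff₀ c0).2 ((hc x).2 v).1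
  choose Q q1 q2 using fun x => exists_leftInv (ι x) (inv_nonneg.2 c0.le) (b1 x)
  cases isEmpty_or_nonempty M with
  | inl hM => exact ⟨Q, 1, le_rfl, hM.elim, hM.elim, hM.elim, hM.elim, hM.elim, hM.elim⟩
  | inr hM =>
    obtain ⟨x⟩ := hM
    exact ⟨Q, c⁻¹, (one_le_inv₀ c0).2 (hc x).1, b1,
      fun x v => (le_inv_mul_iff₀ c0).2 ((hc x).2 v).2.1,
      fun x v => (le_inv_mul_iff₀ c0).2 ((hc x).2 v).2.2.1,
      fun x v => (le_inv_mul_iff₀ c0).2 ((hc x).2 v).2.2.2, q1, q2⟩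

theorem Bounds.q3 (b : Bounds ι D P Q K) (x : M) (z : E') (v : T x) :
    ‖Q x z - v‖ ≤ K * ‖z - ι x v‖ := by
  have := b.q2 x (z - ι x v)
  rwa [map_sub, b.q1] at this

theorem small (c : ℝ) {η : ℝ} (hη : 0 < η) (hc : 1 ≤ c) :
    ∃ η' : ℝ, 0 < η' ∧ η' ≤ 1 ∧ c * η' ≤ 1 ∧ c * η' ≤ η :=
  ⟨min 1 η / c, by positivity, (div_le_self (by positivity) hc).trans (min_le_left _ _),
    by rw [mul_div_cancel₀ _ (by positivity)]; exact min_le_left _ _,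
    by rw [mul_div_cancel₀ _ (by positivity)]; exact min_le_right _ _⟩

theorem approx_aux (b : Bounds ι D P Q K) {x0 x : M} {J : T x0 →ₗ[ℝ] T x} {A : T x →ₗ[ℝ] E'}
    {A0 : T x0 →ₗ[ℝ] E'} {η η' : ℝ} (p0 : 0 < η') (p1 : 8 * K ^ 3 * η' ≤ 1)
    (p2 : 8 * K ^ 3 * η' ≤ η)
    (hA : ∀ v, ‖A v‖ ≤ K * ‖v‖) {w : T x0} {z z' : E'} (e1 : ‖ι x (J w) - ι x0 w‖ ≤ η' * ‖w‖)
    (e2 : ‖A (J w) - A0 w‖ ≤ η' * ‖w‖) (e3 : ‖z - ι x0 w‖ ≤ η' * ‖w‖)
    (e4 : ‖z' - A0 w‖ ≤ η' * ‖w‖) : ‖z' - A (Q x z)‖ ≤ η * ‖z‖ := by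
  have hK := b.one_le
  have w0 := norm_nonneg w
  have t1 : ‖z - ι x (J w)‖ ≤ 2 * (η' * ‖w‖) := by
    have := norm_sub_le_norm_sub_add_norm_sub z (ι x0 w) (ι x (J w))
    rw [norm_sub_rev (ι x0 w)] at this
    linarith
  have t2 : ‖A (Q x z) - A (J w)‖ ≤ K * (K * (2 * (η' * ‖w‖))) := by
    rw [← map_sub]
    exact (hA _).trans (by gcongr; exact (b.q3 x z _).trans (by gcongr))
  have t3 := norm_sub_le_norm_sub_add_norm_sub z' (A0 w) (A (Q x z))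
  have t4 := norm_sub_le_norm_sub_add_norm_sub (A0 w) (A (J w)) (A (Q x z))
  rw [norm_sub_rev (A0 w) (A (J w)), norm_sub_rev (A (J w)) (A (Q x z))] at t4
  have k2 : 1 ≤ K ^ 2 := one_le_pow₀ hK
  have t5 : η' * ‖w‖ ≤ K ^ 2 * (η' * ‖w‖) := le_mul_of_one_le_left (by positivity) k2
  have t6 : ‖z' - A (Q x z)‖ ≤ 4 * K ^ 2 * η' * ‖w‖ := by nlinarith
  have t7 : ‖w‖ ≤ 2 * K * ‖z‖ := by
    have s1 := norm_le_insert z (ι x0 w)
    have s2 : ‖w‖ ≤ K * (‖z‖ + η' * ‖w‖) := (b.b1 x0 w).trans (by gcongr; linarith)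
    have s3 : K * η' ≤ K ^ 3 * η' := by
      gcongr
      exact le_self_pow₀ hK (by norm_num)
    have s4 : K * η' * ‖w‖ ≤ 1 / 2 * ‖w‖ := by gcongr; linarith
    linarith
  calc ‖z' - A (Q x z)‖ ≤ 4 * K ^ 2 * η' * (2 * K * ‖z‖) := t6.trans (by gcongr)
    _ = 8 * K ^ 3 * η' * ‖z‖ := by ring
    _ ≤ η * ‖z‖ := by gcongr

theorem Frame.approx (h : Frame e G ι D P) (b : Bounds ι D P Q K) {η : ℝ} (hη : 0 < η) :
    ∃ ρ : ℝ, 0 < ρ ∧ ∀ x a c, dist a x ≤ ρ → dist c x ≤ ρ →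
      ‖e a - e c - ι x (Q x (e a - e c))‖ ≤ η * ‖e a - e c‖ ∧
      ‖e (G a) - e (G c) - ι (G x) (D x (Q x (e a - e c)))‖ ≤ η * ‖e a - e c‖ := by
  have hK := b.one_le
  obtain ⟨η', p0, -, p1, p2⟩ := small (8 * K ^ 3) hη (by linarith [one_le_pow₀ (n := 3) hK])
  refine unif3 fun x0 => ?_
  obtain ⟨φ, ψ, J, J', -, -, -, -, hl⟩ := h.loc x0
  obtain ⟨l1, l2, l3⟩ := hl η' p0
  have c1 : Tendsto (fun p : M × M × M => p.1) (𝓝 (x0, x0, x0)) (𝓝 x0) := continuousAt_fst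
  have c2 : Tendsto (fun p : M × M × M => p.2) (𝓝 (x0, x0, x0)) (𝓝 (x0, x0)) := continuousAt_snd
  filter_upwards [c1.eventually l1, c2.eventually l2, c2.eventually l3] with p h1 h2 h3
  exact ⟨approx_aux b p0 p1 p2 (b.b2 _) (h1.e1 _) (h1.e1 _) h2 h2,
    approx_aux b (A := ι (G p.1) ∘ₗ D p.1) (A0 := ι (G x0) ∘ₗ D x0) p0 p1 p2 (b.b4 _) (h1.e1 _)
      (h1.e2 _) h2 h3⟩

theorem Frame.close (h : Frame e G ι D P) (b : Bounds ι D P Q K) {η : ℝ} (hη : 0 < η) :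
    ∃ ρ : ℝ, 0 < ρ ∧ ∀ x x', dist x' x ≤ ρ → ∀ v : T x,
      (1 - η) * ‖v‖ ≤ ‖Q x' (ι x v)‖ ∧ ‖Q x' (ι x v)‖ ≤ (1 + η) * ‖v‖ ∧
      ‖P x' (Q x' (ι x v)) - Q x' (ι x (P x v))‖ ≤ η * ‖v‖ := by
  have hK := b.one_le
  have k2 : 1 ≤ K ^ 2 := one_le_pow₀ hK
  obtain ⟨η', p0, p3, p1, p2⟩ := small (12 * K ^ 2) hη (by linarith)
  obtain ⟨ρ, ρ0, hρ⟩ := unif3 (Pr := fun x x' _ => ∀ v : T x,
      (1 - η) * ‖v‖ ≤ ‖Q x' (ι x v)‖ ∧ ‖Q x' (ι x v)‖ ≤ (1 + η) * ‖v‖ ∧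
      ‖P x' (Q x' (ι x v)) - Q x' (ι x (P x v))‖ ≤ η * ‖v‖) fun x0 => by
    obtain ⟨φ, ψ, J, J', -, -, -, -, hl⟩ := h.loc x0
    obtain ⟨l1, -, -⟩ := hl η' p0
    have c1 : Tendsto (fun p : M × M × M => p.1) (𝓝 (x0, x0, x0)) (𝓝 x0) := continuousAt_fst
    have c2 : Tendsto (fun p : M × M × M => p.2.1) (𝓝 (x0, x0, x0)) (𝓝 x0) :=
      continuousAt_fst.comp continuousAt_snd
    filter_upwards [c1.eventually l1, c2.eventually l1] with p h1 h2 v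
    obtain ⟨x, x', _⟩ := p
    simp only at h1 h2 v ⊢
    obtain ⟨w, rfl⟩ : ∃ w, v = J x w := ⟨J' x v, (h1.j1 v).symm⟩
    have N : ∀ w, ‖Q x' (ι x (J x w)) - J x' w‖ ≤ K * (2 * (η' * ‖w‖)) := fun w => by
      refine (b.q3 x' _ _).trans ?_
      have := norm_sub_le_norm_sub_add_norm_sub (ι x (J x w)) (ι x0 w) (ι x' (J x' w))
      rw [norm_sub_rev (ι x0 w)] at this
      gcongr
      linarith [h1.e1 w, h2.e1 w]
    have w0 := norm_nonneg w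
    have v0 := norm_nonneg (J x w)
    have a1 := h1.n1 w
    have a2 := h2.n1 w
    have a3 : ‖w‖ ≤ (1 + η') * ‖J x w‖ := by simpa only [h1.j2] using h1.n2 (J x w)
    have a4 : ‖w‖ ≤ (1 + η') * ‖J x' w‖ := by simpa only [h2.j2] using h2.n2 (J x' w)
    have a5 : ‖w‖ ≤ 2 * ‖J x w‖ := a3.trans (by gcongr; linarith)
    have a6 : ‖J x' w‖ ≤ 2 * ‖w‖ := a2.trans (by gcongr; linarith)
    obtain ⟨u, hu⟩ : ∃ u, u = η' * ‖J x w‖ := ⟨_, rfl⟩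
    have u0 : 0 ≤ u := by rw [hu]; positivity
    have u1 : η' * ‖w‖ ≤ 2 * u := by rw [hu]; nlinarith
    have u2 : η' * ‖J x' w‖ ≤ 4 * u := by nlinarith
    have u3 : 12 * K ^ 2 * u ≤ η * ‖J x w‖ := by rw [hu, ← mul_assoc]; gcongr
    have u4 : u ≤ K * u := le_mul_of_one_le_left u0 hK
    have u5 : K * u ≤ K ^ 2 * u := by gcongr; nlinarith
    have u6 : K * (2 * (η' * ‖w‖)) ≤ K * (2 * (2 * u)) := by gcongr
    have n1 := N w
    refine ⟨?_, ?_, ?_⟩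
    · have := norm_le_insert (Q x' (ι x (J x w))) (J x' w)
      nlinarith
    · have := norm_le_insert' (Q x' (ι x (J x w))) (J x' w)
      nlinarith
    · have s1 : ‖P x' (Q x' (ι x (J x w))) - P x' (J x' w)‖ ≤ K * (K * (2 * (2 * u))) := by
        rw [← map_sub]
        exact (b.b3 _ _).trans (by gcongr; exact n1.trans u6)
      have s2 := h2.e3 w
      have s3 : ‖Q x' (ι x (J x (P x0 w))) - J x' (P x0 w)‖ ≤ K * (2 * (K * (2 * u))) := by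
        refine (N _).trans ?_
        gcongr K * (2 * ?_)
        calc η' * ‖P x0 w‖ ≤ η' * (K * ‖w‖) := by gcongr; exact b.b3 _ _
          _ = K * (η' * ‖w‖) := by ring
          _ ≤ _ := by gcongr
      have s4 : ‖Q x' (ι x (P x (J x w))) - Q x' (ι x (J x (P x0 w)))‖ ≤ K * (K * (2 * u)) := by
        rw [← map_sub, ← map_sub]
        refine (b.q2 _ _).trans ?_
        gcongr
        refine (b.b2 _ _).trans ?_
        gcongr
        exact (h1.e3 w).trans u1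
      have s5 := norm_sub_le_norm_sub_add_norm_sub (P x' (Q x' (ι x (J x w)))) (P x' (J x' w))
        (Q x' (ι x (P x (J x w))))
      have s6 := norm_sub_le_norm_sub_add_norm_sub (P x' (J x' w)) (J x' (P x0 w))
        (Q x' (ι x (P x (J x w))))
      have s7 := norm_sub_le_norm_sub_add_norm_sub (J x' (P x0 w)) (Q x' (ι x (J x (P x0 w))))
        (Q x' (ι x (P x (J x w))))
      rw [norm_sub_rev] at s3 s4
      linarith
  exact ⟨ρ, ρ0, fun x x' hx => hρ x x' x hx (by simpa using ρ0.le)⟩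

theorem Frame.onto (h : Frame e G ι D P) (b : Bounds ι D P Q K) {ρ0 : ℝ} (hρ0 : 0 < ρ0) :
    ∃ ρ1 : ℝ, 0 < ρ1 ∧ ∀ x, ∀ v : T x, ‖v‖ ≤ ρ1 → ∃ a, dist a x ≤ ρ0 ∧ Q x (e a - e x) = v := by
  have hK := b.one_le
  refine unif1 (fun x c c' _ hc h v hv => h v (hv.trans hc)) fun x0 => ?_
  obtain ⟨φ, ψ, J, J', c1, c2, c3, c4, hl⟩ := h.loc x0
  obtain ⟨η, p0, p3, p1, -⟩ := small (8 * K) one_pos (by linarith)
  obtain ⟨l1, l2, -⟩ := hl η p0
  obtain ⟨s, hs, t, ht, hst⟩ := mem_nhds_prod_iff.1 l2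
  obtain ⟨R, R0, hR⟩ := Metric.eventually_nhds_iff_ball.1 (c3.and ((c2.eventually (inter_mem hs ht)).and
    (c2.eventually (ball_mem_nhds x0 (half_pos hρ0)))))
  refine ⟨R / 8, by positivity, ?_⟩
  filter_upwards [l1, c4, ball_mem_nhds x0 (half_pos hρ0),
    c1.eventually (ball_mem_nhds _ (half_pos R0))] with x h1 h2 h3 h4 v hv
  haveI : CompleteSpace (T x0) := FiniteDimensional.complete ℝ _
  have ap : ApproximatesLinearOn (fun w => Q x (e (ψ w))) (LinearMap.toContinuousLinearMap (J x))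
      (ball (φ x0) R) (1 / 4) := by
    intro w hw w' hw'
    obtain ⟨a1, a2, -⟩ := hR w hw
    obtain ⟨b1, b2, -⟩ := hR w' hw'
    have t1 : ‖e (ψ w) - e (ψ w') - ι x0 (φ (ψ w) - φ (ψ w'))‖ ≤ η * ‖φ (ψ w) - φ (ψ w')‖ :=
      hst (mk_mem_prod a2.1 b2.2)
    rw [a1, b1] at t1
    have t2 := h1.e1 (w - w')
    have t3 := norm_sub_le_norm_sub_add_norm_sub (e (ψ w) - e (ψ w')) (ι x0 (w - w'))
      (ι x (J x (w - w')))
    rw [norm_sub_rev (ι x0 (w - w'))] at t3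
    rw [← map_sub]
    refine (b.q3 x _ _).trans ?_
    calc K * ‖e (ψ w) - e (ψ w') - ι x (J x (w - w'))‖ ≤ K * (2 * (η * ‖w - w'‖)) := by
          gcongr; linarith
      _ = 8 * K * η / 4 * ‖w - w'‖ := by ring
      _ ≤ 1 / 4 * ‖w - w'‖ := by gcongr
      _ = _ := by simp
  let ri : (LinearMap.toContinuousLinearMap (J x)).NonlinearRightInverse :=
    ⟨J' x, 2, fun y => (h1.n2 y).trans (by
      have : (1 + η) ≤ 2 := by linarith
      simp only [NNReal.coe_ofNat]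
      gcongr), h1.j1⟩
  have sub : closedBall (φ x) (R / 2) ⊆ ball (φ x0) R := fun w hw => by
    have := dist_triangle w (φ x) (φ x0)
    rw [mem_closedBall] at hw
    rw [mem_ball]
    linarith
  obtain ⟨w, w1, w2⟩ := ap.surjOn_closedBall_of_nonlinearRightInverse ri (half_pos R0).le sub
    (a := Q x (e x) + v) (by
      rw [h2, mem_closedBall, dist_eq_norm, add_sub_cancel_left]
      refine hv.trans (le_of_eq ?_)
      simp only [ri, NNReal.coe_ofNat, NNReal.coe_div, NNReal.coe_one]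
      ring)
  have w3 : Q x (e (ψ w)) = Q x (e x) + v := w2
  refine ⟨ψ w, ?_, by rw [map_sub, w3, add_sub_cancel_left]⟩
  have t1 := (hR w (sub w1)).2.2
  have t2 := dist_triangle_right (ψ w) x x0
  rw [mem_ball] at h3
  linarith

theorem Frame.dims [PreconnectedSpace M] (h : Frame e G ι D P) (x y : M) :
    finrank ℝ (LinearMap.range (P x)) = finrank ℝ (LinearMap.range (P y)) ∧
    finrank ℝ (LinearMap.ker (P x)) = finrank ℝ (LinearMap.ker (P y)) := by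
  have : IsLocallyConstant fun x => (finrank ℝ (LinearMap.range (P x)),
      finrank ℝ (LinearMap.ker (P x))) := by
    refine (IsLocallyConstant.iff_eventually_eq _).2 fun x0 => ?_
    obtain ⟨φ, ψ, J, J', -, -, -, -, hl⟩ := h.loc x0
    filter_upwards [(hl (1 / 4) (by norm_num)).1] with x hx
    have z : ∀ w, ‖J x w‖ ≤ 1 / 4 * ‖w‖ → w = 0 := fun w hw => by
      have a3 : ‖w‖ ≤ (1 + 1 / 4) * ‖J x w‖ := by simpa only [hx.j2] using hx.n2 (J x w)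
      exact norm_le_zero_iff.1 (by linarith)
    have d1 : finrank ℝ (LinearMap.range (P x0)) ≤ finrank ℝ (LinearMap.range (P x)) := by
      refine LinearMap.finrank_le_finrank_of_injective
        (f := (P x).rangeRestrict ∘ₗ J x ∘ₗ (LinearMap.range (P x0)).subtype)
        (LinearMap.ker_eq_bot.1 (LinearMap.ker_eq_bot'.2 ?_))
      rintro ⟨_, w, rfl⟩ hw
      have t1 : P x (J x (P x0 w)) = 0 := congrArg Subtype.val hw
      have t2 := hx.e3 (P x0 w)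
      rw [t1, h.idem, zero_sub, norm_neg] at t2
      exact Subtype.ext (z _ t2)
    have d2 : finrank ℝ (LinearMap.ker (P x0)) ≤ finrank ℝ (LinearMap.ker (P x)) := by
      refine LinearMap.finrank_le_finrank_of_injective
        (f := (LinearMap.id - P x).codRestrict (LinearMap.ker (P x)) (fun v => by simp [h.idem]) ∘ₗ
          J x ∘ₗ (LinearMap.ker (P x0)).subtype)
        (LinearMap.ker_eq_bot.1 (LinearMap.ker_eq_bot'.2 ?_))
      rintro ⟨w, hw0⟩ hw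
      have t1 : J x w - P x (J x w) = 0 := congrArg Subtype.val hw
      have t2 := hx.e3 w
      rw [LinearMap.mem_ker.1 hw0, map_zero, sub_zero, ← sub_eq_zero.1 t1] at t2
      exact Subtype.ext (z _ t2)
    have d3 : finrank ℝ (T x) ≤ finrank ℝ (T x0) :=
      LinearMap.finrank_le_finrank_of_injective (f := J' x) (Function.LeftInverse.injective hx.j1)
    have d4 := LinearMap.finrank_range_add_finrank_ker (P x)
    have d5 := LinearMap.finrank_range_add_finrank_ker (P x0)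
    exact Prod.ext (by simp only; omega) (by simp only; omega)
  have := this.apply_eq_of_preconnectedSpace x y
  exact ⟨congrArg Prod.fst this, congrArg Prod.snd this⟩

end Pool.Agent.P.MP_0a0487_an
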