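import Pool.Agent.P.MP_0a0487_an.Atlas
import Pool.Agent.P.MP_0a0487_an.Cover

/-!
Global stable leaves, and the local product structure of a hyperbolic atlas.
-/

set_option autoImplicit false

open Set Metric Filter Topology
open scoped NNReal

namespace Pool.Agent.P.MP_0a0487_an

variable {M : Type*} [MetricSpace M] [CompactSpace M]
  {S U : Type*} [NormedAddCommGroup S] [NormedAddCommGroup U] [NormedSpace ℝ S] [NormedSpace ℝ U]
  [FiniteDimensional ℝ S] [FiniteDimensional ℝ U]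

theorem exists_homeo_ext {f : S → S} {A : S ≃L[ℝ] S} {l1 l2 η : ℝ} {s : Set S} (hη : 0 ≤ η)
    (h1 : ∀ v, l1 * ‖v‖ ≤ ‖A v‖) (h2 : ∀ v, ‖A v‖ ≤ l2 * ‖v‖)
    (hf : ∀ v ∈ s, ∀ w ∈ s, ‖f v - f w - A (v - w)‖ ≤ η * ‖v - w‖)
    (hc : lipschitzExtensionConstant S * η < l1) :
    ∃ T : S ≃ₜ S, (∀ v ∈ s, T v = f v) ∧
      ∀ v w, ‖T v - T w‖ ≤ (l2 + lipschitzExtensionConstant S * η) * ‖v - w‖ := by
  lift η to ℝ≥0 using hη
  haveI : CompleteSpace S := FiniteDimensional.complete ℝ S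
  have a1 : ApproximatesLinearOn f (A : S →L[ℝ] S) s η := hf
  obtain ⟨g, g1, g2⟩ := a1.lipschitzOnWith.extend_finite_dimension
  have a2 : ApproximatesLinearOn (fun v => A v + g v) (A : S →L[ℝ] S) univ
      (lipschitzExtensionConstant S * η) := by
    intro v _ w _
    have := g1.dist_le_mul v w
    rw [dist_eq_norm, dist_eq_norm] at this
    refine le_trans (le_of_eq ?_) this
    congr 1
    simp only [ContinuousLinearEquiv.coe_coe, map_sub]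
    abel
  have p : 0 < l1 := lt_of_le_of_lt (by positivity) hc
  have a3 : Subsingleton S ∨ lipschitzExtensionConstant S * η < ‖(A.symm : S →L[ℝ] S)‖₊⁻¹ := by
    refine A.subsingleton_or_nnnorm_symm_pos.imp id fun hp => ?_
    have b1 : ‖(A.symm : S →L[ℝ] S)‖ ≤ l1⁻¹ := by
      refine ContinuousLinearMap.opNorm_le_bound _ (by positivity) fun v => ?_
      rw [le_inv_mul_iff₀ p]
      simpa using h1 (A.symm v)
    have hp' : 0 < ‖(A.symm : S →L[ℝ] S)‖ := hp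
    rw [← NNReal.coe_lt_coe]
    push_cast
    exact hc.trans_le ((le_inv_comm₀ p hp').2 b1)
  refine ⟨a2.toHomeomorph _ a3, fun v hv => ?_, fun v w => ?_⟩
  · show A v + g v = f v
    rw [← g2 hv]
    simp
  · show ‖A v + g v - (A w + g w)‖ ≤ _
    have t1 := a2 v (mem_univ _) w (mem_univ _)
    have t2 := h2 (v - w)
    have t3 := norm_le_insert' (A v + g v - (A w + g w)) (A (v - w))
    simp only [ContinuousLinearEquiv.coe_coe, NNReal.coe_mul] at t1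
    linarith

variable {G H : M → M} {κ : M → M → S × U} {τ : M → S × U → M} {K ρ0 ρ1 ρ r l1 l2 m2 m1 η : ℝ}

theorem Loc.back (h : Loc G κ τ K ρ r l1 l2 m2 m1 η) (hi : Inv G H) {a1 : ℝ} (ha : 0 < a1)
    (ha1 : a1 ≤ l1 - η) (ha2 : a1 ≤ 1) :
    ∃ ε : ℝ, 0 < ε ∧ ε ≤ ρ ∧ ∀ a b n, K ^ 4 * ds G a b ≤ ε * a1 ^ n →
      a1 ^ n * ds G (H^[n] a) (H^[n] b) ≤ K ^ 4 * ds G a b := by
  obtain ⟨ε, e0, e1, e2⟩ := unif hi.cH h.ρ_pos
  have hK := h.one_le
  refine ⟨ε, e0, e1, fun a b n hn => ?_⟩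
  have d0 := ds_nonneg G a b
  have o3 : ∀ j, ds G (H^[j] a) (H^[j] b) ≤ ρ →
      a1 ^ j * dist (H^[j] a) (H^[j] b) ≤ K ^ 2 * ds G a b := by
    intro j hj
    have := h.o3 (ha.le.trans ha1) hj j
    rw [hi.GHn, hi.GHn] at this
    calc a1 ^ j * dist (H^[j] a) (H^[j] b) ≤ (l1 - η) ^ j * dist (H^[j] a) (H^[j] b) := by gcongr
      _ ≤ K ^ 2 * dist a b := this
      _ ≤ _ := by gcongr; exact dist_le_ds G a b
  have k1 : K ^ 2 * ds G a b ≤ K ^ 4 * ds G a b :=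
    mul_le_mul_of_nonneg_right (pow_le_pow_right₀ hK (by norm_num)) d0
  have key : ∀ j ≤ n, ds G (H^[j] a) (H^[j] b) ≤ ε := by
    intro j
    induction j with
    | zero =>
      intro _
      have t1 : ds G a b ≤ K ^ 4 * ds G a b := le_mul_of_one_le_left d0 (one_le_pow₀ hK)
      have t2 : ε * a1 ^ n ≤ ε := mul_le_of_le_one_right e0.le (pow_le_one₀ ha.le ha2)
      exact t1.trans (hn.trans t2)
    | succ j ih =>
      intro hj
      have i1 := ih (by omega)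
      have i2 := ds_le_max G (H^[j + 1] a) (H^[j + 1] b)
      have i3 : G (H^[j + 1] a) = H^[j] a := by rw [Function.iterate_succ_apply', hi.GH]
      have i4 : G (H^[j + 1] b) = H^[j] b := by rw [Function.iterate_succ_apply', hi.GH]
      rw [i3, i4] at i2
      have i5 : dist (H^[j + 1] a) (H^[j + 1] b) ≤ ρ := by
        rw [Function.iterate_succ_apply', Function.iterate_succ_apply']
        exact e2 _ _ ((dist_le_ds G _ _).trans i1)
      have i6 := o3 (j + 1) (i2.trans (max_le i5 (i1.trans e1)))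
      have i7 : ε * a1 ^ n ≤ a1 ^ (j + 1) * ε := by
        rw [mul_comm]
        gcongr ?_ * _
        exact pow_le_pow_of_le_one ha.le ha2 hj
      have i8 := le_of_mul_le_mul_left (i6.trans (k1.trans (hn.trans i7))) (by positivity)
      exact i2.trans (max_le i8 i1)
  have f1 := (key n le_rfl).trans e1
  have f0 : ds G (H^[n] a) (H^[n] a) ≤ ρ := by simpa using h.ρ_pos.le
  have f2 := h.o2 f0 f1 0
  have f3 := h.o4 f0 f1
  simp only [Function.iterate_zero_apply, pow_zero, mul_one] at f2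
  calc a1 ^ n * ds G (H^[n] a) (H^[n] b) ≤ a1 ^ n * (K * (K * dist (H^[n] a) (H^[n] b))) := by
        gcongr
        exact f2.trans (by gcongr)
    _ = K ^ 2 * (a1 ^ n * dist (H^[n] a) (H^[n] b)) := by ring
    _ ≤ K ^ 2 * (K ^ 2 * ds G a b) := mul_le_mul_of_nonneg_left (o3 n f1) (by positivity)
    _ = _ := by ring

theorem Loc.leaf (h : Loc G κ τ K ρ r l1 l2 m2 m1 η) (hi : Inv G H)
    (hc1 : lipschitzExtensionConstant S * η < l1) (hc2 : l2 + lipschitzExtensionConstant S * η < 1)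
    {σ : M → S → M} {Q r1 : ℝ} (hQ : 1 ≤ Q) (hr1 : 0 < r1) (hQr : Q * r1 ≤ r)
    (σ1 : ∀ x ξ, ‖ξ‖ ≤ r1 → (κ x (σ x ξ)).1 = ξ)
    (σ2 : ∀ x ξ, ‖ξ‖ ≤ r1 → ds G x (σ x ξ) ≤ K * (Q * ‖ξ‖))
    {a1 ε : ℝ} (ha : 0 < a1) (hε : 0 < ε)
    (s3 : ∀ a b n, K ^ 4 * ds G a b ≤ ε * a1 ^ n →
      a1 ^ n * ds G (H^[n] a) (H^[n] b) ≤ K ^ 4 * ds G a b) (q : M) :
    ∃ θ : S → M, θ 0 = q ∧ LeafEmb G ρ θ ∧ LipB G θ := by
  have hK := h.one_le
  have hρ := h.ρ_pos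
  have σ3 : ∀ x ξ, ‖ξ‖ ≤ r1 → ds G x (σ x ξ) ≤ ρ := fun x ξ hξ =>
    (σ2 x ξ hξ).trans (le_trans (by gcongr; exact le_trans (by gcongr) hQr) h.Kr)
  have πi : ∀ x a b, ds G x a ≤ ρ → ds G x b ≤ ρ → ds G a b ≤ K * ‖(κ x a).1 - (κ x b).1‖ :=
    fun x a b ha hb => by simpa using h.o2 ha hb 0
  have πe : ∀ x a b, ds G x a ≤ ρ → ds G x b ≤ ρ → (κ x a).1 = (κ x b).1 → a = b :=
    fun x a b ha hb e => by
      have := πi x a b ha hb
      rw [e, sub_self, norm_zero, mul_zero] at this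
      exact dist_le_zero.1 ((dist_le_ds G a b).trans this)
  have σ0 : ∀ x, σ x 0 = x := fun x => by
    have := (dist_le_ds G _ _).trans (σ2 x 0 (by simpa using hr1.le))
    simp only [norm_zero, mul_zero, dist_le_zero] at this
    exact this.symm
  obtain ⟨a, ha_def⟩ : ∃ a : ℝ, a = l2 + lipschitzExtensionConstant S * η := ⟨_, rfl⟩
  have a0 : 0 ≤ a := by
    have := h.l2_nonneg
    have := h.η_nonneg
    rw [ha_def]; positivity
  have a1' : a < 1 := ha_def ▸ hc2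
  have ex : ∀ x, ∃ T : S ≃ₜ S, (∀ v ∈ closedBall (0 : S) r1, T v = (κ (G x) (G (σ x v))).1) ∧
      ∀ v w, ‖T v - T w‖ ≤ a * ‖v - w‖ := by
    intro x
    obtain ⟨As, Au, hA, hab⟩ := h.hyp x (G x) (by simpa using hρ.le)
    rw [ha_def]
    refine exists_homeo_ext h.η_nonneg hA.s1 hA.s2 (fun v hv w hw => ?_) hc1
    rw [mem_closedBall_zero_iff] at hv hw
    have := step_fst (hab (σ x v) (σ x w)
      (by rw [dist_comm]; exact (dist_le_ds G _ _).trans (σ3 x v hv))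
      (by rw [dist_comm]; exact (dist_le_ds G _ _).trans (σ3 x w hw)))
    rwa [h.o1 (σ3 x v hv) (σ3 x w hw), Prod.fst_sub, Prod.fst_sub, σ1 x v hv, σ1 x w hw] at this
  choose T T1 T2 using ex
  have T0 : ∀ x, T x 0 = 0 := fun x => by
    rw [T1 x 0 (mem_closedBall_self hr1.le), σ0, h.self]; rfl
  let Hn : ℕ → S ≃ₜ S := fun n => Nat.rec (Homeomorph.refl S) (fun n e => e.trans (T (G^[n] q))) n
  have Hs : ∀ n ξ, Hn (n + 1) ξ = T (G^[n] q) (Hn n ξ) := fun n ξ => rfl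
  have H0 : ∀ n, Hn n 0 = 0 := by
    intro n
    induction n with
    | zero => rfl
    | succ n ih => rw [Hs, ih, T0]
  have H1 : ∀ n ξ ξ', ‖Hn n ξ - Hn n ξ'‖ ≤ a ^ n * ‖ξ - ξ'‖ := by
    intro n ξ ξ'
    induction n with
    | zero => simp [Hn]
    | succ n ih =>
      rw [Hs, Hs, pow_succ', mul_assoc]
      exact (T2 _ _ _).trans (by gcongr)
  have H2 : ∀ n ξ, ‖Hn n ξ‖ ≤ a ^ n * ‖ξ‖ := fun n ξ => by simpa [H0] using H1 n ξ 0
  have H3 : ∀ R δ : ℝ, 0 < δ → ∀ᶠ n in atTop, a ^ n * R ≤ δ := by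
    intro R δ hδ
    have lim : Tendsto (fun n : ℕ => a ^ n * R) atTop (𝓝 (0 * R)) :=
      (tendsto_pow_atTop_nhds_zero_of_lt_one a0 a1').mul_const R
    exact lim.eventually_le_const (by simpa using hδ)
  have P1 : ∀ n ξ, ‖Hn n ξ‖ ≤ r1 → ‖Hn (n + 1) ξ‖ ≤ r1 ∧
      G (σ (G^[n] q) (Hn n ξ)) = σ (G^[n + 1] q) (Hn (n + 1) ξ) := by
    intro n ξ hξ
    have t1 : ‖Hn (n + 1) ξ‖ ≤ r1 := by
      have := T2 (G^[n] q) (Hn n ξ) 0
      rw [T0, sub_zero, sub_zero, ← Hs] at this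
      exact this.trans ((mul_le_of_le_one_left (norm_nonneg _) a1'.le).trans hξ)
    refine ⟨t1, πe (G^[n + 1] q) _ _ ?_ (σ3 _ _ t1) ?_⟩
    · rw [Function.iterate_succ_apply']
      exact (ds_iterate_le G _ _ 1).trans (σ3 _ _ hξ)
    · rw [σ1 _ _ t1, Hs, T1 _ _ (mem_closedBall_zero_iff.2 hξ), Function.iterate_succ_apply']
  have P2 : ∀ n ξ, ‖Hn n ξ‖ ≤ r1 → ∀ k, ‖Hn (n + k) ξ‖ ≤ r1 ∧
      G^[k] (σ (G^[n] q) (Hn n ξ)) = σ (G^[n + k] q) (Hn (n + k) ξ) := by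
    intro n ξ hξ k
    induction k with
    | zero => exact ⟨hξ, rfl⟩
    | succ k ih =>
      obtain ⟨t1, t2⟩ := P1 _ _ ih.1
      exact ⟨t1, by rw [Function.iterate_succ_apply', ih.2, t2]; rfl⟩
  have exN : ∀ ξ, ∃ n, ‖Hn n ξ‖ ≤ r1 := fun ξ => by
    obtain ⟨n, hn⟩ := (H3 ‖ξ‖ r1 hr1).exists
    exact ⟨n, (H2 n ξ).trans hn⟩
  choose N hN using exN
  obtain ⟨θ, hθ⟩ : ∃ θ : S → M, ∀ n ξ, ‖Hn n ξ‖ ≤ r1 → G^[n] (θ ξ) = σ (G^[n] q) (Hn n ξ) := by
    refine ⟨fun ξ => H^[N ξ] (σ (G^[N ξ] q) (Hn (N ξ) ξ)), fun n ξ hξ => ?_⟩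
    apply hi.Gn_inj (N ξ)
    rw [(P2 n ξ hξ _).2, ← Function.iterate_add_apply, add_comm (N ξ) n,
      Function.iterate_add_apply, hi.GHn, (P2 _ ξ (hN ξ) n).2, add_comm]
  have lip : LipB G θ := by
    intro R
    obtain ⟨n, hn⟩ := (H3 R r1 hr1).exists
    refine ⟨K ^ 5 / a1 ^ n, ε * a1 ^ n / K ^ 5, by positivity, by positivity,
      fun ξ ξ' h1 h2 h3 => ?_⟩
    have t1 : ‖Hn n ξ‖ ≤ r1 := (H2 n ξ).trans (le_trans (by gcongr) hn)
    have t2 : ‖Hn n ξ'‖ ≤ r1 := (H2 n ξ').trans (le_trans (by gcongr) hn)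
    have t3 := πi _ _ _ (σ3 (G^[n] q) _ t1) (σ3 (G^[n] q) _ t2)
    rw [σ1 _ _ t1, σ1 _ _ t2, ← hθ n ξ t1, ← hθ n ξ' t2] at t3
    have t4 : ‖Hn n ξ - Hn n ξ'‖ ≤ ‖ξ - ξ'‖ :=
      (H1 n ξ ξ').trans (mul_le_of_le_one_left (norm_nonneg _) (pow_le_one₀ a0 a1'.le))
    have t5 : K ^ 4 * ds G (G^[n] (θ ξ)) (G^[n] (θ ξ')) ≤ K ^ 5 * ‖ξ - ξ'‖ := by
      calc _ ≤ K ^ 4 * (K * ‖ξ - ξ'‖) := by gcongr; exact t3.trans (by gcongr)
        _ = _ := by ring
    have t6 := s3 _ _ n (t5.trans ((le_div_iff₀' (by positivity)).1 h3))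
    rw [hi.HGn, hi.HGn] at t6
    rw [div_mul_eq_mul_div, le_div_iff₀' (by positivity)]
    exact t6.trans t5
  have inj : Function.Injective θ := by
    intro ξ ξ' e
    have t1 := (P2 _ ξ (hN ξ) (N ξ')).1
    have t2 := (P2 _ ξ' (hN ξ') (N ξ)).1
    rw [add_comm] at t2
    apply (Hn (N ξ + N ξ')).injective
    rw [← σ1 (G^[N ξ + N ξ'] q) _ t1, ← σ1 (G^[N ξ + N ξ'] q) _ t2, ← hθ _ _ t1, ← hθ _ _ t2, e]
  have loc : ∀ n ξ z, ‖Hn n ξ‖ ≤ r1 / (2 * K ^ 2 * Q) → ds G (G^[n] (θ ξ)) (G^[n] z) ≤ r1 / (2 * K) →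
      ∃ ξ', θ ξ' = z ∧ ‖Hn n ξ - Hn n ξ'‖ ≤ K * ds G (G^[n] (θ ξ)) (G^[n] z) := by
    intro n ξ z h1 h2
    have t0 : ‖Hn n ξ‖ ≤ r1 := h1.trans (div_le_self hr1.le (by nlinarith [one_le_pow₀ (n := 2) hK]))
    have t1 : ds G (G^[n] q) (G^[n] (θ ξ)) ≤ r1 / (2 * K) := by
      rw [hθ n ξ t0]
      refine (σ2 _ _ t0).trans ?_
      calc K * (Q * ‖Hn n ξ‖) ≤ K * (Q * (r1 / (2 * K ^ 2 * Q))) := by gcongr
        _ = _ := by field_simp
    have t2 : ds G (G^[n] q) (G^[n] z) ≤ r1 / K := by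
      refine (ds_triangle G _ (G^[n] (θ ξ)) _).trans ((add_le_add t1 h2).trans (le_of_eq ?_))
      field_simp
      ring
    have t3 : r1 / K ≤ ρ := (div_le_self hr1.le hK).trans
      (((le_mul_of_one_le_left hr1.le hQ).trans hQr).trans h.r_le)
    have t4 : ‖(κ (G^[n] q) (G^[n] z)).1‖ ≤ r1 := by
      have := h.o4 (x := G^[n] q) (a := G^[n] q) (by simpa using hρ.le) (t2.trans t3)
      rw [h.self, Prod.fst_zero, zero_sub, norm_neg] at this
      refine this.trans ?_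
      rw [← le_div_iff₀' (by positivity)]
      exact (dist_le_ds G _ _).trans t2
    obtain ⟨ξ', e⟩ := (Hn n).surjective (κ (G^[n] q) (G^[n] z)).1
    rw [← e] at t4
    refine ⟨ξ', hi.Gn_inj n ?_, ?_⟩
    · rw [hθ n ξ' t4]
      exact πe _ _ _ (σ3 _ _ t4) (t2.trans t3) (by rw [σ1 _ _ t4, e])
    · have := h.o4 (σ3 (G^[n] q) _ t0) (t2.trans t3)
      rw [σ1 _ _ t0, ← e, ← hθ n ξ t0] at this
      exact this.trans (by gcongr; exact dist_le_ds G _ _)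
  refine ⟨θ, ?_, ⟨⟨?_, fun ξ ξ' e => inj e⟩, fun ξ z hz => ?_⟩, lip⟩
  · have := hθ 0 0 (by simpa [H0] using hr1.le)
    rwa [H0, σ0] at this
  · refine isInducing_iff_nhds.2 fun ξ => le_antisymm (lip.continuous.tendsto ξ).le_comap ?_
    refine ((nhds_basis_ball.comap _).le_basis_iff nhds_basis_ball).2 fun δ hδ => ?_
    obtain ⟨n, hn⟩ := (H3 ‖ξ‖ (r1 / (2 * K ^ 2 * Q)) (by positivity)).exists
    obtain ⟨δ', d1, d2⟩ := Metric.continuousAt_iff.1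
      ((Hn n).symm.continuous.continuousAt (x := Hn n ξ)) δ hδ
    refine ⟨min (r1 / (2 * K)) (δ' / K), by positivity, fun ξ' hξ' => ?_⟩
    rw [mem_preimage, mem_ball, dist_toL, ds_comm, lt_min_iff] at hξ'
    have t1 := ds_iterate_le G (θ ξ) (θ ξ') n
    obtain ⟨ζ, e1, e2⟩ := loc n ξ (θ ξ') ((H2 n ξ).trans hn) (t1.trans hξ'.1.le)
    rw [inj e1] at e2
    have t2 : dist (Hn n ξ') (Hn n ξ) < δ' := by
      rw [dist_comm, dist_eq_norm]
      refine e2.trans_lt ?_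
      rw [← lt_div_iff₀' (by positivity)]
      exact t1.trans_lt hξ'.2
    simpa using d2 t2
  · have lim : Tendsto (fun n : ℕ => K * (l2 + η) ^ n * (K * ρ)) atTop (𝓝 (K * 0 * (K * ρ))) :=
      ((tendsto_pow_atTop_nhds_zero_of_lt_one (add_nonneg h.l2_nonneg h.η_nonneg)
        h.h1).const_mul K).mul_const _
    obtain ⟨n, n1, n2⟩ := ((H3 ‖ξ‖ (r1 / (2 * K ^ 2 * Q)) (by positivity)).and
      (lim.eventually_le_const (u := r1 / (2 * K)) (by simp; positivity))).exists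
    have f0 : ds G (θ ξ) (θ ξ) ≤ ρ := by simpa using hρ.le
    have p : 0 ≤ l2 + η := add_nonneg h.l2_nonneg h.η_nonneg
    obtain ⟨ζ, e1, -⟩ := loc n ξ z ((H2 n ξ).trans n1) ((h.o2 f0 hz n).trans (le_trans (by
      gcongr
      exact (h.o4 f0 hz).trans (by gcongr; exact (dist_le_ds G _ _).trans hz)) n2))
    exact ⟨ζ, e1⟩

theorem Atlas.half (h : Atlas G H κ K ρ0 ρ1 l1 l2 m2 m1) {a1 a2 : ℝ} (h0 : 0 < a1) (h1 : a1 < l1)
    (h2 : l2 < a2) (h3 : a2 < 1) : ∃ ε C : ℝ, 0 < ε ∧ 1 ≤ C ∧ Half G H S ε C a1 a2 := by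
  haveI : CompleteSpace S := FiniteDimensional.complete ℝ S
  haveI : CompleteSpace U := FiniteDimensional.complete ℝ U
  have p1 := h.l1_pos
  have p2 := h.l12
  have p3 := h.l2_lt
  have p4 := h.m2_gt
  have hK := h.one_le
  obtain ⟨η, e0, e1, e2, e3, e4, e5⟩ : ∃ η : ℝ, 0 < η ∧ η < l1 - a1 ∧ η < a2 - l2 ∧ η < m2 - 1 ∧
      lipschitzExtensionConstant S * η < l1 ∧ lipschitzExtensionConstant S * η < 1 - l2 := by
    have t1 : Tendsto (fun η : ℝ => η) (𝓝[>] 0) (𝓝 0) := tendsto_id.mono_left nhdsWithin_le_nhds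
    have t2 : Tendsto (fun η : ℝ => (lipschitzExtensionConstant S : ℝ) * η) (𝓝[>] 0) (𝓝 0) := by
      simpa using t1.const_mul (lipschitzExtensionConstant S : ℝ)
    have t0 : ∀ᶠ η : ℝ in 𝓝[>] 0, 0 < η := self_mem_nhdsWithin
    exact (t0.and ((t1.eventually_lt_const (by linarith)).and
      ((t1.eventually_lt_const (by linarith)).and ((t1.eventually_lt_const (by linarith)).and
      ((t2.eventually_lt_const p1).and (t2.eventually_lt_const (by linarith))))))).exists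
  obtain ⟨τ, ρ, r, hl⟩ := h.loc e0 (by linarith) (by linarith)
  obtain ⟨Q, hQ, hs⟩ := hl.exists_stable
  have hr := hl.r_pos
  have hρ := hl.ρ_pos
  have ex : ∀ x ξ, ∃ c, ‖ξ‖ ≤ r / Q → (κ x c).1 = ξ ∧ ds G x c ≤ K * (Q * ‖ξ‖) := by
    intro x ξ
    by_cases hξ : ‖ξ‖ ≤ r / Q
    · obtain ⟨c, hc⟩ := hs x ξ ((le_div_iff₀' (by positivity)).1 hξ)
      exact ⟨c, fun _ => hc⟩
    · exact ⟨x, fun h => (hξ h).elim⟩
  choose σ hσ using ex
  obtain ⟨ε, f0, f1, f2⟩ := hl.back h.inv h0 (by linarith) (by linarith)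
  have hQr : Q * (r / Q) ≤ r := le_of_eq (by field_simp)
  have par := hl.leaf h.inv e4 (by linarith) hQ (by positivity) hQr (fun x ξ hξ => (hσ x ξ hξ).1)
    (fun x ξ hξ => (hσ x ξ hξ).2) h0 f0 f2
  have k1 : K ≤ K ^ 2 := by nlinarith
  have k2 : K ^ 2 ≤ K ^ 4 := pow_le_pow_right₀ hK (by norm_num)
  have k3 : K ^ 4 ≤ K ^ 4 * Q := le_mul_of_one_le_right (by positivity) hQ
  have m1 := min_le_left ε (r / Q)
  have m2 := min_le_right ε (r / Q)
  have z : ∀ a, ds G a a ≤ ρ := fun a => by simpa using hρ.le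
  have s2 : ∀ a b n, ds G a b ≤ ρ → ds G (G^[n] a) (G^[n] b) ≤ K ^ 4 * Q * a2 ^ n * dist a b := by
    intro a b n hab
    have p : 0 ≤ l2 + η := by linarith
    calc ds G (G^[n] a) (G^[n] b) ≤ K * (l2 + η) ^ n * (K * dist a b) :=
          (hl.o2 (z a) hab n).trans (by gcongr; exact hl.o4 (z a) hab)
      _ = K ^ 2 * (l2 + η) ^ n * dist a b := by ring
      _ ≤ _ := by gcongr <;> linarith
  refine ⟨min ε (r / Q), K ^ 4 * Q, by positivity, by linarith, h0, by linarith, h3,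
    fun a b hab => by simpa using s2 a b 0 (by linarith), fun a b n hab => ?_,
    fun a b n hab => ?_, fun a b hab => ?_, fun a b hab => ?_, fun q => ?_⟩
  · refine (s2 a b n (by linarith)).trans ?_
    have : 0 ≤ a2 := by linarith
    gcongr
    exact dist_le_ds G a b
  · have d0 := ds_nonneg G a b
    have t : K ^ 4 * ds G a b ≤ K ^ 4 * Q * ds G a b := by gcongr
    exact (f2 a b n (t.trans (hab.trans (by gcongr)))).trans t
  · have d0 := ds_nonneg G a b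
    have t1 : K * ds G a b ≤ K ^ 4 * Q * ds G a b := by gcongr; linarith
    have t2 : ds G a b ≤ K * ds G a b := le_mul_of_one_le_left d0 hK
    have t3 : ds G a b ≤ ρ := by linarith
    have t4 : ‖(κ a b).1‖ ≤ K * ds G a b := by
      have := hl.o4 (z a) t3
      rw [hl.self, Prod.fst_zero, zero_sub, norm_neg] at this
      exact this.trans (by gcongr; exact dist_le_ds G a b)
    have t5 : ∀ ξ ∈ closedBall (0 : S) ‖(κ a b).1‖, ‖ξ‖ ≤ r / Q := fun ξ hξ =>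
      (mem_closedBall_zero_iff.1 hξ).trans (by linarith)
    have σ3 : ∀ ξ, ‖ξ‖ ≤ r / Q → ds G a (σ a ξ) ≤ ρ := fun ξ hξ =>
      (hσ a ξ hξ).2.trans (le_trans (by gcongr; exact le_trans (by gcongr) hQr) hl.Kr)
    have πi : ∀ c d, ds G a c ≤ ρ → ds G a d ≤ ρ → ds G c d ≤ K * ‖(κ a c).1 - (κ a d).1‖ :=
      fun c d hc hd => by simpa using hl.o2 hc hd 0
    have cont : ContinuousOn (fun ξ => toL G (σ a ξ)) (closedBall (0 : S) ‖(κ a b).1‖) := by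
      refine (LipschitzOnWith.of_dist_le_mul (K := ⟨K, by linarith⟩) fun ξ hξ ζ hζ => ?_).continuousOn
      have := πi _ _ (σ3 ξ (t5 ξ hξ)) (σ3 ζ (t5 ζ hζ))
      rwa [(hσ a ξ (t5 ξ hξ)).1, (hσ a ζ (t5 ζ hζ)).1, ← dist_eq_norm] at this
    have mem : ∀ c, ds G a c ≤ ρ → (κ a c).1 ∈ closedBall (0 : S) ‖(κ a b).1‖ →
        toL G c ∈ (fun ξ => toL G (σ a ξ)) '' closedBall (0 : S) ‖(κ a b).1‖ := by
      intro c hc hm
      refine ⟨_, hm, congrArg (toL G) ?_⟩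
      have := πi _ _ (σ3 _ (t5 _ hm)) hc
      rw [(hσ a _ (t5 _ hm)).1, sub_self, norm_zero, mul_zero] at this
      exact dist_le_zero.1 ((dist_le_ds G _ _).trans this)
    refine ⟨_, (isCompact_closedBall _ _).image_of_continuousOn cont,
      (convex_closedBall _ _).isPreconnected.image _ cont, mem a (z a) (by simp [hl.self]),
      mem b t3 (by simp), ?_⟩
    rintro _ ⟨ξ, hξ, rfl⟩
    refine (hσ a ξ (t5 ξ hξ)).2.trans ?_
    calc K * (Q * ‖ξ‖) ≤ K * (Q * (K * ds G a b)) := by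
          gcongr; exact (mem_closedBall_zero_iff.1 hξ).trans t4
      _ = K ^ 2 * Q * ds G a b := by ring
      _ ≤ _ := by gcongr
  · have d0 := ds_nonneg G a b
    have t1 : K * ds G a b ≤ K ^ 4 * Q * ds G a b := by gcongr; linarith
    have t2 : ds G a b ≤ K * ds G a b := le_mul_of_one_le_left d0 hK
    have t3 : ds G a b ≤ ρ := by linarith
    have t4 : ‖(κ a b).1‖ ≤ K * ds G a b := by
      have := hl.o4 (z a) t3
      rw [hl.self, Prod.fst_zero, zero_sub, norm_neg] at this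
      exact this.trans (by gcongr; exact dist_le_ds G a b)
    have t5 : ∀ t : ℝ, ‖(projIcc (0 : ℝ) 1 zero_le_one t : ℝ) • (κ a b).1‖ ≤ r / Q := fun t => by
      obtain ⟨u1, u2⟩ := (projIcc (0 : ℝ) 1 zero_le_one t).2
      rw [norm_smul, Real.norm_of_nonneg u1]
      exact (mul_le_of_le_one_left (norm_nonneg _) u2).trans (by linarith)
    have σ3 : ∀ ξ, ‖ξ‖ ≤ r / Q → ds G a (σ a ξ) ≤ ρ := fun ξ hξ =>
      (hσ a ξ hξ).2.trans (le_trans (by gcongr; exact le_trans (by gcongr) hQr) hl.Kr)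
    have πi : ∀ c d, ds G a c ≤ ρ → ds G a d ≤ ρ → ds G c d ≤ K * ‖(κ a c).1 - (κ a d).1‖ :=
      fun c d hc hd => by simpa using hl.o2 hc hd 0
    have πe : ∀ t c, ds G a c ≤ ρ → (projIcc (0 : ℝ) 1 zero_le_one t : ℝ) • (κ a b).1 = (κ a c).1 →
        σ a ((projIcc (0 : ℝ) 1 zero_le_one t : ℝ) • (κ a b).1) = c := fun t c hc e => by
      have := πi _ _ (σ3 _ (t5 t)) hc
      rw [(hσ a _ (t5 t)).1, e, sub_self, norm_zero, mul_zero] at this
      rw [e]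
      exact dist_le_zero.1 ((dist_le_ds G _ _).trans this)
    refine ⟨fun t => σ a ((projIcc (0 : ℝ) 1 zero_le_one t : ℝ) • (κ a b).1),
      πe 0 a (z a) (by simp [hl.self]), πe 1 b t3 (by simp), fun t t' => ?_⟩
    refine (πi _ _ (σ3 _ (t5 t)) (σ3 _ (t5 t'))).trans ?_
    rw [(hσ a _ (t5 t)).1, (hσ a _ (t5 t')).1, ← sub_smul, norm_smul, Real.norm_eq_abs]
    have := abs_projIcc_sub_projIcc (zero_le_one (α := ℝ)) (c := t) (d := t')
    calc _ ≤ K * (|t - t'| * (K * ds G a b)) := by gcongr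
      _ = K ^ 2 * ds G a b * |t - t'| := by ring
      _ ≤ _ := by gcongr; linarith
  · obtain ⟨θ, t0, t1, t2⟩ := par q
    exact ⟨θ, t0, ⟨t1.emb, fun x w hw => t1.step x w (by linarith)⟩, t2⟩

theorem Atlas.smale (h : Atlas G H κ K ρ0 ρ1 l1 l2 m2 m1) {a1 a2 b1 b2 : ℝ}
    (h0 : 0 < a1) (h1 : a1 < l1) (h2 : l2 < a2) (h3 : a2 < 1)
    (h4 : 0 < b1) (h5 : b1 < m1⁻¹) (h6 : m2⁻¹ < b2) (h7 : b2 < 1) :
    ∃ ε C : ℝ, Smale G H S U ε C a1 a2 b1 b2 := by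
  haveI : CompleteSpace S := FiniteDimensional.complete ℝ S
  haveI : CompleteSpace U := FiniteDimensional.complete ℝ U
  obtain ⟨ε1, C1, p1, q1, s1⟩ := h.half h0 h1 h2 h3
  obtain ⟨ε2, C2, p2, q2, s2⟩ := h.symm.half h4 h5 h6 h7
  have p := h.l2_lt
  have q := h.m2_gt
  obtain ⟨τ, ρ, r, hl⟩ := h.loc (η := min (1 - l2) (m2 - 1) / 2)
    (half_pos (lt_min (by linarith) (by linarith)))
    (by have := min_le_left (1 - l2) (m2 - 1); linarith)
    (by have := min_le_right (1 - l2) (m2 - 1); linarith)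
  obtain ⟨ε3, C3, p3, q3, s3⟩ := hl.bracket h.inv
  refine ⟨min ε1 (min ε2 ε3), max C1 (max C2 C3), h.inv, by positivity, by simp [q1],
    s1.mono (by linarith) (by simp) (by simp), s2.mono (by linarith) (by simp) (by simp),
    fun a b hab => ?_⟩
  have t : C3 * dist a b ≤ max C1 (max C2 C3) * dist a b := by gcongr; simp
  obtain ⟨c, c1, c2⟩ := s3 a b (t.trans (hab.trans (by simp)))
  exact ⟨c, c1.trans t, c2.trans t⟩

end Pool.Agent.P.MP_0a0487_an
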