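import Pool.Agent.P.MP_0a0487_an.Frame
import Pool.Agent.P.MP_0a0487_an.Leaf

/-!
The hyperbolic atlas of an embedded compact manifold with an invariant splitting.
-/

set_option autoImplicit false

open Set Metric Filter Topology Module

namespace Pool.Agent.P.MP_0a0487_an

variable {M : Type*} [MetricSpace M] [CompactSpace M]
  {T : M → Type*} [∀ x, NormedAddCommGroup (T x)] [∀ x, InnerProductSpace ℝ (T x)]
  [∀ x, FiniteDimensional ℝ (T x)]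
  {E' : Type*} [NormedAddCommGroup E'] [InnerProductSpace ℝ E'] [FiniteDimensional ℝ E']
  {e : M → E'} {G H : M → M} {ι : ∀ x, T x →ₗ[ℝ] E'} {D : ∀ x, T x →ₗ[ℝ] T (G x)}
  {P : ∀ x, T x →ₗ[ℝ] T x} {l1 l2 m2 m1 : ℝ}

theorem Frame.exists_L [ConnectedSpace M] (h : Frame e G ι D P) :
    ∃ s u : ℕ, (∀ x, finrank ℝ (T x) = s + u) ∧
      ∃ L : ∀ x, T x ≃ₗ[ℝ] EuclideanSpace ℝ (Fin s) × EuclideanSpace ℝ (Fin u),
        ∀ x v, ‖(L x v).1‖ = ‖P x v‖ ∧ ‖(L x v).2‖ = ‖v - P x v‖ := by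
  obtain ⟨x0⟩ : Nonempty M := inferInstance
  choose L hL using fun x => exists_split (P x) (h.idem x) (h.dims x x0).1 (h.dims x x0).2
  refine ⟨_, _, fun x => ?_, L, hL⟩
  rw [← (h.dims x x0).1, ← (h.dims x x0).2, LinearMap.finrank_range_add_finrank_ker]

variable {S U : Type*} [NormedAddCommGroup S] [NormedAddCommGroup U] [NormedSpace ℝ S]
  [NormedSpace ℝ U] [FiniteDimensional ℝ S] [FiniteDimensional ℝ U]
  {Q : ∀ x, E' →ₗ[ℝ] T x} {K : ℝ} {L : ∀ x, T x ≃ₗ[ℝ] S × U}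

theorem Frame.atlas (h : Frame e G ι D P) (hi : Inv G H) (b : Bounds ι D P Q K)
    (hL : ∀ x v, ‖(L x v).1‖ = ‖P x v‖ ∧ ‖(L x v).2‖ = ‖v - P x v‖) (p1 : 0 < l1)
    (p2 : l1 ≤ l2) (p3 : 2 * l2 < 1) (p4 : 1 < m2 / 2) (p5 : m2 ≤ m1)
    (hs : ∀ x v, P x v = v → P (G x) (D x v) = D x v ∧ l1 * ‖v‖ ≤ ‖D x v‖ ∧ ‖D x v‖ ≤ l2 * ‖v‖)
    (hu : ∀ x v, P x v = 0 → P (G x) (D x v) = 0 ∧ m2 * ‖v‖ ≤ ‖D x v‖ ∧ ‖D x v‖ ≤ m1 * ‖v‖) :
    ∃ ρ0 ρ1 : ℝ, Atlas G H (fun x a => L x (Q x (e a - e x))) (4 * K ^ 2) ρ0 ρ1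
      (l1 / 2) (2 * l2) (m2 / 2) (2 * m1) := by
  have hK := b.one_le
  have L1 : ∀ x v, ‖v‖ ≤ 2 * ‖L x v‖ := fun x v => by
    have t1 := norm_fst_le (L x v)
    have t2 := norm_snd_le (L x v)
    have t3 := norm_le_insert' v (P x v)
    rw [(hL x v).1] at t1
    rw [(hL x v).2] at t2
    linarith
  have L2 : ∀ x v, ‖L x v‖ ≤ 2 * (K * ‖v‖) := fun x v => by
    have t1 := b.b3 x v
    have t2 := norm_sub_le v (P x v)
    have t3 : ‖v‖ ≤ K * ‖v‖ := le_mul_of_one_le_left (norm_nonneg _) hK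
    have t4 := norm_nonneg v
    refine norm_prod_le_iff.2 ⟨?_, ?_⟩
    · rw [(hL x v).1]; linarith
    · rw [(hL x v).2]; linarith
  have sub : ∀ x a c, L x (Q x (e a - e x)) - L x (Q x (e c - e x)) = L x (Q x (e a - e c)) := by
    intro x a c
    rw [← map_sub, ← map_sub, sub_sub_sub_cancel_right]
  obtain ⟨ρ0, r0, h0⟩ := h.approx b (η := 1 / 2) (by norm_num)
  obtain ⟨ρ1, r1, h1⟩ := h.onto b r0
  have anti : ∀ x a c, dist a x ≤ ρ0 → dist c x ≤ ρ0 →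
      ‖e a - e c‖ ≤ 4 * K * ‖L x (Q x (e a - e c))‖ := by
    intro x a c ha hc
    have t1 := (h0 x a c ha hc).1
    have t2 := norm_le_insert' (e a - e c) (ι x (Q x (e a - e c)))
    have t3 : ‖ι x (Q x (e a - e c))‖ ≤ K * (2 * ‖L x (Q x (e a - e c))‖) :=
      (b.b2 _ _).trans (by gcongr; exact L1 _ _)
    linarith
  refine ⟨ρ0, ρ1 / 2, hi, by nlinarith, r0, by positivity, by positivity, by linarith, p3, p4,
    by linarith, fun x => by simp, fun x a c _ _ => ?_, fun x a c ha hc => ?_, fun x v hv => ?_,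
    fun η hη => ?_⟩
  · rw [sub, h.dist_eq]
    calc ‖L x (Q x (e a - e c))‖ ≤ 2 * (K * (K * ‖e a - e c‖)) :=
          (L2 _ _).trans (by gcongr; exact b.q2 _ _)
      _ = 2 * K ^ 2 * ‖e a - e c‖ := by ring
      _ ≤ _ := by gcongr; norm_num
  · rw [sub, h.dist_eq]
    refine (anti x a c ha hc).trans ?_
    gcongr
    nlinarith
  · obtain ⟨a, a1, a2⟩ := h1 x ((L x).symm v) (by
      have := L1 x ((L x).symm v)
      rw [LinearEquiv.apply_symm_apply] at this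
      linarith)
    exact ⟨a, a1, by rw [a2, LinearEquiv.apply_symm_apply]⟩
  obtain ⟨η1, q0, -, -, q1⟩ := small (16 * K ^ 3) hη (by linarith [one_le_pow₀ (n := 3) hK])
  obtain ⟨η2, q2, -, q3, q4⟩ := small (2 * m1) hη (by linarith)
  have q5 : η2 ≤ 1 / 4 := by nlinarith
  obtain ⟨ρ2, r2, h2⟩ := h.approx b q0
  obtain ⟨ρ3, r3, h3⟩ := h.close b q2
  refine ⟨min ρ0 (min ρ2 ρ3), by positivity, fun y x' hy => ?_⟩
  have h4 := h3 (G y) x' (by rw [dist_comm]; exact hy.trans (by simp))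
  let B := (L x').toLinearMap ∘ₗ Q x' ∘ₗ ι (G y) ∘ₗ D y ∘ₗ (L y).symm.toLinearMap
  have Bs : ∀ s, l1 / 2 * ‖s‖ ≤ ‖(B (s, 0)).1‖ ∧ ‖(B (s, 0)).1‖ ≤ 2 * l2 * ‖s‖ ∧
      ‖(B (s, 0)).2‖ ≤ η / 2 * ‖s‖ := by
    intro s
    obtain ⟨t1, t2⟩ := hL y ((L y).symm (s, 0))
    rw [LinearEquiv.apply_symm_apply] at t1 t2
    have t3 : P y ((L y).symm (s, 0)) = (L y).symm (s, 0) :=
      (sub_eq_zero.1 (norm_eq_zero.1 (t2.symm.trans norm_zero))).symm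
    obtain ⟨u1, u2, u3⟩ := hs y _ t3
    obtain ⟨v1, v2, v3⟩ := h4 (D y ((L y).symm (s, 0)))
    obtain ⟨w1, w2⟩ := hL x' (Q x' (ι (G y) (D y ((L y).symm (s, 0)))))
    rw [t3] at t1
    rw [u1] at v3
    rw [← t1] at u2 u3
    change l1 / 2 * ‖s‖ ≤ ‖(L x' (Q x' (ι (G y) (D y ((L y).symm (s, 0)))))).1‖ ∧
      ‖(L x' (Q x' (ι (G y) (D y ((L y).symm (s, 0)))))).1‖ ≤ 2 * l2 * ‖s‖ ∧
      ‖(L x' (Q x' (ι (G y) (D y ((L y).symm (s, 0)))))).2‖ ≤ η / 2 * ‖s‖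
    rw [w1, w2, norm_sub_rev]
    generalize D y ((L y).symm (s, 0)) = w at *
    have z1 := norm_le_insert (P x' (Q x' (ι (G y) w))) (Q x' (ι (G y) w))
    have z2 := norm_le_insert' (P x' (Q x' (ι (G y) w))) (Q x' (ι (G y) w))
    have z3 : η2 * ‖w‖ ≤ 1 / 4 * ‖w‖ := by gcongr
    have z4 := norm_nonneg w
    have z5 := norm_nonneg s
    have z6 : η2 * ‖w‖ ≤ η2 * (m1 * ‖s‖) := by gcongr; exact u3.trans (by gcongr; linarith)
    have z7 := mul_le_mul_of_nonneg_right q4 z5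
    simp only at u2 u3
    exact ⟨by linarith, by linarith, by linarith⟩
  have Bu : ∀ s, m2 / 2 * ‖s‖ ≤ ‖(B (0, s)).2‖ ∧ ‖(B (0, s)).2‖ ≤ 2 * m1 * ‖s‖ ∧
      ‖(B (0, s)).1‖ ≤ η / 2 * ‖s‖ := by
    intro s
    obtain ⟨t1, t2⟩ := hL y ((L y).symm (0, s))
    rw [LinearEquiv.apply_symm_apply] at t1 t2
    have t3 : P y ((L y).symm (0, s)) = 0 := norm_eq_zero.1 (t1.symm.trans norm_zero)
    obtain ⟨u1, u2, u3⟩ := hu y _ t3
    obtain ⟨v1, v2, v3⟩ := h4 (D y ((L y).symm (0, s)))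
    obtain ⟨w1, w2⟩ := hL x' (Q x' (ι (G y) (D y ((L y).symm (0, s)))))
    rw [t3, sub_zero] at t2
    rw [u1, map_zero, map_zero, sub_zero] at v3
    rw [← t2] at u2 u3
    change m2 / 2 * ‖s‖ ≤ ‖(L x' (Q x' (ι (G y) (D y ((L y).symm (0, s)))))).2‖ ∧
      ‖(L x' (Q x' (ι (G y) (D y ((L y).symm (0, s)))))).2‖ ≤ 2 * m1 * ‖s‖ ∧
      ‖(L x' (Q x' (ι (G y) (D y ((L y).symm (0, s)))))).1‖ ≤ η / 2 * ‖s‖
    rw [w1, w2]
    generalize D y ((L y).symm (0, s)) = w at *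
    have z1 := norm_le_insert' (Q x' (ι (G y) w)) (P x' (Q x' (ι (G y) w)))
    have z2 := norm_sub_le (Q x' (ι (G y) w)) (P x' (Q x' (ι (G y) w)))
    have z3 : η2 * ‖w‖ ≤ 1 / 4 * ‖w‖ := by gcongr
    have z4 := norm_nonneg w
    have z5 := norm_nonneg s
    have z6 : η2 * ‖w‖ ≤ η2 * (m1 * ‖s‖) := by gcongr
    have z7 := mul_le_mul_of_nonneg_right q4 z5
    simp only at u2 u3
    exact ⟨by linarith, by linarith, by linarith⟩
  obtain ⟨As, hAs⟩ := exists_equiv (LinearMap.fst ℝ _ _ ∘ₗ B ∘ₗ LinearMap.inl ℝ _ _)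
    (half_pos p1) fun s => (Bs s).1
  obtain ⟨Au, hAu⟩ := exists_equiv (LinearMap.snd ℝ _ _ ∘ₗ B ∘ₗ LinearMap.inr ℝ _ _)
    (zero_lt_one.trans p4) fun s => (Bu s).1
  have hAs' : ∀ s, As s = (B (s, 0)).1 := hAs
  have hAu' : ∀ s, Au s = (B (0, s)).2 := hAu
  refine ⟨As, Au, ⟨fun s => by rw [hAs']; exact (Bs s).1, fun s => by rw [hAs']; exact (Bs s).2.1,
    fun s => by rw [hAu']; exact (Bu s).1, fun s => by rw [hAu']; exact (Bu s).2.1⟩,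
    fun a c ha hc => ?_⟩
  rw [sub, sub, hAs', hAu']
  have t1 := (h2 y a c (ha.trans (by simp)) (hc.trans (by simp))).2
  have t2 := anti y a c (ha.trans (by simp)) (hc.trans (by simp))
  have t3 : B (L y (Q y (e a - e c))) = L x' (Q x' (ι (G y) (D y (Q y (e a - e c))))) := by
    simp [B]
  have t4 : ‖L x' (Q x' (e (G a) - e (G c))) - B (L y (Q y (e a - e c)))‖ ≤
      η / 2 * ‖L y (Q y (e a - e c))‖ := by
    rw [t3, ← map_sub, ← map_sub]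
    calc _ ≤ 2 * (K * (K * (η1 * (4 * K * ‖L y (Q y (e a - e c))‖)))) := by
          refine (L2 _ _).trans ?_
          gcongr
          refine (b.q2 _ _).trans ?_
          gcongr
          exact t1.trans (by gcongr)
      _ = 16 * K ^ 3 * η1 / 2 * ‖L y (Q y (e a - e c))‖ := by ring
      _ ≤ _ := by gcongr
  generalize L y (Q y (e a - e c)) = Δ at t4 ⊢
  have t5 : B Δ - ((B (Δ.1, 0)).1, (B (0, Δ.2)).2) = ((B (0, Δ.2)).1, (B (Δ.1, 0)).2) := by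
    have : B Δ = B (Δ.1, 0) + B (0, Δ.2) := by rw [← map_add]; simp
    rw [this]
    ext1 <;> simp
  have t6 : ‖B Δ - ((B (Δ.1, 0)).1, (B (0, Δ.2)).2)‖ ≤ η / 2 * ‖Δ‖ := by
    rw [t5]
    exact norm_prod_le_iff.2 ⟨(Bu _).2.2.trans (by gcongr; exact norm_snd_le Δ),
      (Bs _).2.2.trans (by gcongr; exact norm_fst_le Δ)⟩
  refine (norm_sub_le_norm_sub_add_norm_sub _ (B Δ) _).trans ?_
  linarith

end Pool.Agent.P.MP_0a0487_an
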