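import Pool.Agent.P.MP_0a0487_an.Euler
import Pool.Agent.P.MP_0a0487_an.Final

/-!
The covering, from first order data.
-/

set_option autoImplicit false

open Set Metric Filter Topology Module

namespace Pool.Agent.P.MP_0a0487_an

variable {M : Type*} [MetricSpace M] [CompactSpace M] {G H : M → M}
  {T : M → Type*} [∀ x, NormedAddCommGroup (T x)] [∀ x, InnerProductSpace ℝ (T x)]
  [∀ x, FiniteDimensional ℝ (T x)]
  {E' : Type*} [NormedAddCommGroup E'] [InnerProductSpace ℝ E'] [FiniteDimensional ℝ E']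
  {e : M → E'} {ι : ∀ x, T x →ₗ[ℝ] E'} {D : ∀ x, T x →ₗ[ℝ] T (G x)}
  {P P' : ∀ x, T x →ₗ[ℝ] T x} {l1 l2 m2 m1 m0 : ℝ}

theorem Frame.covering [ConnectedSpace M] {Dn : ∀ (j : ℕ) (x : M), T x →ₗ[ℝ] T (G^[j] x)}
    (h : Frame e G ι D P) (h' : Frame e G ι D P') (hn : ∀ j, Frame e G^[j] ι (Dn j) P)
    (hi : Inv G H) (hP : Dense (Function.periodicPts G)) {n : ℕ}
    (hd : ∀ x, finrank ℝ (T x) = n) (p1 : 0 < l1)
    (p2 : l1 ≤ l2) (p3 : 4 * l2 < 1) (p4 : 4 < m2) (p5 : m2 ≤ m0) (p6 : m2 ≤ m1)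
    (hs : ∀ x v, P x v = v → P (G x) (D x v) = D x v ∧ l1 * ‖v‖ ≤ ‖D x v‖ ∧ ‖D x v‖ ≤ l2 * ‖v‖)
    (hu : ∀ x v, P x v = 0 → P (G x) (D x v) = 0 ∧ m2 * ‖v‖ ≤ ‖D x v‖ ∧ ‖D x v‖ ≤ m0 * ‖v‖)
    (hv : ∀ x, ∃ n : T x, ‖n‖ = 1 ∧ P x n = 0 ∧ P' x n = 0 ∧ ∀ v, P' x v = 0 → ∃ c : ℝ, v = c • n)
    {Cw : ℝ} (hC : 0 ≤ Cw)
    (hw : ∀ j x v, P x v = 0 → P' x v = v → (4 * m1)⁻¹ ^ j * ‖Dn j x v‖ ≤ Cw * ‖v‖)
    (pin : Real.log (l1 / 4) * Real.log (4 * m1)⁻¹ < Real.log (l1 / 4) * Real.log (m2 / 4)⁻¹ +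
      Real.log (4 * l2) * Real.log (4 * m1)⁻¹) :
    ∃ p : EuclideanSpace ℝ (Fin n) → M, IsCoveringMap p ∧ Function.Surjective p := by
  obtain ⟨s, u, hd', L, hL⟩ := h.exists_L
  obtain ⟨Q, K, b⟩ := h.bounds
  obtain ⟨ρ0, ρ1, ha⟩ := h.atlas hi b hL p1 p2 (by linarith) (by linarith) p5 hs hu
  obtain ⟨x0⟩ : Nonempty M := inferInstance
  have q0 : 0 < m0 := by linarith
  have q1 : 0 < m1 := by linarith
  obtain ⟨ε, C, hS⟩ := ha.smale (a1 := l1 / 4) (a2 := 4 * l2) (b1 := (4 * m0)⁻¹)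
    (b2 := (m2 / 4)⁻¹) (by positivity) (by linarith) (by linarith) p3 (by positivity)
    (inv_strictAnti₀ (by positivity) (by linarith)) (inv_strictAnti₀ (by linarith) (by linarith))
    (inv_lt_one_of_one_lt₀ (by linarith))
  obtain ⟨nv, K', ρ, r, hq⟩ := h.plq h' hn b hL ha hv (w := (4 * m1)⁻¹) (by positivity)
    (inv_le_one_of_one_le₀ (by linarith)) hC hw
  have c1 := hS.one_le
  have c2 := hS.ε_pos
  obtain ⟨p, c3, c4⟩ := Pin.covering (δ := ε / (100 * C ^ 2)) ⟨hS, by positivity,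
    inv_anti₀ (by linarith) (by linarith), pin, by positivity, le_of_eq (by field_simp)⟩ hP hq
  let A : EuclideanSpace ℝ (Fin n) ≃L[ℝ] EuclideanSpace ℝ (Fin s) × EuclideanSpace ℝ (Fin u) :=
    ContinuousLinearEquiv.ofFinrankEq (by simp [← hd' x0, hd])
  exact ⟨p ∘ A.toHomeomorph, c3.comp_homeomorph _, c4.comp A.surjective⟩

end Pool.Agent.P.MP_0a0487_an
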