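import Pool.Agent.P.MP_0a0487_an.Path

/-!
Complete holonomy gives global rectangles.
-/

set_option autoImplicit false

open Set Metric Filter Topology

namespace Pool.Agent.P.MP_0a0487_an

variable {M : Type*} [MetricSpace M] [CompactSpace M]
  {G H : M → M} {S U : Type*} [NormedAddCommGroup S] [NormedAddCommGroup U]
  {ε C a1 a2 b1 b2 b δ : ℝ}

theorem hol_refl (hδ : 0 ≤ δ) (z : M) : HOL G H a1 δ z z :=
  fun _ _ => ⟨0, fun σ h0 hc _ => ⟨σ, h0, hc, fun t _ => by simpa using hδ⟩⟩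

theorem hol_level_mono {τ : ℝ} {z z' : M} {n n' : ℕ} (h : Hol G H a1 δ τ z z' n) (hn : n ≤ n') :
    Hol G H a1 δ τ z z' n' := fun σ h0 hc hs => by
  obtain ⟨σ', e0, ec, ed⟩ := h σ h0 hc hs
  exact ⟨σ', e0, ec, fun t ht => (ds_iterate_mono H _ _ hn).trans (ed t ht)⟩

/-- Holonomy images of short paths are short. -/
theorem Pin.hol_sh (h : Pin G H S U ε C a1 a2 b1 b2 b δ) : ∃ j : ℕ, ∀ (τ : ℝ) (n : ℕ)
    (σ σ' : ℝ → M), 0 < τ → Sh H a1 δ τ (closedBall 0 1) σ →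
    ContinuousOn (fun t => toL G (σ' t)) (closedBall 0 1) →
    (∀ t ∈ closedBall (0 : ℝ) 1, ds H (H^[n] (σ t)) (H^[n] (σ' t)) ≤ δ) →
    Sh H a1 δ (τ * a1 ^ (n + j)) (closedBall 0 1) σ' := by
  obtain ⟨d0, d1, d2, d3⟩ := h.Cδ
  obtain ⟨j, hj⟩ := h.sm.hi (X := ℝ) d0 (by linarith) d0
  exact ⟨j, fun τ n σ σ' hτ hs hc hd => (hj a1 τ _ σ σ' n h.sm.hs.a1_pos hτ
    (convex_closedBall _ _) (hs.shN n) hc fun t ht k hk =>
      (dist_le_ds H _ _).trans ((ds_iterate_mono H _ _ hk).trans (hd t ht))).1⟩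

/-- Transitivity for a fixed size of the paths. -/
theorem Pin.hol_trans_fix (h : Pin G H S U ε C a1 a2 b1 b2 b δ) {z z' z'' : M} {τ : ℝ}
    (hτ : 0 < τ) {n : ℕ} (h1 : Hol G H a1 δ τ z z' n) (h2 : HOL G H a1 δ z' z'') :
    ∃ n', Hol G H a1 δ τ z z'' n' := by
  obtain ⟨d0, d1, d2, d3⟩ := h.Cδ
  have ha1 := h.sm.hs.a1_pos
  obtain ⟨j, hj⟩ := h.hol_sh
  obtain ⟨n2, h2⟩ := h2 (τ * a1 ^ (n + j)) (by positivity)
  obtain ⟨k, hk⟩ := h.sm.symm.shrink d0
  refine ⟨k + max n n2, fun σ s0 sc ss => ?_⟩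
  obtain ⟨σ', e0, ec, ed⟩ := h1 σ s0 sc ss
  obtain ⟨σ'', f0, fc, fd⟩ := h2 σ' e0 ec (hj τ n σ σ' hτ ss ec ed)
  refine ⟨σ'', f0, fc, fun t ht => ?_⟩
  rw [Function.iterate_add_apply, Function.iterate_add_apply]
  refine hk k le_rfl _ _ ?_
  have t1 := (ds_iterate_mono H _ _ (le_max_left n n2)).trans (ed t ht)
  have t2 := (ds_iterate_mono H _ _ (le_max_right n n2)).trans (fd t ht)
  refine (ds_triangle H _ (H^[max n n2] (σ' t)) _).trans ?_
  linarith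

theorem Pin.hol_trans (h : Pin G H S U ε C a1 a2 b1 b2 b δ) {z z' z'' : M}
    (h1 : HOL G H a1 δ z z') (h2 : HOL G H a1 δ z' z'') : HOL G H a1 δ z z'' := fun τ hτ => by
  obtain ⟨n, hn⟩ := h1 τ hτ
  exact h.hol_trans_fix hτ hn h2

theorem Pin.hol_loc (h : Pin G H S U ε C a1 a2 b1 b2 b δ) {τ : ℝ} (hτ : 0 < τ) (n : ℕ) :
    ∃ (n' : ℕ) (η : ℝ), 0 < η ∧ ∀ z z' z'' : M, Hol G H a1 δ τ z z' n → ds H z' z'' ≤ η →
      Hol G H a1 δ τ z z'' n' := by
  obtain ⟨d0, d1, d2, d3⟩ := h.Cδ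
  have hC := h.sm.one_le
  have ha1 := h.sm.hs.a1_pos
  obtain ⟨j, hj⟩ := h.hol_sh
  obtain ⟨m, hm⟩ := h.sm.pth_level' d0 (by linarith) ha1 (h.sm.hs.a12.trans h.sm.hs.a2_lt.le)
    (show 0 < τ * a1 ^ (n + j) by positivity) d0 0
  obtain ⟨η, hη, hu⟩ := h.sm.inv.symm.unif_ds m d0
  obtain ⟨k, hk⟩ := h.sm.symm.shrink d0
  refine ⟨k + n, η, hη, fun z z' z'' h1 hz σ s0 sc ss => ?_⟩
  obtain ⟨σ', e0, ec, ed⟩ := h1 σ s0 sc ss
  have t0 := hu z' z'' hz
  have t1 := hm σ' ec ((hj τ n σ σ' hτ ss ec ed).shN 0)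
  rw [e0] at t1
  have ex : ∀ t : ℝ, ∃ c, t ∈ closedBall (0 : ℝ) 1 →
      ds G (G^[m] z'') c ≤ C * (2 * δ) ∧ ds H (G^[m] (σ' t)) c ≤ C * (2 * δ) := by
    intro t
    by_cases ht : t ∈ closedBall (0 : ℝ) 1
    swap
    · exact ⟨z, fun h => (ht h).elim⟩
    have u1 := (dist_le_ds H _ _).trans t0
    have u2 := (dist_le_ds G _ _).trans (t1 t ht)
    have u3 := dist_triangle_left (G^[m] z'') (G^[m] (σ' t)) (G^[m] z')
    have u4 : C * dist (G^[m] z'') (G^[m] (σ' t)) ≤ C * (2 * δ) := by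
      gcongr; linarith
    obtain ⟨c, c1, c2⟩ := h.sm.br _ _ (u4.trans (by linarith))
    exact ⟨c, fun _ => ⟨c1.trans u4, c2.trans u4⟩⟩
  choose c hc using ex
  refine ⟨fun t => H^[m] (c t), ?_, ?_, fun t ht => ?_⟩
  · obtain ⟨c1, c2⟩ := hc 0 (mem_closedBall_self zero_le_one)
    rw [e0] at c2
    rw [ds_comm] at t0
    have := ds_triangle H (G^[m] z'') (G^[m] z') (c 0)
    have e : G^[m] z'' = c 0 := h.sm.eq_of (by linarith) (by linarith)
    simp only [← e, h.sm.inv.HGn]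
  · refine (h.sm.inv.continuous_Lf_H m).comp_continuousOn (f := fun t => toL G (c t)) ?_
    refine h.sm.brCont (a := fun _ => G^[m] z'') (b := fun t => G^[m] (σ' t)) continuousOn_const ?_
      (fun t ht => (hc t ht).1.trans (by linarith)) (fun t ht => (hc t ht).2.trans (by linarith))
    exact ((h.sm.inv.cG.iterate m).comp (continuous_ofL G)).comp_continuousOn ec
  · rw [Function.iterate_add_apply, Function.iterate_add_apply]
    refine hk k le_rfl _ _ ?_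
    have u1 := (ds_iterate_le H _ _ m).trans (hc t ht).2
    rw [h.sm.inv.HGn] at u1
    have u2 := (ds_iterate_le H _ _ n).trans u1
    have u3 := ed t ht
    refine (ds_triangle H _ (H^[n] (σ' t)) _).trans ?_
    linarith

theorem Pin.eg_of_hol [NormedSpace ℝ S] [NormedSpace ℝ U] [FiniteDimensional ℝ U]
    (h : Pin G H S U ε C a1 a2 b1 b2 b δ)
    (hh : ∀ z' : M, ∃ η : ℝ, 0 < η ∧ ∀ z, ds H z z' ≤ η → HOL G H a1 δ z z') :
    EG G H S U ε := by
  obtain ⟨d0, d1, d2, d3⟩ := h.Cδ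
  intro α β hα hβ h0
  refine h.sm.exists_grect hα hβ h0 d0 (by linarith) fun R hR => ?_
  obtain ⟨τ, hτ, hs⟩ := h.sm.hs.short h.sm.one_le hα R d0 (by linarith)
  have hτ' : 0 < τ / (R + 1) := by positivity
  have near : ∀ (y : U) {η : ℝ}, 0 < η → ∀ᶠ y' in 𝓝 y, ds H (β y') (β y) ≤ η := by
    intro y η hη
    filter_upwards [Metric.tendsto_nhds.1 (hβ.continuous.tendsto y) η hη] with y' hy'
    exact hy'.le
  have loc : ∀ (y : U) (n : ℕ), Hol G H a1 δ (τ / (R + 1)) (β 0) (β y) n →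
      ∃ n', ∀ᶠ y' in 𝓝 y, Hol G H a1 δ (τ / (R + 1)) (β 0) (β y') n' := by
    intro y n hn
    obtain ⟨n', η, hη, hl⟩ := h.hol_loc hτ' n
    exact ⟨n', (near y hη).mono fun y' hy' => hl _ _ _ hn (by rwa [ds_comm])⟩
  have hA : IsClopen {y : U | ∃ n, Hol G H a1 δ (τ / (R + 1)) (β 0) (β y) n} := by
    constructor
    · refine isClosed_of_closure_subset fun y hy => ?_
      obtain ⟨η, hη, hz⟩ := hh (β y)
      obtain ⟨y', h1, n, h2⟩ := mem_closure_iff_nhds.1 hy _ (near y hη)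
      exact h.hol_trans_fix hτ' h2 (hz _ h1)
    · refine isOpen_iff_mem_nhds.2 ?_
      rintro y ⟨n, hn⟩
      obtain ⟨n', hn'⟩ := loc y n hn
      exact hn'.mono fun y' hy' => ⟨n', hy'⟩
  have hU := hA.eq_univ ⟨0, hol_refl d0.le _ _ hτ'⟩
  have : ProperSpace U := FiniteDimensional.proper_real U
  obtain ⟨n0, hn0⟩ : ∃ n0, ∀ y ∈ closedBall (0 : U) R,
      Hol G H a1 δ (τ / (R + 1)) (β 0) (β y) n0 := by
    refine (isCompact_closedBall (0 : U) R).induction_on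
      (p := fun s => ∃ n0, ∀ y ∈ s, Hol G H a1 δ (τ / (R + 1)) (β 0) (β y) n0)
      ⟨0, fun _ hy => hy.elim⟩ ?_ ?_ ?_
    · rintro s t hst ⟨n, hn⟩
      exact ⟨n, fun y hy => hn y (hst hy)⟩
    · rintro s t ⟨n, hn⟩ ⟨n', hn'⟩
      refine ⟨max n n', ?_⟩
      rintro y (hy | hy)
      · exact hol_level_mono (hn y hy) (le_max_left _ _)
      · exact hol_level_mono (hn' y hy) (le_max_right _ _)
    · intro y _
      obtain ⟨n, hn⟩ : y ∈ {y : U | ∃ n, Hol G H a1 δ (τ / (R + 1)) (β 0) (β y) n} :=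
        hU ▸ mem_univ y
      obtain ⟨n', hn'⟩ := loc y n hn
      exact ⟨_, mem_nhdsWithin_of_mem_nhds hn', n', fun _ hy => hy⟩
  refine ⟨n0, fun r hr l hl Φ hΦ n hT x hx y hy => ?_⟩
  have hxr : ‖x‖ ≤ r := mem_closedBall_zero_iff.1 hx
  have mp : MapsTo (fun t : ℝ => t • x) (closedBall 0 1) (closedBall 0 r) := by
    intro t ht
    rw [mem_closedBall_zero_iff] at ht ⊢
    rw [norm_smul]
    exact (mul_le_of_le_one_left (norm_nonneg x) ht).trans hxr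
  have cp : Continuous fun t : ℝ => t • x := continuous_id.smul continuous_const
  obtain ⟨σ', e0, ec, ed⟩ := hn0 y (closedBall_subset_closedBall hl hy) (fun t => α (t • x))
    (by simp only [zero_smul, h0]) (hα.continuous.comp cp).continuousOn
    (hs.comp (by positivity) (mp.mono_right (closedBall_subset_closedBall hr)) fun t _ t' _ => by
      rw [← sub_smul, norm_smul, mul_comm]
      gcongr
      linarith)
  have one : (1 : ℝ) ∈ closedBall (0 : ℝ) 1 := by simp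
  have key : Φ ((1 : ℝ) • x) y = σ' 1 := by
    refine h.sm.uniqN (convex_closedBall (0 : ℝ) 1).isPreconnected (e := fun t => Φ (t • x) y)
      (e' := σ') ((hΦ.cs y hy).comp cp.continuousOn mp) ec (mem_closedBall_self zero_le_one)
      (by simp only [zero_smul, hΦ.bu y hy, e0]) (n := max n n0) (fun t ht => ?_) one
    have t1 := hT.mono (le_max_left n n0) _ (mp ht) y hy
    rw [hΦ.bs _ (mp ht), ds_comm] at t1
    have t2 := (ds_iterate_mono H _ _ (le_max_right n n0)).trans (ed t ht)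
    refine (ds_triangle H _ (H^[max n n0] (α (t • x))) _).trans ?_
    linarith
  have t := ed 1 one
  rw [← key, one_smul] at t
  rwa [hΦ.bs x hx]

end Pool.Agent.P.MP_0a0487_an
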