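import Pool.Agent.P.MP_0a0487_an.Path

/-!
Weak lifts of segments in an unstable plaque.
-/

set_option autoImplicit false

open Set Metric Filter Topology

namespace Pool.Agent.P.MP_0a0487_an

variable {M : Type*} [MetricSpace M] [CompactSpace M]
  {G H : M → M} {S U : Type*} [NormedAddCommGroup S] [NormedAddCommGroup U]
  {ε C a1 a2 b1 b2 b δ : ℝ}
  [NormedSpace ℝ U] {κ : M → M → U} {nv : M → U} {K ρ r : ℝ}

theorem Plq.limit (h : Plq G H κ nv K ρ r b) (hi : Inv G H) {ι : Type*} (u : Ultrafilter ι) {x : M}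
    {γ : ι → ℝ → M} {L : ℝ} (h1 : ∀ᶠ i in (u : Filter ι), ∀ t, ds H x (γ i t) ≤ ρ)
    (h2 : ∀ (j : ℕ) (t t' e : ℝ), 0 < e → ∀ᶠ i in (u : Filter ι),
      b ^ j * dist (G^[j] (γ i t)) (G^[j] (γ i t')) ≤ L * |t - t'| + e) :
    ∃ Γ : ℝ → M, (∀ t, Tendsto (fun i => γ i t) u (𝓝 (Γ t))) ∧ (∀ t, ds H x (Γ t) ≤ ρ) ∧
      WL G b L Γ ∧ ∀ t, Tendsto (fun i => κ x (γ i t)) u (𝓝 (κ x (Γ t))) := by
  have ex : ∀ t, ∃ w, Tendsto (fun i => γ i t) u (𝓝 w) := by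
    intro t
    obtain ⟨w, -, hw⟩ := isCompact_univ.ultrafilter_le_nhds (u.map fun i => γ i t) (by simp)
    exact ⟨w, hw⟩
  choose Γ hΓ using ex
  have hρ : ∀ t, ds H x (Γ t) ≤ ρ := fun t =>
    (isClosed_ds_le hi.cH ρ).mem_of_tendsto (tendsto_const_nhds.prodMk_nhds (hΓ t))
      (h1.mono fun i hi => hi t)
  refine ⟨Γ, hΓ, hρ, fun j t t' => le_of_forall_pos_le_add fun e he => ?_, fun t => ?_⟩
  · have hc := hi.cG.iterate j
    exact le_of_tendsto ((((hc.tendsto _).comp (hΓ t)).dist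
      ((hc.tendsto _).comp (hΓ t'))).const_mul (b ^ j)) (h2 j t t' e he)
  · rw [tendsto_iff_norm_sub_tendsto_zero]
    have l : Tendsto (fun i => K * dist (γ i t) (Γ t)) u (𝓝 0) := by
      simpa using (tendsto_iff_dist_tendsto_zero.1 (hΓ t)).const_mul K
    refine squeeze_zero' (Eventually.of_forall fun _ => norm_nonneg _) (h1.mono fun i hi => ?_) l
    refine h.lip x _ _ ?_ ?_
    · rw [dist_comm]; exact (dist_le_ds H _ _).trans (hi t)
    · rw [dist_comm]; exact (dist_le_ds H _ _).trans (hρ t)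

/-- An Euler polygon with `k` sides. -/
theorem Plq.polygon (h : Plq G H κ nv K ρ r b) (hb : 0 < b) {x a : M} {ζ : U}
    (ha : ds H x a ≤ ρ) (hζ : ‖κ x a‖ + (1 + K) * ‖ζ‖ ≤ r) (n : ℕ) :
    ∃ (k : ℕ) (p : ℕ → M), n + 1 ≤ k ∧ p 0 = a ∧
      (∀ i ≤ k, ds H x (p i) ≤ ρ ∧ ∃ c : ℝ, |c| ≤ K * ‖ζ‖ ∧
        κ x (p i) = κ x a + ((i : ℝ) / k) • ζ + c • nv x) ∧
      ∀ j ≤ n, ∀ i i' : ℕ, i ≤ i' → i' ≤ k →
        b ^ j * dist (G^[j] (p i)) (G^[j] (p i')) ≤ K * ‖ζ‖ / k * ((i' : ℝ) - i) := by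
  obtain ⟨t, ht, he⟩ := h.euler n
  obtain ⟨k0, hk0⟩ := exists_nat_ge (‖ζ‖ / t)
  obtain ⟨k, hk1, hk2⟩ : ∃ k : ℕ, n + 1 ≤ k ∧ k0 ≤ k := ⟨max (n + 1) k0, le_max_left _ _, le_max_right _ _⟩
  have hK := h.one_le
  have hz := norm_nonneg ζ
  have kpos : (0 : ℝ) < k := by exact_mod_cast (by omega : 0 < k)
  have nz : ‖((1 : ℝ) / k) • ζ‖ = ‖ζ‖ / k := by
    rw [norm_smul, Real.norm_of_nonneg (by positivity)]; ring
  have hzt : ‖((1 : ℝ) / k) • ζ‖ ≤ t := by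
    rw [nz, div_le_iff₀ kpos]
    rw [div_le_iff₀ ht] at hk0
    have : (k0 : ℝ) ≤ k := by exact_mod_cast hk2
    nlinarith
  let P : ℕ → M × ℝ → Prop := fun i q => ds H x q.1 ≤ ρ ∧ |q.2| ≤ K * ‖ζ‖ / k * i ∧
    κ x q.1 = κ x a + ((i : ℝ) / k) • ζ + q.2 • nv x
  have step : ∀ (i : ℕ) (q : M × ℝ), ∃ q' : M × ℝ, i < k → P i q → P (i + 1) q' ∧
      ∀ j ≤ n, b ^ j * dist (G^[j] q.1) (G^[j] q'.1) ≤ K * ‖ζ‖ / k := by
    intro i q
    by_cases hik : i < k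
    swap
    · exact ⟨q, fun h' => (hik h').elim⟩
    by_cases hP : P i q
    swap
    · exact ⟨q, fun _ h' => (hP h').elim⟩
    obtain ⟨p1, p2, p3⟩ := hP
    obtain ⟨c, c1, c2⟩ := he x q.1 _ p1 hzt
    rw [nz] at c1 c2
    have hik' : ((i : ℝ) + 1) ≤ k := by exact_mod_cast hik
    have hc : |q.2 + c| ≤ K * ‖ζ‖ / k * ((i + 1 : ℕ) : ℝ) := by
      refine (abs_add_le _ _).trans ?_
      push_cast
      have : K * (‖ζ‖ / k) = K * ‖ζ‖ / k := by ring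
      rw [mul_add, mul_one]
      linarith
    have hv : ‖κ x a + (((i + 1 : ℕ) : ℝ) / k) • ζ + (q.2 + c) • nv x‖ ≤ r := by
      refine (norm_add₃_le).trans ?_
      rw [norm_smul, norm_smul, h.unit, mul_one, Real.norm_of_nonneg (by positivity),
        Real.norm_eq_abs]
      have e1 : ((i + 1 : ℕ) : ℝ) / k ≤ 1 := by
        rw [div_le_one kpos]; push_cast; exact hik'
      have e2 : ((i + 1 : ℕ) : ℝ) / k * ‖ζ‖ ≤ ‖ζ‖ := mul_le_of_le_one_left hz e1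
      have e3 : K * ‖ζ‖ / k * ((i + 1 : ℕ) : ℝ) ≤ K * ‖ζ‖ := by
        have : K * ‖ζ‖ / k * ((i + 1 : ℕ) : ℝ) = (((i + 1 : ℕ) : ℝ) / k) * (K * ‖ζ‖) := by ring
        rw [this]
        exact mul_le_of_le_one_left (by positivity) e1
      linarith
    obtain ⟨a', a1, a2⟩ := h.onto x _ hv
    have a3 : ds H x a' ≤ ρ := a1.trans ((mul_le_mul_of_nonneg_left hv (by linarith)).trans h.Kr)
    refine ⟨(a', q.2 + c), fun _ _ => ⟨⟨a3, hc, a2⟩, fun j hj => ?_⟩⟩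
    have := c2 a' a3 (by
      rw [a2, p3, add_smul]
      push_cast
      rw [add_div, add_smul]
      abel) j hj
    simpa only [mul_div_assoc] using this
  choose F hF using step
  let q : ℕ → M × ℝ := fun i => Nat.rec (a, 0) (fun i q => F i q) i
  have qs : ∀ i, q (i + 1) = F i (q i) := fun i => rfl
  have inv : ∀ i ≤ k, P i (q i) := by
    intro i
    induction i with
    | zero => intro _; exact ⟨ha, by simp [q], by simp [q]⟩
    | succ i ih => intro hi; rw [qs]; exact (hF i (q i) hi (ih (by omega))).1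
  refine ⟨k, fun i => (q i).1, hk1, rfl, fun i hi => ⟨(inv i hi).1, (q i).2, ?_, (inv i hi).2.2⟩,
    fun j hj i i' hii' hi' => ?_⟩
  · refine (inv i hi).2.1.trans ?_
    have e1 : (i : ℝ) / k ≤ 1 := by
      rw [div_le_one kpos]; exact_mod_cast hi
    have : K * ‖ζ‖ / k * (i : ℝ) = ((i : ℝ) / k) * (K * ‖ζ‖) := by ring
    rw [this]
    exact mul_le_of_le_one_left (by positivity) e1
  · induction i', hii' using Nat.le_induction with
    | base => simp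
    | succ m hm ih =>
      have t1 := ih (by omega)
      have t2 := (hF m (q m) hi' (inv m (by omega))).2 j hj
      rw [← qs] at t2
      have t3 := mul_le_mul_of_nonneg_left
        (dist_triangle (G^[j] (q i).1) (G^[j] (q m).1) (G^[j] (q (m + 1)).1)) (pow_pos hb j).le
      push_cast
      simp only at t1 t3 ⊢
      nlinarith

theorem idx_le (k : ℕ) {t t' : ℝ} (h : t ≤ t') :
    min k ⌊(k : ℝ) * t⌋₊ ≤ min k ⌊(k : ℝ) * t'⌋₊ ∧
      ((min k ⌊(k : ℝ) * t'⌋₊ : ℕ) : ℝ) - (min k ⌊(k : ℝ) * t⌋₊ : ℕ) ≤ k * (t' - t) + 1 := by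
  have hk : (0 : ℝ) ≤ k := Nat.cast_nonneg k
  have h1 : (k : ℝ) * t ≤ k * t' := mul_le_mul_of_nonneg_left h hk
  have h2 : ⌊(k : ℝ) * t⌋₊ ≤ ⌊(k : ℝ) * t'⌋₊ := Nat.floor_le_floor h1
  refine ⟨min_le_min_left _ h2, ?_⟩
  have h3 : ((min k ⌊(k : ℝ) * t'⌋₊ : ℕ) : ℝ) - (min k ⌊(k : ℝ) * t⌋₊ : ℕ) ≤
      (⌊(k : ℝ) * t'⌋₊ : ℝ) - ⌊(k : ℝ) * t⌋₊ := by
    have : min k ⌊(k : ℝ) * t'⌋₊ + ⌊(k : ℝ) * t⌋₊ ≤ ⌊(k : ℝ) * t'⌋₊ + min k ⌊(k : ℝ) * t⌋₊ := by
      omega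
    have : ((min k ⌊(k : ℝ) * t'⌋₊ : ℕ) : ℝ) + ⌊(k : ℝ) * t⌋₊ ≤
        ⌊(k : ℝ) * t'⌋₊ + ((min k ⌊(k : ℝ) * t⌋₊ : ℕ) : ℝ) := by exact_mod_cast this
    linarith
  refine h3.trans ?_
  have h4 := Nat.lt_floor_add_one ((k : ℝ) * t)
  rcases le_total 0 ((k : ℝ) * t') with e | e
  · have := Nat.floor_le e
    rw [mul_sub]; linarith
  · rw [Nat.floor_of_nonpos e]
    have : (0 : ℝ) ≤ ⌊(k : ℝ) * t⌋₊ := Nat.cast_nonneg _
    rw [mul_sub]; push_cast; linarith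

theorem Plq.lift (h : Plq G H κ nv K ρ r b) (hi : Inv G H) (hb : 0 < b) {x a : M} {ζ : U}
    (ha : ds H x a ≤ ρ) (hζ : ‖κ x a‖ + (1 + K) * ‖ζ‖ ≤ r) :
    ∃ γ : ℝ → M, γ 0 = a ∧ (∀ t, ds H x (γ t) ≤ ρ) ∧ WL G b (K * ‖ζ‖) γ ∧
      ∀ t ∈ Icc (0 : ℝ) 1, ∃ c : ℝ, |c| ≤ K * ‖ζ‖ ∧ κ x (γ t) = κ x a + t • ζ + c • nv x := by
  choose k p hk p0 hp hd using h.polygon hb ha hζ
  have hK := h.one_le
  have hB : 0 ≤ K * ‖ζ‖ := by have := norm_nonneg ζ; positivity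
  have kpos : ∀ n, (0 : ℝ) < k n := fun n => by
    have := hk n
    exact_mod_cast (by omega : 0 < k n)
  have ktop : Tendsto (fun n => (k n : ℝ)) atTop atTop :=
    tendsto_natCast_atTop_atTop.comp
      (tendsto_atTop_mono (fun n => (Nat.le_succ n).trans (hk n)) tendsto_id)
  have kinv : Tendsto (fun n => ((k n : ℝ))⁻¹) atTop (𝓝 0) := tendsto_inv_atTop_zero.comp ktop
  have hu : (hyperfilter ℕ : Filter ℕ) ≤ atTop := Nat.hyperfilter_le_atTop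
  obtain ⟨Γ, l1, l2, l3, l4⟩ := h.limit hi (hyperfilter ℕ) (x := x)
    (γ := fun n t => p n (min (k n) ⌊(k n : ℝ) * t⌋₊)) (L := K * ‖ζ‖)
    (Eventually.of_forall fun n t => (hp n _ (min_le_left _ _)).1) (fun j t t' e he => by
      have e1 : ∀ᶠ n in atTop, K * ‖ζ‖ * ((k n : ℝ))⁻¹ ≤ e := by
        have := kinv.const_mul (K * ‖ζ‖)
        rw [mul_zero] at this
        exact this.eventually (ge_mem_nhds he)
      refine hu ?_
      filter_upwards [e1, eventually_ge_atTop j] with n hn hj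
      have key : ∀ s s' : ℝ, s ≤ s' →
          b ^ j * dist (G^[j] (p n (min (k n) ⌊(k n : ℝ) * s⌋₊)))
            (G^[j] (p n (min (k n) ⌊(k n : ℝ) * s'⌋₊))) ≤ K * ‖ζ‖ * (s' - s) + e := by
        intro s s' hs
        obtain ⟨i1, i2⟩ := idx_le (k n) hs
        refine (hd n j hj _ _ i1 (min_le_left _ _)).trans ?_
        have kp := kpos n
        refine (mul_le_mul_of_nonneg_left i2 (by positivity)).trans ?_
        have : K * ‖ζ‖ / k n * (k n * (s' - s) + 1) =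
            K * ‖ζ‖ * (s' - s) + K * ‖ζ‖ * ((k n : ℝ))⁻¹ := by field_simp
        rw [this]; linarith
      show b ^ j * dist _ _ ≤ _
      rcases le_total t t' with e2 | e2
      · rw [abs_sub_comm, abs_of_nonneg (sub_nonneg.2 e2)]; exact key t t' e2
      · rw [abs_of_nonneg (sub_nonneg.2 e2), dist_comm]; exact key t' t e2)
  refine ⟨Γ, ?_, l2, l3, fun t ht => ?_⟩
  · have := l1 0
    simp only [mul_zero, Nat.floor_zero, Nat.min_zero, p0] at this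
    exact tendsto_nhds_unique this tendsto_const_nhds
  · have cl : IsClosed ((fun c : ℝ => c • nv x) '' Icc (-(K * ‖ζ‖)) (K * ‖ζ‖)) :=
      (isCompact_Icc.image (by fun_prop)).isClosed
    have lt : Tendsto (fun n => ((min (k n) ⌊(k n : ℝ) * t⌋₊ : ℕ) : ℝ) / k n) atTop (𝓝 t) := by
      rw [tendsto_iff_norm_sub_tendsto_zero]
      refine squeeze_zero (fun _ => norm_nonneg _) (fun n => ?_) kinv
      have kp := kpos n
      have f1 : (⌊(k n : ℝ) * t⌋₊ : ℝ) ≤ k n * t := Nat.floor_le (mul_nonneg kp.le ht.1)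
      have f2 := Nat.lt_floor_add_one ((k n : ℝ) * t)
      have f3 : ⌊(k n : ℝ) * t⌋₊ ≤ k n := by
        have : (⌊(k n : ℝ) * t⌋₊ : ℝ) ≤ k n := f1.trans (mul_le_of_le_one_right kp.le ht.2)
        exact_mod_cast this
      rw [min_eq_right f3, Real.norm_eq_abs]
      have : (⌊(k n : ℝ) * t⌋₊ : ℝ) / k n - t = (⌊(k n : ℝ) * t⌋₊ - k n * t) * ((k n : ℝ))⁻¹ := by
        field_simp
      rw [this, abs_mul, abs_of_pos (inv_pos.2 kp)]
      refine mul_le_of_le_one_left (inv_pos.2 kp).le (abs_le.2 ⟨by linarith, by linarith⟩)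
    have lim := ((l4 t).sub (tendsto_const_nhds (x := κ x a))).sub
      ((lt.mono_left hu).smul (tendsto_const_nhds (x := ζ)))
    obtain ⟨c, c1, c2⟩ := cl.mem_of_tendsto lim (Eventually.of_forall fun n => by
      obtain ⟨c, c1, c2⟩ := (hp n _ (min_le_left (k n) ⌊(k n : ℝ) * t⌋₊)).2
      exact ⟨c, abs_le.1 c1, by simp only [c2]; abel⟩)
    refine ⟨c, abs_le.2 c1, ?_⟩
    simp only at c2
    rw [c2]; abel

end Pool.Agent.P.MP_0a0487_an
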