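import Pool.Agent.P.MP_0a0487_an.FrameAtlas

/-!
The first order data of a compact manifold embedded in a Euclidean space.
-/

set_option autoImplicit false

open Set Metric Filter Topology Module Bundle
open scoped Manifold ContDiff

namespace Pool.Agent.P.MP_0a0487_an

variable {E : Type*} [NormedAddCommGroup E] [NormedSpace ℝ E]
  {F : Type*} [NormedAddCommGroup F] [NormedSpace ℝ F]
  {M : Type*} [TopologicalSpace M] [ChartedSpace E M] [IsManifold 𝓘(ℝ, E) 1 M]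

/-- The derivative of a vector valued function. -/
noncomputable def dv (E : Type*) [NormedAddCommGroup E] [NormedSpace ℝ E] [ChartedSpace E M]
    (h : M → F) (x : M) : TangentSpace 𝓘(ℝ, E) x →ₗ[ℝ] F :=
  ((NormedSpace.fromTangentSpace (h x)).toContinuousLinearMap ∘L
    mfderiv 𝓘(ℝ, E) 𝓘(ℝ, F) h x).toLinearMap

theorem contDiffAt_chart {h : M → F} (hh : ContMDiff 𝓘(ℝ, E) 𝓘(ℝ, F) 1 h) (x0 : M) {x : M}
    (hx : x ∈ (chartAt E x0).source) :
    ContDiffAt ℝ 1 (h ∘ (extChartAt 𝓘(ℝ, E) x0).symm) (extChartAt 𝓘(ℝ, E) x0 x) := by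
  have := (contMDiffAt_iff_source_of_mem_source hx).1 (hh x)
  rwa [ModelWithCorners.range_eq_univ, contMDiffWithinAt_univ, contMDiffAt_iff_contDiffAt] at this

theorem dv_eq {h : M → F} (hh : ContMDiff 𝓘(ℝ, E) 𝓘(ℝ, F) 1 h) (x0 : M) {x : M}
    (hx : x ∈ (chartAt E x0).source) (v : TangentSpace 𝓘(ℝ, E) x) :
    dv E h x v = fderiv ℝ (h ∘ (extChartAt 𝓘(ℝ, E) x0).symm) (extChartAt 𝓘(ℝ, E) x0 x)
      ((trivializationAt E (TangentSpace 𝓘(ℝ, E)) x0).continuousLinearMapAt ℝ x v) := by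
  have e1 : h =ᶠ[𝓝 x] (h ∘ (extChartAt 𝓘(ℝ, E) x0).symm) ∘ extChartAt 𝓘(ℝ, E) x0 := by
    filter_upwards [extChartAt_source_mem_nhds' (I := 𝓘(ℝ, E)) (x := x0) (x' := x)
      (by simpa using hx)] with z hz
    simp only [Function.comp, (extChartAt 𝓘(ℝ, E) x0).left_inv hz]
  have e2 := mfderiv_comp_apply x
    ((contDiffAt_chart hh x0 hx).differentiableAt one_ne_zero).mdifferentiableAt
    (mdifferentiableAt_extChartAt hx) v
  rw [← e1.mfderiv_eq, mfderiv_eq_fderiv, ← TangentBundle.continuousLinearMapAt_trivializationAt hx]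
    at e2
  exact e2

theorem dv_comp {h : M → F} {g : M → M} (hh : ContMDiff 𝓘(ℝ, E) 𝓘(ℝ, F) 1 h)
    (hg : ContMDiff 𝓘(ℝ, E) 𝓘(ℝ, E) 1 g) (x : M) (v : TangentSpace 𝓘(ℝ, E) x) :
    dv E h (g x) (mfderiv 𝓘(ℝ, E) 𝓘(ℝ, E) g x v) = dv E (h ∘ g) x v :=
  (mfderiv_comp_apply x (hh.mdifferentiableAt one_ne_zero) (hg.mdifferentiableAt one_ne_zero) v).symm

variable [RiemannianBundle (fun x : M => TangentSpace 𝓘(ℝ, E) x)]

theorem dv_near {h : M → F} (hh : ContMDiff 𝓘(ℝ, E) 𝓘(ℝ, F) 1 h) (x0 : M) {η : ℝ} (hη : 0 < η) :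
    ∀ᶠ x in 𝓝 x0, ∀ w : TangentSpace 𝓘(ℝ, E) x0,
      ‖dv E h x ((trivializationAt E (TangentSpace 𝓘(ℝ, E)) x0).symmL ℝ x
        ((trivializationAt E (TangentSpace 𝓘(ℝ, E)) x0).continuousLinearMapAt ℝ x0 w)) -
        dv E h x0 w‖ ≤ η * ‖w‖ := by
  obtain ⟨c, c0, hc⟩ :=
    ((trivializationAt E (TangentSpace 𝓘(ℝ, E)) x0).continuousLinearMapAt ℝ x0).bound
  have h0 := mem_chart_source E x0
  have c1 := ((contDiffAt_chart hh x0 h0).continuousAt_fderiv one_ne_zero).comp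
    (continuousAt_extChartAt (I := 𝓘(ℝ, E)) x0)
  filter_upwards [Metric.tendsto_nhds.1 c1 (η / c) (by positivity), chart_source_mem_nhds E x0]
    with x h1 hx w
  rw [dv_eq hh x0 hx, dv_eq hh x0 h0, Trivialization.continuousLinearMapAt_symmL _ (by simpa using hx),
    ← sub_apply]
  rw [dist_eq_norm] at h1
  refine (ContinuousLinearMap.le_opNorm _ _).trans ?_
  calc _ ≤ η / c * (c * ‖w‖) := mul_le_mul h1.le (hc w) (norm_nonneg _) (by positivity)
    _ = η * ‖w‖ := by field_simp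

theorem dv_strict {h : M → F} (hh : ContMDiff 𝓘(ℝ, E) 𝓘(ℝ, F) 1 h) (x0 : M) {η : ℝ} (hη : 0 < η) :
    ∀ᶠ p : M × M in 𝓝 (x0, x0),
      ‖h p.1 - h p.2 - dv E h x0
        ((trivializationAt E (TangentSpace 𝓘(ℝ, E)) x0).symmL ℝ x0 (extChartAt 𝓘(ℝ, E) x0 p.1) -
         (trivializationAt E (TangentSpace 𝓘(ℝ, E)) x0).symmL ℝ x0 (extChartAt 𝓘(ℝ, E) x0 p.2))‖ ≤
      η * ‖(trivializationAt E (TangentSpace 𝓘(ℝ, E)) x0).symmL ℝ x0 (extChartAt 𝓘(ℝ, E) x0 p.1) -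
         (trivializationAt E (TangentSpace 𝓘(ℝ, E)) x0).symmL ℝ x0 (extChartAt 𝓘(ℝ, E) x0 p.2)‖ := by
  obtain ⟨c, c0, hc⟩ :=
    ((trivializationAt E (TangentSpace 𝓘(ℝ, E)) x0).continuousLinearMapAt ℝ x0).bound
  have h0 := mem_chart_source E x0
  have s1 := ((contDiffAt_chart hh x0 h0).hasStrictFDerivAt one_ne_zero).isLittleO.bound
    (c := η / c) (by positivity)
  have c1 := continuousAt_extChartAt (I := 𝓘(ℝ, E)) x0
  have c2 : Tendsto (fun p : M × M => (extChartAt 𝓘(ℝ, E) x0 p.1, extChartAt 𝓘(ℝ, E) x0 p.2))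
      (𝓝 (x0, x0)) (𝓝 (extChartAt 𝓘(ℝ, E) x0 x0, extChartAt 𝓘(ℝ, E) x0 x0)) :=
    (c1.tendsto.comp (continuous_fst.tendsto (x0, x0))).prodMk_nhds
      (c1.tendsto.comp (continuous_snd.tendsto (x0, x0)))
  have c3 := extChartAt_source_mem_nhds (I := 𝓘(ℝ, E)) x0
  filter_upwards [c2.eventually s1, prod_mem_nhds c3 c3] with p h1 h2
  simp only [Function.comp, (extChartAt 𝓘(ℝ, E) x0).left_inv h2.1,
    (extChartAt 𝓘(ℝ, E) x0).left_inv h2.2] at h1
  rw [← map_sub]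
  have t := hc ((trivializationAt E (TangentSpace 𝓘(ℝ, E)) x0).symmL ℝ x0
    (extChartAt 𝓘(ℝ, E) x0 p.1 - extChartAt 𝓘(ℝ, E) x0 p.2))
  rw [dv_eq hh x0 h0]
  rw [Trivialization.continuousLinearMapAt_symmL _ (by simp)] at t ⊢
  refine le_trans h1 ?_
  calc _ ≤ η / c * (c * _) := mul_le_mul_of_nonneg_left t (by positivity)
    _ = _ := by field_simp

variable [FiniteDimensional ℝ E]
  [IsContinuousRiemannianBundle E (fun x : M => TangentSpace 𝓘(ℝ, E) x)]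

theorem proj_near {P : ∀ x : M, TangentSpace 𝓘(ℝ, E) x →ₗ[ℝ] TangentSpace 𝓘(ℝ, E) x}
    (hP : Continuous fun p : TangentBundle 𝓘(ℝ, E) M =>
      (⟨p.proj, P p.proj p.2⟩ : TangentBundle 𝓘(ℝ, E) M)) (x0 : M) {η : ℝ} (hη : 0 < η) :
    ∀ᶠ x in 𝓝 x0, ∀ w : TangentSpace 𝓘(ℝ, E) x0,
      ‖P x ((trivializationAt E (TangentSpace 𝓘(ℝ, E)) x0).symmL ℝ x
        ((trivializationAt E (TangentSpace 𝓘(ℝ, E)) x0).continuousLinearMapAt ℝ x0 w)) -
       (trivializationAt E (TangentSpace 𝓘(ℝ, E)) x0).symmL ℝ x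
        ((trivializationAt E (TangentSpace 𝓘(ℝ, E)) x0).continuousLinearMapAt ℝ x0 (P x0 w))‖ ≤
        η * ‖w‖ := by
  set τ := trivializationAt E (TangentSpace 𝓘(ℝ, E) : M → Type _) x0 with hτ
  obtain ⟨c, c0, hc⟩ := (τ.continuousLinearMapAt ℝ x0).bound
  obtain ⟨C, C0, hC⟩ := eventually_norm_symmL_trivializationAt_lt E
    (fun x : M => TangentSpace 𝓘(ℝ, E) x) x0
  have h0 : x0 ∈ τ.baseSet := FiberBundle.mem_baseSet_trivializationAt' x0
  have hb : τ.baseSet ∈ 𝓝 x0 := τ.open_baseSet.mem_nhds h0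
  let R : M → E →L[ℝ] E := fun x => LinearMap.toContinuousLinearMap
    ((τ.continuousLinearMapAt ℝ x).toLinearMap ∘ₗ P x ∘ₗ (τ.symmL ℝ x).toLinearMap)
  have hR : ∀ x u, R x u = τ.continuousLinearMapAt ℝ x (P x (τ.symmL ℝ x u)) := fun x u => rfl
  have cR : ContinuousAt R x0 := by
    refine continuousAt_clm_apply.2 fun u => ?_
    have t1 : ContinuousAt (fun x : M => (TotalSpace.mk' E x (τ.symm x u) :
        TangentBundle 𝓘(ℝ, E) M)) x0 :=
      (τ.continuousOn_symm.continuousAt (x := (x0, u)) (prod_mem_nhds hb univ_mem)).comp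
        (f := fun x : M => (x, u)) (by fun_prop)
    have t2 := ((FiberBundle.continuousAt_totalSpace E _).1 (hP.continuousAt.comp t1)).2
    refine t2.congr ?_
    filter_upwards [hb] with x hx
    rw [hR, Trivialization.continuousLinearMapAt_apply_of_mem _ _ hx, τ.symmL_apply hx]
    rfl
  filter_upwards [Metric.tendsto_nhds.1 cR (η / (C * c)) (by positivity), hb, hC]
    with x h1 hx h2 w
  have e1 : P x (τ.symmL ℝ x (τ.continuousLinearMapAt ℝ x0 w)) =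
      τ.symmL ℝ x (R x (τ.continuousLinearMapAt ℝ x0 w)) := by
    rw [hR, τ.symmL_continuousLinearMapAt hx]
  have e2 : τ.continuousLinearMapAt ℝ x0 (P x0 w) = R x0 (τ.continuousLinearMapAt ℝ x0 w) := by
    rw [hR, τ.symmL_continuousLinearMapAt h0]
  rw [e1, e2, ← map_sub, ← sub_apply]
  rw [dist_eq_norm] at h1
  refine (ContinuousLinearMap.le_opNorm _ _).trans ?_
  calc _ ≤ C * (η / (C * c) * (c * ‖w‖)) := mul_le_mul h2.le
        ((ContinuousLinearMap.le_opNorm _ _).trans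
          (mul_le_mul h1.le (hc w) (norm_nonneg _) (by positivity))) (norm_nonneg _) C0.le
    _ = η * ‖w‖ := by field_simp

instance finiteDimensional_tangentSpace (x : M) :
    FiniteDimensional ℝ (TangentSpace 𝓘(ℝ, E) x) := inferInstanceAs (FiniteDimensional ℝ E)

theorem frame_of_embedding {M : Type*} [MetricSpace M] [CompactSpace M] [ChartedSpace E M]
    [IsManifold 𝓘(ℝ, E) 1 M] [RiemannianBundle (fun x : M => TangentSpace 𝓘(ℝ, E) x)]
    [IsContinuousRiemannianBundle E (fun x : M => TangentSpace 𝓘(ℝ, E) x)]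
    {E' : Type*} [NormedAddCommGroup E'] [InnerProductSpace ℝ E'] [FiniteDimensional ℝ E']
    {e : M → E'} (he : ContMDiff 𝓘(ℝ, E) 𝓘(ℝ, E') 1 e) (hd : ∀ a b, dist a b = ‖e a - e b‖)
    (hi : ∀ x, Function.Injective (mfderiv 𝓘(ℝ, E) 𝓘(ℝ, E') e x)) {g : M → M}
    (hg : ContMDiff 𝓘(ℝ, E) 𝓘(ℝ, E) 1 g)
    {P : ∀ x : M, TangentSpace 𝓘(ℝ, E) x →ₗ[ℝ] TangentSpace 𝓘(ℝ, E) x}
    (idem : ∀ x v, P x (P x v) = P x v)
    (hP : Continuous fun p : TangentBundle 𝓘(ℝ, E) M =>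
      (⟨p.proj, P p.proj p.2⟩ : TangentBundle 𝓘(ℝ, E) M)) :
    Frame (T := fun x : M => TangentSpace 𝓘(ℝ, E) x) e g (dv E e)
      (fun x => (mfderiv 𝓘(ℝ, E) 𝓘(ℝ, E) g x).toLinearMap) P := by
  refine ⟨hd, hi, idem, fun x0 => ?_⟩
  set τ := trivializationAt E (TangentSpace 𝓘(ℝ, E) : M → Type _) x0 with hτ
  have h0 : x0 ∈ τ.baseSet := FiberBundle.mem_baseSet_trivializationAt' x0
  have hb : τ.baseSet ∈ 𝓝 x0 := τ.open_baseSet.mem_nhds h0
  have c1 := continuousAt_extChartAt (I := 𝓘(ℝ, E)) x0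
  have c2 : Tendsto (τ.continuousLinearMapAt ℝ x0) (𝓝 (τ.symmL ℝ x0 (extChartAt 𝓘(ℝ, E) x0 x0)))
      (𝓝 (extChartAt 𝓘(ℝ, E) x0 x0)) := by
    have := (τ.continuousLinearMapAt ℝ x0).continuous.tendsto
      (τ.symmL ℝ x0 (extChartAt 𝓘(ℝ, E) x0 x0))
    rwa [τ.continuousLinearMapAt_symmL h0] at this
  have c3 := (continuousAt_extChartAt_symm (I := 𝓘(ℝ, E)) x0).tendsto
  rw [extChartAt_to_inv] at c3
  refine ⟨fun a => τ.symmL ℝ x0 (extChartAt 𝓘(ℝ, E) x0 a),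
    fun w => (extChartAt 𝓘(ℝ, E) x0).symm (τ.continuousLinearMapAt ℝ x0 w),
    fun x => (τ.symmL ℝ x ∘L τ.continuousLinearMapAt ℝ x0).toLinearMap,
    fun x => (τ.symmL ℝ x0 ∘L τ.continuousLinearMapAt ℝ x).toLinearMap,
    (τ.symmL ℝ x0).continuous.continuousAt.comp c1, c3.comp c2, ?_, ?_, fun η hη => ⟨?_,
      dv_strict he x0 hη, ?_⟩⟩
  · filter_upwards [c2.eventually (extChartAt_target_mem_nhds (I := 𝓘(ℝ, E)) x0)] with w hw
    rw [(extChartAt 𝓘(ℝ, E) x0).right_inv hw, τ.symmL_continuousLinearMapAt h0]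
  · filter_upwards [extChartAt_source_mem_nhds (I := 𝓘(ℝ, E)) x0] with x hx
    rw [τ.continuousLinearMapAt_symmL h0, (extChartAt 𝓘(ℝ, E) x0).left_inv hx]
  · filter_upwards [hb, eventually_norm_symmL_trivializationAt_comp_self_lt E
      (fun x : M => TangentSpace 𝓘(ℝ, E) x) x0 (r := 1 + η) (by linarith),
      eventually_norm_symmL_trivializationAt_self_comp_lt E
      (fun x : M => TangentSpace 𝓘(ℝ, E) x) x0 (r := 1 + η) (by linarith),
      dv_near he x0 hη, dv_near (he.comp hg) x0 hη, proj_near hP x0 hη] with x hx h1 h2 h3 h4 h5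
    refine ⟨fun v => ?_, fun w => ?_, fun w => ?_, fun v => ?_, h3, fun w => ?_, h5⟩
    · show τ.symmL ℝ x (τ.continuousLinearMapAt ℝ x0 (τ.symmL ℝ x0
        (τ.continuousLinearMapAt ℝ x v))) = v
      rw [τ.continuousLinearMapAt_symmL h0, τ.symmL_continuousLinearMapAt hx]
    · show τ.symmL ℝ x0 (τ.continuousLinearMapAt ℝ x (τ.symmL ℝ x
        (τ.continuousLinearMapAt ℝ x0 w))) = w
      rw [τ.continuousLinearMapAt_symmL hx, τ.symmL_continuousLinearMapAt h0]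
    · exact ContinuousLinearMap.le_of_opNorm_le _ h1.le w
    · exact ContinuousLinearMap.le_of_opNorm_le _ h2.le v
    · have := h4 w
      rw [← dv_comp he hg, ← dv_comp he hg] at this
      exact this
  · filter_upwards [dv_strict (he.comp hg) x0 hη] with p hp
    rw [← dv_comp he hg] at hp
    exact hp

end Pool.Agent.P.MP_0a0487_an
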