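import Mathlib

/-!
A high power of the map has pinched one-step rates with room to spare.
-/

set_option autoImplicit false

namespace Pool.Agent.P.MP_0a0487_an

theorem choose_power {C l1 l2 m2 m1 : ℝ} (hC : 1 ≤ C) (p1 : 0 < l1) (p2 : l1 ≤ l2) (p3 : l2 < 1)
    (p4 : 1 < m2) (p5 : m2 ≤ m1)
    (pin : 1 < Real.log l2 / Real.log l1 + Real.log m2 / Real.log m1) :
    ∃ N : ℕ, 1 ≤ N ∧ 4 * (C * l2 ^ N) < 1 ∧ 4 < C⁻¹ * m2 ^ N ∧
      Real.log (C⁻¹ * l1 ^ N / 4) * Real.log (4 * (C * m1 ^ N))⁻¹ <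
        Real.log (C⁻¹ * l1 ^ N / 4) * Real.log (C⁻¹ * m2 ^ N / 4)⁻¹ +
        Real.log (4 * (C * l2 ^ N)) * Real.log (4 * (C * m1 ^ N))⁻¹ := by
  have q2 : 0 < l2 := p1.trans_le p2
  have q4 : 0 < m2 := by linarith
  have q5 : 0 < m1 := by linarith
  have qC : 0 < C := by linarith
  obtain ⟨A1, hA1⟩ : ∃ A1, Real.log l1 = -A1 := ⟨-Real.log l1, by ring⟩
  obtain ⟨A2, hA2⟩ : ∃ A2, Real.log l2 = -A2 := ⟨-Real.log l2, by ring⟩
  obtain ⟨B1, hB1⟩ : ∃ B1, Real.log m1 = B1 := ⟨_, rfl⟩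
  obtain ⟨B2, hB2⟩ : ∃ B2, Real.log m2 = B2 := ⟨_, rfl⟩
  obtain ⟨c, hc⟩ : ∃ c, Real.log 4 + Real.log C = c := ⟨_, rfl⟩
  have a2 : 0 < A2 := by have := Real.log_neg q2 p3; linarith
  have a1 : A2 ≤ A1 := by have := Real.log_le_log p1 p2; linarith
  have b2 : 0 < B2 := by have := Real.log_pos p4; linarith
  have b1 : B2 ≤ B1 := by have := Real.log_le_log q4 p5; linarith
  have c0 : 0 < c := by
    have := Real.log_pos (show (1 : ℝ) < 4 by norm_num)
    have := Real.log_nonneg hC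
    linarith
  rw [hA1, hA2, hB1, hB2, neg_div_neg_eq, div_add_div _ _ (by linarith) (by linarith),
    one_lt_div (by nlinarith)] at pin
  obtain ⟨Δ, hΔ⟩ : ∃ Δ, Δ = A2 * B1 + A1 * B2 - A1 * B1 := ⟨_, rfl⟩
  have d0 : 0 < Δ := by linarith
  obtain ⟨N, hN⟩ := exists_nat_gt (max (max 1 ((c * (2 * A1 + 2 * B1) + 3 * c ^ 2) / Δ))
    (max (c / A2) (c / B2)))
  simp only [max_lt_iff] at hN
  obtain ⟨⟨n1, n2⟩, n3, n4⟩ := hN
  rw [div_lt_iff₀ d0] at n2
  rw [div_lt_iff₀ a2] at n3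
  rw [div_lt_iff₀ b2] at n4
  have e1 : Real.log (C⁻¹ * l1 ^ N / 4) = -(N * A1 + c) := by
    rw [Real.log_div (by positivity) (by norm_num), Real.log_mul (by positivity) (by positivity),
      Real.log_inv, Real.log_pow, hA1]
    linarith
  have e2 : Real.log (4 * (C * l2 ^ N)) = -(N * A2 - c) := by
    rw [Real.log_mul (by positivity) (by positivity), Real.log_mul (by positivity) (by positivity),
      Real.log_pow, hA2]
    linarith
  have e3 : Real.log (4 * (C * m1 ^ N))⁻¹ = -(N * B1 + c) := by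
    rw [Real.log_inv, Real.log_mul (by positivity) (by positivity),
      Real.log_mul (by positivity) (by positivity), Real.log_pow, hB1]
    linarith
  have e4 : Real.log (C⁻¹ * m2 ^ N / 4) = N * B2 - c := by
    rw [Real.log_div (by positivity) (by norm_num),
      Real.log_mul (by positivity) (by positivity), Real.log_inv, Real.log_pow, hB2]
    linarith
  refine ⟨N, by exact_mod_cast n1.le, ?_, ?_, ?_⟩
  · rw [← Real.log_neg_iff (by positivity), e2]
    linarith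
  · rw [← one_lt_div (by norm_num), ← Real.log_pos_iff (by positivity), e4]
    linarith
  · rw [e1, e2, e3, Real.log_inv, e4]
    have t1 : (N : ℝ) * (c * (2 * A1 + 2 * B1) + 3 * c ^ 2) < N * (N * Δ) := by gcongr
    have t2 : 3 * c ^ 2 ≤ N * (3 * c ^ 2) := le_mul_of_one_le_left (by positivity) n1.le
    have t3 : 0 < N * c * (A2 + B2) := by positivity
    rw [hΔ] at t1
    nlinarith

end Pool.Agent.P.MP_0a0487_an
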