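import Pool.Agent.P.MP_0a0487_an.Slide

/-!
Every small unstable piece can be moved into every vertical arc.
-/

set_option autoImplicit false

open Set Metric Filter Topology

namespace Pool.Agent.P.MP_0a0487_an

variable {M : Type*} [MetricSpace M] [CompactSpace M]
  {G H : M → M} {S U : Type*} [NormedAddCommGroup S] [NormedAddCommGroup U]
  {ε C a1 a2 b1 b2 b δ : ℝ}
  {V : M → ℝ → M} {Λ : M → M → ℝ} {K r : ℝ}

theorem Pin.rc (h : Pin G H S U ε C a1 a2 b1 b2 b δ) (hm : Minl G) (hl : Lam G H V Λ K r b δ)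
    {r' : ℝ} (hr' : 0 < r') (hr : 2 * K * r' ≤ r) :
    ∃ η τ : ℝ, 0 < η ∧ 0 < τ ∧ ∀ (y0 x : M) (c0 : ℝ), |c0| ≤ r' → ∃ f : M → ℝ, ∀ y,
      ds H y0 y ≤ η → |f y - c0| < r' ∧ Pr G H a1 b δ τ y (V x (f y)) ∧
        ∀ y', ds H y0 y' ≤ η → f y = f y' → Wk G H b δ y y' := by
  obtain ⟨d0, d1, d2, d3⟩ := h.Cδ
  have hC := h.sm.one_le
  have hC0 : 0 < C := by linarith
  have hK := hl.one_le
  have hK0 : 0 < K := by linarith
  have hr0 := hl.r_pos
  have ha := h.sm.hs.a1_pos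
  obtain ⟨θ0, t0, t1, t2⟩ : ∃ θ0 : ℝ, 0 < θ0 ∧ K * θ0 < r' ∧ θ0 ≤ r / 2 := by
    refine ⟨min (r' / (2 * K)) (r / 2), by positivity, ?_, min_le_right _ _⟩
    calc K * min (r' / (2 * K)) (r / 2) ≤ K * (r' / (2 * K)) := by
          gcongr; exact min_le_left _ _
      _ = r' / 2 := by field_simp
      _ < r' := by linarith
  obtain ⟨δ0, e0, e1⟩ : ∃ δ0 : ℝ, 0 < δ0 ∧ C * (3 * δ0) = δ / 2 :=
    ⟨δ / (6 * C), by positivity, by field_simp; ring⟩
  have e2 : 6 * δ0 ≤ δ := by nlinarith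
  obtain ⟨θ, s0, s1, s2⟩ : ∃ θ : ℝ, 0 < θ ∧ C * θ ≤ θ0 / 2 ∧ C * θ ≤ δ0 := by
    refine ⟨min (θ0 / 2) δ0 / C, by positivity, ?_, ?_⟩
    · rw [mul_div_cancel₀ _ hC0.ne']; exact min_le_left _ _
    · rw [mul_div_cancel₀ _ hC0.ne']; exact min_le_right _ _
  obtain ⟨m1, hm1⟩ := hm δ0 θ e0 s0
  obtain ⟨j, hj⟩ := h.sm.symm.shrink (θ := θ0 / 2) (by positivity)
  obtain ⟨m, mm1, mj⟩ : ∃ m : ℕ, m1 ≤ m ∧ j ≤ m := ⟨max m1 j, le_max_left _ _, le_max_right _ _⟩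
  obtain ⟨η, η0, hη⟩ := h.sm.inv.symm.unif_ds m e0
  obtain ⟨τ1, τ10, hτ1⟩ := h.sm.pth_lp d0 (by linarith)
  obtain ⟨τ2, τ20, hτ2⟩ := hl.l3
  obtain ⟨τ3, τ30, hτ3⟩ := h.pth_of_label hl
  refine ⟨η, min (τ1 * a1 ^ m) τ2, η0, by positivity, fun y0 x c0 hc0 => ?_⟩
  have k1 : r' ≤ K * r' := le_mul_of_one_le_left hr'.le hK
  have k2 : r ≤ K * r := le_mul_of_one_le_left hr0.le hK
  have hc0' : |c0| ≤ K * r := by linarith
  have hz : ds H x (V x c0) ≤ r / 2 := by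
    have t := hl.v1 x 0 c0 (by rw [abs_zero]; positivity) hc0'
    rw [hl.v0, zero_sub, abs_neg] at t
    have : K * |c0| ≤ K * r' := by gcongr
    linarith
  obtain ⟨w, w1, w2⟩ := hm1 y0 (V x c0)
  have w3 : C * dist w (V x c0) ≤ C * θ := by gcongr
  obtain ⟨q0, q1, q2⟩ := h.sm.br w (V x c0) (by linarith)
  have key : ∀ y, ∃ c, ds H y0 y ≤ η →
      ds G (G^[m] y) c ≤ δ / 2 ∧ ds H (G^[m] q0) c ≤ δ / 2 := by
    intro y
    by_cases hy : ds H y0 y ≤ η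
    · have u1 : dist (G^[m] y0) (G^[m] y) ≤ δ0 := (dist_le_ds H _ _).trans (hη _ _ hy)
      have u2 : dist (G^[m] y0) (G^[m] w) ≤ δ0 :=
        (dist_le_ds G _ _).trans ((ds_iterate_mono G _ _ mm1).trans w1)
      have u3 : dist (G^[m] w) (G^[m] q0) ≤ δ0 := (le_ds G _ _ m).trans (by linarith)
      have u4 : dist (G^[m] y) (G^[m] q0) ≤ 3 * δ0 := by
        have := dist_triangle4 (G^[m] y) (G^[m] y0) (G^[m] w) (G^[m] q0)
        rw [dist_comm] at u1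
        linarith
      have u5 : C * dist (G^[m] y) (G^[m] q0) ≤ δ / 2 := by rw [← e1]; gcongr
      obtain ⟨c, c1, c2⟩ := h.sm.br (G^[m] y) (G^[m] q0) (by linarith)
      exact ⟨c, fun _ => ⟨c1.trans u5, c2.trans u5⟩⟩
    · exact ⟨y, fun e => absurd e hy⟩
  choose c hc using key
  have near : ∀ y, ds H y0 y ≤ η → ds H (V x c0) (H^[m] (c y)) ≤ θ0 := by
    intro y hy
    have t := hj m mj _ _ ((hc y hy).2.trans (by linarith))
    rw [h.sm.inv.HGn] at t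
    have := ds_triangle H (V x c0) q0 (H^[m] (c y))
    linarith
  have box : ∀ y, ds H y0 y ≤ η → ds H x (H^[m] (c y)) ≤ r := by
    intro y hy
    have := ds_triangle H x (V x c0) (H^[m] (c y))
    have := near y hy
    linarith
  refine ⟨fun y => Λ x (H^[m] (c y)), fun y hy => ⟨?_, ⟨H^[m] (c y), ?_, ?_⟩, fun y' hy' e => ?_⟩⟩
  · refine (hl.l1 x _ c0 (box y hy) hc0').trans_lt (lt_of_le_of_lt ?_ t1)
    gcongr
    exact near y hy
  · have u : C * ds G (G^[m] y) (c y) ≤ C * (δ / 2) := by gcongr; exact (hc y hy).1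
    have t := (hτ1 _ _ (u.trans (by linarith))).shift h.sm.inv m
    rw [h.sm.inv.HGn] at t
    exact t.mono ha.le (min_le_left _ _) le_rfl
  · exact (hτ2 x _ (box y hy)).mono h.b_pos.le (min_le_right _ _) le_rfl
  · have t := h.wk_G ((hτ3 x _ _ (box y hy) (box y' hy') e).wk τ30) m
    rw [h.sm.inv.GHn, h.sm.inv.GHn] at t
    refine h.wk_of_G (n := m) (h.hp0 ?_ ?_ ?_ ?_ t)
    · rw [ds_comm]; exact (hc y hy).1.trans (by linarith)
    · rw [ds_comm]; exact (hc y' hy').1.trans (by linarith)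
    · have := ds_triangle H (c y) (G^[m] q0) (c y')
      have u := (hc y hy).2
      have := (hc y' hy').2
      rw [ds_comm] at u
      linarith
    · have := ds_triangle H (G^[m] y) (G^[m] y0) (G^[m] y')
      have u := hη _ _ hy
      have := hη _ _ hy'
      rw [ds_comm] at u
      linarith

end Pool.Agent.P.MP_0a0487_an
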