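import Pool.Agent.P.MP_0a0487_an.Basic

/-!
Rectangles: an a priori bound gives rectangles of every size, and pinching gives such a bound.
-/

set_option autoImplicit false

open Set Metric Filter Topology

namespace Pool.Agent.P.MP_0a0487_an

theorem pin_lemma {a1 a2 b1 b2 : ℝ} (ha1 : 0 < a1) (ha : a1 ≤ a2) (ha2 : a2 < 1)
    (hb1 : 0 < b1) (hb : b1 ≤ b2) (hb2 : b2 < 1)
    (pin : Real.log a1 * Real.log b1 < Real.log a1 * Real.log b2 + Real.log a2 * Real.log b1) :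
    ∃ μ : ℕ → ℕ, Monotone μ ∧ (∃ c0 : ℕ, ∀ n, μ n ≤ c0 * n) ∧ ∀ K L : ℝ, 0 < K → 1 ≤ L →
      ∃ c : ℕ, ∀ j n : ℕ, c * (j + 1) ≤ n →
        K * L ^ j * a2 ^ (n + 1 + μ n) ≤ a1 ^ (n + 1) ∧ K * L ^ j * b2 ^ (μ n + n) ≤ b1 ^ μ n := by
  have ha2' : 0 < a2 := ha1.trans_le ha
  have hb2' : 0 < b2 := hb1.trans_le hb
  obtain ⟨A1, hA1⟩ : ∃ A1, Real.log a1 = -A1 := ⟨-Real.log a1, by ring⟩
  obtain ⟨A2, hA2⟩ : ∃ A2, Real.log a2 = -A2 := ⟨-Real.log a2, by ring⟩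
  obtain ⟨B1, hB1⟩ : ∃ B1, Real.log b1 = -B1 := ⟨-Real.log b1, by ring⟩
  obtain ⟨B2, hB2⟩ : ∃ B2, Real.log b2 = -B2 := ⟨-Real.log b2, by ring⟩
  have pA2 : 0 < A2 := by have := Real.log_neg ha2' ha2; linarith
  have pB2 : 0 < B2 := by have := Real.log_neg hb2' hb2; linarith
  have pA : A2 ≤ A1 := by have := Real.log_le_log ha1 ha; linarith
  have pB : B2 ≤ B1 := by have := Real.log_le_log hb1 hb; linarith
  have pin' : 0 < A2 * B2 - (A1 - A2) * (B1 - B2) := by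
    rw [hA1, hA2, hB1, hB2] at pin; nlinarith
  have dA : 0 ≤ A1 - A2 := by linarith
  have dB : 0 ≤ B1 - B2 := by linarith
  obtain ⟨θ, θ0, θ1, θ2⟩ : ∃ θ : ℝ, 0 ≤ θ ∧ A1 - A2 < A2 * θ ∧ (B1 - B2) * θ < B2 := by
    obtain ⟨γ, hγ⟩ : ∃ γ, γ = A2 * B2 - (A1 - A2) * (B1 - B2) := ⟨_, rfl⟩
    rw [← hγ] at pin'
    refine ⟨(A1 - A2 + γ / (B1 - B2 + 1)) / A2, by positivity, ?_, ?_⟩
    · rw [mul_div_cancel₀ _ pA2.ne']
      have : 0 < γ / (B1 - B2 + 1) := by positivity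
      linarith
    · rw [← mul_div_assoc, div_lt_iff₀ pA2]
      have : (B1 - B2) * (γ / (B1 - B2 + 1)) < γ := by
        rw [← mul_div_assoc, div_lt_iff₀ (by positivity)]
        nlinarith
      nlinarith
  refine ⟨fun n => ⌈θ * n⌉₊, fun n n' hn => Nat.ceil_mono (by gcongr), ⟨⌈θ⌉₊, fun n => ?_⟩,
    fun K L hK hL => ?_⟩
  · refine Nat.ceil_le.2 ?_
    push_cast
    gcongr
    exact Nat.le_ceil θ
  obtain ⟨k, hk⟩ : ∃ k, k = |Real.log K| + Real.log L := ⟨_, rfl⟩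
  have l4 : 0 ≤ Real.log L := Real.log_nonneg hL
  have pk : 0 ≤ k := by rw [hk]; positivity
  obtain ⟨γ1, g1, g1'⟩ : ∃ γ1 : ℝ, 0 < γ1 ∧ A2 * θ = A1 - A2 + γ1 :=
    ⟨A2 * θ - (A1 - A2), by linarith, by ring⟩
  obtain ⟨γ2, g2, g2'⟩ : ∃ γ2 : ℝ, 0 < γ2 ∧ (B1 - B2) * θ = B2 - γ2 :=
    ⟨B2 - (B1 - B2) * θ, by linarith, by ring⟩
  obtain ⟨c, hc⟩ := exists_nat_ge (max ((k + (A1 - A2)) / γ1) ((k + (B1 - B2)) / γ2))
  rw [max_le_iff, div_le_iff₀ g1, div_le_iff₀ g2] at hc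
  obtain ⟨c1, c2⟩ := hc
  refine ⟨c, fun j n hn => ?_⟩
  have hn' : (c : ℝ) * (j + 1) ≤ n := by exact_mod_cast hn
  have j0 : (0 : ℝ) ≤ j := Nat.cast_nonneg j
  have lk : Real.log (K * L ^ j) ≤ (j + 1) * k := by
    rw [Real.log_mul hK.ne' (by positivity), Real.log_pow, hk]
    have := le_abs_self (Real.log K)
    have := abs_nonneg (Real.log K)
    nlinarith
  have d1 := Nat.le_ceil (θ * n)
  have d2 := (Nat.ceil_lt_add_one (show 0 ≤ θ * n by positivity)).le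
  beta_reduce
  generalize ⌈θ * n⌉₊ = m at d1 d2 ⊢
  have key : ∀ γ d : ℝ, 0 < γ → 0 ≤ d → k + d ≤ c * γ → (j + 1) * k + d ≤ γ * n := by
    intro γ d h1 h2 h3
    calc (j + 1) * k + d ≤ (j + 1) * (k + d) := by nlinarith
      _ ≤ (j + 1) * (c * γ) := by gcongr
      _ = γ * (c * (j + 1)) := by ring
      _ ≤ γ * n := by gcongr
  constructor
  · rw [← Real.log_le_log_iff (by positivity) (by positivity), Real.log_mul (by positivity)
      (by positivity), Real.log_pow, Real.log_pow, hA1, hA2]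
    push_cast
    have t1 := key γ1 _ g1 dA c1
    have t2 : A2 * (θ * n) ≤ A2 * m := by gcongr
    rw [← mul_assoc, g1'] at t2
    linarith
  · rw [← Real.log_le_log_iff (by positivity) (by positivity), Real.log_mul (by positivity)
      (by positivity), Real.log_pow, Real.log_pow, hB1, hB2]
    push_cast
    have t1 := key γ2 _ g2 dB c2
    have t2 : (B1 - B2) * m ≤ (B1 - B2) * (θ * n + 1) := by gcongr
    rw [mul_add, ← mul_assoc, g2'] at t2
    linarith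

variable {M : Type*} [MetricSpace M] [CompactSpace M]
  {G H : M → M} {S U X Y : Type*} [NormedAddCommGroup S] [NormedAddCommGroup U]
  [NormedAddCommGroup X] [NormedAddCommGroup Y]
  [NormedSpace ℝ X] [NormedSpace ℝ Y] {ε C a1 a2 b1 b2 : ℝ}

theorem LipB.continuous {α : X → M} (hα : LipB G α) : Continuous fun x => toL G (α x) := by
  refine continuous_iff_continuousAt.2 fun x => Metric.continuousAt_iff.2 fun η hη => ?_
  obtain ⟨K, t, hK, ht, h⟩ := hα (‖x‖ + 1)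
  refine ⟨min 1 (min t (η / K)), by positivity, fun x' hx' => ?_⟩
  rw [dist_eq_norm, lt_min_iff, lt_min_iff] at hx'
  rw [dist_toL]
  have := norm_le_insert' x' x
  refine (h x' x (by linarith [hx'.1]) (by linarith) hx'.2.1.le).trans_lt ?_
  exact (lt_div_iff₀' hK).1 hx'.2.2

/-- Pieces of size `τ * a ^ n` of `α` have size at most `δ` after `n` steps of `H`. -/
def Sh1 (H : M → M) (a δ τ : ℝ) (n : ℕ) (s : Set X) (α : X → M) : Prop :=
  ∀ x ∈ s, ∀ x' ∈ s, ‖x - x'‖ ≤ τ * a ^ n → dist (H^[n] (α x)) (H^[n] (α x')) ≤ δ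

/-- `Sh1` at every time. -/
def Sh (H : M → M) (a δ τ : ℝ) (s : Set X) (α : X → M) : Prop := ∀ n : ℕ, Sh1 H a δ τ n s α

/-- `Sh1` at every time from `N` on. -/
def ShN (H : M → M) (a δ τ : ℝ) (N : ℕ) (s : Set X) (α : X → M) : Prop :=
  ∀ n : ℕ, N ≤ n → Sh1 H a δ τ n s α

theorem Sh.shN {a δ τ : ℝ} {s : Set X} {α : X → M} (h : Sh H a δ τ s α) (N : ℕ) :
    ShN H a δ τ N s α := fun n _ => h n

theorem ShN.sh {a δ τ : ℝ} {s : Set X} {α : X → M} (h : ShN H a δ τ 0 s α) : Sh H a δ τ s α :=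
  fun n => h n (Nat.zero_le n)

theorem Sh1.mono {a δ δ' τ τ' : ℝ} {n : ℕ} {s s' : Set X} {α : X → M} (h : Sh1 H a δ τ n s α)
    (ha : 0 ≤ a) (hδ : δ ≤ δ') (hτ : τ' ≤ τ) (hs : s' ⊆ s) : Sh1 H a δ' τ' n s' α :=
  fun x hx x' hx' e => (h x (hs hx) x' (hs hx') (e.trans (by gcongr))).trans hδ

theorem ShN.mono {a δ δ' τ τ' : ℝ} {N N' : ℕ} {s s' : Set X} {α : X → M} (h : ShN H a δ τ N s α)
    (ha : 0 ≤ a) (hδ : δ ≤ δ') (hτ : τ' ≤ τ) (hN : N ≤ N') (hs : s' ⊆ s) :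
    ShN H a δ' τ' N' s' α := fun n hn => (h n (hN.trans hn)).mono ha hδ hτ hs

theorem Sh1.comp {a δ τ L : ℝ} {n : ℕ} {s : Set X} {s' : Set Y} {α : X → M}
    (h : Sh1 H a δ τ n s α) (hL : 0 < L) {φ : Y → X} (hφ : MapsTo φ s' s)
    (hl : ∀ y ∈ s', ∀ y' ∈ s', ‖φ y - φ y'‖ ≤ L * ‖y - y'‖) :
    Sh1 H a δ (τ / L) n s' fun y => α (φ y) := fun y hy y' hy' e =>
  h _ (hφ hy) _ (hφ hy') ((hl y hy y' hy').trans (by
    calc L * ‖y - y'‖ ≤ L * (τ / L * a ^ n) := by gcongr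
      _ = τ * a ^ n := by field_simp))

theorem Sh.mono {a δ δ' τ τ' : ℝ} {s s' : Set X} {α : X → M} (h : Sh H a δ τ s α) (ha : 0 ≤ a)
    (hδ : δ ≤ δ') (hτ : τ' ≤ τ) (hs : s' ⊆ s) : Sh H a δ' τ' s' α := fun n x hx x' hx' e =>
  (h n x (hs hx) x' (hs hx') (e.trans (by gcongr))).trans hδ

theorem Sh.comp {a δ τ L : ℝ} {s : Set X} {s' : Set Y} {α : X → M} (h : Sh H a δ τ s α)
    (hL : 0 < L) {φ : Y → X} (hφ : MapsTo φ s' s)
    (hl : ∀ y ∈ s', ∀ y' ∈ s', ‖φ y - φ y'‖ ≤ L * ‖y - y'‖) :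
    Sh H a δ (τ / L) s' fun y => α (φ y) := fun n y hy y' hy' e =>
  h n _ (hφ hy) _ (hφ hy') ((hl y hy y' hy').trans (by
    calc L * ‖y - y'‖ ≤ L * (τ / L * a ^ n) := by gcongr
      _ = τ * a ^ n := by field_simp))

theorem Sh.congr {a δ τ : ℝ} {s : Set X} {α α' : X → M} (h : Sh H a δ τ s α)
    (e : ∀ x ∈ s, α' x = α x) : Sh H a δ τ s α' := fun n x hx x' hx' d => by
  rw [e x hx, e x' hx']; exact h n x hx x' hx' d

theorem Sh.shift {a δ τ : ℝ} {s : Set X} {α : X → M} (h : Sh H a δ τ s α) (m : ℕ) :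
    Sh H a δ (τ * a ^ m) s fun x => H^[m] (α x) := fun n x hx x' hx' d => by
  rw [← Function.iterate_add_apply, ← Function.iterate_add_apply]
  exact h (n + m) x hx x' hx' (by rw [pow_add]; linarith)

/-- A Lipschitz family in a stable leaf has short backward images. -/
theorem Half.sh_of_lip (h : Half G H S ε C a1 a2) (hC : 1 ≤ C) {δ K t : ℝ} (hδ : 0 < δ)
    (hδε : δ ≤ ε) (hK : 0 < K) (ht : 0 < t) : ∃ τ : ℝ, 0 < τ ∧ ∀ (s : Set X) (α : X → M),
      (∀ x ∈ s, ∀ x' ∈ s, ‖x - x'‖ ≤ t → ds G (α x) (α x') ≤ K * ‖x - x'‖) →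
      Sh H a1 δ τ s α := by
  have ha1 := h.a1_pos
  refine ⟨min t (δ / (C * K)), by positivity, fun s α hl n x hx x' hx' hxx => ?_⟩
  have hp : 0 < a1 ^ n := by positivity
  have hp1 : a1 ^ n ≤ 1 := pow_le_one₀ ha1.le (h.a12.trans h.a2_lt.le)
  have e1 : ‖x - x'‖ ≤ t := hxx.trans ((mul_le_of_le_one_right (by positivity) hp1).trans
    (min_le_left _ _))
  have e2 : ‖x - x'‖ ≤ δ / (C * K) * a1 ^ n :=
    hxx.trans (mul_le_mul_of_nonneg_right (min_le_right _ _) hp.le)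
  have e3 : C * ds G (α x) (α x') ≤ δ * a1 ^ n := by
    calc C * ds G (α x) (α x') ≤ C * (K * (δ / (C * K) * a1 ^ n)) := by
          have := hl x hx x' hx' e1
          gcongr
          exact this.trans (by gcongr)
      _ = δ * a1 ^ n := by field_simp
  have e4 := h.s3 _ _ n (e3.trans (by gcongr))
  have := e4.trans e3
  rw [mul_comm δ] at this
  exact (dist_le_ds G _ _).trans (le_of_mul_le_mul_left this hp)

theorem Half.short (h : Half G H S ε C a1 a2) (hC : 1 ≤ C) {α : X → M} (hα : LipB G α) (R : ℝ)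
    {δ : ℝ} (hδ : 0 < δ) (hδε : δ ≤ ε) : ∃ τ : ℝ, 0 < τ ∧ Sh H a1 δ τ (closedBall 0 R) α := by
  obtain ⟨K, t, hK, ht, hl⟩ := hα R
  obtain ⟨τ, hτ, hs⟩ := h.sh_of_lip (X := X) hC hδ hδε hK ht
  exact ⟨τ, hτ, hs _ α fun x hx x' hx' => hl x x' (by simpa using hx) (by simpa using hx')⟩

/-- Short pieces of a family that follows a short family. -/
theorem Smale.piece (h : Smale G H S U ε C a1 a2 b1 b2) {a δ τ : ℝ} (ha : 0 < a) (hτ : 0 < τ)
    (hδ : 0 < δ) (hδε : 4 * C * δ ≤ ε) {s : Set X} (hs : Convex ℝ s) {α e : X → M}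
    {n : ℕ} (hα : Sh1 H a δ τ n s α) (he : ContinuousOn (fun x => toL G (e x)) s)
    (hd : ∀ x ∈ s, dist (H^[n] (α x)) (H^[n] (e x)) ≤ δ) {x x' : X} (hx : x ∈ s) (hx' : x' ∈ s)
    (hxx : ‖x - x'‖ ≤ τ * a ^ n) : ds G (H^[n] (e x')) (H^[n] (e x)) ≤ C * (3 * δ) := by
  have hC := h.one_le
  have he' : ContinuousOn (fun x => toL G (H^[n] (e x))) s :=
    (h.inv.continuous_Lf_H n).comp_continuousOn he
  have hconv : IsPreconnected (s ∩ closedBall x' (τ * a ^ n)) :=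
    (hs.inter (convex_closedBall _ _)).isPreconnected
  refine h.hs.gap (by linarith) hconv (e := fun x => H^[n] (e x))
    (he'.mono inter_subset_left) (z0 := x') ⟨hx', mem_closedBall_self (by positivity)⟩
    (by nlinarith) ?_ (z := x) ⟨hx, by rwa [mem_closedBall, dist_eq_norm]⟩
  rintro z ⟨hz1, hz2⟩
  have t1 := hd x' hx'
  have t2 := hd z hz1
  have t3 := hα x' hx' z hz1 (by rwa [mem_closedBall, dist_comm, dist_eq_norm] at hz2)
  have t4 := dist_triangle4 (H^[n] (e x')) (H^[n] (α x')) (H^[n] (α z)) (H^[n] (e z))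
  rw [dist_comm] at t1
  linarith

theorem exists_pow_le {K a b : ℝ} (hK : 0 < K) (ha : 0 ≤ a) (ha1 : a < 1) (hb : 0 < b) (n : ℕ) :
    ∃ m : ℕ, K * a ^ (n + m) ≤ b := by
  obtain ⟨m, hm⟩ := exists_pow_lt_of_lt_one (show 0 < b / K by positivity) ha1
  refine ⟨m, ?_⟩
  rw [lt_div_iff₀' hK] at hm
  refine le_trans ?_ hm.le
  rw [pow_add]
  have : a ^ n ≤ 1 := pow_le_one₀ ha ha1.le
  gcongr
  exact mul_le_of_le_one_left (by positivity) this

theorem ds_iterate_mono (H : M → M) (a b : M) {n n' : ℕ} (hn : n ≤ n') :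
    ds H (H^[n'] a) (H^[n'] b) ≤ ds H (H^[n] a) (H^[n] b) := by
  obtain ⟨k, rfl⟩ := Nat.exists_eq_add_of_le' hn
  rw [Function.iterate_add_apply, Function.iterate_add_apply]
  exact ds_iterate_le H _ _ k

/-- Holonomy images of short families are short. -/
theorem Smale.hi0 (h : Smale G H S U ε C a1 a2 b1 b2) {δ δ' : ℝ} (hδ : 0 < δ)
    (hδε : 4 * C * δ ≤ ε) (hδ' : 0 < δ') : ∃ j : ℕ, ∀ (a τ : ℝ) (s : Set X) (α e : X → M)
      (n k : ℕ), j ≤ k → 0 < a → 0 < τ → Convex ℝ s → Sh1 H a δ τ (k + n) s α →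
      ContinuousOn (fun x => toL G (e x)) s →
      (∀ x ∈ s, dist (H^[k + n] (α x)) (H^[k + n] (e x)) ≤ δ) →
      ∀ x ∈ s, ∀ x' ∈ s, ‖x - x'‖ ≤ τ * a ^ (k + n) → ds G (H^[n] (e x)) (H^[n] (e x')) ≤ δ' := by
  have hC := h.one_le
  have ha2 : 0 ≤ a2 := h.hs.a1_pos.le.trans h.hs.a12
  obtain ⟨j, hj⟩ := exists_pow_le (K := C * (C * (3 * δ))) (by positivity) ha2 h.hs.a2_lt hδ' 0
  refine ⟨j, fun a τ s α e n k hk ha hτ hs hα he hd x hx x' hx' hxx => ?_⟩
  have t1 := h.piece ha hτ hδ hδε hs hα he hd hx' hx (by rwa [norm_sub_rev])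
  have t0 : 0 < C * δ := by positivity
  have t2 := h.hs.s2 _ _ k (t1.trans (by linarith))
  rw [Function.iterate_add_apply H k n, Function.iterate_add_apply H k n,
    h.inv.GHn, h.inv.GHn, ← Function.iterate_add_apply H k n,
    ← Function.iterate_add_apply H k n] at t2
  refine t2.trans (le_trans ?_ hj)
  have t3 : a2 ^ k ≤ a2 ^ (0 + j) := pow_le_pow_of_le_one ha2 h.hs.a2_lt.le (by omega)
  calc C * a2 ^ k * ds G (H^[k + n] (e x)) (H^[k + n] (e x'))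
      ≤ C * a2 ^ (0 + j) * (C * (3 * δ)) := by
        have := ds_nonneg G (H^[k + n] (e x)) (H^[k + n] (e x'))
        gcongr
    _ = _ := by ring

theorem Smale.hi (h : Smale G H S U ε C a1 a2 b1 b2) {δ δ' : ℝ} (hδ : 0 < δ)
    (hδε : 4 * C * δ ≤ ε) (hδ' : 0 < δ') : ∃ j : ℕ, ∀ (a τ : ℝ) (s : Set X) (α e : X → M) (n0 : ℕ),
      0 < a → 0 < τ → Convex ℝ s → ShN H a δ τ n0 s α → ContinuousOn (fun x => toL G (e x)) s →
      (∀ x ∈ s, ∀ n, n0 ≤ n → dist (H^[n] (α x)) (H^[n] (e x)) ≤ δ) →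
      Sh H a δ' (τ * a ^ (n0 + j)) s e ∧ ShN H a δ' (τ * a ^ j) n0 s e := by
  obtain ⟨j, hj⟩ := h.hi0 (X := X) hδ hδε hδ'
  refine ⟨j, fun a τ s α e n0 ha hτ hs hα he hd => ⟨fun n x hx x' hx' hxx => ?_,
    fun n hn x hx x' hx' hxx => ?_⟩⟩
  · exact (dist_le_ds G _ _).trans (hj a τ s α e n (n0 + j) (by omega) ha hτ hs (hα _ (by omega)) he
      (fun x hx => hd x hx _ (by omega)) x hx x' hx' (by rw [pow_add _ _ n]; linarith))
  · exact (dist_le_ds G _ _).trans (hj a τ s α e n j le_rfl ha hτ hs (hα _ (by omega)) he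
      (fun x hx => hd x hx _ (by omega)) x hx x' hx' (by rw [pow_add _ _ n]; linarith))

theorem Smale.row (h : Smale G H S U ε C a1 a2 b1 b2) {a δ τ r : ℝ} (ha : 0 < a) (ha1 : a ≤ 1)
    (hτ : 0 < τ) (hδ : 0 < δ) (hδε : 4 * C * δ ≤ ε) {α e : X → M}
    {n : ℕ} (hα : Sh1 H a δ τ n (closedBall 0 r) α)
    (he : ContinuousOn (fun x => toL G (e x)) (closedBall 0 r))
    (hd : ∀ x ∈ closedBall (0 : X) r, dist (H^[n] (α x)) (H^[n] (e x)) ≤ δ) (m : ℕ) {x : X}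
    (hx : x ∈ closedBall (0 : X) r) :
    a ^ n * ds G (G^[m] (e 0)) (G^[m] (e x)) ≤ 3 * C ^ 2 * (|r| / τ + 1) * a2 ^ (n + m) * δ := by
  have hC := h.one_le
  have hCδ : δ ≤ C * δ := le_mul_of_one_le_left hδ.le hC
  have ha2 : 0 < a2 := h.hs.a1_pos.trans_le h.hs.a12
  have hp : 0 < a ^ n := by positivity
  have hp1 : a ^ n ≤ 1 := pow_le_one₀ ha.le ha1
  have key : ∀ i : ℕ, ∀ x ∈ closedBall (0 : X) r, ‖x‖ ≤ i * (τ * a ^ n) →
      ds G (G^[m] (e 0)) (G^[m] (e x)) ≤ i * (C * a2 ^ (n + m) * (C * (3 * δ))) := by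
    intro i
    induction i with
    | zero =>
      intro x _ hx
      have : x = 0 := by simpa using hx
      simp [this]
    | succ i ih =>
      intro x hx hxi
      have hxr : ‖x‖ ≤ r := by simpa using hx
      have hi : (0 : ℝ) < i + 1 := by positivity
      set x' : X := ((i : ℝ) / (i + 1)) • x with hx'
      have n1 : ‖x'‖ = (i : ℝ) / (i + 1) * ‖x‖ := by
        rw [hx', norm_smul, Real.norm_of_nonneg (by positivity)]
      have n2 : ‖x - x'‖ = 1 / (i + 1) * ‖x‖ := by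
        have : x - x' = ((1 : ℝ) / (i + 1)) • x := by
          rw [hx']
          nth_rewrite 1 [← one_smul ℝ x]
          rw [← sub_smul]
          congr 1
          field_simp
          ring
        rw [this, norm_smul, Real.norm_of_nonneg (by positivity)]
      push_cast at hxi
      have hx'r : x' ∈ closedBall (0 : X) r := by
        rw [mem_closedBall_zero_iff, n1]
        refine le_trans (mul_le_of_le_one_left (norm_nonneg _) ?_) hxr
        rw [div_le_one hi]; linarith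
      have i1 := ih x' hx'r (by
        rw [n1]
        calc (i : ℝ) / (i + 1) * ‖x‖ ≤ (i : ℝ) / (i + 1) * ((i + 1) * (τ * a ^ n)) := by gcongr
          _ = _ := by field_simp)
      have n3 : ‖x - x'‖ ≤ τ * a ^ n := by
        rw [n2]
        calc 1 / (i + 1) * ‖x‖ ≤ 1 / (i + 1) * ((i + 1) * (τ * a ^ n)) := by gcongr
          _ = _ := by field_simp
      have i2 := h.piece ha hτ hδ hδε (convex_closedBall _ _) hα he hd hx hx'r n3
      have i3 := h.hs.s2 _ _ (n + m) (i2.trans (by nlinarith))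
      rw [add_comm n m, Function.iterate_add_apply, Function.iterate_add_apply, h.inv.GHn,
        h.inv.GHn, add_comm m n] at i3
      have i4 : ds G (G^[m] (e x')) (G^[m] (e x)) ≤ C * a2 ^ (n + m) * (C * (3 * δ)) :=
        i3.trans (by gcongr)
      have := ds_triangle G (G^[m] (e 0)) (G^[m] (e x')) (G^[m] (e x))
      push_cast
      linarith
  have hxR : ‖x‖ ≤ |r| := (mem_closedBall_zero_iff.1 hx).trans (le_abs_self r)
  have c1 := Nat.le_ceil (|r| / (τ * a ^ n))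
  have c2 := (Nat.ceil_lt_add_one (show 0 ≤ |r| / (τ * a ^ n) by positivity)).le
  have c0 := key ⌈|r| / (τ * a ^ n)⌉₊ x hx (by
    rw [div_le_iff₀ (by positivity)] at c1
    linarith)
  generalize ⌈|r| / (τ * a ^ n)⌉₊ = N at c0 c1 c2
  have c3 : (N : ℝ) * a ^ n ≤ |r| / τ + 1 := by
    calc (N : ℝ) * a ^ n ≤ (|r| / (τ * a ^ n) + 1) * a ^ n := by gcongr
      _ = |r| / τ + a ^ n := by field_simp
      _ ≤ _ := by linarith
  calc a ^ n * ds G (G^[m] (e 0)) (G^[m] (e x))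
      ≤ a ^ n * (N * (C * a2 ^ (n + m) * (C * (3 * δ)))) := by gcongr
    _ = (N * a ^ n) * (3 * C ^ 2 * a2 ^ (n + m)) * δ := by ring
    _ ≤ (|r| / τ + 1) * (3 * C ^ 2 * a2 ^ (n + m)) * δ := by gcongr
    _ = _ := by ring

theorem Smale.row' (h : Smale G H S U ε C a1 a2 b1 b2) {a δ δ' τ R : ℝ} (ha : 0 < a) (ha1 : a ≤ 1)
    (hτ : 0 < τ) (hδ : 0 < δ) (hδε : 4 * C * δ ≤ ε) (hδ' : 0 < δ') (n : ℕ) :
    ∃ m : ℕ, ∀ r, r ≤ R → ∀ α e : X → M, Sh1 H a δ τ n (closedBall 0 r) α →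
      ContinuousOn (fun x => toL G (e x)) (closedBall 0 r) →
      (∀ x ∈ closedBall (0 : X) r, dist (H^[n] (α x)) (H^[n] (e x)) ≤ δ) →
      ∀ x ∈ closedBall (0 : X) r, ds G (G^[m] (e 0)) (G^[m] (e x)) ≤ δ' := by
  have hC := h.one_le
  have ha2 : 0 < a2 := h.hs.a1_pos.trans_le h.hs.a12
  obtain ⟨m, hm⟩ := exists_pow_le (K := 3 * C ^ 2 * (|R| / τ + 1) * δ) (by positivity) ha2.le
    h.hs.a2_lt (show 0 < a ^ n * δ' by positivity) n
  refine ⟨m, fun r hr α e hα he hd x hx => ?_⟩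
  have t := h.row ha ha1 hτ hδ hδε hα he hd m hx
  have r0 : 0 ≤ r := (norm_nonneg x).trans (by simpa using hx)
  have t2 : |r| ≤ |R| := by rw [abs_of_nonneg r0]; exact hr.trans (le_abs_self R)
  refine le_of_mul_le_mul_left (t.trans (le_trans ?_ hm)) (by positivity)
  calc 3 * C ^ 2 * (|r| / τ + 1) * a2 ^ (n + m) * δ
      ≤ 3 * C ^ 2 * (|R| / τ + 1) * a2 ^ (n + m) * δ := by gcongr
    _ = _ := by ring

/-- All the unstable sides of the rectangle are short at time `-n`. -/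
def Tu (H : M → M) (δ r l : ℝ) (Φ : X → Y → M) (n : ℕ) : Prop :=
  ∀ x ∈ closedBall (0 : X) r, ∀ y ∈ closedBall (0 : Y) l, ds H (H^[n] (Φ x 0)) (H^[n] (Φ x y)) ≤ δ

theorem Tu.mono {δ r l : ℝ} {Φ : X → Y → M} {n n' : ℕ} (h : Tu H δ r l Φ n) (hn : n ≤ n') :
    Tu H δ r l Φ n' := by
  intro x hx y hy
  obtain ⟨k, rfl⟩ := Nat.exists_eq_add_of_le' hn
  rw [Function.iterate_add_apply, Function.iterate_add_apply]
  exact (ds_iterate_le H _ _ k).trans (h x hx y hy)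

/-- A rectangle with given sides. -/
structure Good (G H : M → M) (α : X → M) (β : Y → M) (r l : ℝ) (Φ : X → Y → M) : Prop where
  cs : ∀ y ∈ closedBall (0 : Y) l, ContinuousOn (fun x => toL G (Φ x y)) (closedBall 0 r)
  cu : ∀ x ∈ closedBall (0 : X) r, ContinuousOn (fun y => toL H (Φ x y)) (closedBall 0 l)
  bs : ∀ x ∈ closedBall (0 : X) r, Φ x 0 = α x
  bu : ∀ y ∈ closedBall (0 : Y) l, Φ 0 y = β y

theorem Good.swap {α : X → M} {β : Y → M} {r l : ℝ} {Φ : X → Y → M} (h : Good G H α β r l Φ) :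
    Good H G β α l r fun y x => Φ x y := ⟨h.cu, h.cs, h.bu, h.bs⟩

/-- An a priori bound for the rectangles with given sides. -/
def Apr (G H : M → M) (α : X → M) (β : Y → M) (R δ : ℝ) : Prop :=
  ∃ n0 : ℕ, ∀ r ≤ R, ∀ l ≤ R, ∀ Φ : X → Y → M, Good G H α β r l Φ → ∀ n, Tu H δ r l Φ n →
    Tu H δ r l Φ n0

theorem Smale.step' (h : Smale G H S U ε C a1 a2 b1 b2) {a δ τ R : ℝ} (ha : 0 < a) (ha1 : a ≤ 1)
    (hτ : 0 < τ) (hδ : 0 < δ) (hδε : 4 * C * δ ≤ ε) {α : X → M}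
    (hα : Sh H a δ τ (closedBall 0 R) α) (β : Y → M) (n : ℕ) : ∃ m : ℕ, ∀ r ≤ R, ∀ l,
      ∀ Φ : X → Y → M, Good G H α β r l Φ → Tu H δ r l Φ n → Tu G δ l r (fun y x => Φ x y) m := by
  obtain ⟨m, hm⟩ := h.row' (X := X) (R := R) ha ha1 hτ hδ hδε hδ n
  refine ⟨m, fun r hr l Φ hΦ hT y hy x hx => hm r hr α (fun x => Φ x y)
    ((hα n).mono ha.le le_rfl le_rfl (closedBall_subset_closedBall hr)) (hΦ.cs y hy)
    (fun x hx => ?_) x hx⟩
  rw [← hΦ.bs x hx]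
  exact (dist_le_ds H _ _).trans (hT x hx y hy)

/-- The a priori bound, with thresholds. -/
theorem Smale.aprN (h : Smale G H S U ε C a1 a2 b1 b2) {b δ τ τ' R K : ℝ} (hb : 0 < b)
    (hb2 : b ≤ b2) {μ : ℕ → ℕ} (hμ : Monotone μ) {n0 : ℕ}
    (hK : ∀ n, n0 ≤ n → K * a2 ^ (n + 1 + μ n) ≤ a1 ^ (n + 1) ∧ K * b2 ^ (μ n + n) ≤ b ^ μ n)
    (hτ : 0 < τ) (hτ' : 0 < τ') (hδ : 0 < δ) (hδε : 4 * C * δ ≤ ε)
    (k1 : 3 * C ^ 2 * (|R| / τ + 1) ≤ K) (k2 : 3 * C ^ 2 * (|R| / τ' + 1) ≤ K)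
    {α : X → M} {β : Y → M} (hα : ShN H a1 δ τ n0 (closedBall 0 R) α)
    (hβ : ShN G b δ τ' (μ n0) (closedBall 0 R) β) {r l : ℝ} (hr : r ≤ R) (hl : l ≤ R)
    {Φ : X → Y → M} (hΦ : Good G H α β r l Φ) {n : ℕ} (hT : Tu H δ r l Φ n) :
    Tu H δ r l Φ n0 ∧ Tu G δ l r (fun y x => Φ x y) (μ n0) := by
  have hC := h.one_le
  have ha1 := h.hs.a1_pos
  have ha2 : 0 < a2 := ha1.trans_le h.hs.a12
  have hb2' : 0 < b2 := hb.trans_le hb2
  have s1 : ∀ n, n0 ≤ n → Tu H δ r l Φ (n + 1) → Tu G δ l r (fun y x => Φ x y) (μ n) := by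
    intro n hn hT y hy x hx
    have r0 : 0 ≤ r := (norm_nonneg x).trans (by simpa using hx)
    have t2 : |r| ≤ |R| := by rw [abs_of_nonneg r0]; exact hr.trans (le_abs_self R)
    have t := h.row ha1 (h.hs.a12.trans h.hs.a2_lt.le) hτ hδ hδε
      ((hα (n + 1) (by omega)).mono ha1.le le_rfl le_rfl (closedBall_subset_closedBall hr))
      (hΦ.cs y hy)
      (fun x hx => by rw [← hΦ.bs x hx]; exact (dist_le_ds H _ _).trans (hT x hx y hy)) (μ n) hx
    refine le_of_mul_le_mul_left (t.trans ?_) (pow_pos ha1 (n + 1))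
    gcongr
    refine le_trans ?_ (hK n hn).1
    gcongr
    refine le_trans ?_ k1
    gcongr
  have s2 : ∀ n, n0 ≤ n → Tu G δ l r (fun y x => Φ x y) (μ n) → Tu H δ r l Φ n := by
    intro n hn hT x hx y hy
    have l0 : 0 ≤ l := (norm_nonneg y).trans (by simpa using hy)
    have t2 : |l| ≤ |R| := by rw [abs_of_nonneg l0]; exact hl.trans (le_abs_self R)
    have t := h.symm.row hb (hb2.trans h.hu.a2_lt.le) hτ' hδ hδε
      ((hβ (μ n) (hμ hn)).mono hb.le le_rfl le_rfl (closedBall_subset_closedBall hl))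
      (hΦ.cu x hx)
      (fun y hy => by rw [← hΦ.bu y hy]; exact (dist_le_ds G _ _).trans (hT y hy x hx)) n hy
    refine le_of_mul_le_mul_left (t.trans ?_) (pow_pos hb (μ n))
    gcongr
    refine le_trans ?_ (hK n hn).2
    gcongr
    refine le_trans ?_ k2
    gcongr
  have s3 : Tu H δ r l Φ n0 := by
    induction n with
    | zero => exact hT.mono (Nat.zero_le _)
    | succ n ih =>
      by_cases hn : n0 ≤ n
      · exact ih (s2 n hn (s1 n hn hT))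
      · exact hT.mono (by omega)
  exact ⟨s3, s1 n0 le_rfl (s3.mono (Nat.le_succ _))⟩

/-- The a priori bound under pinching. -/
theorem Smale.apriori (h : Smale G H S U ε C a1 a2 b1 b2) {b δ τ τ' : ℝ} (R : ℝ) (hb : 0 < b)
    (hb2 : b ≤ b2)
    (pin : Real.log a1 * Real.log b < Real.log a1 * Real.log b2 + Real.log a2 * Real.log b)
    (hτ : 0 < τ) (hτ' : 0 < τ') (hδ : 0 < δ) (hδε : 4 * C * δ ≤ ε) :
    ∃ n0 m0 : ℕ, ∀ (α : X → M) (β : Y → M), Sh H a1 δ τ (closedBall 0 R) α →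
      Sh G b δ τ' (closedBall 0 R) β → ∀ r ≤ R, ∀ l ≤ R, ∀ Φ : X → Y → M, Good G H α β r l Φ →
      ∀ n, Tu H δ r l Φ n → Tu H δ r l Φ n0 ∧ Tu G δ l r (fun y x => Φ x y) m0 := by
  have hC := h.one_le
  obtain ⟨μ, hμ, -, hc⟩ := pin_lemma h.hs.a1_pos h.hs.a12 h.hs.a2_lt hb hb2 h.hu.a2_lt pin
  obtain ⟨c, hc⟩ := hc (3 * C ^ 2 * (|R| / τ + |R| / τ' + 1)) 1 (by positivity) le_rfl
  have q1 : 0 ≤ |R| / τ := by positivity
  have q2 : 0 ≤ |R| / τ' := by positivity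
  exact ⟨c, μ c, fun α β hα hβ r hr l hl Φ hΦ n hT => h.aprN hb hb2 hμ
    (K := 3 * C ^ 2 * (|R| / τ + |R| / τ' + 1))
    (fun n hn => by simpa using hc 0 n (by simpa using hn)) hτ hτ' hδ hδε
    (by gcongr; linarith) (by gcongr; linarith) (hα.shN _) (hβ.shN _) hr hl hΦ hT⟩

theorem Smale.extend (h : Smale G H S U ε C a1 a2 b1 b2) {α : X → M} {β : Y → M}
    (h0 : α 0 = β 0) {R δ τ : ℝ} (hδ : 0 < δ) (hδε : 16 * C * δ ≤ ε) (hτ : 0 < τ)
    (hα : Sh H a1 δ τ (closedBall 0 R) α)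
    (cα : ContinuousOn (fun x => toL G (α x)) (closedBall 0 R)) (hap : Apr G H α β R δ) :
    ∃ t : ℝ, 0 < t ∧ ∀ r r' : ℝ, 0 ≤ r → r ≤ r' → r' ≤ R → r' ≤ r + t → ∀ l, 0 ≤ l → l ≤ R →
      ∀ Φ : X → Y → M, Good G H α β r l Φ → ∀ n, Tu H δ r l Φ n →
      ∃ Φ' : X → Y → M, Good G H α β r' l Φ' ∧ ∃ n, Tu H δ r' l Φ' n := by
  have hC := h.one_le
  have hCδ : δ ≤ C * δ := le_mul_of_one_le_left hδ.le hC
  obtain ⟨n0, hn0⟩ := hap
  have ha1 := h.hs.a1_pos
  refine ⟨τ * a1 ^ n0, by positivity, fun r r' hr hrr' hr' hrt l hl0 hl Φ hΦ n hT => ?_⟩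
  replace hT := hn0 r (hrr'.trans hr') l hl Φ hΦ n hT
  have hr'0 : 0 ≤ r' := hr.trans hrr'
  have hq0 : 0 ≤ r / r' := by positivity
  have hq1 : r / r' ≤ 1 := div_le_one_of_le₀ hrr' hr'0
  have hqr : r / r' * r' = r := by
    rcases hr'0.eq_or_lt with e | e
    · have : r = 0 := le_antisymm (e ▸ hrr') hr
      simp [this]
    · field_simp
  have m1 : ∀ x ∈ closedBall (0 : X) r', (r / r') • x ∈ closedBall (0 : X) r := by
    intro x hx
    rw [mem_closedBall_zero_iff] at hx ⊢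
    rw [norm_smul, Real.norm_of_nonneg hq0]
    calc r / r' * ‖x‖ ≤ r / r' * r' := by gcongr
      _ = r := hqr
  have m2 : ∀ x ∈ closedBall (0 : X) r', ‖(r / r') • x - x‖ ≤ τ * a1 ^ n0 := by
    intro x hx
    rw [mem_closedBall_zero_iff] at hx
    have : (r / r') • x - x = -((1 - r / r') • x) := by rw [sub_smul, one_smul]; abel
    rw [this, norm_neg, norm_smul, Real.norm_of_nonneg (by linarith)]
    calc (1 - r / r') * ‖x‖ ≤ (1 - r / r') * r' := by gcongr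
      _ = r' - r := by rw [sub_mul, hqr, one_mul]
      _ ≤ _ := by linarith
  have sb : closedBall (0 : X) r ⊆ closedBall 0 R := closedBall_subset_closedBall (hrr'.trans hr')
  have sb' : closedBall (0 : X) r' ⊆ closedBall 0 R := closedBall_subset_closedBall hr'
  have m3 : ∀ x ∈ closedBall (0 : X) r',
      ds G (H^[n0] (α ((r / r') • x))) (H^[n0] (α x)) ≤ C * (3 * δ) := fun x hx =>
    h.piece ha1 hτ hδ (by linarith) (convex_closedBall _ _) (hα n0) cα (fun x _ => by simpa using hδ.le)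
      (sb' hx) (sb (m1 x hx)) (by rw [norm_sub_rev]; exact m2 x hx)
  have ex : ∀ x y, ∃ c, x ∈ closedBall (0 : X) r' → y ∈ closedBall (0 : Y) l →
      ds G (H^[n0] (Φ ((r / r') • x) y)) c ≤ C * (2 * δ) ∧ ds H (H^[n0] (α x)) c ≤ C * (2 * δ) := by
    intro x y
    by_cases hx : x ∈ closedBall (0 : X) r'
    swap
    · exact ⟨α 0, fun h => (hx h).elim⟩
    by_cases hy : y ∈ closedBall (0 : Y) l
    swap
    · exact ⟨α 0, fun _ h => (hy h).elim⟩
    have t1 := (dist_le_ds H _ _).trans (hT _ (m1 x hx) y hy)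
    rw [hΦ.bs _ (m1 x hx), dist_comm] at t1
    have t2 := hα n0 _ (sb (m1 x hx)) x (sb' hx) (m2 x hx)
    have t3 := dist_triangle (H^[n0] (Φ ((r / r') • x) y)) (H^[n0] (α ((r / r') • x)))
      (H^[n0] (α x))
    have t4 : C * dist (H^[n0] (Φ ((r / r') • x) y)) (H^[n0] (α x)) ≤ C * (2 * δ) := by
      gcongr; linarith
    obtain ⟨c, c1, c2⟩ := h.br _ _ (t4.trans (by linarith))
    exact ⟨c, fun _ _ => ⟨c1.trans t4, c2.trans t4⟩⟩
  choose c hc using ex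
  have hb : ∀ x ∈ closedBall (0 : X) r', c x 0 = H^[n0] (α x) := by
    intro x hx
    obtain ⟨c1, c2⟩ := hc x 0 hx (mem_closedBall_self hl0)
    rw [hΦ.bs _ (m1 x hx), ds_comm] at c1
    rw [ds_comm] at c2
    have := ds_triangle G (c x 0) (H^[n0] (α ((r / r') • x))) (H^[n0] (α x))
    exact h.eq_of (by linarith [m3 x hx]) (by linarith)
  refine ⟨fun x y => G^[n0] (c x y), ⟨fun y hy => ?_, fun x hx => ?_, fun x hx => ?_,
    fun y hy => ?_⟩, ?_⟩
  · refine (continuous_Lf_G G n0).comp_continuousOn (f := fun x => toL G (c x y)) ?_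
    refine h.brCont (a := fun x => H^[n0] (Φ ((r / r') • x) y)) (b := fun x => H^[n0] (α x))
      ?_ ?_ (fun x hx => (hc x y hx hy).1.trans (by linarith))
      (fun x hx => (hc x y hx hy).2.trans (by linarith))
    · exact (h.inv.continuous_Lf_H n0).comp_continuousOn
        ((hΦ.cs y hy).comp (continuous_const_smul (r / r')).continuousOn m1)
    · exact ((h.inv.cH.iterate n0).comp (continuous_ofL G)).comp_continuousOn (cα.mono sb')
  · refine (h.inv.symm.continuous_Lf_H n0).comp_continuousOn (f := fun y => toL H (c x y)) ?_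
    refine h.symm.brCont (b := fun y => H^[n0] (Φ ((r / r') • x) y)) (a := fun _ => H^[n0] (α x))
      continuousOn_const ?_ (fun y hy => (hc x y hx hy).2.trans (by linarith))
      (fun y hy => (hc x y hx hy).1.trans (by linarith))
    exact ((h.inv.cH.iterate n0).comp (continuous_ofL H)).comp_continuousOn (hΦ.cu _ (m1 x hx))
  · simp only [hb x hx, h.inv.GHn]
  · obtain ⟨c1, c2⟩ := hc 0 y (mem_closedBall_self hr'0) hy
    have t1 := hT 0 (mem_closedBall_self hr) y hy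
    rw [hΦ.bs 0 (mem_closedBall_self hr), hΦ.bu y hy, ds_comm] at t1
    rw [smul_zero, hΦ.bu y hy] at c1
    have := ds_triangle H (H^[n0] (β y)) (H^[n0] (α 0)) (c 0 y)
    have e : H^[n0] (β y) = c 0 y := h.eq_of (by linarith) (by linarith)
    simp only [← e, h.inv.GHn]
  · obtain ⟨j, hj⟩ := exists_pow_le (K := 2 * C ^ 2) (by positivity)
      (h.hu.a1_pos.le.trans h.hu.a12) h.hu.a2_lt one_pos 0
    refine ⟨j + n0, fun x hx y hy => ?_⟩
    simp only [Function.iterate_add_apply, h.inv.HGn, hb x hx]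
    have c2 := (hc x y hx hy).2
    have hb2 : 0 ≤ b2 := h.hu.a1_pos.le.trans h.hu.a12
    refine (h.hu.s2 _ _ j (c2.trans (by linarith))).trans ?_
    rw [zero_add] at hj
    calc C * b2 ^ j * ds H (H^[n0] (α x)) (c x y) ≤ C * b2 ^ j * (C * (2 * δ)) := by gcongr
      _ = 2 * C ^ 2 * b2 ^ j * δ := by ring
      _ ≤ 1 * δ := by gcongr
      _ = δ := one_mul _

theorem Smale.exists_good (h : Smale G H S U ε C a1 a2 b1 b2) {α : X → M} {β : Y → M}
    (h0 : α 0 = β 0) {R δ τ τ' b : ℝ} (hR : 0 ≤ R) (hδ : 0 < δ) (hδε : 16 * C * δ ≤ ε) (hτ : 0 < τ)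
    (hα : Sh H a1 δ τ (closedBall 0 R) α)
    (cα : ContinuousOn (fun x => toL G (α x)) (closedBall 0 R)) (hτ' : 0 < τ') (hb : 0 < b)
    (hb1 : b ≤ 1) (hβ : Sh G b δ τ' (closedBall 0 R) β)
    (cβ : ContinuousOn (fun y => toL H (β y)) (closedBall 0 R)) (hap : Apr G H α β R δ) :
    ∃ Φ : X → Y → M, Good G H α β R R Φ ∧ ∃ n, Tu H δ R R Φ n := by
  obtain ⟨t, ht, he⟩ := h.extend h0 hδ hδε hτ hα cα hap
  have key : ∀ k : ℕ, ∃ Φ : X → Y → M, Good G H α β (min (k * t) R) R Φ ∧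
      ∃ n, Tu H δ (min (k * t) R) R Φ n := by
    intro k
    induction k with
    | zero =>
      have e : min (((0 : ℕ) : ℝ) * t) R = 0 := by simp [hR]
      rw [e]
      have hg : Good G H α β 0 R fun _ y => β y :=
        ⟨fun y _ => continuousOn_const, fun x _ => cβ, fun x hx => by
          have : x = 0 := by simpa using hx
          rw [this, h0], fun y _ => rfl⟩
      have hC := h.one_le
      obtain ⟨m, hm⟩ := h.symm.step' hb hb1 hτ' hδ (by nlinarith) hβ α 0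
      refine ⟨_, hg, m, hm R le_rfl 0 _ hg.swap fun y _ x _ => ?_⟩
      simp [hδ.le]
    | succ k ih =>
      obtain ⟨Φ, hΦ, n, hn⟩ := ih
      refine he _ _ (le_min (by positivity) hR) ?_ (min_le_right _ _) ?_ R hR le_rfl Φ hΦ n hn
      · push_cast
        exact min_le_min_right _ (by linarith)
      · push_cast
        rcases le_total (k * t) R with e | e
        · rw [min_eq_left e]; exact (min_le_left _ _).trans (by linarith)
        · rw [min_eq_right e]; exact (min_le_right _ _).trans (by linarith)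
  obtain ⟨k, hk⟩ := exists_nat_ge (R / t)
  rw [div_le_iff₀ ht] at hk
  simpa only [min_eq_right hk] using key k

/-- A rectangle defined on the whole of `X × Y`. -/
structure GRect (G H : M → M) (δ : ℝ) (Φ : X → Y → M) : Prop where
  cs : ∀ y, Continuous fun x => toL G (Φ x y)
  cu : ∀ x, Continuous fun y => toL H (Φ x y)
  tu : ∀ R : ℝ, ∃ n : ℕ, ∀ x y y', ‖x‖ ≤ R → ‖y‖ ≤ R → ‖y'‖ ≤ R →
    ds H (H^[n] (Φ x y)) (H^[n] (Φ x y')) ≤ δ
  ts : ∀ R : ℝ, ∃ n : ℕ, ∀ y x x', ‖y‖ ≤ R → ‖x‖ ≤ R → ‖x'‖ ≤ R →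
    ds G (G^[n] (Φ x y)) (G^[n] (Φ x' y)) ≤ δ

theorem GRect.swap {δ : ℝ} {Φ : X → Y → M} (h : GRect G H δ Φ) :
    GRect H G δ fun y x => Φ x y := ⟨h.cu, h.cs, h.ts, h.tu⟩

theorem Smale.exists_grect (h : Smale G H S U ε C a1 a2 b1 b2) {α : X → M} (hα : LipB G α)
    {β : Y → M} (hβ : LipB H β) (h0 : α 0 = β 0) {δ : ℝ} (hδ : 0 < δ) (hδε : 16 * C * δ ≤ ε)
    (hap : ∀ R, 0 ≤ R → Apr G H α β R δ) :
    ∃ Φ : X → Y → M, GRect G H (ε / 8) Φ ∧ (∀ x, Φ x 0 = α x) ∧ ∀ y, Φ 0 y = β y := by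
  have hC := h.one_le
  have hε := h.ε_pos
  have hCδ : δ ≤ C * δ := le_mul_of_one_le_left hδ.le hC
  have ex : ∀ R : ℝ, ∃ Φ : X → Y → M, Good G H α β |R| |R| Φ ∧ ∃ n, Tu H δ |R| |R| Φ n := by
    intro R
    obtain ⟨τ, hτ, s1⟩ := h.hs.short hC hα |R| hδ (by linarith)
    obtain ⟨τ', hτ', s2⟩ := h.hu.short hC hβ |R| hδ (by linarith)
    exact h.exists_good h0 (abs_nonneg R) hδ hδε hτ s1 hα.continuous.continuousOn hτ' h.hu.a1_pos
      (h.hu.a12.trans h.hu.a2_lt.le) s2 hβ.continuous.continuousOn (hap _ (abs_nonneg R))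
  choose F hF T hT using ex
  have agree : ∀ R R' : ℝ, ∀ x y, ‖x‖ ≤ |R| → ‖y‖ ≤ |R| → ‖x‖ ≤ |R'| → ‖y‖ ≤ |R'| →
      F R x y = F R' x y := by
    intro R R' x y h1 h2 h3 h4
    have hy := mem_closedBall_zero_iff.2 h2
    have hy' := mem_closedBall_zero_iff.2 h4
    apply h.inv.symm.Gn_inj (max (T R) (T R'))
    have s1 : closedBall (0 : X) ‖x‖ ⊆ closedBall 0 |R| := closedBall_subset_closedBall h1
    have s2 : closedBall (0 : X) ‖x‖ ⊆ closedBall 0 |R'| := closedBall_subset_closedBall h3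
    refine h.uniq (convex_closedBall (0 : X) ‖x‖).isPreconnected
      (e := fun x => H^[max (T R) (T R')] (F R x y))
      (e' := fun x => H^[max (T R) (T R')] (F R' x y))
      ((h.inv.continuous_Lf_H _).comp_continuousOn (((hF R).cs y hy).mono s1))
      ((h.inv.continuous_Lf_H _).comp_continuousOn (((hF R').cs y hy').mono s2))
      (mem_closedBall_self (norm_nonneg x)) ?_ (fun z hz => ?_) (mem_closedBall_zero_iff.2 le_rfl)
    · simp only [(hF R).bu y hy, (hF R').bu y hy']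
    · have t1 := (hT R).mono (le_max_left (T R) (T R')) z (s1 hz) y hy
      have t2 := (hT R').mono (le_max_right (T R) (T R')) z (s2 hz) y hy'
      rw [(hF R).bs z (s1 hz), ds_comm] at t1
      rw [(hF R').bs z (s2 hz)] at t2
      refine (ds_triangle H _ (H^[max (T R) (T R')] (α z)) _).trans ?_
      linarith
  have eqF : ∀ R : ℝ, ∀ x y, ‖x‖ ≤ |R| → ‖y‖ ≤ |R| → F (‖x‖ + ‖y‖) x y = F R x y := by
    intro R x y h1 h2
    have := norm_nonneg x
    have := norm_nonneg y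
    refine agree _ _ x y ?_ ?_ h1 h2 <;> rw [abs_of_nonneg (by positivity)] <;> linarith
  refine ⟨fun x y => F (‖x‖ + ‖y‖) x y, ⟨fun y => ?_, fun x => ?_, fun R => ?_, fun R => ?_⟩,
    fun x => ?_, fun y => ?_⟩
  · refine continuous_iff_continuousAt.2 fun x => ?_
    have := norm_nonneg x
    have := norm_nonneg y
    have e : |‖x‖ + ‖y‖ + 1| = ‖x‖ + ‖y‖ + 1 := abs_of_nonneg (by positivity)
    have hn : closedBall (0 : X) |‖x‖ + ‖y‖ + 1| ∈ 𝓝 x :=
      mem_of_superset (isOpen_ball.mem_nhds (by rw [mem_ball_zero_iff, e]; linarith))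
        ball_subset_closedBall
    have hy : ‖y‖ ≤ |‖x‖ + ‖y‖ + 1| := by rw [e]; linarith
    refine ((((hF _).cs y (mem_closedBall_zero_iff.2 hy)).congr fun z hz => ?_).continuousAt hn)
    simp only [eqF _ z y (mem_closedBall_zero_iff.1 hz) hy]
  · refine continuous_iff_continuousAt.2 fun y => ?_
    have := norm_nonneg x
    have := norm_nonneg y
    have e : |‖x‖ + ‖y‖ + 1| = ‖x‖ + ‖y‖ + 1 := abs_of_nonneg (by positivity)
    have hn : closedBall (0 : Y) |‖x‖ + ‖y‖ + 1| ∈ 𝓝 y :=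
      mem_of_superset (isOpen_ball.mem_nhds (by rw [mem_ball_zero_iff, e]; linarith))
        ball_subset_closedBall
    have hx : ‖x‖ ≤ |‖x‖ + ‖y‖ + 1| := by rw [e]; linarith
    refine ((((hF _).cu x (mem_closedBall_zero_iff.2 hx)).congr fun z hz => ?_).continuousAt hn)
    simp only [eqF _ x z hx (mem_closedBall_zero_iff.1 hz)]
  · refine ⟨T R, fun x y y' h1 h2 h3 => ?_⟩
    replace h1 := h1.trans (le_abs_self R)
    replace h2 := h2.trans (le_abs_self R)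
    replace h3 := h3.trans (le_abs_self R)
    simp only [eqF R x y h1 h2, eqF R x y' h1 h3]
    have t1 := hT R x (mem_closedBall_zero_iff.2 h1) y (mem_closedBall_zero_iff.2 h2)
    have t2 := hT R x (mem_closedBall_zero_iff.2 h1) y' (mem_closedBall_zero_iff.2 h3)
    rw [ds_comm] at t1
    refine (ds_triangle H _ (H^[T R] (F R x 0)) _).trans ?_
    linarith
  · obtain ⟨τ, hτ, s1⟩ := h.hs.short hC hα |R| hδ (by linarith)
    obtain ⟨m, hm⟩ := h.step' h.hs.a1_pos (h.hs.a12.trans h.hs.a2_lt.le) hτ hδ (by linarith) s1 β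
      (T R)
    replace hm := hm _ le_rfl _ _ (hF R) (hT R)
    refine ⟨m, fun y x x' h1 h2 h3 => ?_⟩
    replace h1 := h1.trans (le_abs_self R)
    replace h2 := h2.trans (le_abs_self R)
    replace h3 := h3.trans (le_abs_self R)
    simp only [eqF R x y h2 h1, eqF R x' y h3 h1]
    have t1 := hm y (mem_closedBall_zero_iff.2 h1) x (mem_closedBall_zero_iff.2 h2)
    have t2 := hm y (mem_closedBall_zero_iff.2 h1) x' (mem_closedBall_zero_iff.2 h3)
    rw [ds_comm] at t1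
    refine (ds_triangle G _ (G^[m] (F R 0 y)) _).trans ?_
    linarith
  · exact (hF _).bs x (by simp)
  · exact (hF _).bu y (by simp)

end Pool.Agent.P.MP_0a0487_an
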