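import Pool.Agent.P.MP_0a0487_an.Path

/-!
Sliding weak paths along stable paths.
-/

set_option autoImplicit false

open Set Metric Filter Topology

namespace Pool.Agent.P.MP_0a0487_an

variable {M : Type*} [MetricSpace M] [CompactSpace M]
  {G H : M → M} {S U : Type*} [NormedAddCommGroup S] [NormedAddCommGroup U]
  {ε C a1 a2 b1 b2 b δ : ℝ}

theorem Pin.slide (h : Pin G H S U ε C a1 a2 b1 b2 b δ) {τ τ' : ℝ} (hτ : 0 < τ) (hτ' : 0 < τ') :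
    ∃ (n : ℕ) (τ'' : ℝ), 0 < τ'' ∧ ∀ (ρ : ℝ → M) (q : M),
      ContinuousOn (fun t => toL G (ρ t)) (closedBall 0 1) → Sh H a1 δ τ (closedBall 0 1) ρ →
      Pth H G b δ τ' 0 (ρ 0) q → ∃ ρ' : ℝ → M, ρ' 0 = q ∧
        ContinuousOn (fun t => toL G (ρ' t)) (closedBall 0 1) ∧ ∀ t ∈ closedBall (0 : ℝ) 1,
          ds H (H^[n] (ρ t)) (H^[n] (ρ' t)) ≤ δ ∧ Pth H G b δ τ'' 0 (ρ t) (ρ' t) := by
  obtain ⟨d0, d1, d2, d3⟩ := h.Cδ
  have hb := h.b_pos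
  obtain ⟨n0, m0, hap⟩ :=
    h.sm.apriori (X := ℝ) (Y := ℝ) 1 hb h.b_le h.pin hτ hτ' d0 (by linarith)
  obtain ⟨j, hj⟩ := h.sm.symm.hi (X := ℝ) d0 (by linarith) d0
  refine ⟨n0, τ' * b ^ (m0 + j) / 1, by positivity, ?_⟩
  rintro ρ q c1 s1 ⟨Γ, g0, g1, gc, gs⟩
  have sΓ : Sh G b δ τ' (closedBall 0 1) Γ := gs.sh.mono hb.le le_rfl le_rfl (subset_univ _)
  obtain ⟨Φ, hΦ, n, hT⟩ := h.sm.exists_good (α := ρ) (β := Γ) g0.symm zero_le_one d0
    (by linarith) hτ s1 c1 hτ' hb h.b_lt.le sΓ gc.continuousOn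
    ⟨n0, fun r hr l hl Φ hΦ n hT => (hap ρ Γ s1 sΓ r hr l hl Φ hΦ n hT).1⟩
  obtain ⟨T1, T2⟩ := hap ρ Γ s1 sΓ 1 le_rfl 1 le_rfl Φ hΦ n hT
  have o1 : (1 : ℝ) ∈ closedBall (0 : ℝ) 1 := by simp
  have o0 : (0 : ℝ) ∈ closedBall (0 : ℝ) 1 := by simp
  refine ⟨fun t => Φ t 1, by simp only [hΦ.bu 1 o1, g1], hΦ.cs 1 o1, fun t ht => ⟨?_, ?_⟩⟩
  · rw [← hΦ.bs t ht]
    exact T1 t ht 1 o1
  · have key := (hj b τ' (closedBall 0 1) Γ (fun y => Φ t y) m0 hb hτ' (convex_closedBall _ _)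
      (sΓ.shN _) (hΦ.cu t ht) (fun y hy n hn => by
        rw [← hΦ.bu y hy]
        exact (dist_le_ds G _ _).trans (T2.mono hn y hy t ht))).1
    rw [← hΦ.bs t ht]
    exact Pth.of_on (α := fun y => Φ t y) (convex_closedBall _ _) (hΦ.cu t ht) (key.shN 0) o0 o1
      one_pos (by simp)

theorem Pin.hol_wk (h : Pin G H S U ε C a1 a2 b1 b2 b δ) {z z' : M} (hw : Wk G H b δ z z') :
    HOL G H a1 δ z z' := by
  intro τ hτ
  obtain ⟨τ', hτ', hp⟩ := hw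
  obtain ⟨n, τ'', -, hs⟩ := h.slide hτ hτ'
  refine ⟨n, fun σ s0 sc ss => ?_⟩
  obtain ⟨σ', e0, e1, e2⟩ := hs σ z' sc ss (s0 ▸ hp)
  exact ⟨σ', e0, e1, fun t ht => (e2 t ht).1⟩

theorem Pin.hp (h : Pin G H S U ε C a1 a2 b1 b2 b δ) {ρ ρ' : ℝ → M} {τ : ℝ} (hτ : 0 < τ)
    (c1 : ContinuousOn (fun t => toL G (ρ t)) (closedBall 0 1))
    (s1 : Sh H a1 δ τ (closedBall 0 1) ρ)
    (c2 : ContinuousOn (fun t => toL G (ρ' t)) (closedBall 0 1)) {n : ℕ}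
    (hd : ∀ t ∈ closedBall (0 : ℝ) 1, ds H (H^[n] (ρ t)) (H^[n] (ρ' t)) ≤ ε / 2)
    (hw : Wk G H b δ (ρ 0) (ρ' 0)) : ∀ t ∈ closedBall (0 : ℝ) 1, Wk G H b δ (ρ t) (ρ' t) := by
  obtain ⟨d0, d1, d2, d3⟩ := h.Cδ
  obtain ⟨τ', hτ', hp⟩ := hw
  obtain ⟨n0, τ'', t0, hs⟩ := h.slide hτ hτ'
  obtain ⟨σ, e0, e1, e2⟩ := hs ρ (ρ' 0) c1 s1 hp
  intro t ht
  have e : σ t = ρ' t := by
    refine h.sm.uniqN (convex_closedBall (0 : ℝ) 1).isPreconnected e1 c2 (z0 := 0) (by simp) e0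
      (n := max n n0) (fun z hz => ?_) ht
    have t1 := (ds_iterate_mono H _ _ (le_max_right n n0)).trans (e2 z hz).1
    have t2 := (ds_iterate_mono H _ _ (le_max_left n n0)).trans (hd z hz)
    rw [ds_comm] at t1
    have := ds_triangle H (H^[max n n0] (σ z)) (H^[max n n0] (ρ z)) (H^[max n n0] (ρ' z))
    linarith
  rw [← e]
  exact (e2 t ht).2.wk t0

theorem Pin.hp0 (h : Pin G H S U ε C a1 a2 b1 b2 b δ) {p y p' y' : M} (h1 : ds G p y ≤ δ)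
    (h2 : ds G p' y' ≤ δ) (h3 : ds H p p' ≤ δ) (h4 : ds H y y' ≤ δ) (hw : Wk G H b δ p p') :
    Wk G H b δ y y' := by
  obtain ⟨d0, d1, d2, d3⟩ := h.Cδ
  have hC := h.sm.one_le
  have hε := h.sm.ε_pos
  have k1 : C * ds G p y ≤ C * δ := by gcongr
  obtain ⟨l, l0, l1, l2⟩ := h.sm.hs.lp p y (by linarith)
  have l3 : ∀ t t', ds G (l t) (l t') ≤ C * δ * ‖t - t'‖ := fun t t' =>
    (l2 t t').trans (by rw [Real.norm_eq_abs]; gcongr)
  have lc : Continuous fun t => toL G (l t) :=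
    (LipschitzWith.of_dist_le_mul (K := ⟨C * δ, by positivity⟩) fun t t' => by
      rw [dist_toL, dist_eq_norm]
      exact l3 t t').continuous
  obtain ⟨τ, hτ, hs⟩ := h.sm.hs.sh_of_lip (X := ℝ) hC d0 (by linarith)
    (show 0 < C * δ by positivity) one_pos
  have ls : Sh H a1 δ τ (closedBall 0 1) l := hs _ l fun t _ t' _ _ => l3 t t'
  have ex : ∀ t : ℝ, ∃ c, t ∈ closedBall (0 : ℝ) 1 →
      ds G p' c ≤ 2 * (C * (C * δ)) ∧ ds H (l t) c ≤ 2 * (C * (C * δ)) := by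
    intro t
    by_cases ht : t ∈ closedBall (0 : ℝ) 1
    swap
    · exact ⟨p, fun h => (ht h).elim⟩
    have t1 : dist p (l t) ≤ C * δ := by
      have := l3 0 t
      rw [l0, zero_sub, norm_neg] at this
      refine (dist_le_ds G _ _).trans (this.trans ?_)
      exact mul_le_of_le_one_right (by positivity) (mem_closedBall_zero_iff.1 ht)
    have t2 : dist p' p ≤ δ := by rw [dist_comm]; exact (dist_le_ds H _ _).trans h3
    have t3 := dist_triangle p' p (l t)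
    have t4 : C * dist p' (l t) ≤ 2 * (C * (C * δ)) := by
      calc C * dist p' (l t) ≤ C * (2 * (C * δ)) := by gcongr; linarith
        _ = _ := by ring
    obtain ⟨c, c1, c2⟩ := h.sm.br p' (l t) (t4.trans (by linarith))
    exact ⟨c, fun _ => ⟨c1.trans t4, c2.trans t4⟩⟩
  choose c hc using ex
  have o1 : (1 : ℝ) ∈ closedBall (0 : ℝ) 1 := by simp
  have o0 : (0 : ℝ) ∈ closedBall (0 : ℝ) 1 := by simp
  have cc : ContinuousOn (fun t => toL G (c t)) (closedBall 0 1) :=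
    h.sm.brCont (a := fun _ => p') (b := l) continuousOn_const
      ((continuous_ofL G).comp lc).continuousOn
      (fun t ht => (hc t ht).1.trans (by linarith)) (fun t ht => (hc t ht).2.trans (by linarith))
  have e0 : p' = c 0 := by
    obtain ⟨c1, c2⟩ := hc 0 o0
    rw [l0] at c2
    have := ds_triangle H p' p (c 0)
    rw [ds_comm] at h3
    exact h.sm.eq_of (by linarith) (by linarith)
  have e1 : y' = c 1 := by
    obtain ⟨c1, c2⟩ := hc 1 o1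
    rw [l1] at c2
    have := ds_triangle H y' y (c 1)
    have := ds_triangle G y' p' (c 1)
    rw [ds_comm] at h2 h4
    exact h.sm.eq_of (by linarith) (by linarith)
  have := h.hp (ρ := l) (ρ' := c) hτ lc.continuousOn ls cc (n := 0)
    (fun t ht => (hc t ht).2.trans (by linarith)) (by rw [l0, ← e0]; exact hw) 1 o1
  rwa [l1, ← e1] at this

theorem Pin.opn_all (h : Pin G H S U ε C a1 a2 b1 b2 b δ) (hm : Minl G) {z : M}
    (hz : Opn G H b δ z) (w : M) : Opn G H b δ w := by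
  obtain ⟨d0, d1, d2, d3⟩ := h.Cδ
  have hC := h.sm.one_le
  have hε := h.sm.ε_pos
  obtain ⟨η, η0, hη⟩ := hz
  obtain ⟨δ', δ0, hδ'⟩ : ∃ δ' : ℝ, 0 < δ' ∧ C * (3 * δ') = δ :=
    ⟨δ / (3 * C), by positivity, by field_simp⟩
  have hδ3 : 3 * δ' ≤ δ := by rw [← hδ']; exact le_mul_of_one_le_left (by positivity) hC
  obtain ⟨θ, θ0, hθ⟩ : ∃ θ : ℝ, 0 < θ ∧ C * θ = min (η / 2) δ' :=
    ⟨min (η / 2) δ' / C, by positivity, by field_simp⟩
  have θ1 : C * θ ≤ η / 2 := hθ ▸ min_le_left _ _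
  have θ2 : C * θ ≤ δ' := hθ ▸ min_le_right _ _
  obtain ⟨m1, hm1⟩ := hm δ' θ δ0 θ0
  obtain ⟨y', y1, y2⟩ := hm1 w z
  have y3 : C * dist y' z ≤ C * θ := by gcongr
  obtain ⟨c, c1, c2⟩ := h.sm.br y' z (by linarith)
  have wc : ∀ u, ds H c u ≤ η / 2 → Wk G H b δ c u := fun u hu => by
    have := ds_triangle H z c u
    exact h.wk_trans (hη c (by linarith)).symm (hη u (by linarith))
  obtain ⟨j, hj⟩ := h.sm.symm.shrink (θ := η / 2) (by positivity)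
  obtain ⟨m, m2, m3⟩ : ∃ m, m1 ≤ m ∧ j ≤ m := ⟨max m1 j, le_max_left _ _, le_max_right _ _⟩
  obtain ⟨η', η1, hη'⟩ := h.sm.inv.symm.unif_ds m δ0
  refine ⟨η', η1, fun w' hw' => ?_⟩
  have t1 := hη' w w' hw'
  have t2 := (ds_iterate_mono G w y' m2).trans y1
  have t3 := (ds_iterate_le G y' c m).trans c1
  have t4 := ds_triangle G (G^[m] w) (G^[m] y') (G^[m] c)
  have t5 : dist (G^[m] w') (G^[m] c) ≤ 3 * δ' := by
    have u1 := dist_le_ds H (G^[m] w) (G^[m] w')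
    have u2 := dist_le_ds G (G^[m] w) (G^[m] c)
    have u3 := dist_triangle (G^[m] w') (G^[m] w) (G^[m] c)
    rw [dist_comm] at u1
    linarith
  have t6 : C * dist (G^[m] w') (G^[m] c) ≤ δ := by rw [← hδ']; gcongr
  obtain ⟨P, p1, p2⟩ := h.sm.br (G^[m] w') (G^[m] c) (by linarith)
  have t7 := hj m m3 (G^[m] c) P (by linarith)
  rw [h.sm.inv.HGn] at t7
  have t8 := h.wk_G (wc _ t7) m
  rw [h.sm.inv.GHn] at t8
  refine h.wk_of_G (n := m) (h.hp0 ?_ ?_ (p2.trans t6) (by linarith) t8)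
  · rw [ds_comm]; linarith
  · rw [ds_comm]; linarith

end Pool.Agent.P.MP_0a0487_an
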