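import Pool.Agent.P.MP_0a0487_an.Bp
import Pool.Agent.P.MP_0a0487_an.Hol

/-!
The holonomy along vertical segments is complete.
-/

set_option autoImplicit false

open Set Metric Filter Topology

namespace Pool.Agent.P.MP_0a0487_an

variable {M : Type*} [MetricSpace M] [CompactSpace M]
  {G H : M → M} {S U : Type*} [NormedAddCommGroup S] [NormedAddCommGroup U]
  {ε C a1 a2 b1 b2 b δ : ℝ}
  {V : M → ℝ → M} {Λ : M → M → ℝ} {K r : ℝ}

/-- One step of the induction of `Pin.vind`: a weak path at `s` slides to a nearby `s'`. -/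
theorem Pin.vind_step (h : Pin G H S U ε C a1 a2 b1 b2 b δ) (hl : Lam G H V Λ K r b δ) {δ1 : ℝ}
    (e1 : C * (2 * δ1) ≤ r) (e2 : C * (2 * δ1) ≤ δ) {τ τ' : ℝ} (hτ : 0 < τ) (hτ' : 0 < τ') :
    ∃ τ'' : ℝ, 0 < τ'' ∧ ∀ (A E : ℝ → M) (n : ℕ) (w w' : M),
      ContinuousOn (fun v => toL G (A v)) (closedBall 0 1) →
      ContinuousOn (fun v => toL G (E v)) (closedBall 0 1) → Sh H a1 δ τ (closedBall 0 1) A →
      (∀ v ∈ closedBall (0 : ℝ) 1, ds H (H^[n] (A v)) (H^[n] (E v)) ≤ δ) →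
      (∀ v, ds G (A 0) (A v) ≤ δ1) → Pth H G b δ τ' 0 (E 0) w → ds H (A 0) w ≤ δ1 →
      Wk G H b δ (E 1) w' → ds H (A 1) w' ≤ δ1 → Pth H G b δ τ'' 0 (E 1) w' := by
  obtain ⟨d0, d1, d2, d3⟩ := h.Cδ
  have hC := h.sm.one_le
  have ha1 := h.sm.hs.a1_pos
  obtain ⟨j, hj⟩ := h.sm.hi (X := ℝ) d0 (by linarith) d0
  obtain ⟨n', τ1, t1, hs⟩ := h.slide (τ := τ * a1 ^ (0 + j)) (by positivity) hτ'
  obtain ⟨τ2, t2, hp⟩ := h.pth_of_label hl
  obtain ⟨k, k0, -, hk⟩ := h.sm.symm.pth_trans d0 (by linarith) h.b_pos h.b_lt.le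
  refine ⟨k * min τ1 τ2, by positivity, fun A E n w w' cA cE sA hAE hA hw hw1 hw' hw1' => ?_⟩
  have p0 : 0 ≤ δ1 := (ds_nonneg _ _ _).trans hw1
  have p1 : 2 * δ1 ≤ C * (2 * δ1) := le_mul_of_one_le_left (by positivity) hC
  have hd : ∀ v, C * dist w (A v) ≤ C * (2 * δ1) := fun v => by
    gcongr
    have := dist_triangle_left w (A v) (A 0)
    linarith [dist_le_ds H (A 0) w, dist_le_ds G (A 0) (A v), hA v]
  choose ρ r1 r2 using fun v => h.sm.br w (A v) (by linarith [hd v])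
  have r3 : ∀ v, ds G w (ρ v) ≤ C * (2 * δ1) := fun v => (r1 v).trans (hd v)
  have r4 : ∀ v, ds H (A v) (ρ v) ≤ C * (2 * δ1) := fun v => (r2 v).trans (hd v)
  have r0 : w = ρ 0 := h.sm.eq_of (by linarith [r3 0]) (by
    have := ds_triangle H w (A 0) (ρ 0)
    rw [ds_comm H w (A 0)] at this
    linarith [r4 0])
  have cρ : ContinuousOn (fun v => toL G (ρ v)) (closedBall 0 1) :=
    h.sm.brCont (a := fun _ => w) continuousOn_const ((continuous_ofL G).comp_continuousOn cA)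
      (fun v _ => by linarith [r3 v]) fun v _ => (r4 v).trans (by linarith)
  have sρ := (hj a1 τ _ A ρ 0 ha1 hτ (convex_closedBall _ _) (sA.shN 0) cρ fun v _ i _ =>
    (le_ds H _ _ i).trans ((r4 v).trans e2)).1
  obtain ⟨ρ', q0, cq, hq⟩ := hs ρ (E 0) cρ sρ (r0 ▸ hw.symm)
  have h1 : (1 : ℝ) ∈ closedBall (0 : ℝ) 1 := by simp
  have q1 : ρ' 1 = E 1 := by
    refine h.sm.uniqN (convex_closedBall _ _).isPreconnected cq cE (z0 := 0) (by simp) q0
      (n := n + n') (fun v hv => ?_) h1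
    have f1 := (ds_iterate_mono H _ _ (Nat.le_add_left n' n)).trans (hq v hv).1
    have f2 := (ds_iterate_mono H _ _ (Nat.le_add_right n n')).trans (hAE v hv)
    have f3 := (ds_iterate_le H _ _ (n + n')).trans (r4 v)
    have f4 := ds_triangle H (H^[n + n'] (ρ' v)) (H^[n + n'] (ρ v)) (H^[n + n'] (E v))
    have f5 := ds_triangle H (H^[n + n'] (ρ v)) (H^[n + n'] (A v)) (H^[n + n'] (E v))
    rw [ds_comm] at f1 f3
    linarith
  have q2 : Pth H G b δ τ1 0 (ρ 1) (E 1) := q1 ▸ (hq 1 h1).2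
  have g1 : ds H (A 1) (ρ 1) ≤ r := (r4 1).trans e1
  have g2 : ds H (A 1) w' ≤ r := by linarith
  exact hk _ 0 _ _ _ (lt_min t1 t2) (q2.symm.mono h.b_pos.le (min_le_left _ _) le_rfl)
    ((hp _ _ _ g1 g2 (h.label_eq hl g1 g2 (h.wk_trans (q2.wk t1) hw'))).mono h.b_pos.le
      (min_le_right _ _) le_rfl)

theorem Pin.vind (h : Pin G H S U ε C a1 a2 b1 b2 b δ) (hl : Lam G H V Λ K r b δ) :
    ∃ δ1 : ℝ, 0 < δ1 ∧ ∀ τ : ℝ, 0 < τ → ∃ m : ℕ, ∀ (A E : ℝ → M) (r1 : ℝ) (n : ℕ), r1 ≤ 1 →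
      ContinuousOn (fun s => toL G (A s)) (closedBall 0 r1) →
      ContinuousOn (fun s => toL G (E s)) (closedBall 0 r1) → Sh H a1 δ τ (closedBall 0 r1) A →
      (∀ s ∈ closedBall (0 : ℝ) r1, ds H (H^[n] (A s)) (H^[n] (E s)) ≤ δ) →
      ds H (A 0) (E 0) ≤ δ1 →
      (∀ s ∈ closedBall (0 : ℝ) r1, ∃ w, Wk G H b δ (E s) w ∧ ds H (A s) w ≤ δ1) →
      ∀ s ∈ closedBall (0 : ℝ) r1, ds H (H^[m] (A s)) (H^[m] (E s)) ≤ δ := by
  obtain ⟨d0, d1, d2, d3⟩ := h.Cδ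
  have hC := h.sm.one_le
  have ha1 := h.sm.hs.a1_pos
  have hr := hl.r_pos
  obtain ⟨δ1, p0, p1⟩ : ∃ δ1 : ℝ, 0 < δ1 ∧ C * (2 * δ1) = min r δ :=
    ⟨min r δ / (2 * C), by positivity, by field_simp⟩
  have e1 : C * (2 * δ1) ≤ r := p1 ▸ min_le_left _ _
  have e2 : C * (2 * δ1) ≤ δ := p1 ▸ min_le_right _ _
  have e3 : 2 * δ1 ≤ C * (2 * δ1) := le_mul_of_one_le_left (by positivity) hC
  refine ⟨δ1, p0, fun τ hτ => ?_⟩
  obtain ⟨j, hj⟩ := h.sm.hi0 (X := ℝ) d0 (by linarith) p0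
  obtain ⟨η, hη, η0⟩ : ∃ η : ℝ, η = τ * a1 ^ (j + 0) ∧ 0 < η := ⟨_, rfl, by positivity⟩
  have key : ∀ i : ℕ, ∃ τ' : ℝ, 0 < τ' ∧ ∀ (A E : ℝ → M) (r1 : ℝ) (n : ℕ), r1 ≤ 1 →
      ContinuousOn (fun s => toL G (A s)) (closedBall 0 r1) →
      ContinuousOn (fun s => toL G (E s)) (closedBall 0 r1) → Sh H a1 δ τ (closedBall 0 r1) A →
      (∀ s ∈ closedBall (0 : ℝ) r1, ds H (H^[n] (A s)) (H^[n] (E s)) ≤ δ) →
      ds H (A 0) (E 0) ≤ δ1 →
      (∀ s ∈ closedBall (0 : ℝ) r1, ∃ w, Wk G H b δ (E s) w ∧ ds H (A s) w ≤ δ1) →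
      ∀ s ∈ closedBall (0 : ℝ) r1, |s| ≤ i * η →
        ∃ w, Pth H G b δ τ' 0 (E s) w ∧ ds H (A s) w ≤ δ1 := by
    intro i
    induction i with
    | zero =>
      refine ⟨1, one_pos, fun A E r1 n _ _ _ _ _ h0 _ s _ hs => ?_⟩
      obtain rfl : s = 0 := by simpa using hs
      exact ⟨E 0, Pth.refl d0.le _, h0⟩
    | succ i ih =>
      obtain ⟨τ', t0, ih⟩ := ih
      obtain ⟨τ'', t1, hst⟩ := h.vind_step hl e1 e2 (τ := τ / 1) (by positivity) t0
      refine ⟨τ'', t1, fun A E r1 n hr1 cA cE sA hAE h0 hw s' hs' hi => ?_⟩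
      have i0 : (0 : ℝ) ≤ i := Nat.cast_nonneg i
      obtain ⟨d, hd⟩ : ∃ d : ℝ, s' = (i + 1) * d := ⟨s' / (i + 1), by field_simp⟩
      have a0 := abs_nonneg d
      have a1' : |s'| = (i + 1) * |d| := by rw [hd, abs_mul, abs_of_nonneg (by linarith)]
      have a2' : |(i : ℝ) * d| = i * |d| := by rw [abs_mul, abs_of_nonneg i0]
      have a3 : |s'| ≤ r1 := by simpa using hs'
      have a4 : |d| ≤ η := by
        push_cast at hi
        exact le_of_mul_le_mul_left (a1' ▸ hi) (by linarith)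
      have a5 : |d| ≤ 1 := by nlinarith
      have hs : (i : ℝ) * d ∈ closedBall (0 : ℝ) r1 := by
        rw [mem_closedBall_zero_iff, Real.norm_eq_abs]; linarith
      obtain ⟨w, w1, w2⟩ := ih A E r1 n hr1 cA cE sA hAE h0 hw _ hs (by rw [a2']; gcongr)
      obtain ⟨w', w3, w4⟩ := hw s' hs'
      obtain ⟨p, hp⟩ : ∃ p : ℝ → ℝ,
        p = fun v => i * d + (projIcc (0 : ℝ) 1 zero_le_one v : ℝ) * d := ⟨_, rfl⟩
      have q0 : p 0 = i * d := by simp [hp]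
      have q1 : p 1 = s' := by simp [hp, hd, add_mul]
      have qc : Continuous p := hp ▸ continuous_const.add
        ((continuous_subtype_val.comp continuous_projIcc).mul continuous_const)
      have ql : ∀ v v', ‖p v - p v'‖ ≤ |v - v'| * |d| := fun v v' => by
        rw [hp]
        simp only [add_sub_add_left_eq_sub, ← sub_mul, Real.norm_eq_abs, abs_mul]
        have := abs_projIcc_sub_projIcc (zero_le_one (α := ℝ)) (c := v) (d := v')
        gcongr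
      have q2 : ∀ v, ‖p 0 - p v‖ ≤ |d| := fun v => by
        rw [q0, hp]
        have := (projIcc (0 : ℝ) 1 zero_le_one v).2
        simp only [sub_add_cancel_left, norm_neg, Real.norm_eq_abs, abs_mul]
        exact mul_le_of_le_one_left a0 (abs_le.2 ⟨by linarith [this.1], this.2⟩)
      have qm : ∀ v, p v ∈ closedBall (0 : ℝ) r1 := fun v => by
        rw [mem_closedBall_zero_iff]
        have := norm_le_insert (p 0) (p v)
        have e : ‖p 0‖ = i * |d| := by rw [q0, Real.norm_eq_abs, a2']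
        linarith [q2 v]
      refine ⟨w', ?_, w4⟩
      rw [← q1] at w3 w4 ⊢
      rw [← q0] at w1 w2
      exact hst (fun v => A (p v)) (fun v => E (p v)) n w w'
        (cA.comp qc.continuousOn fun v _ => qm v) (cE.comp qc.continuousOn fun v _ => qm v)
        (sA.comp one_pos (fun v _ => qm v) fun v _ v' _ => (ql v v').trans (by
          rw [one_mul, Real.norm_eq_abs]; exact mul_le_of_le_one_right (abs_nonneg _) a5))
        (fun v _ => hAE _ (qm v))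
        (fun v => hj a1 τ _ A A 0 j le_rfl ha1 hτ (convex_closedBall _ _) (sA _) cA
          (fun x _ => by simpa using d0.le) _ (qm 0) _ (qm v) (hη ▸ (q2 v).trans a4))
        w1 w2 w3 w4
  obtain ⟨i, hi⟩ := exists_nat_ge (1 / η)
  rw [div_le_iff₀ η0] at hi
  obtain ⟨τ', t0, hk⟩ := key i
  obtain ⟨m, hm⟩ := h.sm.symm.pth_level d0 (by linarith) h.b_pos h.b_lt.le t0 (half_pos d0) 0
  refine ⟨m, fun A E r1 n hr1 cA cE sA hAE h0 hw s hs => ?_⟩
  obtain ⟨w, w1, w2⟩ := hk A E r1 n hr1 cA cE sA hAE h0 hw s hs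
    ((show |s| ≤ r1 by simpa using hs).trans (hr1.trans hi))
  have f1 := hm _ _ w1.symm
  have f2 := (ds_iterate_le H _ _ m).trans w2
  have f3 := ds_triangle H (H^[m] (A s)) (H^[m] w) (H^[m] (E s))
  linarith

theorem Pin.vstep (h : Pin G H S U ε C a1 a2 b1 b2 b δ) (hm : Minl G) (hl : Lam G H V Λ K r b δ)
    {z : M} {c : ℝ} (hc : |c| ≤ r) (hc' : K * |c| ≤ δ) : HOL G H a1 δ z (V z c) := by
  obtain ⟨d0, d1, d2, d3⟩ := h.Cδ
  rcases eq_or_ne c 0 with rfl | c0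
  · rw [hl.v0]; exact hol_refl d0.le z
  have hC := h.sm.one_le
  have ha1 := h.sm.hs.a1_pos
  have hK := hl.one_le
  have hr := hl.r_pos
  have hu : ∀ u ∈ closedBall (0 : ℝ) 1, |u * c| ≤ |c| := fun u hu => by
    rw [abs_mul]
    exact mul_le_of_le_one_left (abs_nonneg c) (by simpa using hu)
  have hψ : ∀ u ∈ closedBall (0 : ℝ) 1, ∀ u' ∈ closedBall (0 : ℝ) 1,
      ds H (V z (u * c)) (V z (u' * c)) ≤ δ * ‖u - u'‖ := fun u h1 u' h2 => by
    have e : r ≤ K * r := le_mul_of_one_le_left hr.le hK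
    refine (hl.v1 z _ _ ((hu u h1).trans (hc.trans e)) ((hu u' h2).trans (hc.trans e))).trans ?_
    rw [← sub_mul, abs_mul, mul_comm |u - u'|, ← mul_assoc, Real.norm_eq_abs]
    gcongr
  have cψ : ContinuousOn (fun u : ℝ => toL H (V z (u * c))) (closedBall 0 1) :=
    (LipschitzOnWith.of_dist_le_mul (K := ⟨δ, d0.le⟩) fun u h1 u' h2 => by
      rw [dist_toL, dist_eq_norm]; exact hψ u h1 u' h2).continuousOn
  obtain ⟨τ', t', hs⟩ := h.sm.hu.sh_of_lip (X := ℝ) hC d0 (by linarith) d0 one_pos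
  have sψ := hs _ (fun u => V z (u * c)) fun u h1 u' h2 _ => hψ u h1 u' h2
  obtain ⟨δ1, p0, hv⟩ := h.vind hl
  obtain ⟨n1, hb⟩ := h.bp hm hl p0
  obtain ⟨n2, hsh⟩ := h.sm.symm.shrink p0
  obtain ⟨j, hj⟩ := h.sm.hi (X := ℝ) d0 (by linarith) d0
  intro τ hτ
  obtain ⟨m, hv⟩ := hv (τ * a1 ^ (n1 + n2)) (by positivity)
  refine ⟨m + (n1 + n2), fun σ s0 cσ sσ => ?_⟩
  have key : ∀ r1 ≤ (1 : ℝ), ∀ l ≤ (1 : ℝ), ∀ Φ : ℝ → ℝ → M,
      Good G H σ (fun u => V z (u * c)) r1 l Φ → ∀ n, Tu H δ r1 l Φ n →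
      Tu H δ r1 l Φ (m + (n1 + n2)) := by
    intro r1 hr1 l hl1 Φ hΦ n hT x hx y hy
    rcases eq_or_ne y 0 with rfl | y0
    · simpa using d0.le
    have b1 : closedBall (0 : ℝ) r1 ⊆ closedBall 0 1 := closedBall_subset_closedBall hr1
    have hy1 := closedBall_subset_closedBall hl1 hy
    have sσ' := sσ.mono ha1.le le_rfl le_rfl b1
    rw [hΦ.bs x hx, Function.iterate_add_apply H m, Function.iterate_add_apply H m]
    refine hv (fun s => H^[n1 + n2] (σ s)) (fun s => H^[n1 + n2] (Φ s y)) r1 n hr1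
      ((h.sm.inv.continuous_Lf_H _).comp_continuousOn (cσ.mono b1))
      ((h.sm.inv.continuous_Lf_H _).comp_continuousOn (hΦ.cs y hy)) (sσ'.shift _)
      (fun s hs => ?_) ?_ (fun s hs => ?_) x hx
    · rw [← Function.iterate_add_apply, ← Function.iterate_add_apply, ← hΦ.bs s hs]
      exact hT.mono (Nat.le_add_right _ _) s hs y hy
    · refine hsh _ (Nat.le_add_left _ _) _ _ ?_
      have := hψ 0 (by simp) y hy1
      rw [zero_mul, hl.v0, zero_sub, norm_neg] at this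
      rw [s0, hΦ.bu y hy]
      have e : δ * ‖y‖ ≤ δ := mul_le_of_le_one_right d0.le (mem_closedBall_zero_iff.1 hy1)
      linarith
    · have hm' : ∀ u ∈ Icc (0 : ℝ) 1, u * y ∈ closedBall (0 : ℝ) l := fun u hu => by
        rw [mem_closedBall_zero_iff] at hy ⊢
        rw [norm_mul, Real.norm_of_nonneg hu.1]
        exact (mul_le_of_le_one_left (norm_nonneg y) hu.2).trans hy
      have hs' := mem_closedBall_zero_iff.1 hs
      obtain ⟨w, w1, w2⟩ := hb z (y * c) (fun u => Φ s (u * y)) (τ * a1 ^ (n + j) / 1) n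
        (mul_ne_zero y0 c0) ((hu y hy1).trans hc)
        ((mul_le_mul_of_nonneg_left (hu y hy1) (zero_le_one.trans hK)).trans hc')
        (by positivity) ((hΦ.cu s hs).comp (by fun_prop) hm')
        (fun u hu => by rw [zero_mul]; exact hT s hs _ (hm' u hu)) fun u hu => by
          rw [← mul_assoc, ← hΦ.bu _ (hm' u hu)]
          refine Pth.of_on (α := fun x => Φ x (u * y)) (convex_closedBall _ _)
            (hΦ.cs _ (hm' u hu)) (Sh.shN ?_ 0) hs
            (mem_closedBall_self ((norm_nonneg s).trans hs')) one_pos (by simpa using hs'.trans hr1)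
          refine (hj a1 τ _ σ _ n ha1 hτ (convex_closedBall _ _) (sσ'.shN n) (hΦ.cs _ (hm' u hu))
            fun x hx i hi => (dist_le_ds H _ _).trans ?_).1
          rw [← hΦ.bs x hx]
          exact hT.mono hi x hx _ (hm' u hu)
      rw [one_mul] at w1
      rw [zero_mul, hΦ.bs s hs] at w2
      exact ⟨_, h.wk_H w1 _, (ds_iterate_mono H _ _ (Nat.le_add_right _ _)).trans w2⟩
  obtain ⟨Φ, hΦ, n, hT⟩ := h.sm.exists_good (β := fun u => V z (u * c))
    (by rw [s0, zero_mul, hl.v0]) zero_le_one d0 (by linarith) hτ sσ cσ t' h.sm.hu.a1_pos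
    (h.sm.hu.a12.trans h.sm.hu.a2_lt.le) sψ cψ ⟨_, key⟩
  have h1 : (1 : ℝ) ∈ closedBall (0 : ℝ) 1 := by simp
  refine ⟨fun t => Φ t 1, (hΦ.bu 1 h1).trans (by rw [one_mul]), hΦ.cs 1 h1, fun t ht => ?_⟩
  rw [← hΦ.bs t ht]
  exact key 1 le_rfl 1 le_rfl Φ hΦ n hT t ht 1 h1

end Pool.Agent.P.MP_0a0487_an
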